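import Pool.Agent.KDT.Defs

/-!
# Bas: the bisector of `a b` and elementary facts
Write `d = P_b - P_a` (positions at time `t`), `N = Nn a b t = |d|²`, `J = (dy, -dx)`.
`param'`: `(x,y) = ((q_b - q_a)/(2N)) d + (s/(2N)) J`. Then `2⟨d,x⟩ = q_b - q_a`, so `g a = g b`, and
`N (g c - g a) = N (q_c - q_a) - (q_b - q_a)⟨d, P_c - P_a⟩ + s Or c` since `-2⟨P_c-P_a, (s/(2N)) J⟩ N = s ((Xb-Xa)(Yc-Ya) - (Yb-Ya)(Xc-Xa))`.
`param`: given `(x,y)` with `g a = g b` take `s = 2 (x dy - y dx)`; then `(x,y)` is the point of `param'` (as `2⟨d,x⟩ = q_b - q_a`); or directly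
verify `N (g c - g a) = Uu c + s Or c` by a polynomial identity (`linear_combination (e) * hab`).
`strict_iff` follows (`N > 0`). The swap formulas are `ring` identities. `strict_mono`: same witness. `strict_symm`, `clust_symm`.
-/

set_option autoImplicit false

namespace Pool.Agent.KDT

variable {V : Type}

private theorem core (S : Sys V) (t : ℝ) (a b : V) (x y : ℝ) (hab : S.g a t x y = S.g b t x y) (c : V) :
    S.Nn a b t * (S.g c t x y - S.g a t x y) = S.Uu a b c t +
      (2 * (x * (S.yy b t - S.yy a t) - y * (S.xx b t - S.xx a t))) * S.Or a b c t := by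
  simp only [Sys.g, Sys.Nn, Sys.Uu, Sys.Or] at hab ⊢
  linear_combination (-((S.xx b t - S.xx a t) * (S.xx c t - S.xx a t) +
    (S.yy b t - S.yy a t) * (S.yy c t - S.yy a t))) * hab

theorem param (S : Sys V) (t : ℝ) (a b : V) (x y : ℝ) (hab : S.g a t x y = S.g b t x y) :
    ∃ s : ℝ, ∀ c, S.Nn a b t * (S.g c t x y - S.g a t x y) = S.Uu a b c t + s * S.Or a b c t := by
  exact ⟨_, fun c => core S t a b x y hab c⟩

theorem param' (S : Sys V) (t : ℝ) (a b : V) (hN : 0 < S.Nn a b t) (s : ℝ) :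
    ∃ x y : ℝ, S.g a t x y = S.g b t x y ∧
      ∀ c, S.Nn a b t * (S.g c t x y - S.g a t x y) = S.Uu a b c t + s * S.Or a b c t := by
  obtain ⟨D, hD⟩ : ∃ D, D = S.xx b t - S.xx a t := ⟨_, rfl⟩
  obtain ⟨E, hE⟩ : ∃ E, E = S.yy b t - S.yy a t := ⟨_, rfl⟩
  have hN' : S.Nn a b t = D ^ 2 + E ^ 2 := by rw [hD, hE]; rfl
  have hne : D ^ 2 + E ^ 2 ≠ 0 := by rw [← hN']; exact hN.ne'
  have hab : S.g a t (((S.q b t - S.q a t) * D + s * E) / (2 * (D ^ 2 + E ^ 2)))
      (((S.q b t - S.q a t) * E - s * D) / (2 * (D ^ 2 + E ^ 2))) =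
      S.g b t (((S.q b t - S.q a t) * D + s * E) / (2 * (D ^ 2 + E ^ 2)))
      (((S.q b t - S.q a t) * E - s * D) / (2 * (D ^ 2 + E ^ 2))) := by
    have h1 : D * (((S.q b t - S.q a t) * D + s * E) / (2 * (D ^ 2 + E ^ 2))) +
        E * (((S.q b t - S.q a t) * E - s * D) / (2 * (D ^ 2 + E ^ 2))) = (S.q b t - S.q a t) / 2 := by
      field_simp
      ring
    simp only [Sys.g]
    rw [hD, hE] at h1 ⊢
    linear_combination 2 * h1
  refine ⟨_, _, hab, fun c => ?_⟩
  have h2 := core S t a b _ _ hab c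
  have h3 : 2 * (((S.q b t - S.q a t) * D + s * E) / (2 * (D ^ 2 + E ^ 2)) * (S.yy b t - S.yy a t) -
      ((S.q b t - S.q a t) * E - s * D) / (2 * (D ^ 2 + E ^ 2)) * (S.xx b t - S.xx a t)) = s := by
    rw [← hD, ← hE]
    field_simp
    ring
  rw [h3] at h2
  exact h2

theorem strict_iff (S : Sys V) (A : Set V) (t : ℝ) (a b : V) (hN : 0 < S.Nn a b t) :
    S.Strict A t a b ↔ ∃ s : ℝ, ∀ c ∈ A, c ≠ a → c ≠ b → 0 < S.Uu a b c t + s * S.Or a b c t := by
  constructor
  · rintro ⟨x, y, hab, h⟩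
    obtain ⟨s, hs⟩ := param S t a b x y hab
    refine ⟨s, fun c hc hca hcb => ?_⟩
    rw [← hs c]
    exact mul_pos hN (sub_pos.2 (h c hc hca hcb))
  · rintro ⟨s, h⟩
    obtain ⟨x, y, hab, hs⟩ := param' S t a b hN s
    refine ⟨x, y, hab, fun c hc hca hcb => ?_⟩
    have h1 := h c hc hca hcb
    rw [← hs c] at h1
    exact sub_pos.1 (pos_of_mul_pos_right h1 hN.le)

theorem strict_mono (S : Sys V) (A B : Set V) (h : A ⊆ B) (t : ℝ) (a b : V) (hs : S.Strict B t a b) :
    S.Strict A t a b := by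
  obtain ⟨x, y, hab, h1⟩ := hs
  exact ⟨x, y, hab, fun c hc hca hcb => h1 c (h hc) hca hcb⟩

theorem strict_symm (S : Sys V) (A : Set V) (t : ℝ) (a b : V) (h : S.Strict A t a b) : S.Strict A t b a := by
  obtain ⟨x, y, hab, h1⟩ := h
  exact ⟨x, y, hab.symm, fun c hc hcb hca => hab ▸ h1 c hc hca hcb⟩

theorem clust_symm (S : Sys V) (t : ℝ) (a b : V) (h : S.Clust t a b) : S.Clust t b a := by
  intro δ hδ
  obtain ⟨s, hs, h1⟩ := h δ hδ
  exact ⟨s, hs, strict_symm S _ s a b h1⟩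

theorem nn_symm (S : Sys V) (a b : V) (t : ℝ) : S.Nn b a t = S.Nn a b t := by
  simp only [Sys.Nn]
  ring

theorem or_swap (S : Sys V) (a b c : V) (t : ℝ) : S.Or b a c t = - S.Or a b c t := by
  simp only [Sys.Or]
  ring

theorem uu_swap (S : Sys V) (a b c : V) (t : ℝ) : S.Uu b a c t = S.Uu a b c t := by
  simp only [Sys.Uu, Sys.Nn]
  ring

theorem or_rot (S : Sys V) (a b c : V) (t : ℝ) : S.Or b c a t = S.Or a b c t := by
  simp only [Sys.Or]
  ring

theorem or_diff (S : Sys V) (a b y z : V) (t : ℝ) :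
    (S.xx b t - S.xx a t) * (S.yy z t - S.yy y t) - (S.yy b t - S.yy a t) * (S.xx z t - S.xx y t)
      = S.Or a b z t - S.Or a b y t := by
  simp only [Sys.Or]
  ring

theorem cont_xx (S : Sys V) (a : V) : Continuous (fun t => S.xx a t) := by
  unfold Sys.xx
  fun_prop

theorem cont_yy (S : Sys V) (a : V) : Continuous (fun t => S.yy a t) := by
  unfold Sys.yy
  fun_prop

theorem cont_q (S : Sys V) (a : V) : Continuous (fun t => S.q a t) := by
  have h1 := cont_xx S a
  have h2 := cont_yy S a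
  unfold Sys.q
  fun_prop

theorem cont_nn (S : Sys V) (a b : V) : Continuous (fun t => S.Nn a b t) := by
  have h1 := cont_xx S a
  have h2 := cont_yy S a
  have h3 := cont_xx S b
  have h4 := cont_yy S b
  unfold Sys.Nn
  fun_prop

theorem cont_or (S : Sys V) (a b c : V) : Continuous (fun t => S.Or a b c t) := by
  have h1 := cont_xx S a
  have h2 := cont_yy S a
  have h3 := cont_xx S b
  have h4 := cont_yy S b
  have h5 := cont_xx S c
  have h6 := cont_yy S c
  unfold Sys.Or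
  fun_prop

theorem cont_uu (S : Sys V) (a b c : V) : Continuous (fun t => S.Uu a b c t) := by
  have h1 := cont_xx S a
  have h2 := cont_yy S a
  have h3 := cont_xx S b
  have h4 := cont_yy S b
  have h5 := cont_xx S c
  have h6 := cont_yy S c
  have h7 := cont_q S a
  have h8 := cont_q S b
  have h9 := cont_q S c
  have h10 := cont_nn S a b
  unfold Sys.Uu
  fun_prop

theorem cont_cr (S : Sys V) (a b c e : V) : Continuous (fun t => S.Cr a b c e t) := by
  have h1 := cont_uu S a b e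
  have h2 := cont_uu S a b c
  have h3 := cont_or S a b c
  have h4 := cont_or S a b e
  unfold Sys.Cr
  fun_prop

end Pool.Agent.KDT
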