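import Pool.Agent.KDT.Circ
import Pool.Agent.KDT.Bas

/-!
# Ang: neighbours on a circle
`ang`: let `i`, `j` be the argmin and argmax of `hh v` on `T` (finite, `≥ 3` elements, `hh v` injective on `T` by `circ_inj`, so `i ≠ j`).
`Or i j v = Or v i j` has the sign of `hh j - hh i > 0` (`circ1`, `r2_pos`). For other `c ∈ T`: `hh i < hh c < hh j`, so `circ2` gives `Or i j c < 0`.
`hull_edge`: for `a ∈ T` let `b` be the argmin of `hh a` on `T.erase a`; for other `c`: `Or a b c` has the sign of `hh c - hh b > 0` (`circ1`).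
-/

set_option autoImplicit false

namespace Pool.Agent.KDT

variable {V : Type} [DecidableEq V]

omit [DecidableEq V] in
private theorem Ang_or_pos (S : Sys V) (hw : ∀ i, S.w i = 0) (t x y : ℝ)
    (hd : ∀ i j, i ≠ j → 0 < S.Nn i j t) (v i c : V) (hvi : v ≠ i) (hvc : v ≠ c)
    (h1 : S.g i t x y = S.g v t x y) (h2 : S.g c t x y = S.g v t x y)
    (hlt : hh S t x y v i < hh S t x y v c) : 0 < S.Or v i c t := by
  have hr : 0 < r2 S t x y v := r2_pos S t x y v i (hw v) (hw i) h1 (hd v i hvi)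
  have hc := circ1 S t x y v i c (hw v) (hw i) (hw c) h1 h2 (hd v i hvi) (hd v c hvc)
  have hpos : 0 < S.Nn v i t * S.Nn v c t * (hh S t x y v c - hh S t x y v i) :=
    mul_pos (mul_pos (hd v i hvi) (hd v c hvc)) (by linarith)
  rw [← hc] at hpos
  have h2r : (0 : ℝ) < 2 * r2 S t x y v := by positivity
  by_contra hcon
  exact absurd hpos (not_lt.mpr (mul_nonpos_of_nonneg_of_nonpos h2r.le (not_lt.mp hcon)))

theorem ang (S : Sys V) (hw : ∀ i, S.w i = 0) (t x y : ℝ) (hd : ∀ i j, i ≠ j → 0 < S.Nn i j t) (T : Finset V)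
    (v : V) (hv : v ∉ T) (hT : ∀ i ∈ T, S.g i t x y = S.g v t x y) (hc : 3 ≤ T.card) :
    ∃ i ∈ T, ∃ j ∈ T, i ≠ j ∧ 0 < S.Or i j v t ∧ ∀ c ∈ T, c ≠ i → c ≠ j → S.Or i j c t < 0 := by
  have hne : T.Nonempty := Finset.card_pos.mp (by omega)
  have hvn : ∀ i ∈ T, v ≠ i := fun i hi h => hv (h ▸ hi)
  have hinj : ∀ i ∈ T, ∀ c ∈ T, i ≠ c → hh S t x y v c ≠ hh S t x y v i := fun i hi c hcT hic =>
    circ_inj S t x y v i c (hw v) (hw i) (hw c) (hT i hi) (hT c hcT) (hd v i (hvn i hi))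
      (hd v c (hvn c hcT)) (hd i c hic)
  obtain ⟨i, hi, hmin⟩ := T.exists_min_image (fun i => hh S t x y v i) hne
  obtain ⟨j, hj, hmax⟩ := T.exists_max_image (fun i => hh S t x y v i) hne
  have hij : i ≠ j := by
    rintro rfl
    obtain ⟨c, hcT, hci⟩ := Finset.exists_mem_ne (show 1 < T.card by omega) i
    exact hinj i hi c hcT (Ne.symm hci) (le_antisymm (hmax c hcT) (hmin c hcT))
  have hlt : hh S t x y v i < hh S t x y v j :=
    lt_of_le_of_ne (hmin j hj) (Ne.symm (hinj i hi j hj hij))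
  refine ⟨i, hi, j, hj, hij, ?_, ?_⟩
  · have h := Ang_or_pos S hw t x y hd v i j (hvn i hi) (hvn j hj) (hT i hi) (hT j hj) hlt
    rw [← or_rot S v i j t] at h
    exact h
  · intro c hcT hci hcj
    have h1 : hh S t x y v i < hh S t x y v c :=
      lt_of_le_of_ne (hmin c hcT) (Ne.symm (hinj i hi c hcT (Ne.symm hci)))
    have h2 : hh S t x y v c < hh S t x y v j :=
      lt_of_le_of_ne (hmax c hcT) (hinj j hj c hcT (Ne.symm hcj))
    have h := circ2 S t x y v i j c (hw v) (hw i) (hw j) (hw c) (hT i hi) (hT j hj) (hT c hcT)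
      (hd v i (hvn i hi)) (hd v j (hvn j hj)) (hd v c (hvn c hcT))
    have hr : 0 < r2 S t x y v := r2_pos S t x y v i (hw v) (hw i) (hT i hi) (hd v i (hvn i hi))
    have hN : 0 < S.Nn v i t * S.Nn v j t * S.Nn v c t :=
      mul_pos (mul_pos (hd v i (hvn i hi)) (hd v j (hvn j hj))) (hd v c (hvn c hcT))
    have hneg : (hh S t x y v j - hh S t x y v i) * (hh S t x y v c - hh S t x y v i) *
        (hh S t x y v c - hh S t x y v j) < 0 :=
      mul_neg_of_pos_of_neg (mul_pos (by linarith) (by linarith)) (by linarith)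
    have hprod := mul_neg_of_pos_of_neg hN hneg
    rw [← h] at hprod
    have hr2 : 0 < 2 * r2 S t x y v ^ 2 := by positivity
    by_contra hcon
    exact absurd (mul_nonneg hr2.le (not_lt.mp hcon)) (not_le.mpr hprod)

theorem hull_edge (S : Sys V) (hw : ∀ i, S.w i = 0) (t x y : ℝ) (hd : ∀ i j, i ≠ j → 0 < S.Nn i j t) (T : Finset V)
    (a : V) (ha : a ∈ T) (hT : ∀ i ∈ T, S.g i t x y = S.g a t x y) (hc : 2 ≤ T.card) :
    ∃ b ∈ T, b ≠ a ∧ ∀ c ∈ T, c ≠ a → c ≠ b → 0 < S.Or a b c t := by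
  have hne : (T.erase a).Nonempty := by
    apply Finset.card_pos.mp
    rw [Finset.card_erase_of_mem ha]
    omega
  obtain ⟨b, hb, hmin⟩ := (T.erase a).exists_min_image (fun i => hh S t x y a i) hne
  have hba : b ≠ a := Finset.ne_of_mem_erase hb
  have hbT : b ∈ T := Finset.mem_of_mem_erase hb
  refine ⟨b, hbT, hba, ?_⟩
  intro c hcT hca hcb
  have h1 : hh S t x y a c ≠ hh S t x y a b :=
    circ_inj S t x y a b c (hw a) (hw b) (hw c) (hT b hbT) (hT c hcT) (hd a b (Ne.symm hba))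
      (hd a c (Ne.symm hca)) (hd b c (Ne.symm hcb))
  have h2 : hh S t x y a b < hh S t x y a c :=
    lt_of_le_of_ne (hmin c (Finset.mem_erase.mpr ⟨hca, hcT⟩)) (Ne.symm h1)
  exact Ang_or_pos S hw t x y hd a b c (Ne.symm hba) (Ne.symm hca) (hT b hbT) (hT c hcT) h2

end Pool.Agent.KDT
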