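import Pool.Agent.KDT.Defs

/-!
# Ball: balls grow beyond one half
Let `u = |U| ≥ 1` (`v ∈ U`), `A = U \ X`, `B_r = ball E A v r ⊆ A`. `B_0 = {v}`, `B_r ⊆ B_(r+1)` (as `B_r ⊆ A`), so `|B_r| ≥ 1`.
Also `nb E U B_r ⊆ B_(r+1) ∪ X`. With `a = |B_r|`, `a' = |B_(r+1)|`: `a^q u ≤ (a' + |X|)^(q+1)`, so
`a' ≥ (a^q u)^(1/(q+1)) - |X| ≥ (a^q u)^(1/(q+1)) - c u^(1/(q+1)) ≥ (1-c) (a^q u)^(1/(q+1))`, where `c = cc q`,
`1 - c = 2^(-1/(2q+2))`, using `a ≥ 1`.
If `a ≤ u/2`, put `σ = a/u ≤ 1/2`; then `a'/u ≥ (1-c) σ^(q/(q+1)) ≥ σ^(1/(2q+2)) σ^(q/(q+1)) = σ^(theta q)`, that is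
`log (u/a') ≤ theta q * log (u/a)`.
Claim by induction on `r`: `u < 2 |B_r|` or `log (u/|B_r|) ≤ theta^r log u`. (`r = 0`: `|B_0| = 1`. Step: if `u < 2|B_r|` then
`u < 2|B_(r+1)|`; otherwise the inequality above.) Finally if `theta^r log u < log 2` then the second case gives
`u/|B_r| < 2`.
-/

set_option autoImplicit false

namespace Pool.Agent.KDT

private theorem ball_sub {V : Type} [DecidableEq V] (E : Finset (Sym2 V)) (A : Finset V) (v : V) (hv : v ∈ A)
    (r : ℕ) : ball E A v r ⊆ A := by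
  cases r with
  | zero => simpa [ball] using hv
  | succ r => exact Finset.filter_subset _ _

private theorem ball_mono {V : Type} [DecidableEq V] (E : Finset (Sym2 V)) (A : Finset V) (v : V) (hv : v ∈ A)
    (r : ℕ) : ball E A v r ⊆ ball E A v (r + 1) := by
  intro w hw
  exact Finset.mem_filter.2 ⟨ball_sub E A v hv r hw, Or.inl hw⟩

private theorem ball_self {V : Type} [DecidableEq V] (E : Finset (Sym2 V)) (A : Finset V) (v : V) (hv : v ∈ A)
    (r : ℕ) : v ∈ ball E A v r := by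
  induction r with
  | zero => simp [ball]
  | succ r ih => exact ball_mono E A v hv r ih

private theorem nb_sub {V : Type} [DecidableEq V] (E : Finset (Sym2 V)) (U X : Finset V) (v : V) (r : ℕ) :
    nb E U (ball E (U \ X) v r) ⊆ ball E (U \ X) v (r + 1) ∪ X := by
  intro w hw
  obtain ⟨h1, h2⟩ := Finset.mem_filter.1 hw
  by_cases hX : w ∈ X
  · exact Finset.mem_union_right _ hX
  · exact Finset.mem_union_left _ (Finset.mem_filter.2 ⟨Finset.mem_sdiff.2 ⟨h1, hX⟩, h2⟩)

private theorem step_real (q : ℕ) (a a' x u : ℝ) (ha : 1 ≤ a) (ha' : 1 ≤ a') (hu : 1 ≤ u) (hx0 : 0 ≤ x)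
    (h : a ^ q * u ≤ (a' + x) ^ (q + 1)) (hx : x ≤ cc q * u ^ (1 / ((q : ℝ) + 1))) (hau : 2 * a ≤ u) :
    Real.log u - Real.log a' ≤ theta q * (Real.log u - Real.log a) := by
  have hq : (0 : ℝ) < (q : ℝ) + 1 := by positivity
  have ha0 : 0 < a := by linarith
  have hu0 : 0 < u := by linarith
  have ha0' : 0 < a' := by linarith
  have hP : 0 < a ^ q * u := by positivity
  have h1 : (a ^ q * u) ^ (1 / ((q : ℝ) + 1)) ≤ a' + x := by
    have h2 : (a ^ q * u) ^ (1 / ((q : ℝ) + 1)) ≤ ((a' + x) ^ (q + 1)) ^ (1 / ((q : ℝ) + 1)) :=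
      Real.rpow_le_rpow hP.le h (by positivity)
    have h3 : ((a' + x) ^ (q + 1)) ^ (1 / ((q : ℝ) + 1)) = a' + x := by
      rw [← Real.rpow_natCast, ← Real.rpow_mul (by linarith)]
      have : (((q + 1 : ℕ) : ℝ)) * (1 / ((q : ℝ) + 1)) = 1 := by
        push_cast
        field_simp
      rw [this, Real.rpow_one]
    rw [h3] at h2
    exact h2
  have hc1 : (2 : ℝ) ^ (-(1 / (2 * (q : ℝ) + 2) : ℝ)) ≤ 1 :=
    Real.rpow_le_one_of_one_le_of_nonpos (by norm_num) (by
      have : (0 : ℝ) ≤ 1 / (2 * (q : ℝ) + 2) := by positivity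
      linarith)
  have hc0 : 0 ≤ cc q := by unfold cc; linarith
  have h4 : u ^ (1 / ((q : ℝ) + 1)) ≤ (a ^ q * u) ^ (1 / ((q : ℝ) + 1)) := by
    apply Real.rpow_le_rpow hu0.le _ (by positivity)
    have : 1 ≤ a ^ q := one_le_pow₀ ha
    nlinarith
  have h5 : (2 : ℝ) ^ (-(1 / (2 * (q : ℝ) + 2) : ℝ)) * (a ^ q * u) ^ (1 / ((q : ℝ) + 1)) ≤ a' := by
    have h6 : cc q * u ^ (1 / ((q : ℝ) + 1)) ≤ cc q * (a ^ q * u) ^ (1 / ((q : ℝ) + 1)) :=
      mul_le_mul_of_nonneg_left h4 hc0
    have h7 : cc q = 1 - (2 : ℝ) ^ (-(1 / (2 * (q : ℝ) + 2) : ℝ)) := rfl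
    rw [h7] at h6 hx
    nlinarith
  have h8 : Real.log ((2 : ℝ) ^ (-(1 / (2 * (q : ℝ) + 2) : ℝ)) * (a ^ q * u) ^ (1 / ((q : ℝ) + 1))) ≤
      Real.log a' := Real.log_le_log (by positivity) h5
  rw [Real.log_mul (by positivity) (by positivity), Real.log_rpow (by norm_num), Real.log_rpow hP,
    Real.log_mul (by positivity) hu0.ne', Real.log_pow] at h8
  have h9 : Real.log 2 + Real.log a ≤ Real.log u := by
    rw [← Real.log_mul (by norm_num) ha0.ne']
    exact Real.log_le_log (by positivity) hau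
  have h10 : theta q = (2 * (q : ℝ) + 1) / (2 * q + 2) := rfl
  rw [h10]
  have hq2 : (0 : ℝ) < 2 * (q : ℝ) + 2 := by positivity
  have h11 : 1 / ((q : ℝ) + 1) = 2 / (2 * (q : ℝ) + 2) := by
    field_simp
  have h12 : -(1 / (2 * (q : ℝ) + 2)) * Real.log 2 + 1 / ((q : ℝ) + 1) * (q * Real.log a + Real.log u) =
      (-Real.log 2 + 2 * (q * Real.log a + Real.log u)) / (2 * (q : ℝ) + 2) := by
    rw [h11]
    field_simp
  rw [h12, div_le_iff₀ hq2] at h8
  rw [div_mul_eq_mul_div, le_div_iff₀ hq2]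
  nlinarith

theorem ball_big {V : Type} [DecidableEq V] (q : ℕ) (hq : 1 ≤ q) (E : Finset (Sym2 V)) (U X : Finset V)
    (hU : Expands q E U) (hX : (X.card : ℝ) ≤ cc q * (U.card : ℝ) ^ (1 / ((q : ℝ) + 1)))
    (v : V) (hv : v ∈ U \ X) (r : ℕ) (hr : theta q ^ r * Real.log U.card < Real.log 2) :
    U.card < 2 * (ball E (U \ X) v r).card := by
  have hvU : v ∈ U := (Finset.mem_sdiff.1 hv).1
  have hu : (1 : ℝ) ≤ (U.card : ℝ) := by
    exact_mod_cast Finset.card_pos.2 ⟨v, hvU⟩
  have key : ∀ r : ℕ, U.card < 2 * (ball E (U \ X) v r).card ∨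
      Real.log U.card - Real.log (ball E (U \ X) v r).card ≤ theta q ^ r * Real.log U.card := by
    intro r
    induction r with
    | zero =>
      right
      simp [ball]
    | succ r ih =>
      have hmono := Finset.card_le_card (ball_mono E (U \ X) v hv r)
      have h1 : 1 ≤ (ball E (U \ X) v r).card := Finset.card_pos.2 ⟨v, ball_self E _ v hv r⟩
      rcases ih with h | h
      · left
        omega
      · by_cases h2 : U.card < 2 * (ball E (U \ X) v r).card
        · left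
          omega
        · right
          have h3 : (ball E (U \ X) v r).card ^ q * U.card ≤
              ((ball E (U \ X) v (r + 1)).card + X.card) ^ (q + 1) := by
            refine (hU _ ((ball_sub E _ v hv r).trans Finset.sdiff_subset)).trans ?_
            apply Nat.pow_le_pow_left
            exact (Finset.card_le_card (nb_sub E U X v r)).trans (Finset.card_union_le _ _)
          have h4 := step_real q (ball E (U \ X) v r).card (ball E (U \ X) v (r + 1)).card X.card U.card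
            (by exact_mod_cast h1) (by exact_mod_cast h1.trans hmono) hu (by positivity)
            (by exact_mod_cast h3) hX (by exact_mod_cast not_lt.1 h2)
          have hth : 0 ≤ theta q := by unfold theta; positivity
          calc _ ≤ theta q * (Real.log U.card - Real.log (ball E (U \ X) v r).card) := h4
            _ ≤ theta q * (theta q ^ r * Real.log U.card) := mul_le_mul_of_nonneg_left h hth
            _ = theta q ^ (r + 1) * Real.log U.card := by ring
  rcases key r with h | h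
  · exact h
  · have h1 : (1 : ℝ) ≤ ((ball E (U \ X) v r).card : ℝ) := by
      exact_mod_cast Finset.card_pos.2 ⟨v, ball_self E _ v hv r⟩
    have h2 : Real.log U.card < Real.log (2 * ((ball E (U \ X) v r).card : ℝ)) := by
      rw [Real.log_mul (by norm_num) (by linarith)]
      linarith
    have h3 := (Real.log_lt_log_iff (by linarith) (by linarith)).1 h2
    exact_mod_cast h3

end Pool.Agent.KDT
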