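import Pool.Agent.KDT.Poly

/-!
# Bridge: from the frozen statement to systems
`dist x P ≤ dist x Q ↔ dist² ≤ dist²`, and `dist x P² = x0² + x1² + g` in coordinates (`EuclideanSpace.dist_eq`, `Fin.sum_univ_two`, `Real.sqrt_le_sqrt_iff`); a point of
`EuclideanSpace ℝ (Fin 2)` is given by its two coordinates (`!₂[x, y]`).
`coll_times`: the times with a collision: choose for each `t ∈ F` a pair `i ≠ j` with `Nn i j t = 0`; by `coll` this map to `V × V` is injective.
-/

set_option autoImplicit false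

namespace Pool.Agent.KDT

/-- the system of the moving points (weights zero) -/
def ofMotion {n : ℕ} (p v : Fin n → EuclideanSpace ℝ (Fin 2)) : Sys (Fin n) :=
  ⟨fun i => p i 0, fun i => p i 1, fun i => v i 0, fun i => v i 1, fun _ => 0⟩

private theorem bridge_le {n : ℕ} (p v : Fin n → EuclideanSpace ℝ (Fin 2)) (t : ℝ)
    (x : EuclideanSpace ℝ (Fin 2)) (i j : Fin n) :
    dist x (p i + t • v i) ≤ dist x (p j + t • v j) ↔
      (ofMotion p v).g i t (x 0) (x 1) ≤ (ofMotion p v).g j t (x 0) (x 1) := by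
  rw [EuclideanSpace.dist_eq, EuclideanSpace.dist_eq, Real.sqrt_le_sqrt_iff (by positivity)]
  simp only [Fin.sum_univ_two, Real.dist_eq, sq_abs, PiLp.add_apply, PiLp.smul_apply, smul_eq_mul,
    Sys.g, Sys.q, Sys.xx, Sys.yy, ofMotion]
  constructor <;> intro h <;> nlinarith [h]

theorem bridge {n : ℕ} (p v : Fin n → EuclideanSpace ℝ (Fin 2)) (t : ℝ) :
    {T : Finset (Fin n) | ∃ x : EuclideanSpace ℝ (Fin 2),
      ∀ i, i ∈ T ↔ ∀ j, dist x (p i + t • v i) ≤ dist x (p j + t • v j)} = (ofMotion p v).St t := by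
  ext T
  simp only [Set.mem_setOf_eq, Sys.St]
  constructor
  · rintro ⟨x, hx⟩
    refine ⟨x 0, x 1, fun i => ?_⟩
    rw [hx i]
    exact forall_congr' fun j => bridge_le p v t x i j
  · rintro ⟨x, y, hxy⟩
    refine ⟨!₂[x, y], fun i => ?_⟩
    rw [hxy i]
    refine forall_congr' fun j => ?_
    rw [bridge_le p v t !₂[x, y] i j]
    simp

theorem ofMotion_distinct {n : ℕ} (p v : Fin n → EuclideanSpace ℝ (Fin 2))
    (h : Function.Injective (fun i => (p i, v i))) : (ofMotion p v).Distinct := by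
  intro i j hij hh
  obtain ⟨h1, h2, h3, h4⟩ := hh
  apply hij
  apply h
  simp only [ofMotion] at h1 h2 h3 h4
  refine Prod.ext ?_ ?_
  · ext k
    fin_cases k
    · exact h1
    · exact h2
  · ext k
    fin_cases k
    · exact h3
    · exact h4

theorem coll_times {V : Type} [Fintype V] (S : Sys V) (hS : S.Distinct) (F : Finset ℝ)
    (hF : ∀ t ∈ F, ¬ ∀ i j, i ≠ j → 0 < S.Nn i j t) : F.card ≤ Fintype.card V ^ 2 := by
  classical
  have hex : ∀ t : F, ∃ ab : V × V, ab.1 ≠ ab.2 ∧ S.Nn ab.1 ab.2 t.1 = 0 := by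
    intro t
    have h := hF t.1 t.2
    push Not at h
    obtain ⟨i, j, hij, hle⟩ := h
    refine ⟨(i, j), hij, le_antisymm hle ?_⟩
    simp only [Sys.Nn]
    positivity
  choose f hf using hex
  have hinj : Function.Injective f := by
    intro s t hst
    apply Subtype.ext
    have h1 := hf s
    have h2 := hf t
    rw [hst] at h1
    exact coll S hS (f t).1 (f t).2 h2.1 _ _ h1.2 h2.2
  have := Fintype.card_le_of_injective f hinj
  rw [Fintype.card_coe, Fintype.card_prod] at this
  rw [sq]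
  exact this

end Pool.Agent.KDT
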