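import Pool.Agent.KDT.Bas

/-!
# CV3: three collinear sites are never tied (when the sites are far apart compared with the weights)
Let `d = P_b - P_a ≠ 0`, `N = |d|² ≥ μ > 0` and `W` with `|w i| ≤ W`, `2 W < μ` for the three sites. `Or a b c = 0` gives `P_c - P_a = λ d`
(`λ = ⟨P_c - P_a, d⟩ / N`; for vectors in the plane `cross = 0` and `d ≠ 0`). Then
`Uu a b c / N = λ (λ - 1) N + w c - (1 - λ) w a - λ w b`
(`q_c = |P_a|² + 2 λ ⟨P_a,d⟩ + λ² N + w c`, `q_b - q_a = 2 ⟨P_a,d⟩ + N + w b - w a`, `⟨d, P_c - P_a⟩ = λ N`).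
Also `λ² N = Nn a c ≥ μ`, `(1-λ)² N = Nn b c ≥ μ`, `N ≥ μ`. Hence `|λ||1-λ| N ≥ μ`, `|λ| N ≥ μ`, `|1-λ| N ≥ μ` (products of square roots, e.g.
`(|λ||1-λ|N)² = λ²N (1-λ)²N ≥ μ²`).
`0 ≤ λ ≤ 1`: `λ(1-λ)N ≥ μ > 2 W ≥ |w c - (1-λ) w a - λ w b|`: negative. `λ > 1`: `λ (λ-1) N ≥ λ μ > 2 λ W ≥ W (1 + (λ-1) + λ)`: positive.
`λ < 0`: `|λ|(1-λ) N ≥ (1-λ) μ > 2 (1-λ) W ≥ W (1 + (1-λ) + |λ|)`: positive.
-/

set_option autoImplicit false

namespace Pool.Agent.KDT

private theorem CV3_core (l N μ wa wb wc : ℝ) (hμ : 0 < μ) (hwa : 2 * |wa| < μ) (hwb : 2 * |wb| < μ)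
    (hwc : 2 * |wc| < μ) (hN : μ ≤ N) (h1 : μ ≤ l ^ 2 * N) (h2 : μ ≤ (1 - l) ^ 2 * N) :
    l * (l - 1) * N + wc - (1 - l) * wa - l * wb ≠ 0 := by
  have ea := abs_lt.1 (show |wa| < μ / 2 by linarith)
  have eb := abs_lt.1 (show |wb| < μ / 2 by linarith)
  have ec := abs_lt.1 (show |wc| < μ / 2 by linarith)
  have hN0 : 0 < N := by linarith
  have key : ∀ X : ℝ, 0 ≤ X → μ ^ 2 ≤ X ^ 2 → μ ≤ X := fun X hX h => by
    exact (pow_le_pow_iff_left₀ hμ.le hX two_ne_zero).1 h
  rcases le_or_gt l 0 with hl | hl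
  · have h3 : μ ≤ -l * N := by
      apply key
      · exact mul_nonneg (by linarith) hN0.le
      · nlinarith [mul_le_mul h1 hN hμ.le (by positivity)]
    have h4 : (1 - l) * μ ≤ l * (l - 1) * N := by
      nlinarith [mul_le_mul_of_nonneg_left h3 (show 0 ≤ 1 - l by linarith)]
    have h5 : (1 - l) * wa ≤ (1 - l) * (μ / 2) := mul_le_mul_of_nonneg_left ea.2.le (by linarith)
    have h6 : (-l) * (-wb) ≤ (-l) * (μ / 2) := mul_le_mul_of_nonneg_left (by linarith) (by linarith)
    intro h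
    nlinarith
  · rcases le_or_gt l 1 with hl1 | hl1
    · have h3 : μ ≤ l * (1 - l) * N := by
        apply key
        · exact mul_nonneg (mul_nonneg hl.le (by linarith)) hN0.le
        · nlinarith [mul_le_mul h1 h2 hμ.le (by positivity)]
      have h5 : (1 - l) * (-wa) ≤ (1 - l) * (μ / 2) :=
        mul_le_mul_of_nonneg_left (by linarith) (by linarith)
      have h6 : l * (-wb) ≤ l * (μ / 2) := mul_le_mul_of_nonneg_left (by linarith) (by linarith)
      intro h
      nlinarith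
    · have h3 : μ ≤ (l - 1) * N := by
        apply key
        · exact mul_nonneg (by linarith) hN0.le
        · nlinarith [mul_le_mul h2 hN hμ.le (by positivity)]
      have h4 : l * μ ≤ l * (l - 1) * N := by
        nlinarith [mul_le_mul_of_nonneg_left h3 hl.le]
      have h5 : (l - 1) * (-wa) ≤ (l - 1) * (μ / 2) :=
        mul_le_mul_of_nonneg_left (by linarith) (by linarith)
      have h6 : l * wb ≤ l * (μ / 2) := mul_le_mul_of_nonneg_left (by linarith) (by linarith)
      intro h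
      nlinarith

theorem cv3 {V : Type} (S : Sys V) (t : ℝ) (hG : S.Good t) (a b c : V) (hab : a ≠ b) (hac : a ≠ c) (hbc : b ≠ c)
    (h : S.Or a b c t = 0) : S.Uu a b c t ≠ 0 := by
  obtain ⟨μ, hμ, hw, hN⟩ := hG
  have hNab := hN a b hab
  have hNac := hN a c hac
  have hNbc := hN b c hbc
  unfold Sys.Nn at hNab hNac hNbc
  unfold Sys.Or at h
  set dx := S.xx b t - S.xx a t with hdx
  set dy := S.yy b t - S.yy a t with hdy
  set ex := S.xx c t - S.xx a t with hex
  set ey := S.yy c t - S.yy a t with hey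
  set N := dx ^ 2 + dy ^ 2 with hNdef
  have hN0 : 0 < N := by linarith
  set l := (ex * dx + ey * dy) / N with hl
  have hlN : l * N = ex * dx + ey * dy := by
    rw [hl]
    exact div_mul_cancel₀ _ hN0.ne'
  have hlx : ex = l * dx := by
    have : ex * N = l * dx * N := by
      have e1 : l * dx * N = (l * N) * dx := by ring
      rw [e1, hlN, hNdef]
      linear_combination (-dy) * h
    exact mul_right_cancel₀ hN0.ne' this
  have hly : ey = l * dy := by
    have : ey * N = l * dy * N := by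
      have e1 : l * dy * N = (l * N) * dy := by ring
      rw [e1, hlN, hNdef]
      linear_combination dx * h
    exact mul_right_cancel₀ hN0.ne' this
  have h1 : μ ≤ l ^ 2 * N := by
    rw [hlx, hly] at hNac
    calc μ ≤ _ := hNac
      _ = _ := by rw [hNdef]; ring
  have h2 : μ ≤ (1 - l) ^ 2 * N := by
    have e1 : S.xx c t - S.xx b t = ex - dx := by rw [hex, hdx]; ring
    have e2 : S.yy c t - S.yy b t = ey - dy := by rw [hey, hdy]; ring
    rw [e1, e2, hlx, hly] at hNbc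
    calc μ ≤ _ := hNbc
      _ = _ := by rw [hNdef]; ring
  have hcore := CV3_core l N μ (S.w a) (S.w b) (S.w c) hμ (hw a) (hw b) (hw c) hNab h1 h2
  have hU : S.Uu a b c t = N * (l * (l - 1) * N + S.w c - (1 - l) * S.w a - l * S.w b) := by
    unfold Sys.Uu Sys.q Sys.Nn
    have e3 : S.xx b t = S.xx a t + dx := by rw [hdx]; ring
    have e4 : S.yy b t = S.yy a t + dy := by rw [hdy]; ring
    have e5 : S.xx c t = S.xx a t + l * dx := by rw [← hlx, hex]; ring
    have e6 : S.yy c t = S.yy a t + l * dy := by rw [← hly, hey]; ring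
    rw [e3, e4, e5, e6, hNdef]
    ring
  rw [hU]
  exact mul_ne_zero hN0.ne' hcore

end Pool.Agent.KDT
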