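import Pool.Agent.KDT.Hull

/-!
# ColTie: tie sets near a collinear configuration
All sites of `T` are collinear at `t0`, distinct. Let `i`, `j` be the extreme points: with `(u1,u2) ≠ 0` normal to the line, minimize and maximize
`c ↦ -u2 xx c + u1 yy c` at `t0` over `T`. These values are different for different sites of `T` (otherwise the positions coincide). For `c ∈ T \ {i,j}`:
`P_c = (1-λ) P_i + λ P_j` with `0 < λ < 1`, so at `t0`: `Or i j c = 0`, `Uu i j c = - λ (1-λ) N² < 0` (weights zero; `N = Nn i j t0`).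
There is such a `c` (`|T| ≥ 3`), so `i j` is not strict at `t0` (`nonstrict_col`). For `s` near `t0`: `Nn i j s > 0`, `Uu i j c s < 0` for all `c ∈ T \ {i,j}`. If `T ∈ St s`, the
centre has a parameter `m` with `Uu c + m Or c = 0` for `c ∈ T` (`param`), so `m Or c > 0`: all `Or i j c s` have the sign of `m`, and `hull_strict` applies.
-/

set_option autoImplicit false

namespace Pool.Agent.KDT

theorem col_tie {V : Type} [Finite V] (S : Sys V) (hw : ∀ i, S.w i = 0) (t0 : ℝ)
    (hd : ∀ i j, i ≠ j → 0 < S.Nn i j t0) (T : Finset V) (hc : 3 ≤ T.card) (u1 u2 : ℝ) (hu : u1 ≠ 0 ∨ u2 ≠ 0)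
    (hcol : ∀ i ∈ T, ∀ j ∈ T, u1 * (S.xx i t0 - S.xx j t0) + u2 * (S.yy i t0 - S.yy j t0) = 0) :
    ∃ i j, i ≠ j ∧ ¬ S.Strict Set.univ t0 i j ∧
      ∃ δ : ℝ, 0 < δ ∧ ∀ s : ℝ, |s - t0| < δ → T ∈ S.St s → S.Strict Set.univ s i j := by
  classical
  have hD : 0 < u1 ^ 2 + u2 ^ 2 := by
    rcases hu with h | h
    · have := pow_pos (abs_pos.2 h) 2
      rw [sq_abs] at this
      nlinarith [sq_nonneg u2]
    · have := pow_pos (abs_pos.2 h) 2
      rw [sq_abs] at this
      nlinarith [sq_nonneg u1]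
  set f : V → ℝ := fun c => -u2 * S.xx c t0 + u1 * S.yy c t0 with hf
  have hfinj : ∀ c ∈ T, ∀ c' ∈ T, f c = f c' → c = c' := by
    intro c hcT c' hc'T hff
    by_contra hne
    have h1 := hcol c hcT c' hc'T
    have h2 := hd c c' hne
    simp only [hf] at hff
    have h3 : (u1 ^ 2 + u2 ^ 2) * (S.xx c' t0 - S.xx c t0) = 0 := by
      linear_combination (-u1) * h1 + u2 * hff
    have h4 : (u1 ^ 2 + u2 ^ 2) * (S.yy c' t0 - S.yy c t0) = 0 := by
      linear_combination (-u2) * h1 - u1 * hff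
    have h5 : S.xx c' t0 - S.xx c t0 = 0 := (mul_eq_zero.1 h3).resolve_left hD.ne'
    have h6 : S.yy c' t0 - S.yy c t0 = 0 := (mul_eq_zero.1 h4).resolve_left hD.ne'
    unfold Sys.Nn at h2
    rw [h5, h6] at h2
    norm_num at h2
  have hTne : T.Nonempty := Finset.card_pos.1 (by omega)
  obtain ⟨i, hiT, himin⟩ := T.exists_min_image f hTne
  obtain ⟨j, hjT, hjmax⟩ := T.exists_max_image f hTne
  -- a third site
  have hthird : ∃ c ∈ T, c ≠ i ∧ c ≠ j := by
    by_contra hcon
    push Not at hcon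
    have hsub : T ⊆ {i, j} := by
      intro c hcT
      by_cases h : c = i
      · simp [h]
      · simp [hcon c hcT h]
    have := Finset.card_le_card hsub
    have h2 : ({i, j} : Finset V).card ≤ 2 := Finset.card_le_two
    omega
  obtain ⟨c0, hc0T, hc0i, hc0j⟩ := hthird
  have hstrictc : ∀ c ∈ T, c ≠ i → c ≠ j → f i < f c ∧ f c < f j := by
    intro c hcT hci hcj
    refine ⟨lt_of_le_of_ne (himin c hcT) ?_, lt_of_le_of_ne (hjmax c hcT) ?_⟩
    · intro h
      exact hci (hfinj c hcT i hiT h.symm)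
    · intro h
      exact hcj (hfinj c hcT j hjT h)
  have hfij : f i < f j := (hstrictc c0 hc0T hc0i hc0j).1.trans (hstrictc c0 hc0T hc0i hc0j).2
  have hij : i ≠ j := by
    intro h
    rw [h] at hfij
    exact lt_irrefl _ hfij
  have hN0 : 0 < S.Nn i j t0 := hd i j hij
  -- coordinates along the line
  have hx : ∀ c ∈ T, (u1 ^ 2 + u2 ^ 2) * (S.xx c t0 - S.xx i t0) = -u2 * (f c - f i) := by
    intro c hcT
    have h1 := hcol c hcT i hiT
    simp only [hf]
    linear_combination u1 * h1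
  have hy : ∀ c ∈ T, (u1 ^ 2 + u2 ^ 2) * (S.yy c t0 - S.yy i t0) = u1 * (f c - f i) := by
    intro c hcT
    have h1 := hcol c hcT i hiT
    simp only [hf]
    linear_combination u2 * h1
  have hlam : ∀ c ∈ T, S.xx c t0 - S.xx i t0 = (f c - f i) / (f j - f i) * (S.xx j t0 - S.xx i t0) ∧
      S.yy c t0 - S.yy i t0 = (f c - f i) / (f j - f i) * (S.yy j t0 - S.yy i t0) := by
    intro c hcT
    have hjf : f j - f i ≠ 0 := (sub_pos.2 hfij).ne'
    constructor
    · have h1 := hx c hcT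
      have h2 := hx j hjT
      have h3 : (u1 ^ 2 + u2 ^ 2) * ((S.xx c t0 - S.xx i t0)
          - (f c - f i) / (f j - f i) * (S.xx j t0 - S.xx i t0)) = 0 := by
        have e : (u1 ^ 2 + u2 ^ 2) * ((S.xx c t0 - S.xx i t0)
          - (f c - f i) / (f j - f i) * (S.xx j t0 - S.xx i t0))
          = (u1 ^ 2 + u2 ^ 2) * (S.xx c t0 - S.xx i t0)
            - (f c - f i) / (f j - f i) * ((u1 ^ 2 + u2 ^ 2) * (S.xx j t0 - S.xx i t0)) := by ring
        rw [e, h1, h2]
        field_simp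
        ring
      exact sub_eq_zero.1 ((mul_eq_zero.1 h3).resolve_left hD.ne')
    · have h1 := hy c hcT
      have h2 := hy j hjT
      have h3 : (u1 ^ 2 + u2 ^ 2) * ((S.yy c t0 - S.yy i t0)
          - (f c - f i) / (f j - f i) * (S.yy j t0 - S.yy i t0)) = 0 := by
        have e : (u1 ^ 2 + u2 ^ 2) * ((S.yy c t0 - S.yy i t0)
          - (f c - f i) / (f j - f i) * (S.yy j t0 - S.yy i t0))
          = (u1 ^ 2 + u2 ^ 2) * (S.yy c t0 - S.yy i t0)
            - (f c - f i) / (f j - f i) * ((u1 ^ 2 + u2 ^ 2) * (S.yy j t0 - S.yy i t0)) := by ring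
        rw [e, h1, h2]
        field_simp
        ring
      exact sub_eq_zero.1 ((mul_eq_zero.1 h3).resolve_left hD.ne')
  have hOr0 : ∀ c ∈ T, S.Or i j c t0 = 0 := by
    intro c hcT
    obtain ⟨h1, h2⟩ := hlam c hcT
    unfold Sys.Or
    rw [h1, h2]
    ring
  have hUu0 : ∀ c ∈ T, c ≠ i → c ≠ j → S.Uu i j c t0 < 0 := by
    intro c hcT hci hcj
    obtain ⟨h1, h2⟩ := hlam c hcT
    obtain ⟨hl1, hl2⟩ := hstrictc c hcT hci hcj
    set l := (f c - f i) / (f j - f i) with hl
    have hl0 : 0 < l := div_pos (sub_pos.2 hl1) (sub_pos.2 hfij)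
    have hl1' : l < 1 := by
      rw [hl, div_lt_one (sub_pos.2 hfij)]
      linarith
    have hxc : S.xx c t0 = S.xx i t0 + l * (S.xx j t0 - S.xx i t0) := by linarith
    have hyc : S.yy c t0 = S.yy i t0 + l * (S.yy j t0 - S.yy i t0) := by linarith
    have e : S.Uu i j c t0 = -(l * (1 - l) * (S.Nn i j t0) ^ 2) := by
      unfold Sys.Uu Sys.q Sys.Nn
      rw [hw, hw, hw, hxc, hyc]
      ring
    rw [e]
    have := mul_pos (mul_pos hl0 (sub_pos.2 hl1')) (pow_pos hN0 2)
    linarith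
  refine ⟨i, j, hij, nonstrict_col S t0 i j c0 hN0 hc0i hc0j (hOr0 c0 hc0T)
    (hUu0 c0 hc0T hc0i hc0j).le, ?_⟩
  have hev1 : ∀ᶠ s in nhds t0, 0 < S.Nn i j s :=
    (cont_nn S i j).continuousAt.eventually (lt_mem_nhds hN0)
  have hev2 : ∀ᶠ s in nhds t0, ∀ c ∈ T, c ≠ i → c ≠ j → S.Uu i j c s < 0 := by
    rw [Filter.eventually_all_finset]
    intro c hcT
    by_cases hci : c = i
    · exact Filter.Eventually.of_forall fun s h => absurd hci h
    · by_cases hcj : c = j
      · exact Filter.Eventually.of_forall fun s _ h => absurd hcj h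
      · have h1 : ∀ᶠ s in nhds t0, S.Uu i j c s < 0 :=
          (cont_uu S i j c).continuousAt.eventually (gt_mem_nhds (hUu0 c hcT hci hcj))
        exact h1.mono fun s hs _ _ => hs
  obtain ⟨δ, hδ, hδs⟩ := Metric.eventually_nhds_iff.1 (hev1.and hev2)
  refine ⟨δ, hδ, fun s hs hTs => ?_⟩
  obtain ⟨hNs, hUs⟩ := hδs (by rw [Real.dist_eq]; exact hs : dist s t0 < δ)
  obtain ⟨x, y, hT⟩ := hTs
  have hgeq : ∀ c ∈ T, S.g c s x y = S.g i s x y := fun c hcT =>
    le_antisymm ((hT c).1 hcT i) ((hT i).1 hiT c)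
  obtain ⟨m, hm⟩ := param S s i j x y (hgeq j hjT).symm
  have hmOr : ∀ c ∈ T, c ≠ i → c ≠ j → 0 < m * S.Or i j c s := by
    intro c hcT hci hcj
    have h1 := hm c
    rw [hgeq c hcT, sub_self, mul_zero] at h1
    have h2 := hUs c hcT hci hcj
    linarith
  refine hull_strict S s x y T hT i j hiT hjT hNs ?_
  rcases lt_trichotomy m 0 with hm0 | hm0 | hm0
  · right
    intro c hcT hci hcj
    by_contra hcon
    have h1 := hmOr c hcT hci hcj
    have h2 := mul_nonpos_of_nonpos_of_nonneg hm0.le (not_lt.1 hcon)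
    linarith
  · left
    intro c hcT hci hcj
    have h1 := hmOr c hcT hci hcj
    rw [hm0, zero_mul] at h1
    exact absurd h1 (lt_irrefl _)
  · left
    intro c hcT hci hcj
    exact (pos_iff_pos_of_mul_pos (hmOr c hcT hci hcj)).1 hm0

end Pool.Agent.KDT
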