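import Pool.Agent.KDT.Bas

/-!
# LimTie: limits of tie sets
`T` is not collinear at `t0`: choose `a, b, c ∈ T` with `Or a b c t0 ≠ 0` (if all `Or` vanish: fix `a ≠ b ∈ T`; the normal of the line `a b` shows that `T` is collinear, or state as
in the hypothesis `hnc`). For `s` near `t0` with `T ∈ St s` the centre solves `2⟨P_b - P_a, x⟩ = q_b - q_a`, `2⟨P_c - P_a, x⟩ = q_c - q_a` with determinant `Or a b c s ≠ 0`; by
Cramer's rule it is a continuous function of `s` near `t0`; let `(x*,y*)` be its value at `t0`. By assumption there are such `s` arbitrarily near `t0`. In the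
limit `g i = g a` at `(x*,y*)`, `t0`, for `i ∈ T`, and `g a ≤ g j` for all `j`. Let `T0 = {i | g i = g a}` at `(x*,y*)`, `t0`: then `T0 ∈ St t0`, `T ⊆ T0`.
-/

set_option autoImplicit false

namespace Pool.Agent.KDT

/-- first coordinate of the centre (Cramer) -/
private noncomputable def limTieX {V : Type} (S : Sys V) (a b c : V) (s : ℝ) : ℝ :=
  ((S.q b s - S.q a s) * (S.yy c s - S.yy a s) - (S.q c s - S.q a s) * (S.yy b s - S.yy a s)) /
    (2 * S.Or a b c s)

/-- second coordinate of the centre (Cramer) -/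
private noncomputable def limTieY {V : Type} (S : Sys V) (a b c : V) (s : ℝ) : ℝ :=
  ((S.xx b s - S.xx a s) * (S.q c s - S.q a s) - (S.xx c s - S.xx a s) * (S.q b s - S.q a s)) /
    (2 * S.Or a b c s)

private theorem limTie_eq {V : Type} (S : Sys V) (a b c : V) (s x y : ℝ) (ho : S.Or a b c s ≠ 0)
    (hb : S.g a s x y = S.g b s x y) (hc : S.g a s x y = S.g c s x y) :
    x = limTieX S a b c s ∧ y = limTieY S a b c s := by
  unfold Sys.g at hb hc
  constructor
  · unfold limTieX
    rw [eq_div_iff (mul_ne_zero two_ne_zero ho)]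
    unfold Sys.Or
    linear_combination (S.yy c s - S.yy a s) * hb - (S.yy b s - S.yy a s) * hc
  · unfold limTieY
    rw [eq_div_iff (mul_ne_zero two_ne_zero ho)]
    unfold Sys.Or
    linear_combination (-(S.xx c s - S.xx a s)) * hb + (S.xx b s - S.xx a s) * hc

private theorem limTie_cont {V : Type} (S : Sys V) (a b c i : V) (t0 : ℝ)
    (ho : S.Or a b c t0 ≠ 0) :
    ContinuousAt (fun s => S.g i s (limTieX S a b c s) (limTieY S a b c s)) t0 := by
  have h1 : ∀ i, ContinuousAt (fun s => S.xx i s) t0 := fun i => (cont_xx S i).continuousAt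
  have h2 : ∀ i, ContinuousAt (fun s => S.yy i s) t0 := fun i => (cont_yy S i).continuousAt
  have h3 : ∀ i, ContinuousAt (fun s => S.q i s) t0 := fun i => (cont_q S i).continuousAt
  have h4 : ContinuousAt (fun s => S.Or a b c s) t0 := (cont_or S a b c).continuousAt
  have hX : ContinuousAt (fun s => limTieX S a b c s) t0 :=
    ((((h3 b).sub (h3 a)).mul ((h2 c).sub (h2 a))).sub
      (((h3 c).sub (h3 a)).mul ((h2 b).sub (h2 a)))).div (continuousAt_const.mul h4)
      (mul_ne_zero two_ne_zero ho)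
  have hY : ContinuousAt (fun s => limTieY S a b c s) t0 :=
    ((((h1 b).sub (h1 a)).mul ((h3 c).sub (h3 a))).sub
      (((h1 c).sub (h1 a)).mul ((h3 b).sub (h3 a)))).div (continuousAt_const.mul h4)
      (mul_ne_zero two_ne_zero ho)
  exact (h3 i).sub (continuousAt_const.mul (((h1 i).mul hX).add ((h2 i).mul hY)))

theorem lim_tie {V : Type} [Fintype V] (S : Sys V) (t0 : ℝ) (T : Finset V) (a b c : V) (ha : a ∈ T) (hb : b ∈ T)
    (hc : c ∈ T) (ho : S.Or a b c t0 ≠ 0) (h : ∀ δ : ℝ, 0 < δ → ∃ s : ℝ, |s - t0| < δ ∧ T ∈ S.St s) :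
    ∃ T0 ∈ S.St t0, T ⊆ T0 := by
  classical
  have key : ∀ i ∈ T, ∀ j, S.g i t0 (limTieX S a b c t0) (limTieY S a b c t0) ≤
      S.g j t0 (limTieX S a b c t0) (limTieY S a b c t0) := by
    intro i hi j
    by_contra hlt
    rw [not_le] at hlt
    have h1 := (limTie_cont S a b c i t0 ho).sub (limTie_cont S a b c j t0 ho)
    have h2 : ∀ᶠ s in nhds t0, 0 < S.g i s (limTieX S a b c s) (limTieY S a b c s) -
        S.g j s (limTieX S a b c s) (limTieY S a b c s) :=
      h1.eventually (lt_mem_nhds (sub_pos.2 hlt))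
    have h3 : ∀ᶠ s in nhds t0, S.Or a b c s ≠ 0 := (cont_or S a b c).continuousAt.eventually_ne ho
    obtain ⟨δ, hδ, hδ'⟩ := Metric.eventually_nhds_iff.1 (h2.and h3)
    obtain ⟨s, hs, x, y, hxy⟩ := h δ hδ
    obtain ⟨h4, h5⟩ := hδ' (y := s) (by rw [Real.dist_eq]; exact hs)
    have hga : ∀ k ∈ T, ∀ l, S.g k s x y ≤ S.g l s x y := fun k hk => (hxy k).1 hk
    obtain ⟨ex, ey⟩ := limTie_eq S a b c s x y h5 (le_antisymm (hga a ha b) (hga b hb a))
      (le_antisymm (hga a ha c) (hga c hc a))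
    rw [← ex, ← ey] at h4
    have h6 := hga i hi j
    linarith
  refine ⟨Finset.univ.filter (fun i => ∀ j, S.g i t0 (limTieX S a b c t0) (limTieY S a b c t0) ≤
      S.g j t0 (limTieX S a b c t0) (limTieY S a b c t0)), ⟨_, _, fun i => by
        rw [Finset.mem_filter]
        exact ⟨fun h => h.2, fun h => ⟨Finset.mem_univ _, h⟩⟩⟩, fun i hi => ?_⟩
  rw [Finset.mem_filter]
  exact ⟨Finset.mem_univ _, key i hi⟩

end Pool.Agent.KDT
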