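import Pool.Agent.KDT.Bas

/-!
# Opn: openness in time and in the weights, averaging
-/

set_option autoImplicit false

namespace Pool.Agent.KDT

variable {V : Type}

theorem strict_open [Finite V] (S : Sys V) (a b : V) :
    IsOpen {t : ℝ | 0 < S.Nn a b t ∧ S.Strict Set.univ t a b} := by
  rw [isOpen_iff_mem_nhds]
  rintro t0 ⟨hN, hs⟩
  rw [strict_iff S Set.univ t0 a b hN] at hs
  obtain ⟨s, hs⟩ := hs
  have h1 : ∀ᶠ t in nhds t0, 0 < S.Nn a b t :=
    (cont_nn S a b).continuousAt.eventually (lt_mem_nhds hN)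
  have h2 : ∀ᶠ t in nhds t0, ∀ c : V, c ≠ a → c ≠ b → 0 < S.Uu a b c t + s * S.Or a b c t := by
    rw [Filter.eventually_all]
    intro c
    by_cases hca : c = a
    · exact Filter.Eventually.of_forall (fun t h => absurd hca h)
    by_cases hcb : c = b
    · exact Filter.Eventually.of_forall (fun t _ h => absurd hcb h)
    have hc : Continuous (fun t => S.Uu a b c t + s * S.Or a b c t) :=
      (cont_uu S a b c).add (continuous_const.mul (cont_or S a b c))
    have h3 := hc.continuousAt.eventually (lt_mem_nhds (hs c (Set.mem_univ c) hca hcb))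
    filter_upwards [h3] with t ht _ _ using ht
  filter_upwards [h1, h2] with t ht1 ht2
  refine ⟨ht1, ?_⟩
  rw [strict_iff S Set.univ t a b ht1]
  exact ⟨s, fun c _ hca hcb => ht2 c hca hcb⟩

private theorem withW_xx (S : Sys V) (ω : V → ℝ) (i : V) (t : ℝ) : (S.withW ω).xx i t = S.xx i t := rfl

private theorem withW_yy (S : Sys V) (ω : V → ℝ) (i : V) (t : ℝ) : (S.withW ω).yy i t = S.yy i t := rfl

private theorem withW_q (S : Sys V) (ω : V → ℝ) (i : V) (t : ℝ) :
    (S.withW ω).q i t = S.xx i t ^ 2 + S.yy i t ^ 2 + ω i := rfl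

private theorem withW_g (S : Sys V) (ω : V → ℝ) (i : V) (t x y : ℝ) :
    (S.withW ω).g i t x y = (S.withW 0).g i t x y + ω i := by
  simp only [Sys.g, withW_q, withW_xx, withW_yy, Pi.zero_apply]
  ring

theorem strict_openW [Finite V] (S : Sys V) (t : ℝ) (a b : V) (hN : 0 < S.Nn a b t)
    (h : (S.withW 0).Strict Set.univ t a b) :
    ∃ ρ : ℝ, 0 < ρ ∧ ∀ ω : V → ℝ, (∀ i, |ω i| < ρ) → (S.withW ω).Strict Set.univ t a b := by
  have hNw : ∀ ω : V → ℝ, (S.withW ω).Nn a b t = S.Nn a b t := fun ω => rfl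
  have hOw : ∀ (ω : V → ℝ) (c : V), (S.withW ω).Or a b c t = S.Or a b c t := fun ω c => rfl
  rw [strict_iff (S.withW 0) Set.univ t a b (by rw [hNw]; exact hN)] at h
  obtain ⟨s, hs⟩ := h
  have h2 : ∀ᶠ ω : V → ℝ in nhds 0, ∀ c : V, c ≠ a → c ≠ b →
      0 < (S.withW ω).Uu a b c t + s * (S.withW ω).Or a b c t := by
    rw [Filter.eventually_all]
    intro c
    by_cases hca : c = a
    · exact Filter.Eventually.of_forall (fun t h => absurd hca h)
    by_cases hcb : c = b
    · exact Filter.Eventually.of_forall (fun t _ h => absurd hcb h)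
    have hc : Continuous (fun ω : V → ℝ => (S.withW ω).Uu a b c t + s * (S.withW ω).Or a b c t) := by
      simp only [Sys.Uu, hNw, hOw, withW_q, withW_xx, withW_yy]
      fun_prop
    have h3 := hc.continuousAt.eventually (lt_mem_nhds (hs c (Set.mem_univ c) hca hcb))
    filter_upwards [h3] with t ht _ _ using ht
  have h4 : {ω : V → ℝ | ∀ c : V, c ≠ a → c ≠ b →
      0 < (S.withW ω).Uu a b c t + s * (S.withW ω).Or a b c t} ∈ nhds (0 : V → ℝ) := h2
  have := Fintype.ofFinite V
  rw [Metric.mem_nhds_iff] at h4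
  obtain ⟨ρ, hρ, hb⟩ := h4
  refine ⟨ρ, hρ, fun ω hω => ?_⟩
  have hmem : ω ∈ Metric.ball (0 : V → ℝ) ρ := by
    rw [Metric.mem_ball, dist_pi_lt_iff hρ]
    intro i
    rw [Pi.zero_apply, Real.dist_eq, sub_zero]
    exact hω i
  have h5 := hb hmem
  rw [strict_iff (S.withW ω) Set.univ t a b (by rw [hNw]; exact hN)]
  exact ⟨s, fun c _ hca hcb => h5 c hca hcb⟩

theorem avg (S : Sys V) (ω : V → ℝ) (t : ℝ) (a b : V) (h1 : (S.withW ω).Strict Set.univ t a b)
    (h2 : (S.withW (-ω)).Strict Set.univ t a b) : (S.withW 0).Strict Set.univ t a b := by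
  obtain ⟨x1, y1, e1, f1⟩ := h1
  obtain ⟨x2, y2, e2, f2⟩ := h2
  have key : ∀ i, 2 * (S.withW 0).g i t ((x1 + x2) / 2) ((y1 + y2) / 2)
      = (S.withW ω).g i t x1 y1 + (S.withW (-ω)).g i t x2 y2 := by
    intro i
    rw [withW_g S ω i t x1 y1, withW_g S (-ω) i t x2 y2, Pi.neg_apply]
    simp only [Sys.g]
    ring
  refine ⟨(x1 + x2) / 2, (y1 + y2) / 2, ?_, ?_⟩
  · have ha := key a
    have hb := key b
    linarith
  · intro c hc hca hcb
    have ha := key a
    have hcc := key c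
    have g1 := f1 c hc hca hcb
    have g2 := f2 c hc hca hcb
    linarith

end Pool.Agent.KDT
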