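import Pool.Agent.KDT.Bas

/-!
# Hull: hull edges of a tie set are strict, diagonals are not
`nonstrict`: by `param` the tie point has a parameter `s0` with `Uu c + s0 Or c = 0`, `Uu e + s0 Or e = 0`. If `a b` were strict with parameter `s`: `(s - s0) Or c > 0` and
`(s - s0) Or e > 0`, but `Or c > 0 > Or e`.
`nonstrict_col`: if `Or c = 0` and `Uu c ≤ 0` then never `Uu c + s Or c > 0`.
`hull_strict`: the tie set at `(x,y)` is exactly `T`: parameter `s0` of `(x,y)` (`param`) with `Uu c + s0 Or c = 0` for `c ∈ T`, and `> 0` for `c ∉ T` (for `c ∉ T` there is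
`j` with `g c > g j ≥ g a`; `a ∈ T` is minimal). Take `s = s0 ± ε`, sign as that of the `Or c`, `ε > 0` small (finitely many `c ∉ T`).
-/

set_option autoImplicit false

namespace Pool.Agent.KDT

variable {V : Type}

theorem nonstrict (S : Sys V) (t x y : ℝ) (a b c e : V) (hN : 0 < S.Nn a b t) (hca : c ≠ a) (hcb : c ≠ b)
    (hea : e ≠ a) (heb : e ≠ b) (h1 : S.g b t x y = S.g a t x y) (h2 : S.g c t x y = S.g a t x y)
    (h3 : S.g e t x y = S.g a t x y) (hc : 0 < S.Or a b c t) (he : S.Or a b e t < 0) :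
    ¬ S.Strict Set.univ t a b := by
  intro hst
  obtain ⟨s0, hs0⟩ := param S t a b x y h1.symm
  have e1 := hs0 c
  have e2 := hs0 e
  rw [h2, sub_self, mul_zero] at e1
  rw [h3, sub_self, mul_zero] at e2
  obtain ⟨s, hs⟩ := (strict_iff S Set.univ t a b hN).1 hst
  have f1 := hs c (Set.mem_univ _) hca hcb
  have f2 := hs e (Set.mem_univ _) hea heb
  have g1 : 0 < (s - s0) * S.Or a b c t := by linarith
  have g2 : 0 < (s - s0) * S.Or a b e t := by linarith
  have k1 : 0 < s - s0 := pos_of_mul_pos_left g1 hc.le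
  have k2 : (s - s0) * S.Or a b e t < 0 := mul_neg_of_pos_of_neg k1 he
  linarith

theorem nonstrict_col (S : Sys V) (t : ℝ) (a b c : V) (hN : 0 < S.Nn a b t) (hca : c ≠ a) (hcb : c ≠ b)
    (ho : S.Or a b c t = 0) (hu : S.Uu a b c t ≤ 0) : ¬ S.Strict Set.univ t a b := by
  intro hst
  obtain ⟨s, hs⟩ := (strict_iff S Set.univ t a b hN).1 hst
  have f1 := hs c (Set.mem_univ _) hca hcb
  rw [ho, mul_zero, add_zero] at f1
  linarith

theorem hull_strict [Finite V] (S : Sys V) (t x y : ℝ) (T : Finset V)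
    (hT : ∀ i, i ∈ T ↔ ∀ j, S.g i t x y ≤ S.g j t x y) (a b : V) (ha : a ∈ T) (hb : b ∈ T) (hN : 0 < S.Nn a b t)
    (hs : (∀ c ∈ T, c ≠ a → c ≠ b → 0 < S.Or a b c t) ∨ ∀ c ∈ T, c ≠ a → c ≠ b → S.Or a b c t < 0) :
    S.Strict Set.univ t a b := by
  have hga := (hT a).1 ha
  have hgb := (hT b).1 hb
  obtain ⟨s0, hs0⟩ := param S t a b x y (le_antisymm (hga b) (hgb a))
  have hin : ∀ c ∈ T, S.Uu a b c t + s0 * S.Or a b c t = 0 := by
    intro c hc
    rw [← hs0 c, le_antisymm ((hT c).1 hc a) (hga c), sub_self, mul_zero]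
  have hout : ∀ c, c ∉ T → 0 < S.Uu a b c t + s0 * S.Or a b c t := by
    intro c hc
    rw [hT c] at hc
    push Not at hc
    obtain ⟨j, hj⟩ := hc
    rw [← hs0 c]
    exact mul_pos hN (by linarith [hga j])
  rw [strict_iff S Set.univ t a b hN]
  have hcont : ∀ c, Filter.Tendsto (fun s => S.Uu a b c t + s * S.Or a b c t) (nhds s0)
      (nhds (S.Uu a b c t + s0 * S.Or a b c t)) := by
    intro c
    exact (Continuous.tendsto (by fun_prop) s0)
  rcases hs with hs | hs
  · have hev : ∀ᶠ s in nhdsWithin s0 (Set.Ioi s0), ∀ c, c ≠ a → c ≠ b →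
        0 < S.Uu a b c t + s * S.Or a b c t := by
      rw [Filter.eventually_all]
      intro c
      by_cases hcT : c ∈ T
      · filter_upwards [self_mem_nhdsWithin] with s hs1 hca hcb
        have h1 := mul_pos (sub_pos.2 (show s0 < s from hs1)) (hs c hcT hca hcb)
        have h2 := hin c hcT
        linarith
      · have h1 : ∀ᶠ s in nhds s0, 0 < S.Uu a b c t + s * S.Or a b c t :=
          (hcont c).eventually (lt_mem_nhds (hout c hcT))
        filter_upwards [nhdsWithin_le_nhds h1] with s hs1 _ _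
        exact hs1
    obtain ⟨s, hs1⟩ := hev.exists
    exact ⟨s, fun c _ => hs1 c⟩
  · have hev : ∀ᶠ s in nhdsWithin s0 (Set.Iio s0), ∀ c, c ≠ a → c ≠ b →
        0 < S.Uu a b c t + s * S.Or a b c t := by
      rw [Filter.eventually_all]
      intro c
      by_cases hcT : c ∈ T
      · filter_upwards [self_mem_nhdsWithin] with s hs1 hca hcb
        have h1 := mul_pos_of_neg_of_neg (sub_neg.2 (show s < s0 from hs1)) (hs c hcT hca hcb)
        have h2 := hin c hcT
        linarith
      · have h1 : ∀ᶠ s in nhds s0, 0 < S.Uu a b c t + s * S.Or a b c t :=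
          (hcont c).eventually (lt_mem_nhds (hout c hcT))
        filter_upwards [nhdsWithin_le_nhds h1] with s hs1 _ _
        exact hs1
    obtain ⟨s, hs1⟩ := hev.exists
    exact ⟨s, fun c _ => hs1 c⟩

end Pool.Agent.KDT
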