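import Pool.Agent.KDT.Ang
import Pool.Agent.KDT.Hull

/-!
# SubTie: a smaller tie set nearby
Let `(x,y)` be the centre for `T0` at `t0` and `v ∈ T0 \ T'`. `ang` (for `T'` and `v`, all tied at `(x,y)`) gives `i, j ∈ T'` with `Or i j v > 0` and `Or i j c < 0` for the other
`c ∈ T'`; there is such a `c` (`|T'| ≥ 3`). `nonstrict` (`c := v`, `e := c`): `i j` is not strict at `t0`. For `s` near `t0`: `Nn i j s > 0` and `Or i j c s < 0` for all `c ∈ T' \ {i,j}`
(continuity, finitely many); if `T' ∈ St s`, `hull_strict` shows that `i j` is strict at `s`.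
-/

set_option autoImplicit false

namespace Pool.Agent.KDT

theorem sub_tie {V : Type} [Finite V] (S : Sys V) (hw : ∀ i, S.w i = 0) (t0 : ℝ)
    (hd : ∀ i j, i ≠ j → 0 < S.Nn i j t0) (T0 T' : Finset V) (h0 : T0 ∈ S.St t0) (hsub : T' ⊂ T0)
    (hc : 3 ≤ T'.card) : ∃ i j, i ≠ j ∧ ¬ S.Strict Set.univ t0 i j ∧
      ∃ δ : ℝ, 0 < δ ∧ ∀ s : ℝ, |s - t0| < δ → T' ∈ S.St s → S.Strict Set.univ s i j := by
  classical
  obtain ⟨x, y, hxy⟩ := h0
  obtain ⟨v, hv0, hv⟩ := Finset.exists_of_ssubset hsub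
  have hvm := (hxy v).1 hv0
  have hT : ∀ i ∈ T', S.g i t0 x y = S.g v t0 x y := fun i hi =>
    le_antisymm ((hxy i).1 (hsub.1 hi) v) (hvm i)
  obtain ⟨i, hi, j, hj, hij, hov, hoc⟩ := ang S hw t0 x y hd T' v hv hT hc
  obtain ⟨c, hcT, hci, hcj⟩ : ∃ c ∈ T', c ≠ i ∧ c ≠ j := by
    by_contra hcon
    push Not at hcon
    have h1 : T' ⊆ {i, j} := by
      intro c hcT
      by_cases h2 : c = i
      · simp [h2]
      · simp [hcon c hcT h2]
    have h3 := Finset.card_le_card h1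
    have h4 : ({i, j} : Finset V).card ≤ 2 := Finset.card_le_two
    omega
  refine ⟨i, j, hij, ?_, ?_⟩
  · refine nonstrict S t0 x y i j v c (hd i j hij) ?_ ?_ hci hcj ?_ ?_ ?_ hov (hoc c hcT hci hcj)
    · intro h
      exact hv (h ▸ hi)
    · intro h
      exact hv (h ▸ hj)
    · rw [hT i hi, hT j hj]
    · exact (hT i hi).symm
    · rw [hT i hi, hT c hcT]
  · have hev1 : ∀ᶠ s in nhds t0, 0 < S.Nn i j s :=
      (cont_nn S i j).continuousAt.eventually (lt_mem_nhds (hd i j hij))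
    have hev2 : ∀ᶠ s in nhds t0, ∀ c : V, c ∈ T' → c ≠ i → c ≠ j → S.Or i j c s < 0 := by
      rw [Filter.eventually_all]
      intro c
      by_cases h : c ∈ T' ∧ c ≠ i ∧ c ≠ j
      · filter_upwards [(cont_or S i j c).continuousAt.eventually
          (gt_mem_nhds (hoc c h.1 h.2.1 h.2.2))] with s hs _ _ _
        exact hs
      · filter_upwards with s h1 h2 h3
        exact absurd ⟨h1, h2, h3⟩ h
    obtain ⟨δ, hδ, hball⟩ := Metric.eventually_nhds_iff.1 (hev1.and hev2)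
    refine ⟨δ, hδ, fun s hs hTs => ?_⟩
    obtain ⟨x', y', hxy'⟩ := hTs
    obtain ⟨h1, h2⟩ := hball (by rw [Real.dist_eq]; exact hs)
    exact hull_strict S s x' y' T' hxy' i j hi hj h1 (Or.inr h2)

end Pool.Agent.KDT
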