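import Pool.Agent.KDT.NearTie
import Pool.Agent.KDT.SubTie
import Pool.Agent.KDT.ColTie
import Pool.Agent.KDT.LimTie
import Pool.Agent.KDT.Opn

/-!
# Change: a change of the structure at a collision free time comes from a switching pair
By contradiction, assume (hno): for all `i ≠ j` not strict at `t0` there is `δ > 0` such that `i j` is not strict for `|s - t0| < δ`. It suffices to find for every
`T : Finset V` a `δ > 0` with `T ∈ St s ↔ T ∈ St t0` for `|s - t0| < δ` (finitely many `T`, take the minimum; contradiction to `hch`). If `V` is empty `St` is constant. Let `V` be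
nonempty. All sites are at distinct positions at times near `t0` (continuity).
`T = ∅`: never in `St`. `T = {a}`: always in `St s` for `s` near `t0` (centre `P_a(s)`; `g j - g a = Nn a j > 0`).
`T = {a,b}`, `a ≠ b`: `T ∈ St s ↔ Strict univ s a b`. If strict at `t0`, strict near `t0` (`strict_open`), otherwise use `hno`.
`|T| ≥ 3`, `T ∈ St t0`: `near_tie` gives for `s` near `t0` some `T' ∈ St s`, `T' ⊆ T`, `|T'| ≥ 3`. For every `T' ⊂ T` with `|T'| ≥ 3`, `sub_tie` and `hno` give `δ` with `T' ∉ St s`
for `|s - t0| < δ` (otherwise `i j` would be strict at `s`). Hence `T' = T` and `T ∈ St s` near `t0`.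
`|T| ≥ 3`, `T ∉ St t0`: if `T` is collinear at `t0`, `col_tie` and `hno` give `T ∉ St s` near `t0`. Otherwise some `a b c ∈ T` have `Or a b c t0 ≠ 0` (if all vanish, `T` is collinear:
fix `a ≠ b` in `T`, normal `(u1,u2) = (yy b - yy a, -(xx b - xx a))`). If `T ∈ St s` for `s` arbitrarily near `t0`, `lim_tie` gives `T ⊆ T0 ∈ St t0`, `T ≠ T0`, and `sub_tie` and
`hno` give `T ∉ St s` near `t0`, a contradiction.
-/

set_option autoImplicit false

namespace Pool.Agent.KDT

open Filter Topology in
private theorem Change_ev {P : ℝ → Prop} {t0 : ℝ} :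
    (∀ᶠ s in 𝓝 t0, P s) ↔ ∃ δ : ℝ, 0 < δ ∧ ∀ s : ℝ, |s - t0| < δ → P s := by
  rw [Metric.eventually_nhds_iff]
  constructor
  · rintro ⟨ε, h1, h2⟩
    exact ⟨ε, h1, fun s hs => h2 (by rwa [Real.dist_eq])⟩
  · rintro ⟨ε, h1, h2⟩
    exact ⟨ε, h1, fun s hs => h2 s (by rwa [Real.dist_eq] at hs)⟩

private theorem Change_pair_iff {V : Type} (S : Sys V) (s : ℝ) (a b : V) (T : Finset V)
    (hT : ∀ i, i ∈ T ↔ i = a ∨ i = b) : T ∈ S.St s ↔ S.Strict Set.univ s a b := by
  constructor
  · rintro ⟨x, y, h⟩
    have ha := (h a).1 ((hT a).2 (Or.inl rfl))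
    have hb := (h b).1 ((hT b).2 (Or.inr rfl))
    refine ⟨x, y, le_antisymm (ha b) (hb a), ?_⟩
    intro c _ hca hcb
    have hc : ¬ ∀ j, S.g c s x y ≤ S.g j s x y := by
      intro hh
      rcases (hT c).1 ((h c).2 hh) with h1 | h1
      · exact hca h1
      · exact hcb h1
    push Not at hc
    obtain ⟨j, hj⟩ := hc
    exact lt_of_le_of_lt (ha j) hj
  · rintro ⟨x, y, hab, h⟩
    refine ⟨x, y, fun i => ?_⟩
    have hmin : ∀ j, S.g a s x y ≤ S.g j s x y := by
      intro j
      by_cases h1 : j = a
      · rw [h1]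
      by_cases h2 : j = b
      · rw [h2, hab]
      exact (h j (Set.mem_univ _) h1 h2).le
    rw [hT i]
    constructor
    · rintro (h1 | h1)
      · rw [h1]; exact hmin
      · rw [h1, ← hab]; exact hmin
    · intro hh
      by_contra hcon
      push Not at hcon
      exact absurd (hh a) (not_le.2 (h i (Set.mem_univ _) hcon.1 hcon.2))

private theorem Change_single {V : Type} (S : Sys V) (hw : ∀ i, S.w i = 0) (s : ℝ)
    (hd : ∀ i j, i ≠ j → 0 < S.Nn i j s) (a : V) : ({a} : Finset V) ∈ S.St s := by
  refine ⟨S.xx a s, S.yy a s, fun i => ?_⟩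
  have key : ∀ j, S.g j s (S.xx a s) (S.yy a s) - S.g a s (S.xx a s) (S.yy a s) = S.Nn a j s := by
    intro j
    simp only [Sys.g, Sys.q, Sys.Nn, hw]
    ring
  have hnn : ∀ j, 0 ≤ S.Nn a j s := fun j => by unfold Sys.Nn; positivity
  rw [Finset.mem_singleton]
  constructor
  · intro h j
    subst h
    linarith [key j, hnn j]
  · intro hh
    by_contra hcon
    linarith [key i, hh a, hd a i (fun h => hcon h.symm)]

open Filter Topology in
theorem change_pair {V : Type} [Fintype V] (S : Sys V) (hw : ∀ i, S.w i = 0) (t0 : ℝ)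
    (hd : ∀ i j, i ≠ j → 0 < S.Nn i j t0)
    (hch : ∀ δ : ℝ, 0 < δ → ∃ s : ℝ, |s - t0| < δ ∧ S.St s ≠ S.St t0) :
    ∃ a b, a ≠ b ∧ ¬ S.Strict Set.univ t0 a b ∧
      ∀ δ : ℝ, 0 < δ → ∃ s : ℝ, |s - t0| < δ ∧ S.Strict Set.univ s a b := by
  classical
  by_contra hcon
  have hno : ∀ a b, a ≠ b → ¬ S.Strict Set.univ t0 a b →
      ∀ᶠ s in 𝓝 t0, ¬ S.Strict Set.univ s a b := by
    intro a b hab hns
    rw [Change_ev]
    by_contra h
    push Not at h
    exact hcon ⟨a, b, hab, hns, fun δ hδ => h δ hδ⟩
  have hpos : ∀ᶠ s in 𝓝 t0, ∀ i j, i ≠ j → 0 < S.Nn i j s := by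
    rw [Filter.eventually_all]
    intro i
    rw [Filter.eventually_all]
    intro j
    by_cases hij : i = j
    · exact Filter.Eventually.of_forall (fun s h => absurd hij h)
    · have := (cont_nn S i j).continuousAt.eventually (lt_mem_nhds (hd i j hij))
      exact this.mono (fun s hs _ => hs)
  have hsub : ∀ T0 T' : Finset V, T0 ∈ S.St t0 → T' ⊂ T0 → 3 ≤ T'.card →
      ∀ᶠ s in 𝓝 t0, T' ∉ S.St s := by
    intro T0 T' h0 hss hc
    obtain ⟨i, j, hij, hns, hδ⟩ := sub_tie S hw t0 hd T0 T' h0 hss hc
    rw [← Change_ev] at hδ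
    filter_upwards [hδ, hno i j hij hns] with s h1 h2 h3
    exact h2 (h1 h3)
  have main : ∀ T : Finset V, ∀ᶠ s in 𝓝 t0, (T ∈ S.St s ↔ T ∈ S.St t0) := by
    intro T
    rcases isEmpty_or_nonempty V with hV | hV
    · refine Filter.Eventually.of_forall (fun s => ?_)
      exact ⟨fun _ => ⟨0, 0, fun i => isEmptyElim i⟩, fun _ => ⟨0, 0, fun i => isEmptyElim i⟩⟩
    by_cases h3 : 3 ≤ T.card
    · by_cases hT : T ∈ S.St t0
      · have h1 := near_tie S hw t0 hd T hT h3
        rw [← Change_ev] at h1
        have h2 : ∀ᶠ s in 𝓝 t0, ∀ T' : Finset V, T' ⊂ T → 3 ≤ T'.card → T' ∉ S.St s := by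
          rw [Filter.eventually_all]
          intro T'
          by_cases hh : T' ⊂ T ∧ 3 ≤ T'.card
          · exact (hsub T T' hT hh.1 hh.2).mono (fun s hs _ _ => hs)
          · exact Filter.Eventually.of_forall (fun s h4 h5 => absurd ⟨h4, h5⟩ hh)
        filter_upwards [h1, h2] with s ⟨T', hT', hs', hc'⟩ h5
        have : T' = T := by
          by_contra hne
          exact h5 T' (Finset.ssubset_iff_subset_ne.2 ⟨hs', hne⟩) hc' hT'
        rw [← this]
        rw [← this] at hT
        exact ⟨fun _ => hT, fun _ => hT'⟩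
      · have hT' : ∀ᶠ s in 𝓝 t0, T ∉ S.St s := by
          by_cases hcol : ∀ a ∈ T, ∀ b ∈ T, ∀ c ∈ T, S.Or a b c t0 = 0
          · obtain ⟨a, ha, b, hb, hab⟩ := Finset.one_lt_card.1 (by omega : 1 < T.card)
            have hN := hd a b hab
            have hu : (S.yy b t0 - S.yy a t0) ≠ 0 ∨ (-(S.xx b t0 - S.xx a t0)) ≠ 0 := by
              by_contra h
              push Not at h
              unfold Sys.Nn at hN
              have e1 : S.xx b t0 - S.xx a t0 = 0 := by linarith [h.2]
              rw [h.1, e1] at hN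
              norm_num at hN
            obtain ⟨i, j, hij, hns, hδ⟩ := col_tie S hw t0 hd T h3 (S.yy b t0 - S.yy a t0)
              (-(S.xx b t0 - S.xx a t0)) hu (by
                intro i hi j hj
                have e1 := hcol a ha b hb i hi
                have e2 := hcol a ha b hb j hj
                unfold Sys.Or at e1 e2
                linear_combination e2 - e1)
            rw [← Change_ev] at hδ
            filter_upwards [hδ, hno i j hij hns] with s h1 h2 h4
            exact h2 (h1 h4)
          · push Not at hcol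
            obtain ⟨a, ha, b, hb, c, hc, ho⟩ := hcol
            by_contra hfr
            have hfr' : ∀ δ : ℝ, 0 < δ → ∃ s : ℝ, |s - t0| < δ ∧ T ∈ S.St s := by
              intro δ hδ
              by_contra h
              push Not at h
              exact hfr (Change_ev.2 ⟨δ, hδ, h⟩)
            obtain ⟨T0, hT0, hTT⟩ := lim_tie S t0 T a b c ha hb hc ho hfr'
            have hne : T ≠ T0 := by
              intro h
              exact hT (h ▸ hT0)
            exact hfr (hsub T0 T hT0 (Finset.ssubset_iff_subset_ne.2 ⟨hTT, hne⟩) h3)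
        filter_upwards [hT'] with s hs
        exact ⟨fun h => absurd h hs, fun h => absurd h hT⟩
    · have hcases : T.card = 0 ∨ T.card = 1 ∨ T.card = 2 := by omega
      rcases hcases with h0 | h1 | h2
      · have hT0 : ∀ s, T ∉ S.St s := by
          rintro s ⟨x, y, h⟩
          obtain ⟨i, hi⟩ := Finite.exists_min (fun i => S.g i s x y)
          have := (h i).2 hi
          rw [Finset.card_eq_zero.1 h0] at this
          exact absurd this (Finset.notMem_empty _)
        exact Filter.Eventually.of_forall (fun s => ⟨fun h => absurd h (hT0 s), fun h => absurd h (hT0 t0)⟩)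
      · obtain ⟨a, rfl⟩ := Finset.card_eq_one.1 h1
        filter_upwards [hpos] with s hs
        exact ⟨fun _ => Change_single S hw t0 hd a, fun _ => Change_single S hw s hs a⟩
      · obtain ⟨a, b, hab, rfl⟩ := Finset.card_eq_two.1 h2
        have hmem : ∀ i, i ∈ ({a, b} : Finset V) ↔ i = a ∨ i = b := by
          intro i
          simp
        by_cases hst : S.Strict Set.univ t0 a b
        · have hop := (strict_open S a b).mem_nhds (show t0 ∈ _ from ⟨hd a b hab, hst⟩)
          filter_upwards [hop] with s hs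
          rw [Change_pair_iff S s a b _ hmem, Change_pair_iff S t0 a b _ hmem]
          exact ⟨fun _ => hst, fun _ => hs.2⟩
        · filter_upwards [hno a b hab hst] with s hs
          rw [Change_pair_iff S s a b _ hmem, Change_pair_iff S t0 a b _ hmem]
          exact ⟨fun h => absurd h hs, fun h => absurd h hst⟩
  have hall : ∀ᶠ s in 𝓝 t0, ∀ T : Finset V, (T ∈ S.St s ↔ T ∈ S.St t0) := by
    rw [Filter.eventually_all]
    exact main
  obtain ⟨δ, hδ, hh⟩ := Change_ev.1 hall
  obtain ⟨s, hs, hne⟩ := hch δ hδ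
  exact hne (Set.ext (fun T => hh s hs T))

end Pool.Agent.KDT
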