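import Pool.Agent.KDT.Defs

/-!
# Circ: points on a circle through `P_v`, seen from `P_v`
For points `v, c` tied at `(x,y)` with weight 0, `P_c` lies on the circle around `(x,y)` through `P_v`. Write `r = (x,y) - P_v`, `w_c = P_c - P_v`; then `|w_c|² = 2 ⟨w_c, r⟩`
(expand `g c = g v`). `hh v c = cross(r, w_c) / |w_c|²`, `r2 = |r|²`.
`circ1`: `|r|² cross(w_i,w_c) = ⟨w_i,r⟩ cross(r,w_c) + cross(w_i,r) ⟨r,w_c⟩` (identity), with `⟨w,r⟩ = |w|²/2`, `cross(r,w) = |w|² hh`.
`circ_sq`: `|w|² |r|² = ⟨w,r⟩² + cross(r,w)²` gives `|r|² = |w|² (1/4 + hh²)`.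
`circ2`: `cross(w_j - w_i, w_c - w_i) = cross(w_i,w_j) + cross(w_j,w_c) + cross(w_c,w_i)`; by `circ1` and with `A = 1/|w|² = (1/4 + hh²)/r2`:
`2 r2 A_i A_j A_c Or i j c = A_c (h_j - h_i) + A_i (h_c - h_j) + A_j (h_i - h_c) = (1/r2) (h_j - h_i)(h_c - h_i)(h_c - h_j)`.
`circ_inj`: if `hh v c = hh v i` then `|w_c|² = |w_i|²`, the products with `r` agree, so `w_c = w_i` (`r ≠ 0`).
`r2_pos`: `|w_c|² = 2⟨w_c,r⟩ > 0` so `r ≠ 0`.
-/

set_option autoImplicit false

namespace Pool.Agent.KDT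

variable {V : Type}

/-- slope parameter of site `c` on the circle through `v` with centre `(x,y)` -/
noncomputable def hh (S : Sys V) (t x y : ℝ) (v c : V) : ℝ :=
  ((x - S.xx v t) * (S.yy c t - S.yy v t) - (y - S.yy v t) * (S.xx c t - S.xx v t)) / S.Nn v c t

/-- squared radius -/
def r2 (S : Sys V) (t x y : ℝ) (v : V) : ℝ := (x - S.xx v t) ^ 2 + (y - S.yy v t) ^ 2

/-- the key relation for a tied point -/
private theorem circ_key (S : Sys V) (t x y : ℝ) (v c : V) (hv : S.w v = 0) (hc : S.w c = 0)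
    (h : S.g c t x y = S.g v t x y) :
    S.Nn v c t = 2 * ((S.xx c t - S.xx v t) * (x - S.xx v t) +
      (S.yy c t - S.yy v t) * (y - S.yy v t)) := by
  unfold Sys.g Sys.q at h
  rw [hv, hc] at h
  unfold Sys.Nn
  linear_combination h

private theorem circ_hh (S : Sys V) (t x y : ℝ) (v c : V) (hN : 0 < S.Nn v c t) :
    S.Nn v c t * hh S t x y v c =
      (x - S.xx v t) * (S.yy c t - S.yy v t) - (y - S.yy v t) * (S.xx c t - S.xx v t) := by
  unfold hh
  exact mul_div_cancel₀ _ hN.ne'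

theorem r2_pos (S : Sys V) (t x y : ℝ) (v c : V) (hv : S.w v = 0) (hc : S.w c = 0)
    (h : S.g c t x y = S.g v t x y) (hN : 0 < S.Nn v c t) : 0 < r2 S t x y v := by
  have hk := circ_key S t x y v c hv hc h
  unfold r2
  by_contra hle
  rw [not_lt] at hle
  have h1 := sq_nonneg (x - S.xx v t)
  have h2 := sq_nonneg (y - S.yy v t)
  have h3 : x - S.xx v t = 0 := by
    apply pow_eq_zero_iff (n := 2) (by norm_num) |>.1
    linarith
  have h4 : y - S.yy v t = 0 := by
    apply pow_eq_zero_iff (n := 2) (by norm_num) |>.1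
    linarith
  rw [h3, h4] at hk
  rw [hk] at hN
  simp at hN

theorem circ1 (S : Sys V) (t x y : ℝ) (v i c : V) (hv : S.w v = 0) (hi : S.w i = 0) (hc : S.w c = 0)
    (h1 : S.g i t x y = S.g v t x y) (h2 : S.g c t x y = S.g v t x y) (hNi : 0 < S.Nn v i t) (hNc : 0 < S.Nn v c t) :
    2 * r2 S t x y v * S.Or v i c t = S.Nn v i t * S.Nn v c t * (hh S t x y v c - hh S t x y v i) := by
  have k1 := circ_key S t x y v i hv hi h1
  have k2 := circ_key S t x y v c hv hc h2
  have e1 := circ_hh S t x y v i hNi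
  have e2 := circ_hh S t x y v c hNc
  have e3 : S.Nn v i t * S.Nn v c t * (hh S t x y v c - hh S t x y v i) =
      S.Nn v i t * (S.Nn v c t * hh S t x y v c) - S.Nn v c t * (S.Nn v i t * hh S t x y v i) := by
    ring
  rw [e3, e1, e2, k1, k2]
  unfold r2 Sys.Or
  ring

theorem circ_sq (S : Sys V) (t x y : ℝ) (v c : V) (hv : S.w v = 0) (hc : S.w c = 0)
    (h : S.g c t x y = S.g v t x y) (hN : 0 < S.Nn v c t) :
    r2 S t x y v = S.Nn v c t * (1 / 4 + hh S t x y v c ^ 2) := by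
  have k := circ_key S t x y v c hv hc h
  have e := circ_hh S t x y v c hN
  have h1 : S.Nn v c t * r2 S t x y v = S.Nn v c t * (S.Nn v c t * (1 / 4 + hh S t x y v c ^ 2)) := by
    have e3 : S.Nn v c t * (S.Nn v c t * (1 / 4 + hh S t x y v c ^ 2)) =
        (S.Nn v c t) ^ 2 / 4 + (S.Nn v c t * hh S t x y v c) ^ 2 := by ring
    rw [e3, e]
    nth_rewrite 2 [k]
    unfold r2 Sys.Nn
    ring
  exact mul_left_cancel₀ hN.ne' h1

theorem circ2 (S : Sys V) (t x y : ℝ) (v i j c : V) (hv : S.w v = 0) (hi : S.w i = 0) (hj : S.w j = 0)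
    (hc : S.w c = 0) (h1 : S.g i t x y = S.g v t x y) (h2 : S.g j t x y = S.g v t x y)
    (h3 : S.g c t x y = S.g v t x y) (hNi : 0 < S.Nn v i t) (hNj : 0 < S.Nn v j t) (hNc : 0 < S.Nn v c t) :
    2 * r2 S t x y v ^ 2 * S.Or i j c t = S.Nn v i t * S.Nn v j t * S.Nn v c t *
      ((hh S t x y v j - hh S t x y v i) * (hh S t x y v c - hh S t x y v i) * (hh S t x y v c - hh S t x y v j)) := by
  have a1 := circ1 S t x y v i j hv hi hj h1 h2 hNi hNj
  have a2 := circ1 S t x y v j c hv hj hc h2 h3 hNj hNc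
  have a3 := circ1 S t x y v c i hv hc hi h3 h1 hNc hNi
  have s1 := circ_sq S t x y v i hv hi h1 hNi
  have s2 := circ_sq S t x y v j hv hj h2 hNj
  have s3 := circ_sq S t x y v c hv hc h3 hNc
  have hO : S.Or i j c t = S.Or v i j t + S.Or v j c t + S.Or v c i t := by
    unfold Sys.Or
    ring
  have hsum : 2 * r2 S t x y v ^ 2 * S.Or i j c t =
      r2 S t x y v * (2 * r2 S t x y v * S.Or v i j t) +
      r2 S t x y v * (2 * r2 S t x y v * S.Or v j c t) +
      r2 S t x y v * (2 * r2 S t x y v * S.Or v c i t) := by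
    rw [hO]; ring
  rw [hsum, a1, a2, a3]
  have t1 : r2 S t x y v * (S.Nn v i t * S.Nn v j t * (hh S t x y v j - hh S t x y v i)) =
      (S.Nn v c t * (1 / 4 + hh S t x y v c ^ 2)) *
        (S.Nn v i t * S.Nn v j t * (hh S t x y v j - hh S t x y v i)) := by rw [← s3]
  have t2 : r2 S t x y v * (S.Nn v j t * S.Nn v c t * (hh S t x y v c - hh S t x y v j)) =
      (S.Nn v i t * (1 / 4 + hh S t x y v i ^ 2)) *
        (S.Nn v j t * S.Nn v c t * (hh S t x y v c - hh S t x y v j)) := by rw [← s1]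
  have t3 : r2 S t x y v * (S.Nn v c t * S.Nn v i t * (hh S t x y v i - hh S t x y v c)) =
      (S.Nn v j t * (1 / 4 + hh S t x y v j ^ 2)) *
        (S.Nn v c t * S.Nn v i t * (hh S t x y v i - hh S t x y v c)) := by rw [← s2]
  rw [t1, t2, t3]
  ring

theorem circ_inj (S : Sys V) (t x y : ℝ) (v i c : V) (hv : S.w v = 0) (hi : S.w i = 0) (hc : S.w c = 0)
    (h1 : S.g i t x y = S.g v t x y) (h2 : S.g c t x y = S.g v t x y) (hNi : 0 < S.Nn v i t) (hNc : 0 < S.Nn v c t)
    (hic : 0 < S.Nn i c t) : hh S t x y v c ≠ hh S t x y v i := by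
  intro heq
  have s1 := circ_sq S t x y v i hv hi h1 hNi
  have s2 := circ_sq S t x y v c hv hc h2 hNc
  have hpos : 0 < 1 / 4 + hh S t x y v i ^ 2 := by positivity
  have hN : S.Nn v c t = S.Nn v i t := by
    rw [heq] at s2
    rw [s2] at s1
    exact mul_right_cancel₀ hpos.ne' s1
  have k1 := circ_key S t x y v i hv hi h1
  have k2 := circ_key S t x y v c hv hc h2
  have e1 := circ_hh S t x y v i hNi
  have e2 := circ_hh S t x y v c hNc
  rw [hN, heq, e1] at e2
  rw [hN, k1] at k2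
  have hr := r2_pos S t x y v i hv hi h1 hNi
  have hprod : r2 S t x y v * S.Nn i c t = 0 := by
    have f1 : (S.xx c t - S.xx i t) * (x - S.xx v t) + (S.yy c t - S.yy i t) * (y - S.yy v t) = 0 := by
      linear_combination (-1 / 2) * k2
    have f2 : (x - S.xx v t) * (S.yy c t - S.yy i t) - (y - S.yy v t) * (S.xx c t - S.xx i t) = 0 := by
      linear_combination (-1) * e2
    have f3 : r2 S t x y v * S.Nn i c t =
        ((S.xx c t - S.xx i t) * (x - S.xx v t) + (S.yy c t - S.yy i t) * (y - S.yy v t)) ^ 2 +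
        ((x - S.xx v t) * (S.yy c t - S.yy i t) - (y - S.yy v t) * (S.xx c t - S.xx i t)) ^ 2 := by
      unfold r2 Sys.Nn
      ring
    rw [f3, f1, f2]
    ring
  exact (mul_pos hr hic).ne' hprod

end Pool.Agent.KDT
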