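import Pool.Agent.KDT.Defs

/-!
# Lose: one more round
`f i` (`i : ι`) are pieces of `T`, separated in time, with disjoint sets of `(a,b)` pairs. `A` consists of elements
`t` of the lower halves (`t ≤ c i`) whose pair occurs also in the upper half of the same piece. Claim: if `H` has
`ρ ≥ 2` rounds in `A`, it has `ρ + 1` rounds in `T`.

Proof of `lose_lo`. Let `c'` be the windows of `A` and `t(l,h) ∈ A` (for `l < ρ`, `h ∈ H`) the elements. Each lies in a
piece `i(t)`. Since the pairs of different pieces are disjoint, the piece depends only on `h`. It does not depend on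
`h` either: if `i(h) ≠ i(h')`, and all of `f (i h)` is before all of `f (i h')`, then `t(0,h') ≤ c' 1 < t(1,h)`
(here `ρ ≥ 2`), a contradiction; the other order is symmetric. So all `t(l,h)` lie in one piece `i` and are `≤ c i`.
New windows: `c'' l = c' l` for `l < ρ`, `c'' ρ = c i`, `c'' (ρ + j) = max (c i) (max of T) + j` for `j ≥ 1`
(for `j ≥ 1` use an upper bound `B` of `T` and of `c i`). StrictMono: `c' (ρ-1) < t(ρ-1,h0) ≤ c i` for some `h0 ∈ H`.
Window `ρ - 1` contains `t(ρ-1,h)`, the windows before are unchanged, window `ρ` contains the element `t'` of the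
upper half with the same pair.

Proof of `lose_hi`: the same, with `c'' 0 =` something smaller than all of `T` and than `c i`, `c'' 1 = c i`,
`c'' (l+1) = c' l` for `l ≥ 1`; now `c i < t(0,h) ≤ c' 1`, and window `0` contains the element of the lower half.
-/

set_option autoImplicit false

namespace Pool.Agent.KDT

private theorem Lose_piece {V : Type} {k : ℕ} (τ : ℝ → Fin k → V) (A : Finset ℝ) (a b : Fin k) {ι : Type}
    (f : ι → Finset ℝ) (P : ι → ℝ → Prop)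
    (hsep : ∀ i i', i ≠ i' → (∀ t ∈ f i, ∀ t' ∈ f i', t < t') ∨ (∀ t ∈ f i, ∀ t' ∈ f i', t' < t))
    (hdis : ∀ i i', i ≠ i' → ∀ t ∈ f i, ∀ t' ∈ f i', s(τ t a, τ t b) ≠ s(τ t' a, τ t' b))
    (hA : ∀ t ∈ A, ∃ i, t ∈ f i ∧ P i t)
    (H : Finset (Sym2 V)) (hH : H.Nonempty) (ρ : ℕ) (hρ : 2 ≤ ρ) (c : ℕ → ℝ)
    (hr : ∀ l < ρ, ∀ h ∈ H, ∃ t ∈ A, c l < t ∧ t ≤ c (l + 1) ∧ s(τ t a, τ t b) = h) :
    ∃ i, ∀ l < ρ, ∀ h ∈ H, ∃ t ∈ f i, c l < t ∧ t ≤ c (l + 1) ∧ s(τ t a, τ t b) = h ∧ P i t := by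
  have h1 : ∀ l < ρ, ∀ h ∈ H, ∃ i, ∃ t ∈ f i, c l < t ∧ t ≤ c (l + 1) ∧ s(τ t a, τ t b) = h ∧ P i t := by
    intro l hl h hh
    obtain ⟨t, htA, h2, h3, h4⟩ := hr l hl h hh
    obtain ⟨i, hi, hP⟩ := hA t htA
    exact ⟨i, t, hi, h2, h3, h4, hP⟩
  obtain ⟨h0, hh0⟩ := hH
  obtain ⟨i, t0, ht0, hi1, hi2, hi3, -⟩ := h1 0 (by omega) h0 hh0
  refine ⟨i, ?_⟩
  -- all elements with pair `h0` are in the piece `i`
  have hsame : ∀ j, ∀ t ∈ f j, ∀ j', ∀ t' ∈ f j', s(τ t a, τ t b) = s(τ t' a, τ t' b) → j = j' := by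
    intro j t ht j' t' ht' he
    by_contra hne
    exact hdis j j' hne t ht t' ht' he
  have hall : ∀ h ∈ H, ∀ j, ∀ t ∈ f j, s(τ t a, τ t b) = h → j = i := by
    intro h hh j t ht he
    by_contra hne
    obtain ⟨j1, t1, ht1, a1, a2, a3, -⟩ := h1 0 (by omega) h hh
    obtain ⟨j2, t2, ht2, b1, b2, b3, -⟩ := h1 1 (by omega) h hh
    obtain ⟨j3, t3, ht3, d1, d2, d3, -⟩ := h1 1 (by omega) h0 hh0
    have e1 : j1 = j := hsame j1 t1 ht1 j t ht (by rw [a3, he])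
    have e2 : j2 = j := hsame j2 t2 ht2 j t ht (by rw [b3, he])
    have e3 : j3 = i := hsame j3 t3 ht3 i t0 ht0 (by rw [d3, hi3])
    subst e1
    subst e3
    rw [e2] at ht2
    rcases hsep j1 j3 hne with h | h
    · have := h t2 ht2 t0 ht0
      simp only [zero_add] at hi2
      linarith
    · have := h t1 ht1 t3 ht3
      simp only [zero_add] at a2
      linarith
  intro l hl h hh
  obtain ⟨j, t, ht, g1, g2, g3, g4⟩ := h1 l hl h hh
  have := hall h hh j t ht g3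
  subst this
  exact ⟨t, ht, g1, g2, g3, g4⟩

theorem lose_lo {V : Type} {k : ℕ} (τ : ℝ → Fin k → V) (T A : Finset ℝ) (a b : Fin k) {ι : Type}
    (f : ι → Finset ℝ) (c : ι → ℝ) (hfT : ∀ i, f i ⊆ T)
    (hsep : ∀ i i', i ≠ i' → (∀ t ∈ f i, ∀ t' ∈ f i', t < t') ∨ (∀ t ∈ f i, ∀ t' ∈ f i', t' < t))
    (hdis : ∀ i i', i ≠ i' → ∀ t ∈ f i, ∀ t' ∈ f i', s(τ t a, τ t b) ≠ s(τ t' a, τ t' b))
    (hA : ∀ t ∈ A, ∃ i, t ∈ f i ∧ t ≤ c i ∧ ∃ t' ∈ f i, c i < t' ∧ s(τ t' a, τ t' b) = s(τ t a, τ t b))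
    (H : Finset (Sym2 V)) (hH : H.Nonempty) (ρ : ℕ) (hρ : 2 ≤ ρ) (hr : Rounds τ A a b H ρ) :
    Rounds τ T a b H (ρ + 1) := by
  obtain ⟨c', hc', hr⟩ := hr
  obtain ⟨i, hi⟩ := Lose_piece τ A a b f
    (fun i t => t ≤ c i ∧ ∃ t' ∈ f i, c i < t' ∧ s(τ t' a, τ t' b) = s(τ t a, τ t b)) hsep hdis hA
    H hH ρ hρ c' hr
  obtain ⟨h0, hh0⟩ := hH
  obtain ⟨B0, hB0⟩ := T.bddAbove
  have hB0' : ∀ t ∈ T, t ≤ B0 := fun t ht => hB0 (Finset.mem_coe.mpr ht)
  set B := max B0 (c i) with hB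
  have hTB : ∀ t ∈ T, t ≤ B := fun t ht => (hB0' t ht).trans (le_max_left _ _)
  have hcB : c i ≤ B := le_max_right _ _
  obtain ⟨tl, htl, k1, k2, k3, k4, -⟩ := hi (ρ - 1) (by omega) h0 hh0
  refine ⟨fun l => if l < ρ then c' l else if l = ρ then c i else B + ((l : ℝ) - ρ), ?_, ?_⟩
  · apply strictMono_nat_of_lt_succ
    intro l
    by_cases h1 : l + 1 < ρ
    · rw [if_pos (by omega : l < ρ), if_pos h1]
      exact hc' (Nat.lt_succ_self l)
    by_cases h2 : l + 1 = ρ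
    · rw [if_pos (by omega : l < ρ), if_neg h1, if_pos h2]
      have : l = ρ - 1 := by omega
      rw [this]
      exact k1.trans_le k4
    by_cases h3 : l = ρ
    · rw [if_neg (by omega), if_pos h3, if_neg h1, if_neg h2, h3]
      push_cast
      linarith
    · rw [if_neg (by omega), if_neg h3, if_neg h1, if_neg h2]
      push_cast
      linarith
  · intro l hl h hh
    beta_reduce
    by_cases h1 : l + 1 < ρ
    · obtain ⟨t, ht, a1, a2, a3, -⟩ := hi l (by omega) h hh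
      refine ⟨t, hfT i ht, ?_, ?_, a3⟩
      · rw [if_pos (by omega : l < ρ)]; exact a1
      · rw [if_pos h1]; exact a2
    by_cases h2 : l + 1 = ρ
    · obtain ⟨t, ht, a1, a2, a3, a4, -⟩ := hi l (by omega) h hh
      refine ⟨t, hfT i ht, ?_, ?_, a3⟩
      · rw [if_pos (by omega : l < ρ)]; exact a1
      · rw [if_neg h1, if_pos h2]; exact a4
    · have h3 : l = ρ := by omega
      obtain ⟨t, ht, a1, a2, a3, a4, t', ht', b1, b2⟩ := hi 0 (by omega) h hh
      refine ⟨t', hfT i ht', ?_, ?_, b2.trans a3⟩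
      · rw [if_neg (by omega), if_pos h3]; exact b1
      · rw [if_neg h1, if_neg h2, h3]
        have := hTB t' (hfT i ht')
        push_cast
        linarith

theorem lose_hi {V : Type} {k : ℕ} (τ : ℝ → Fin k → V) (T A : Finset ℝ) (a b : Fin k) {ι : Type}
    (f : ι → Finset ℝ) (c : ι → ℝ) (hfT : ∀ i, f i ⊆ T)
    (hsep : ∀ i i', i ≠ i' → (∀ t ∈ f i, ∀ t' ∈ f i', t < t') ∨ (∀ t ∈ f i, ∀ t' ∈ f i', t' < t))
    (hdis : ∀ i i', i ≠ i' → ∀ t ∈ f i, ∀ t' ∈ f i', s(τ t a, τ t b) ≠ s(τ t' a, τ t' b))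
    (hA : ∀ t ∈ A, ∃ i, t ∈ f i ∧ c i < t ∧ ∃ t' ∈ f i, t' ≤ c i ∧ s(τ t' a, τ t' b) = s(τ t a, τ t b))
    (H : Finset (Sym2 V)) (hH : H.Nonempty) (ρ : ℕ) (hρ : 2 ≤ ρ) (hr : Rounds τ A a b H ρ) :
    Rounds τ T a b H (ρ + 1) := by
  obtain ⟨c', hc', hr⟩ := hr
  obtain ⟨i, hi⟩ := Lose_piece τ A a b f
    (fun i t => c i < t ∧ ∃ t' ∈ f i, t' ≤ c i ∧ s(τ t' a, τ t' b) = s(τ t a, τ t b)) hsep hdis hA
    H hH ρ hρ c' hr
  obtain ⟨h0, hh0⟩ := hH
  obtain ⟨B0, hB0⟩ := T.bddBelow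
  have hB0' : ∀ t ∈ T, B0 ≤ t := fun t ht => hB0 (Finset.mem_coe.mpr ht)
  set B := min B0 (c i) with hB
  have hTB : ∀ t ∈ T, B ≤ t := fun t ht => (min_le_left _ _).trans (hB0' t ht)
  have hcB : B ≤ c i := min_le_right _ _
  obtain ⟨tl, htl, k1, k2, k3, k4, -⟩ := hi 0 (by omega) h0 hh0
  have hk : c i < c' 1 := by
    have : c' (0 + 1) = c' 1 := rfl
    rw [this] at k2
    exact k4.trans_le k2
  refine ⟨fun l => if l = 0 then B - 1 else if l = 1 then c i else c' (l - 1), ?_, ?_⟩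
  · apply strictMono_nat_of_lt_succ
    intro l
    by_cases h1 : l = 0
    · subst h1
      simp only [if_true, zero_add, one_ne_zero, if_false]
      linarith
    by_cases h2 : l = 1
    · subst h2
      simp only [one_ne_zero, if_false, if_true]
      rw [if_neg (by omega), if_neg (by omega)]
      exact hk
    · rw [if_neg h1, if_neg h2, if_neg (by omega), if_neg (by omega)]
      exact hc' (by omega)
  · intro l hl h hh
    beta_reduce
    by_cases h1 : l = 0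
    · subst h1
      obtain ⟨t, ht, a1, a2, a3, a4, t', ht', b1, b2⟩ := hi 0 (by omega) h hh
      refine ⟨t', hfT i ht', ?_, ?_, b2.trans a3⟩
      · have := hTB t' (hfT i ht')
        simp only [if_true]
        linarith
      · simpa using b1
    by_cases h2 : l = 1
    · subst h2
      obtain ⟨t, ht, a1, a2, a3, a4, -⟩ := hi 0 (by omega) h hh
      refine ⟨t, hfT i ht, ?_, ?_, a3⟩
      · simpa using a4
      · rw [if_neg (by omega), if_neg (by omega)]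
        exact a2
    · obtain ⟨t, ht, a1, a2, a3, -⟩ := hi (l - 1) (by omega) h hh
      refine ⟨t, hfT i ht, ?_, ?_, a3⟩
      · rw [if_neg h1, if_neg h2]; exact a1
      · rw [if_neg (by omega), if_neg (by omega)]
        have : l - 1 + 1 = l + 1 - 1 := by omega
        rw [this] at a2
        exact a2

end Pool.Agent.KDT
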