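import Pool.Agent.KDT.Med
import Pool.Agent.KDT.Lose

/-!
# Comb: the combinatorial heart (helper37)

Induction on the total number `s` of allowed rounds; inside, induction on the depth `l` of splittings of families of pieces
which are separated in time and have disjoint pairs. The lost elements of type `e` of all pieces together have one round less
(`r e ≥ 2`), or lie over an orientable graph (`r e = 1`).
-/

set_option autoImplicit false

namespace Pool.Agent.KDT

open Finset

private theorem rem_eq {V : Type} {k : ℕ} (b : Fin (k + 1)) (x y : Fin (k + 1) → V)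
    (h : b.removeNth x = b.removeNth y) (a : Fin (k + 1)) (hab : a ≠ b) : x a = y a := by
  obtain ⟨a', rfl⟩ := Fin.exists_succAbove_eq hab
  exact congrFun h a'

private theorem half_count {V : Type} [DecidableEq V] {k : ℕ} (τ : ℝ → Fin (k + 1) → V) (p : Finset ℝ)
    (hinj : Set.InjOn τ p) (a b : Fin (k + 1)) (hab : a ≠ b) (O : V → Finset V) (D : ℕ) (hO : ∀ v, (O v).card ≤ D) :
    (p.filter (fun t => τ t b ∈ O (τ t a))).card ≤ D * (p.image (fun t => b.removeNth (τ t))).card := by
  classical
  refine (Finset.card_le_mul_card_image (f := fun t => b.removeNth (τ t)) _ D ?_).trans ?_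
  · intro σ hσ
    obtain ⟨t0, ht0, rfl⟩ := Finset.mem_image.1 hσ
    refine le_trans ?_ (hO (τ t0 a))
    refine Finset.card_le_card_of_injOn (fun t => τ t b) ?_ ?_
    · intro t ht
      simp only [coe_filter, Set.mem_ofPred_eq, mem_filter] at ht
      have := rem_eq b _ _ ht.2 a hab
      simp only [mem_coe]
      rw [← this]
      exact ht.1.2
    · intro t ht t' ht' h
      simp only [coe_filter, Set.mem_ofPred_eq, mem_filter] at ht ht'
      refine hinj ht.1.1 ht'.1.1 ?_
      funext j
      by_cases hj : j = b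
      · rw [hj]; exact h
      · exact rem_eq b _ _ (ht.2.trans ht'.2.symm) j hj
  · refine Nat.mul_le_mul_left _ (Finset.card_le_card ?_)
    exact Finset.image_subset_image (Finset.filter_subset _ _)

private theorem orient_count {V : Type} [DecidableEq V] {k : ℕ} (τ : ℝ → Fin (k + 1) → V) (p : Finset ℝ)
    (hinj : Set.InjOn τ p) (a b : Fin (k + 1)) (hab : a ≠ b) (G : Finset (Sym2 V)) (D : ℕ) (hG : Orientable G D) :
    (p.filter (fun t => s(τ t a, τ t b) ∈ G)).card ≤
      D * (p.image (fun t => b.removeNth (τ t))).card + D * (p.image (fun t => a.removeNth (τ t))).card := by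
  classical
  obtain ⟨O, hO, hO2⟩ := hG
  have h1 := half_count τ p hinj a b hab O D hO
  have h2 := half_count τ p hinj b a hab.symm O D hO
  have h3 : (p.filter (fun t => s(τ t a, τ t b) ∈ G)) ⊆
      (p.filter (fun t => τ t b ∈ O (τ t a))) ∪ (p.filter (fun t => τ t a ∈ O (τ t b))) := by
    intro t ht
    simp only [mem_filter, mem_union] at ht ⊢
    rcases hO2 _ _ ht.2 with h | h
    · exact Or.inl ⟨ht.1, h⟩
    · exact Or.inr ⟨ht.1, h⟩
  exact (Finset.card_le_card h3).trans ((Finset.card_union_le _ _).trans (Nat.add_le_add h1 h2))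

private theorem rounds_mono {V : Type} {k : ℕ} (τ : ℝ → Fin k → V) (A T : Finset ℝ) (h : A ⊆ T) (a b : Fin k)
    (H : Finset (Sym2 V)) (ρ : ℕ) (hr : Rounds τ A a b H ρ) : Rounds τ T a b H ρ := by
  obtain ⟨c, hc, h2⟩ := hr
  refine ⟨c, hc, fun l hl x hx => ?_⟩
  obtain ⟨t, ht, h3⟩ := h2 l hl x hx
  exact ⟨t, h ht, h3⟩

/-- two windows from a split -/
private theorem rounds_two {V : Type} [DecidableEq V] {k : ℕ} (τ : ℝ → Fin k → V) (T p : Finset ℝ) (hp : p ⊆ T)
    (a b : Fin k) (c : ℝ) (H : Finset (Sym2 V))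
    (h1 : ∀ x ∈ H, ∃ t ∈ p, t ≤ c ∧ s(τ t a, τ t b) = x) (h2 : ∀ x ∈ H, ∃ t ∈ p, c < t ∧ s(τ t a, τ t b) = x) :
    Rounds τ T a b H 2 := by
  obtain ⟨lo, hlo⟩ : ∃ lo : ℝ, ∀ t ∈ p, lo < t := by
    obtain ⟨m, hm⟩ := p.bddBelow
    exact ⟨m - 1, fun t ht => by have := hm ht; linarith⟩
  obtain ⟨hi, hhi⟩ : ∃ hi : ℝ, ∀ t ∈ p, t ≤ hi := by
    obtain ⟨m, hm⟩ := p.bddAbove
    exact ⟨m, fun t ht => hm ht⟩
  refine ⟨fun l => if l = 0 then min lo (c - 1) else if l = 1 then c else max hi c + l, ?_, ?_⟩
  · refine strictMono_nat_of_lt_succ ?_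
    intro l
    rcases l with _ | _ | l
    · simp
    · simp
      have := le_max_right hi c
      linarith
    · simp
  · intro l hl x hx
    have : l = 0 ∨ l = 1 := by omega
    rcases this with rfl | rfl
    · obtain ⟨t, ht, h3, h4⟩ := h1 x hx
      refine ⟨t, hp ht, ?_, ?_, h4⟩
      · simp only [if_true]
        exact lt_of_le_of_lt (min_le_left _ _) (hlo t ht)
      · simpa using h3
    · obtain ⟨t, ht, h3, h4⟩ := h2 x hx
      refine ⟨t, hp ht, ?_, ?_, h4⟩
      · simpa using h3
      · simp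
        have := hhi t ht
        have := le_max_left hi c
        linarith

private def Sepd {ι : Type} (f : ι → Finset ℝ) : Prop :=
  ∀ i i', i ≠ i' → (∀ t ∈ f i, ∀ t' ∈ f i', t < t') ∨ (∀ t ∈ f i, ∀ t' ∈ f i', t' < t)

private def Disj {V : Type} {k : ℕ} (τ : ℝ → Fin k → V) (a b : Fin k) {ι : Type} (f : ι → Finset ℝ) : Prop :=
  ∀ i i', i ≠ i' → ∀ t ∈ f i, ∀ t' ∈ f i', s(τ t a, τ t b) ≠ s(τ t' a, τ t' b)

/-- the images under deletion of a coordinate are disjoint -/
private theorem sum_del {V : Type} [DecidableEq V] {k : ℕ} (hk : 2 ≤ k) (τ : ℝ → Fin (k + 1) → V) (T : Finset ℝ)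
    {ι : Type} [Fintype ι] (f : ι → Finset ℝ) (hf : ∀ i, f i ⊆ T)
    (hdis : ∀ a b : Fin (k + 1), a < b → Disj τ a b f) (j : Fin (k + 1)) :
    ∑ i, ((f i).image (fun t => j.removeNth (τ t))).card ≤ (T.image (fun t => j.removeNth (τ t))).card := by
  classical
  rw [← Finset.card_biUnion]
  · refine Finset.card_le_card ?_
    intro σ hσ
    obtain ⟨i, _, hi⟩ := Finset.mem_biUnion.1 hσ
    exact Finset.image_subset_image (hf i) hi
  · intro i _ i' _ hne
    rw [Function.onFun, Finset.disjoint_left]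
    intro σ h1 h2
    obtain ⟨t, ht, rfl⟩ := Finset.mem_image.1 h1
    obtain ⟨t', ht', h3⟩ := Finset.mem_image.1 h2
    -- two indices different from j
    obtain ⟨a, b, hab, haj, hbj⟩ : ∃ a b : Fin (k + 1), a < b ∧ a ≠ j ∧ b ≠ j := by
      refine ⟨j.succAbove ⟨0, by omega⟩, j.succAbove ⟨1, by omega⟩, ?_, Fin.succAbove_ne _ _, Fin.succAbove_ne _ _⟩
      exact Fin.strictMono_succAbove j (by simp [Fin.lt_def])
    have e1 := rem_eq j _ _ h3 a haj
    have e2 := rem_eq j _ _ h3 b hbj
    exact hdis a b hab i i' hne t ht t' ht' (by rw [e1, e2])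

private def tys (k : ℕ) : Finset (Fin (k + 1) × Fin (k + 1)) := Finset.univ.filter (fun e => e.1 < e.2)

private theorem base_case {V : Type} [Fintype V] [DecidableEq V] {k : ℕ} (hk : 2 ≤ k) (τ : ℝ → Fin (k + 1) → V)
    {ι : Type} [Fintype ι] (f : ι → Finset ℝ) (hdis : ∀ a b : Fin (k + 1), a < b → Disj τ a b f)
    (h1 : ∀ i, (f i).card ≤ 1) : ∑ i, (f i).card ≤ Fintype.card V ^ 2 := by
  classical
  have hlt : (⟨0, by omega⟩ : Fin (k + 1)) < ⟨1, by omega⟩ := by simp [Fin.lt_def]
  have hd := hdis _ _ hlt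
  rw [← Finset.card_biUnion]
  · have : (univ.biUnion f).card ≤ (Finset.univ : Finset (V × V)).card := by
      refine Finset.card_le_card_of_injOn (fun t => (τ t ⟨0, by omega⟩, τ t ⟨1, by omega⟩))
        (fun _ _ => Finset.mem_coe.2 (Finset.mem_univ _)) ?_
      intro t ht t' ht' h
      simp only [coe_biUnion, coe_univ, Set.mem_univ, Set.iUnion_true, Set.mem_iUnion, mem_coe] at ht ht'
      obtain ⟨i, hi⟩ := ht
      obtain ⟨i', hi'⟩ := ht'
      by_cases hii : i = i'
      · subst hii
        exact Finset.card_le_one.1 (h1 i) t hi t' hi'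
      · exfalso
        refine hd i i' hii t hi t' hi' ?_
        simp only [Prod.mk.injEq] at h
        rw [h.1, h.2]
    refine this.trans (le_of_eq ?_)
    rw [Finset.card_univ, Fintype.card_prod, sq]
  · intro i _ i' _ hne
    rw [Function.onFun, Finset.disjoint_left]
    intro t ht ht'
    exact hd i i' hne t ht t ht' rfl


/-- the bound for the lost elements of one type -/
private theorem lost_bound {V : Type} [Fintype V] [DecidableEq V] (k : ℕ) (hk : 2 ≤ k)
    (Bs : Set (Finset (Sym2 V))) (D : ℕ) (hB : SparseHyp Bs D)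
    (τ : ℝ → Fin (k + 1) → V) (T : Finset ℝ) (hinj : Set.InjOn τ T) (hτ : ∀ t ∈ T, Function.Injective (τ t))
    (M X Y : ℕ) (hM : ∀ j : Fin (k + 1), (T.image (fun t => j.removeNth (τ t))).card ≤ M)
    (hX' : 2 * D * M ≤ X) (hXY : X ≤ Y)
    (r : Fin (k + 1) × Fin (k + 1) → ℕ) (hr1 : ∀ e ∈ tys k, 1 ≤ r e) (T' : Finset ℝ) (hT' : T' ⊆ T)
    (hR : ∀ e ∈ tys k, ∀ H ∈ Bs, ¬ Rounds τ T' e.1 e.2 H (r e + 1))
    (e : Fin (k + 1) × Fin (k + 1)) (he : e ∈ tys k)
    (IH : 2 ≤ r e → ∀ A ⊆ T', (∀ e' ∈ tys k, ∀ H ∈ Bs,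
      ¬ Rounds τ A e'.1 e'.2 H (Function.update r e (r e - 1) e' + 1)) → A.card ≤ Y)
    {ι : Type} [Fintype ι] (f : ι → Finset ℝ) (hf : ∀ i, f i ⊆ T') (hsep : Sepd f)
    (hdis : ∀ a b : Fin (k + 1), a < b → Disj τ a b f) (c : ι → ℝ) :
    ∑ i, ((f i).filter (fun t => t ≤ c i ∧ ∃ t' ∈ f i, c i < t' ∧ s(τ t' e.1, τ t' e.2) = s(τ t e.1, τ t e.2))).card
    + ∑ i, ((f i).filter (fun t => c i < t ∧ ∃ t' ∈ f i, t' ≤ c i ∧ s(τ t' e.1, τ t' e.2) = s(τ t e.1, τ t e.2))).card
      ≤ 2 * Y := by
  classical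
  have hlt : e.1 < e.2 := (Finset.mem_filter.1 he).2
  have hdisj : ∀ i i', i ≠ i' → ∀ t, t ∈ f i → t ∉ f i' := by
    intro i i' hne t ht ht'
    exact hdis _ _ hlt i i' hne t ht t ht' rfl
  rcases Nat.lt_or_ge (r e) 2 with h2 | h2
  · -- one round only: orientable graphs
    have hre : r e = 1 := by have := hr1 e he; omega
    have key : ∀ i, ((f i).filter (fun t => t ≤ c i ∧ ∃ t' ∈ f i, c i < t' ∧ s(τ t' e.1, τ t' e.2) = s(τ t e.1, τ t e.2))).card
      + ((f i).filter (fun t => c i < t ∧ ∃ t' ∈ f i, t' ≤ c i ∧ s(τ t' e.1, τ t' e.2) = s(τ t e.1, τ t e.2))).card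
      ≤ D * ((f i).image (fun t => e.2.removeNth (τ t))).card + D * ((f i).image (fun t => e.1.removeNth (τ t))).card := by
      intro i
      set G : Finset (Sym2 V) := ((f i).filter (fun t => t ≤ c i)).image (fun t => s(τ t e.1, τ t e.2)) ∩
        ((f i).filter (fun t => c i < t)).image (fun t => s(τ t e.1, τ t e.2)) with hG
      have hGo : Orientable G D := by
        refine hB.2 G ?_ ?_
        · intro x hx
          obtain ⟨t, ht, rfl⟩ := Finset.mem_image.1 (Finset.mem_inter.1 hx).1
          simp only [Sym2.mk_isDiag_iff]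
          intro h
          exact hlt.ne (hτ t (hT' (hf i (Finset.mem_filter.1 ht).1)) h)
        · intro H hH hHG
          refine hR e he H hH ?_
          rw [hre]
          refine rounds_two τ T' (f i) (hf i) e.1 e.2 (c i) H ?_ ?_
          · intro x hx
            obtain ⟨t, ht, h⟩ := Finset.mem_image.1 (Finset.mem_inter.1 (hHG hx)).1
            exact ⟨t, (Finset.mem_filter.1 ht).1, (Finset.mem_filter.1 ht).2, h⟩
          · intro x hx
            obtain ⟨t, ht, h⟩ := Finset.mem_image.1 (Finset.mem_inter.1 (hHG hx)).2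
            exact ⟨t, (Finset.mem_filter.1 ht).1, (Finset.mem_filter.1 ht).2, h⟩
      refine le_trans ?_ (orient_count τ (f i) (hinj.mono (fun t ht => hT' (hf i ht))) e.1 e.2 hlt.ne G D hGo)
      rw [← Finset.card_union_of_disjoint]
      · refine Finset.card_le_card ?_
        intro t ht
        simp only [mem_union, mem_filter] at ht
        rw [mem_filter, hG, mem_inter, mem_image, mem_image]
        rcases ht with ⟨ht, hc, t', ht', hc', he'⟩ | ⟨ht, hc, t', ht', hc', he'⟩
        · exact ⟨ht, ⟨t, Finset.mem_filter.2 ⟨ht, hc⟩, rfl⟩, ⟨t', Finset.mem_filter.2 ⟨ht', hc'⟩, he'⟩⟩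
        · exact ⟨ht, ⟨t', Finset.mem_filter.2 ⟨ht', hc'⟩, he'⟩, ⟨t, Finset.mem_filter.2 ⟨ht, hc⟩, rfl⟩⟩
      · rw [Finset.disjoint_left]
        intro t h1 h2
        have := (Finset.mem_filter.1 h1).2.1
        have := (Finset.mem_filter.1 h2).2.1
        linarith
    rw [← Finset.sum_add_distrib]
    refine (Finset.sum_le_sum (fun i _ => key i)).trans ?_
    rw [Finset.sum_add_distrib, ← Finset.mul_sum, ← Finset.mul_sum]
    have hfT : ∀ i, f i ⊆ T := fun i => (hf i).trans hT'
    have m1 := (sum_del hk τ T f hfT hdis e.2).trans (hM e.2)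
    have m2 := (sum_del hk τ T f hfT hdis e.1).trans (hM e.1)
    have m3 : D * (∑ i, ((f i).image (fun t => e.2.removeNth (τ t))).card) ≤ D * M := Nat.mul_le_mul_left _ m1
    have m4 : D * (∑ i, ((f i).image (fun t => e.1.removeNth (τ t))).card) ≤ D * M := Nat.mul_le_mul_left _ m2
    have m5 : 2 * D * M = D * M + D * M := by ring
    omega
  · -- at least two rounds: one round is lost
    have hupd : ∀ A : Finset ℝ, A ⊆ T' → (∀ H ∈ Bs, Rounds τ A e.1 e.2 H (r e) → Rounds τ T' e.1 e.2 H (r e + 1)) →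
        A.card ≤ Y := by
      intro A hA hlose
      refine IH h2 A hA ?_
      intro e' he' H hH hRo
      by_cases hee : e' = e
      · subst hee
        rw [Function.update_self] at hRo
        have h3 : r e' - 1 + 1 = r e' := by omega
        rw [h3] at hRo
        exact hR e' he' H hH (hlose H hH hRo)
      · rw [Function.update_of_ne hee] at hRo
        exact hR e' he' H hH (rounds_mono τ A T' hA _ _ H _ hRo)
    have b1 : ∑ i, ((f i).filter (fun t => t ≤ c i ∧ ∃ t' ∈ f i, c i < t' ∧ s(τ t' e.1, τ t' e.2) = s(τ t e.1, τ t e.2))).card ≤ Y := by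
      rw [← Finset.card_biUnion]
      · refine hupd _ ?_ ?_
        · intro t ht
          obtain ⟨i, _, hi⟩ := Finset.mem_biUnion.1 ht
          exact hf i (Finset.mem_filter.1 hi).1
        · intro H hH hRo
          refine lose_lo τ T' _ e.1 e.2 f c hf hsep (hdis _ _ hlt) ?_ H (hB.1 H hH) (r e) h2 hRo
          intro t ht
          obtain ⟨i, _, hi⟩ := Finset.mem_biUnion.1 ht
          obtain ⟨h3, h4, h5⟩ := Finset.mem_filter.1 hi
          exact ⟨i, h3, h4, h5⟩
      · intro i _ i' _ hne
        rw [Function.onFun, Finset.disjoint_left]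
        intro t ht ht'
        exact hdisj i i' hne t (Finset.mem_filter.1 ht).1 (Finset.mem_filter.1 ht').1
    have b2 : ∑ i, ((f i).filter (fun t => c i < t ∧ ∃ t' ∈ f i, t' ≤ c i ∧ s(τ t' e.1, τ t' e.2) = s(τ t e.1, τ t e.2))).card ≤ Y := by
      rw [← Finset.card_biUnion]
      · refine hupd _ ?_ ?_
        · intro t ht
          obtain ⟨i, _, hi⟩ := Finset.mem_biUnion.1 ht
          exact hf i (Finset.mem_filter.1 hi).1
        · intro H hH hRo
          refine lose_hi τ T' _ e.1 e.2 f c hf hsep (hdis _ _ hlt) ?_ H (hB.1 H hH) (r e) h2 hRo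
          intro t ht
          obtain ⟨i, _, hi⟩ := Finset.mem_biUnion.1 ht
          obtain ⟨h3, h4, h5⟩ := Finset.mem_filter.1 hi
          exact ⟨i, h3, h4, h5⟩
      · intro i _ i' _ hne
        rw [Function.onFun, Finset.disjoint_left]
        intro t ht ht'
        exact hdisj i i' hne t (Finset.mem_filter.1 ht).1 (Finset.mem_filter.1 ht').1
    omega

/-- inner induction -/
private theorem inner {V : Type} [Fintype V] [DecidableEq V] (k : ℕ) (hk : 2 ≤ k)
    (Bs : Set (Finset (Sym2 V))) (D : ℕ) (hB : SparseHyp Bs D)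
    (τ : ℝ → Fin (k + 1) → V) (T : Finset ℝ) (hinj : Set.InjOn τ T) (hτ : ∀ t ∈ T, Function.Injective (τ t))
    (M X Y : ℕ) (hM : ∀ j : Fin (k + 1), (T.image (fun t => j.removeNth (τ t))).card ≤ M)
    (hX : Fintype.card V ^ 2 ≤ X) (hX' : 2 * D * M ≤ X) (hXY : X ≤ Y)
    (r : Fin (k + 1) × Fin (k + 1) → ℕ) (hr1 : ∀ e ∈ tys k, 1 ≤ r e) (T' : Finset ℝ) (hT' : T' ⊆ T)
    (hR : ∀ e ∈ tys k, ∀ H ∈ Bs, ¬ Rounds τ T' e.1 e.2 H (r e + 1))
    (IH : ∀ e ∈ tys k, 2 ≤ r e → ∀ A ⊆ T', (∀ e' ∈ tys k, ∀ H ∈ Bs,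
      ¬ Rounds τ A e'.1 e'.2 H (Function.update r e (r e - 1) e' + 1)) → A.card ≤ Y) (l : ℕ) :
    ∀ (ι : Type) [Fintype ι] (f : ι → Finset ℝ), (∀ i, f i ⊆ T') → Sepd f →
      (∀ a b : Fin (k + 1), a < b → Disj τ a b f) → (∀ i, (f i).card ≤ 2 ^ l) →
      ∑ i, (f i).card ≤ X + l * ((tys k).card * (2 * Y)) := by
  classical
  induction l with
  | zero =>
    intro ι _ f hf hsep hdis hc
    simpa using (base_case hk τ f hdis (fun i => by simpa using hc i)).trans hX
  | succ l ih =>
    intro ι _ f hf hsep hdis hc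
    choose c hc1 hc2 using fun i => median (f i) (2 ^ l) (by have := hc i; rwa [pow_succ, mul_comm] at this)
    -- lost elements
    set LL : Fin (k + 1) × Fin (k + 1) → ι → Finset ℝ := fun e i =>
      (f i).filter (fun t => t ≤ c i ∧ ∃ t' ∈ f i, c i < t' ∧ s(τ t' e.1, τ t' e.2) = s(τ t e.1, τ t e.2)) with hLL
    set LH : Fin (k + 1) × Fin (k + 1) → ι → Finset ℝ := fun e i =>
      (f i).filter (fun t => c i < t ∧ ∃ t' ∈ f i, t' ≤ c i ∧ s(τ t' e.1, τ t' e.2) = s(τ t e.1, τ t e.2)) with hLH
    set g : ι × Bool → Finset ℝ := fun x => if x.2 then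
        (f x.1).filter (fun t => c x.1 < t ∧ ∀ e ∈ tys k, t ∉ LH e x.1)
      else (f x.1).filter (fun t => t ≤ c x.1 ∧ ∀ e ∈ tys k, t ∉ LL e x.1) with hg
    have hgf : ∀ x, g x ⊆ f x.1 := by
      intro x
      simp only [hg]
      split_ifs <;> exact Finset.filter_subset _ _
    have hgt : ∀ i t, t ∈ g (i, true) → c i < t ∧ ∀ e ∈ tys k, t ∉ LH e i := by
      intro i t ht
      simp only [hg, if_true] at ht
      exact (Finset.mem_filter.1 ht).2
    have hgl : ∀ i t, t ∈ g (i, false) → t ≤ c i ∧ ∀ e ∈ tys k, t ∉ LL e i := by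
      intro i t ht
      simp only [hg, Bool.false_eq_true, if_false] at ht
      exact (Finset.mem_filter.1 ht).2
    have h1 := ih (ι × Bool) g (fun x => (hgf x).trans (hf x.1)) ?_ ?_ ?_
    · -- conclusion
      have hsum : ∑ i, (f i).card ≤ ∑ x : ι × Bool, (g x).card + ∑ e ∈ tys k, (∑ i, (LL e i).card + ∑ i, (LH e i).card) := by
        have hi : ∀ i, (f i).card ≤ ((g (i, true)).card + (g (i, false)).card) +
            ∑ e ∈ tys k, ((LL e i).card + (LH e i).card) := by
          intro i
          have hsub : f i ⊆ (g (i, true) ∪ g (i, false)) ∪ (tys k).biUnion (fun e => LL e i ∪ LH e i) := by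
            intro t ht
            by_cases hlost : ∃ e ∈ tys k, t ∈ LL e i ∪ LH e i
            · exact Finset.mem_union_right _ (Finset.mem_biUnion.2 hlost)
            · push Not at hlost
              refine Finset.mem_union_left _ ?_
              rcases le_or_gt t (c i) with h | h
              · refine Finset.mem_union_right _ ?_
                simp only [hg, Bool.false_eq_true, if_false]
                exact Finset.mem_filter.2 ⟨ht, h, fun e he hh => hlost e he (Finset.mem_union_left _ hh)⟩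
              · refine Finset.mem_union_left _ ?_
                simp only [hg, if_true]
                exact Finset.mem_filter.2 ⟨ht, h, fun e he hh => hlost e he (Finset.mem_union_right _ hh)⟩
          refine (Finset.card_le_card hsub).trans ((Finset.card_union_le _ _).trans ?_)
          refine Nat.add_le_add (Finset.card_union_le _ _) ?_
          refine Finset.card_biUnion_le.trans (Finset.sum_le_sum (fun e _ => Finset.card_union_le _ _))
        refine (Finset.sum_le_sum (fun i _ => hi i)).trans (le_of_eq ?_)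
        rw [Finset.sum_add_distrib]
        congr 1
        · rw [Fintype.sum_prod_type]
          refine Finset.sum_congr rfl (fun i _ => ?_)
          rw [Fintype.sum_bool]
        · rw [Finset.sum_comm]
          refine Finset.sum_congr rfl (fun e _ => ?_)
          rw [Finset.sum_add_distrib]
      have hlost : ∑ e ∈ tys k, (∑ i, (LL e i).card + ∑ i, (LH e i).card) ≤ (tys k).card * (2 * Y) := by
        rw [← smul_eq_mul]
        refine Finset.sum_le_card_nsmul _ _ _ (fun e he => ?_)
        exact lost_bound k hk Bs D hB τ T hinj hτ M X Y hM hX' hXY r hr1 T' hT' hR e he (IH e he) f hf hsep hdis c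
      calc ∑ i, (f i).card ≤ _ := hsum
        _ ≤ (X + l * ((tys k).card * (2 * Y))) + (tys k).card * (2 * Y) := Nat.add_le_add h1 hlost
        _ = X + (l + 1) * ((tys k).card * (2 * Y)) := by ring
    · -- separation
      rintro ⟨i, b⟩ ⟨i', b'⟩ hne
      by_cases hii : i = i'
      · subst hii
        cases b <;> cases b'
        · exact absurd rfl hne
        · left
          intro t ht t' ht'
          exact lt_of_le_of_lt (hgl i t ht).1 (hgt i t' ht').1
        · right
          intro t ht t' ht'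
          exact lt_of_le_of_lt (hgl i t' ht').1 (hgt i t ht).1
        · exact absurd rfl hne
      · rcases hsep i i' hii with h | h
        · left
          intro t ht t' ht'
          exact h t (hgf _ ht) t' (hgf _ ht')
        · right
          intro t ht t' ht'
          exact h t (hgf _ ht) t' (hgf _ ht')
    · -- disjoint pairs
      intro a b hab
      have hmem : ((a, b) : Fin (k + 1) × Fin (k + 1)) ∈ tys k := by
        simp [tys, hab]
      rintro ⟨i, x⟩ ⟨i', x'⟩ hne t ht t' ht' heq
      by_cases hii : i = i'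
      · subst hii
        cases x <;> cases x'
        · exact absurd rfl hne
        · refine (hgl i t ht).2 (a, b) hmem ?_
          exact Finset.mem_filter.2 ⟨hgf _ ht, (hgl i t ht).1, t', hgf _ ht', (hgt i t' ht').1, heq.symm⟩
        · refine (hgl i t' ht').2 (a, b) hmem ?_
          exact Finset.mem_filter.2 ⟨hgf _ ht', (hgl i t' ht').1, t, hgf _ ht, (hgt i t ht).1, heq⟩
        · exact absurd rfl hne
      · exact hdis a b hab i i' hii t (hgf _ ht) t' (hgf _ ht') heq
    · -- cardinalities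
      rintro ⟨i, x⟩
      cases x
      · refine le_trans (Finset.card_le_card ?_) (hc1 i)
        intro t ht
        exact Finset.mem_filter.2 ⟨hgf _ ht, (hgl i t ht).1⟩
      · refine le_trans (Finset.card_le_card ?_) (hc2 i)
        intro t ht
        exact Finset.mem_filter.2 ⟨hgf _ ht, (hgt i t ht).1⟩

private theorem card_tys (k : ℕ) : (tys k).card * 2 = (k + 1) * k := by
  classical
  have h1 : ((Finset.univ : Finset (Fin (k + 1) × Fin (k + 1))).filter (fun e => e.2 < e.1)).card = (tys k).card := by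
    refine Finset.card_bij (fun e _ => (e.2, e.1)) ?_ ?_ ?_
    · intro e he
      simpa [tys] using he
    · intro e he e' he' h
      simp only [Prod.mk.injEq] at h
      exact Prod.ext h.2 h.1
    · intro e he
      exact ⟨(e.2, e.1), by simpa [tys] using he, rfl⟩
  have h2 : (Finset.univ : Finset (Fin (k + 1))).offDiag.card = (tys k).card + (tys k).card := by
    nth_rewrite 2 [← h1]
    rw [tys, ← Finset.card_union_of_disjoint]
    · congr 1
      ext e
      simp only [mem_offDiag, mem_univ, true_and, mem_union, mem_filter]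
      exact lt_or_lt_iff_ne.symm
    · rw [Finset.disjoint_left]
      intro e h1 h2
      exact lt_asymm (Finset.mem_filter.1 h1).2 (Finset.mem_filter.1 h2).2
  rw [Finset.offDiag_card, Finset.card_univ, Fintype.card_fin] at h2
  have h3 : (k + 1) * (k + 1) - (k + 1) = (k + 1) * k := by
    rw [Nat.mul_succ]; omega
  omega

/-- Main combinatorial theorem. `n = |V|`, tuples with `k + 1 ≥ 3` entries, `Ks` the set of types `(i,j)`, `i < j`. -/
theorem comb {V : Type} [Fintype V] [DecidableEq V] (k : ℕ) (hk : 2 ≤ k)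
    (Bs : Set (Finset (Sym2 V))) (D : ℕ) (hB : SparseHyp Bs D)
    (τ : ℝ → Fin (k + 1) → V) (T : Finset ℝ) (hinj : Set.InjOn τ T) (hτ : ∀ t ∈ T, Function.Injective (τ t))
    (N M L X : ℕ) (hN : 1 ≤ N) (hR : ∀ i j, i < j → ∀ H ∈ Bs, ¬ Rounds τ T i j H (N + 1))
    (hM : ∀ j : Fin (k + 1), (T.image (fun t => j.removeNth (τ t))).card ≤ M)
    (hL : T.card ≤ 2 ^ L) (hX : Fintype.card V ^ 2 ≤ X) (hX' : 2 * D * M ≤ X) :
    T.card ≤ X * (1 + k * (k + 1) * L) ^ (N * ((k + 1).choose 2)) := by
  classical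
  have hK := card_tys k
  have hKne : (tys k).card ≠ 0 := by
    intro h
    rw [h] at hK
    have : 0 < (k + 1) * k := Nat.mul_pos (by omega) (by omega)
    omega
  have hmain : ∀ s : ℕ, ∀ r : Fin (k + 1) × Fin (k + 1) → ℕ, (∀ e ∈ tys k, 1 ≤ r e) → ∑ e ∈ tys k, r e = s →
      ∀ T' ⊆ T, (∀ e ∈ tys k, ∀ H ∈ Bs, ¬ Rounds τ T' e.1 e.2 H (r e + 1)) →
        T'.card ≤ X * (1 + k * (k + 1) * L) ^ s := by
    intro s
    induction s with
    | zero =>
      intro r hr1 hs
      exfalso
      obtain ⟨e, he⟩ := Finset.card_ne_zero.1 hKne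
      have h1 := hr1 e he
      have h2 : r e ≤ ∑ e ∈ tys k, r e := Finset.single_le_sum (f := r) (fun _ _ => Nat.zero_le _) he
      omega
    | succ s ih =>
      intro r hr1 hs T' hT' hR'
      have hXY : X ≤ X * (1 + k * (k + 1) * L) ^ s :=
        Nat.le_mul_of_pos_right _ (Nat.pow_pos (by omega))
      have h1 := inner k hk Bs D hB τ T hinj hτ M X (X * (1 + k * (k + 1) * L) ^ s) hM hX hX' hXY r hr1 T' hT' hR' ?_ L
        Unit (fun _ => T') (fun _ => le_rfl) ?_ ?_ ?_
      · have h2 : T'.card ≤ X + L * ((tys k).card * (2 * (X * (1 + k * (k + 1) * L) ^ s))) := by simpa using h1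
        have h3 : (tys k).card * (2 * (X * (1 + k * (k + 1) * L) ^ s)) = k * (k + 1) * (X * (1 + k * (k + 1) * L) ^ s) := by
          rw [← mul_assoc, hK]; ring
        rw [h3] at h2
        calc T'.card ≤ X + L * (k * (k + 1) * (X * (1 + k * (k + 1) * L) ^ s)) := h2
          _ ≤ X * (1 + k * (k + 1) * L) ^ s + L * (k * (k + 1) * (X * (1 + k * (k + 1) * L) ^ s)) :=
            Nat.add_le_add_right hXY _
          _ = X * (1 + k * (k + 1) * L) ^ (s + 1) := by ring
      · intro e he h2 A hA hRA
        refine ih (Function.update r e (r e - 1)) ?_ ?_ A (hA.trans hT') hRA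
        · intro e' he'
          by_cases h : e' = e
          · subst h
            rw [Function.update_self]; omega
          · rw [Function.update_of_ne h]; exact hr1 e' he'
        · rw [Finset.sum_update_of_mem he]
          have h3 := Finset.sum_sdiff (f := r) (Finset.singleton_subset_iff.2 he)
          rw [Finset.sum_singleton] at h3
          omega
      · intro i i' hne
        exact absurd (Subsingleton.elim i i') hne
      · intro a b _ i i' hne
        exact absurd (Subsingleton.elim i i') hne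
      · intro _
        exact (Finset.card_le_card hT').trans hL
  have h := hmain (∑ e ∈ tys k, (fun _ => N) e) (fun _ => N) (fun _ _ => hN) rfl T le_rfl
    (fun e he H hH => hR e.1 e.2 (Finset.mem_filter.1 he).2 H hH)
  rw [Finset.sum_const, smul_eq_mul] at h
  have h4 : (tys k).card = (k + 1).choose 2 := by
    rw [Nat.choose_two_right]
    have : (k + 1) * (k + 1 - 1) = (k + 1) * k := by simp
    rw [this]
    omega
  rw [h4, mul_comm ((k + 1).choose 2) N] at h
  exact h

end Pool.Agent.KDT
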