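import Pool.Agent.KDT.Comb

/-!
# Count: triples and quadruples
`count3`: apply `comb` with `k = 2`, `M = n²` (the image lies in `Fin 2 → V`, which has `n²` elements), `X = 2 (D+1) n²`,
`choose 3 2 = 3`, `k (k+1) = 6`.

`count4`: let `M = 2 (D+1) n² (1+6L)^(3N)`. For each `j : Fin 4` the image of `T` under `t ↦ j.removeNth (τ t)` has at most
`M` elements: choose `T' ⊆ T` on which this map is injective, with the same image
(`Finset.exists_subset_injOn_image_eq` or similar), and apply `count3` to `T'` and `τ' t = j.removeNth (τ t)`.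
Its pair `s(τ' t i', τ' t j')` is the pair of `τ t` at the positions `j.succAbove i' < j.succAbove j'`, so rounds of `T'`
are rounds of `T` (`Rounds` is monotone in `T`), and injectivity is inherited. `L` is the same.
Then apply `comb` with `k = 3`, `X = 4 (D+1)² n² (1+6L)^(3N)`, `choose 4 2 = 6`, `k(k+1) = 12`:
`T.card ≤ X (1+12 L)^(6N) ≤ 4 (D+1)² n² (1+12L)^(9N)`.
-/

set_option autoImplicit false

namespace Pool.Agent.KDT

theorem count3 {V : Type} [Fintype V] [DecidableEq V]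
    (Bs : Set (Finset (Sym2 V))) (D : ℕ) (hB : SparseHyp Bs D)
    (τ : ℝ → Fin 3 → V) (T : Finset ℝ) (hinj : Set.InjOn τ T) (hτ : ∀ t ∈ T, Function.Injective (τ t))
    (N L : ℕ) (hN : 1 ≤ N) (hR : ∀ i j, i < j → ∀ H ∈ Bs, ¬ Rounds τ T i j H (N + 1))
    (hL : T.card ≤ 2 ^ L) :
    T.card ≤ 2 * (D + 1) * Fintype.card V ^ 2 * (1 + 6 * L) ^ (3 * N) := by
  have hM : ∀ j : Fin (2 + 1), (T.image (fun t => j.removeNth (τ t))).card ≤ Fintype.card V ^ 2 := by
    intro j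
    refine (Finset.card_le_univ _).trans ?_
    rw [Fintype.card_fun, Fintype.card_fin]
  have hle : Fintype.card V ^ 2 ≤ 2 * (D + 1) * Fintype.card V ^ 2 :=
    Nat.le_mul_of_pos_left _ (by positivity)
  have hle' : 2 * D * Fintype.card V ^ 2 ≤ 2 * (D + 1) * Fintype.card V ^ 2 :=
    Nat.mul_le_mul_right _ (by omega)
  have h := comb 2 le_rfl Bs D hB τ T hinj hτ N (Fintype.card V ^ 2) L
    (2 * (D + 1) * Fintype.card V ^ 2) hN hR hM hL hle hle'
  have e1 : (2 + 1).choose 2 = 3 := by decide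
  have e2 : N * 3 = 3 * N := by ring
  rw [e1, e2] at h
  exact h

theorem count4 {V : Type} [Fintype V] [DecidableEq V]
    (Bs : Set (Finset (Sym2 V))) (D : ℕ) (hB : SparseHyp Bs D)
    (τ : ℝ → Fin 4 → V) (T : Finset ℝ) (hinj : Set.InjOn τ T) (hτ : ∀ t ∈ T, Function.Injective (τ t))
    (N L : ℕ) (hN : 1 ≤ N) (hR : ∀ i j, i < j → ∀ H ∈ Bs, ¬ Rounds τ T i j H (N + 1))
    (hL : T.card ≤ 2 ^ L) :
    T.card ≤ 4 * (D + 1) ^ 2 * Fintype.card V ^ 2 * (1 + 12 * L) ^ (9 * N) := by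
  set n := Fintype.card V with hn
  set M := 2 * (D + 1) * n ^ 2 * (1 + 6 * L) ^ (3 * N) with hMdef
  have hM : ∀ j : Fin (3 + 1), (T.image (fun t => j.removeNth (τ t))).card ≤ M := by
    intro j
    have hsurj : Set.SurjOn (fun t => j.removeNth (τ t)) (T : Set ℝ)
        ((T.image (fun t => j.removeNth (τ t)) : Finset (Fin 3 → V)) : Set (Fin 3 → V)) := by
      rw [Finset.coe_image]
      exact Set.surjOn_image _ _
    obtain ⟨T', hT', hinj', himg⟩ := Finset.exists_subset_injOn_image_eq_of_surjOn _ _ hsurj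
    have hT'T : T' ⊆ T := by exact_mod_cast hT'
    rw [← himg, Finset.card_image_of_injOn hinj']
    apply count3 Bs D hB (fun t => j.removeNth (τ t)) T' hinj' ?_ N L hN ?_ ?_
    · intro t ht a b hab
      have := hτ t (hT'T ht) (show τ t (j.succAbove a) = τ t (j.succAbove b) from hab)
      exact Fin.succAbove_right_injective this
    · intro a b hab H hH hr
      apply hR (j.succAbove a) (j.succAbove b) (Fin.succAbove_lt_succAbove_iff.mpr hab) H hH
      obtain ⟨c, hc, hr⟩ := hr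
      refine ⟨c, hc, fun l hl h hh => ?_⟩
      obtain ⟨t, ht, h1, h2, h3⟩ := hr l hl h hh
      exact ⟨t, hT'T ht, h1, h2, h3⟩
    · exact (Finset.card_le_card hT'T).trans hL
  set X := 4 * (D + 1) ^ 2 * n ^ 2 * (1 + 6 * L) ^ (3 * N) with hXdef
  have hpow : 1 ≤ (1 + 6 * L) ^ (3 * N) := Nat.one_le_pow _ _ (by omega)
  have hle : n ^ 2 ≤ X := by
    have h1 : 1 ≤ 4 * (D + 1) ^ 2 := by
      have : 1 ≤ (D + 1) ^ 2 := Nat.one_le_pow _ _ (by omega)
      omega
    calc n ^ 2 = 1 * n ^ 2 * 1 := by ring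
      _ ≤ 4 * (D + 1) ^ 2 * n ^ 2 * (1 + 6 * L) ^ (3 * N) :=
        Nat.mul_le_mul (Nat.mul_le_mul_right _ h1) hpow
  have hle' : 2 * D * M ≤ X := by
    have h1 : 2 * D * M = (4 * (D * (D + 1))) * n ^ 2 * (1 + 6 * L) ^ (3 * N) := by
      rw [hMdef]; ring
    rw [h1, hXdef]
    apply Nat.mul_le_mul_right
    apply Nat.mul_le_mul_right
    apply Nat.mul_le_mul_left
    nlinarith
  have h := comb 3 (by omega) Bs D hB τ T hinj hτ N M L X hN hR hM hL hle hle'
  have e1 : (3 + 1).choose 2 = 6 := by decide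
  rw [e1] at h
  have h2 : 1 + 3 * (3 + 1) * L = 1 + 12 * L := by ring
  rw [h2] at h
  refine h.trans ?_
  rw [hXdef]
  have h3 : (1 + 6 * L) ^ (3 * N) ≤ (1 + 12 * L) ^ (3 * N) := Nat.pow_le_pow_left (by omega) _
  calc 4 * (D + 1) ^ 2 * n ^ 2 * (1 + 6 * L) ^ (3 * N) * (1 + 12 * L) ^ (N * 6)
      ≤ 4 * (D + 1) ^ 2 * n ^ 2 * (1 + 12 * L) ^ (3 * N) * (1 + 12 * L) ^ (N * 6) :=
        Nat.mul_le_mul_right _ (Nat.mul_le_mul_left _ h3)
    _ = 4 * (D + 1) ^ 2 * n ^ 2 * (1 + 12 * L) ^ (9 * N) := by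
        rw [mul_assoc, ← pow_add]
        congr 2
        ring

end Pool.Agent.KDT
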