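import Mathlib

/-!
# KDT: kinetic Delaunay triangulations / Voronoi diagrams, near quadratic bound

Definitions used by all modules.
-/

set_option autoImplicit false

namespace Pool.Agent.KDT

/-! ## Part I: rounds -/

/-- `Rounds τ T i j H ρ`: there are `ρ` successive windows of time `(c l, c (l+1)]`, `l < ρ`, such that in each
of them every pair of `H` occurs as the `(i,j)` pair `s(τ t i, τ t j)` of some `t ∈ T`. -/
def Rounds {V : Type} {k : ℕ} (τ : ℝ → Fin k → V) (T : Finset ℝ) (i j : Fin k)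
    (H : Finset (Sym2 V)) (ρ : ℕ) : Prop :=
  ∃ c : ℕ → ℝ, StrictMono c ∧ ∀ l < ρ, ∀ h ∈ H, ∃ t ∈ T, c l < t ∧ t ≤ c (l + 1) ∧ s(τ t i, τ t j) = h

/-- `E` has an orientation with all out-degrees at most `D`. -/
def Orientable {V : Type} (E : Finset (Sym2 V)) (D : ℕ) : Prop :=
  ∃ O : V → Finset V, (∀ v, (O v).card ≤ D) ∧ ∀ u w, s(u, w) ∈ E → w ∈ O u ∨ u ∈ O w

/-- the hypothesis of Part I: every loopless edge set which contains no obstruction has an orientation of
out-degree at most `D`. -/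
def SparseHyp {V : Type} (Bs : Set (Finset (Sym2 V))) (D : ℕ) : Prop :=
  (∀ H ∈ Bs, H.Nonempty) ∧
  ∀ E : Finset (Sym2 V), (∀ e ∈ E, ¬ e.IsDiag) → (∀ H ∈ Bs, ¬ H ⊆ E) → Orientable E D

/-! ## Part II: weak subdivisions of `K₅` -/

/-- A (weak) subdivided `K₅` with edges in `E`: branch vertices `b 0, …, b 4`, for `i < j` a path
`γ i j 0, …, γ i j (m i j)` from `b i` to `b j`; paths of disjoint index pairs are vertex disjoint. -/
structure WK5 {V : Type} (E : Set (Sym2 V)) (R : ℕ) (b : Fin 5 → V) (γ : Fin 5 → Fin 5 → ℕ → V)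
    (m : Fin 5 → Fin 5 → ℕ) : Prop where
  inj : Function.Injective b
  len : ∀ i j, i < j → m i j ≤ R
  start : ∀ i j, i < j → γ i j 0 = b i
  fin : ∀ i j, i < j → γ i j (m i j) = b j
  edge : ∀ i j, i < j → ∀ l < m i j, s(γ i j l, γ i j (l + 1)) ∈ E
  disj : ∀ i j k l, i < j → k < l → i ≠ k → i ≠ l → j ≠ k → j ≠ l →
    ∀ x ≤ m i j, ∀ y ≤ m k l, γ i j x ≠ γ k l y

/-- the index pairs `i < j` of `Fin 5` -/
def prs : Finset (Fin 5 × Fin 5) := Finset.univ.filter (fun e => e.1 < e.2)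

/-- the edges of the paths -/
def eset {V : Type} [DecidableEq V] (γ : Fin 5 → Fin 5 → ℕ → V) (m : Fin 5 → Fin 5 → ℕ) : Finset (Sym2 V) :=
  prs.biUnion (fun e => (Finset.range (m e.1 e.2)).image (fun l => s(γ e.1 e.2 l, γ e.1 e.2 (l + 1))))

/-- the vertices of the paths -/
def vset {V : Type} [DecidableEq V] (γ : Fin 5 → Fin 5 → ℕ → V) (m : Fin 5 → Fin 5 → ℕ) : Finset V :=
  prs.biUnion (fun e => (Finset.range (m e.1 e.2 + 1)).image (fun l => γ e.1 e.2 l))

/-- the obstructions: edge sets of weak subdivided `K₅` with paths of length at most `R` -/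
def Obs (V : Type) [DecidableEq V] (R : ℕ) : Set (Finset (Sym2 V)) :=
  {H | ∃ b γ m, WK5 (↑H : Set (Sym2 V)) R b γ m ∧ H = eset γ m}

/-- `e2 E U`: number of ordered pairs of `U` which are edges of `E` -/
def e2 {V : Type} [DecidableEq V] (E : Finset (Sym2 V)) (U : Finset V) : ℕ :=
  ((U ×ˢ U).filter (fun p => s(p.1, p.2) ∈ E)).card

/-- closed neighbourhood of `S` inside `U` -/
def nb {V : Type} [DecidableEq V] (E : Finset (Sym2 V)) (U S : Finset V) : Finset V :=
  U.filter (fun w => w ∈ S ∨ ∃ u ∈ S, s(u, w) ∈ E)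

/-- balls around `v` inside `A` -/
def ball {V : Type} [DecidableEq V] (E : Finset (Sym2 V)) (A : Finset V) (v : V) : ℕ → Finset V
  | 0 => {v}
  | r + 1 => nb E A (ball E A v r)

/-- expansion property of a set `U` -/
def Expands {V : Type} [DecidableEq V] (q : ℕ) (E : Finset (Sym2 V)) (U : Finset V) : Prop :=
  ∀ S ⊆ U, S.card ^ q * U.card ≤ (nb E U S).card ^ (q + 1)

/-- `PathIn E A R v w`: there is a path (walk) of length at most `R` from `v` to `w` inside `A` with edges in `E` -/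
def PathIn {V : Type} (E : Set (Sym2 V)) (A : Set V) (R : ℕ) (v w : V) : Prop :=
  ∃ γ : ℕ → V, ∃ m ≤ R, γ 0 = v ∧ γ m = w ∧ (∀ l ≤ m, γ l ∈ A) ∧ ∀ l < m, s(γ l, γ (l + 1)) ∈ E

/-- the growth exponent -/
noncomputable def theta (q : ℕ) : ℝ := (2 * q + 1) / (2 * q + 2)

/-- the admissible proportion of deleted vertices -/
noncomputable def cc (q : ℕ) : ℝ := 1 - (2 : ℝ) ^ (-(1 / (2 * q + 2) : ℝ))

/-- number of steps until a ball contains more than half of `u` vertices -/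
noncomputable def RR (q u : ℕ) : ℕ := sInf {R : ℕ | theta q ^ R * Real.log u < Real.log 2}

/-! ## Planarity: swept angles -/

/-- angle swept by a point moving from `a` to `b` on the segment `[a,b]`, seen from `c` -/
noncomputable def sw (c a b : ℂ) : ℝ := Complex.arg ((b - c) / (a - c))

/-- the segments `[a,b]` and `[c,d]` are strictly separated by a line -/
def Sep (a b c d : ℂ) : Prop :=
  ∃ u : ℂ, (u * a).re < (u * c).re ∧ (u * a).re < (u * d).re ∧ (u * b).re < (u * c).re ∧ (u * b).re < (u * d).re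

/-! ## Part III: systems of moving weighted points -/

/-- A system of weighted points moving linearly in the plane. -/
structure Sys (V : Type) where
  px : V → ℝ
  py : V → ℝ
  vx : V → ℝ
  vy : V → ℝ
  w : V → ℝ

namespace Sys

variable {V : Type}

/-- first coordinate at time `t` -/
def xx (S : Sys V) (i : V) (t : ℝ) : ℝ := S.px i + t * S.vx i

/-- second coordinate at time `t` -/
def yy (S : Sys V) (i : V) (t : ℝ) : ℝ := S.py i + t * S.vy i

/-- weighted squared norm -/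
def q (S : Sys V) (i : V) (t : ℝ) : ℝ := S.xx i t ^ 2 + S.yy i t ^ 2 + S.w i

/-- power of the point `(x,y)` with respect to site `i` at time `t`, minus `x² + y²` -/
def g (S : Sys V) (i : V) (t x y : ℝ) : ℝ := S.q i t - 2 * (S.xx i t * x + S.yy i t * y)

/-- `a b` is a strict pair among the sites of `A` at time `t` -/
def Strict (S : Sys V) (A : Set V) (t : ℝ) (a b : V) : Prop :=
  ∃ x y : ℝ, S.g a t x y = S.g b t x y ∧ ∀ c ∈ A, c ≠ a → c ≠ b → S.g a t x y < S.g c t x y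

/-- `a b` is strict at times arbitrarily near `t` -/
def Clust (S : Sys V) (t : ℝ) (a b : V) : Prop :=
  ∀ δ : ℝ, 0 < δ → ∃ s : ℝ, |s - t| < δ ∧ S.Strict Set.univ s a b

/-- squared distance -/
def Nn (S : Sys V) (a b : V) (t : ℝ) : ℝ := (S.xx b t - S.xx a t) ^ 2 + (S.yy b t - S.yy a t) ^ 2

/-- orientation of `a b c` -/
def Or (S : Sys V) (a b c : V) (t : ℝ) : ℝ :=
  (S.xx b t - S.xx a t) * (S.yy c t - S.yy a t) - (S.yy b t - S.yy a t) * (S.xx c t - S.xx a t)

/-- constant part of `g c - g a` (times `Nn a b`) along the bisector of `a b` -/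
def Uu (S : Sys V) (a b c : V) (t : ℝ) : ℝ :=
  S.Nn a b t * (S.q c t - S.q a t) - (S.q b t - S.q a t) *
    ((S.xx b t - S.xx a t) * (S.xx c t - S.xx a t) + (S.yy b t - S.yy a t) * (S.yy c t - S.yy a t))

/-- cross condition, positive at strict times when `Or c > 0 > Or e` -/
def Cr (S : Sys V) (a b c e : V) (t : ℝ) : ℝ := S.Uu a b e t * S.Or a b c t - S.Uu a b c t * S.Or a b e t

/-- change of weights -/
def withW (S : Sys V) (ω : V → ℝ) : Sys V := { S with w := ω }

/-- no two sites have the same motion -/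
def Distinct (S : Sys V) : Prop :=
  ∀ i j, i ≠ j → ¬ (S.px i = S.px j ∧ S.py i = S.py j ∧ S.vx i = S.vx j ∧ S.vy i = S.vy j)

/-- never five sites at the same power -/
def G5 (S : Sys V) : Prop :=
  ∀ f : Fin 5 → V, Function.Injective f → ∀ t x y : ℝ, ¬ ∀ i, S.g (f i) t x y = S.g (f 0) t x y

/-- at times of `Q` never four sites at the same power -/
def G4 (S : Sys V) (Q : Set ℝ) : Prop :=
  ∀ t ∈ Q, ∀ f : Fin 4 → V, Function.Injective f → ∀ x y : ℝ, ¬ ∀ i, S.g (f i) t x y = S.g (f 0) t x y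

/-- at time `t` the sites are far apart compared with the weights -/
def Good (S : Sys V) (t : ℝ) : Prop :=
  ∃ μ : ℝ, 0 < μ ∧ (∀ i, 2 * |S.w i| < μ) ∧ ∀ i j, i ≠ j → μ ≤ S.Nn i j t

/-- collinear event -/
def Ev3 (S : Sys V) (t : ℝ) (a b y : V) : Prop :=
  a ≠ b ∧ a ≠ y ∧ b ≠ y ∧ S.Or a b y t = 0 ∧ (∃ s, S.Or a b y s ≠ 0) ∧
    S.Clust t a b ∧ S.Clust t a y ∧ S.Clust t b y

/-- cocircular event -/
def Ev4 (S : Sys V) (t : ℝ) (a b y z : V) : Prop :=
  a ≠ b ∧ a ≠ y ∧ a ≠ z ∧ b ≠ y ∧ b ≠ z ∧ y ≠ z ∧ S.Cr a b y z t = 0 ∧ (∃ s, S.Cr a b y z s ≠ 0) ∧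
    S.Clust t a b ∧ S.Clust t a y ∧ S.Clust t a z ∧ S.Clust t b y ∧ S.Clust t b z ∧ S.Clust t y z

/-- `t` is an event time -/
def EvT (S : Sys V) (t : ℝ) : Prop := (∃ a b y, S.Ev3 t a b y) ∨ ∃ a b y z, S.Ev4 t a b y z

/-- the structure of the diagram: all sets of nearest sites -/
def St (S : Sys V) (t : ℝ) : Set (Finset V) :=
  {T | ∃ x y : ℝ, ∀ i, i ∈ T ↔ ∀ j, S.g i t x y ≤ S.g j t x y}

end Sys

end Pool.Agent.KDT
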