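import Pool.Agent.KDT.Defs

/-!
# Greedy: a weak subdivided K5 from short paths
Choose an injective `b : Fin 5 → V` with values in `U` (`5 ≤ |U|`). Claim, by `Finset.induction_on` over `P ⊆ prs` (sets `P` of index pairs
`(i,j)`, `i < j`; `|P| ≤ 10`): there are `γ, m` such that for `(i,j) ∈ P`: `m i j ≤ R`, path from `b i` to `b j` with edges in `E`, vertices in `U`,
the path avoids every `b k` with `k ≠ i, j`, and the paths of two pairs of `P` with disjoint indices are vertex disjoint.
Step for a new pair `(i,j)`: let `X = ({all vertices of the paths of P} ∪ {b k | k}) \ {b i, b j}`;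
`|X| ≤ 10 (R+1) + 5 ≤ ξ`; `b i, b j ∈ U \ X`. Take the path of length `≤ R` from `b i` to `b j` inside `U \ X` and update `γ, m`
at `(i,j)` (`Function.update` or `if`). A pair `(k,l) ∈ P` disjoint from `(i,j)`: its path avoids `b i` and `b j`
(induction), so its vertices all lie in `X`, which the new path avoids.
Finally take `P = prs`.
-/

set_option autoImplicit false

namespace Pool.Agent.KDT

private def GreedyInv {V : Type} (E : Finset (Sym2 V)) (R : ℕ) (b : Fin 5 → V)
    (P : Finset (Fin 5 × Fin 5)) (γ : Fin 5 × Fin 5 → ℕ → V) (m : Fin 5 × Fin 5 → ℕ) : Prop :=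
  (∀ e ∈ P, m e ≤ R ∧ γ e 0 = b e.1 ∧ γ e (m e) = b e.2 ∧
    (∀ l < m e, s(γ e l, γ e (l + 1)) ∈ (↑E : Set (Sym2 V))) ∧
    (∀ l ≤ m e, ∀ k, k ≠ e.1 → k ≠ e.2 → γ e l ≠ b k)) ∧
  ∀ e ∈ P, ∀ f ∈ P, e.1 ≠ f.1 → e.1 ≠ f.2 → e.2 ≠ f.1 → e.2 ≠ f.2 →
    ∀ x ≤ m e, ∀ y ≤ m f, γ e x ≠ γ f y

private theorem greedy_prs_card : prs.card = 10 := by decide

private theorem greedy_step {V : Type} [DecidableEq V] (E : Finset (Sym2 V)) (U : Finset V) (R ξ : ℕ)
    (hξ : 10 * (R + 1) + 5 ≤ ξ)
    (hSP : ∀ X : Finset V, X.card ≤ ξ → ∀ v ∈ U \ X, ∀ w ∈ U \ X,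
      PathIn (↑E : Set (Sym2 V)) (↑(U \ X) : Set V) R v w)
    (b : Fin 5 → V) (hb : Function.Injective b) (hbU : ∀ k, b k ∈ U)
    (P : Finset (Fin 5 × Fin 5)) : P ⊆ prs → ∃ γ m, GreedyInv E R b P γ m := by
  refine Finset.induction_on P ?_ ?_
  · intro _
    exact ⟨fun _ _ => b 0, fun _ => 0, by simp [GreedyInv]⟩
  · intro e P' heP' ih hsub
    have hP' : P' ⊆ prs := fun x hx => hsub (Finset.mem_insert_of_mem hx)
    have he : e ∈ prs := hsub (Finset.mem_insert_self _ _)
    obtain ⟨γ, m, hA, hB⟩ := ih hP'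
    have hne : e.1 ≠ e.2 := by
      have := (Finset.mem_filter.1 he).2
      exact this.ne
    set Y : Finset V := P'.biUnion (fun f => (Finset.range (m f + 1)).image (γ f)) ∪
      Finset.univ.image b with hY
    set X : Finset V := Y \ {b e.1, b e.2} with hX
    have hYc : Y.card ≤ 10 * (R + 1) + 5 := by
      have h1 : (P'.biUnion (fun f => (Finset.range (m f + 1)).image (γ f))).card
          ≤ P'.card * (R + 1) := by
        refine Finset.card_biUnion_le_card_mul _ _ _ fun f hf => ?_
        refine Finset.card_image_le.trans ?_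
        rw [Finset.card_range]
        have := (hA f hf).1
        omega
      have h2 : P'.card ≤ 10 := by
        have := Finset.card_le_card hP'
        rw [greedy_prs_card] at this
        exact this
      have h3 : (Finset.univ.image b).card ≤ 5 := by
        refine Finset.card_image_le.trans ?_
        simp
      have h4 : P'.card * (R + 1) ≤ 10 * (R + 1) := Nat.mul_le_mul_right _ h2
      have h5 := Finset.card_union_le
        (P'.biUnion (fun f => (Finset.range (m f + 1)).image (γ f))) (Finset.univ.image b)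
      rw [← hY] at h5
      omega
    have hXc : X.card ≤ ξ := (Finset.card_le_card Finset.sdiff_subset).trans (hYc.trans hξ)
    have hb1 : b e.1 ∈ U \ X := by
      rw [Finset.mem_sdiff]
      refine ⟨hbU _, fun h => ?_⟩
      rw [hX, Finset.mem_sdiff] at h
      exact h.2 (by simp)
    have hb2 : b e.2 ∈ U \ X := by
      rw [Finset.mem_sdiff]
      refine ⟨hbU _, fun h => ?_⟩
      rw [hX, Finset.mem_sdiff] at h
      exact h.2 (by simp)
    obtain ⟨γ', m', hm', h0, h1, hin, hed⟩ := hSP X hXc _ hb1 _ hb2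
    have hnotX : ∀ l ≤ m', γ' l ∉ X := by
      intro l hl
      have := hin l hl
      rw [Finset.mem_coe, Finset.mem_sdiff] at this
      exact this.2
    have hbX : ∀ k, k ≠ e.1 → k ≠ e.2 → b k ∈ X := by
      intro k hk1 hk2
      rw [hX, Finset.mem_sdiff]
      refine ⟨Finset.mem_union_right _ (Finset.mem_image_of_mem _ (Finset.mem_univ k)), ?_⟩
      rw [Finset.mem_insert, Finset.mem_singleton]
      rintro (h | h)
      · exact hk1 (hb h)
      · exact hk2 (hb h)
    have hfX : ∀ f ∈ P', e.1 ≠ f.1 → e.1 ≠ f.2 → e.2 ≠ f.1 → e.2 ≠ f.2 → ∀ y ≤ m f, γ f y ∈ X := by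
      intro f hf h11 h12 h21 h22 y hy
      obtain ⟨-, -, -, -, hav⟩ := hA f hf
      rw [hX, Finset.mem_sdiff]
      refine ⟨Finset.mem_union_left _ ?_, ?_⟩
      · rw [Finset.mem_biUnion]
        exact ⟨f, hf, Finset.mem_image_of_mem _ (Finset.mem_range.2 (by omega))⟩
      · rw [Finset.mem_insert, Finset.mem_singleton]
        rintro (h | h)
        · exact hav y hy e.1 h11 h12 h
        · exact hav y hy e.2 h21 h22 h
    have hfe : ∀ f ∈ P', f ≠ e := by
      intro f hf h
      rw [h] at hf
      exact heP' hf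
    refine ⟨Function.update γ e γ', Function.update m e m', ?_, ?_⟩
    · intro f hf
      rcases Finset.mem_insert.1 hf with rfl | hf
      · rw [Function.update_self, Function.update_self]
        refine ⟨hm', h0, h1, hed, ?_⟩
        intro l hl k hk1 hk2 h
        exact hnotX l hl (h ▸ hbX k hk1 hk2)
      · rw [Function.update_of_ne (hfe f hf), Function.update_of_ne (hfe f hf)]
        exact hA f hf
    · intro f hf0 g hg0 h11 h12 h21 h22
      by_cases hfe' : f = e
      · by_cases hge' : g = e
        · rw [hfe', hge'] at h11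
          exact absurd rfl h11
        · have hg : g ∈ P' := (Finset.mem_insert.1 hg0).resolve_left hge'
          rw [hfe'] at h11 h12 h21 h22 ⊢
          rw [Function.update_self, Function.update_self, Function.update_of_ne hge',
            Function.update_of_ne hge']
          intro x hx y hy h
          exact hnotX x hx (h ▸ hfX g hg h11 h12 h21 h22 y hy)
      · have hf : f ∈ P' := (Finset.mem_insert.1 hf0).resolve_left hfe'
        by_cases hge' : g = e
        · rw [hge'] at h11 h12 h21 h22 ⊢
          rw [Function.update_self, Function.update_self, Function.update_of_ne hfe',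
            Function.update_of_ne hfe']
          intro x hx y hy h
          exact hnotX y hy (h ▸ hfX f hf h11.symm h21.symm h12.symm h22.symm x hx)
        · have hg : g ∈ P' := (Finset.mem_insert.1 hg0).resolve_left hge'
          rw [Function.update_of_ne hfe', Function.update_of_ne hfe',
            Function.update_of_ne hge', Function.update_of_ne hge']
          exact hB f hf g hg h11 h12 h21 h22

theorem greedy {V : Type} [DecidableEq V] (E : Finset (Sym2 V)) (U : Finset V) (h5 : 5 ≤ U.card) (R ξ : ℕ)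
    (hξ : 10 * (R + 1) + 5 ≤ ξ)
    (hSP : ∀ X : Finset V, X.card ≤ ξ → ∀ v ∈ U \ X, ∀ w ∈ U \ X,
      PathIn (↑E : Set (Sym2 V)) (↑(U \ X) : Set V) R v w) :
    ∃ b γ m, WK5 (↑E : Set (Sym2 V)) R b γ m := by
  obtain ⟨t, htU, htc⟩ := Finset.exists_subset_card_eq h5
  set b : Fin 5 → V := fun k => ((Finset.equivFinOfCardEq htc).symm k : V) with hbdef
  have hb : Function.Injective b := by
    intro k l h
    exact (Finset.equivFinOfCardEq htc).symm.injective (Subtype.ext h)
  have hbU : ∀ k, b k ∈ U := fun k => htU ((Finset.equivFinOfCardEq htc).symm k).2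
  obtain ⟨γ, m, hA, hB⟩ := greedy_step E U R ξ hξ hSP b hb hbU prs (Finset.Subset.refl _)
  have hmem : ∀ i j : Fin 5, i < j → (i, j) ∈ prs := by
    intro i j hij
    simp [prs, hij]
  refine ⟨b, fun i j => γ (i, j), fun i j => m (i, j), hb, ?_, ?_, ?_, ?_, ?_⟩
  · intro i j hij
    exact (hA _ (hmem i j hij)).1
  · intro i j hij
    exact (hA _ (hmem i j hij)).2.1
  · intro i j hij
    exact (hA _ (hmem i j hij)).2.2.1
  · intro i j hij
    exact (hA _ (hmem i j hij)).2.2.2.1
  · intro i j k l hij hkl h1 h2 h3 h4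
    exact hB _ (hmem i j hij) _ (hmem k l hkl) h1 h2 h3 h4

end Pool.Agent.KDT
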