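import Pool.Agent.KDT.Defs

/-!
# Growth: the number of steps `RR q u`
`0 < theta q < 1`. `RR_spec`: `theta^R log u → 0`, so the set is nonempty and `Nat.sInf_mem` applies. `RR_mono`: `log u ≤ log v`
(also for `u = 0`: `log 0 = 0 ≤ log v`), so the set for `v` is contained in the set for `u`.
`RR_bound`: with `x = log u + 2 ≥ 2` and `λ = log (1/theta) > 0`, any natural `R ≥ (log x - log (log 2)) / λ` (+1) satisfies
`theta^R log u < log 2`; take `R = ⌈..⌉₊ + 1`, so `RR ≤ (log x + |log (log 2)|)/λ + 2 ≤ A (log x + 1)`.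
`large`: `RR q u ≤ A (log (log u + 2) + 1)`, hence `10 (2 RR + 1) + 5 = O(log (log u + 2) + 1)`, which is
`o(u^(1/(q+1)))`: e.g. `log y ≤ y` for `y > 0`, so `log (log u + 2) ≤ log u + 2`, and `log u = o(u^s)`
(`isLittleO_log_rpow_atTop`). Here `cc q > 0`.
-/

set_option autoImplicit false

namespace Pool.Agent.KDT

theorem theta_pos (q : ℕ) : 0 < theta q := by
  unfold theta
  positivity

theorem theta_lt_one (q : ℕ) : theta q < 1 := by
  unfold theta
  rw [div_lt_one (by positivity)]
  linarith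

private theorem Growth_nonempty (q u : ℕ) :
    {R : ℕ | theta q ^ R * Real.log u < Real.log 2}.Nonempty := by
  have h1 : Filter.Tendsto (fun R : ℕ => theta q ^ R * Real.log u) Filter.atTop
      (nhds (0 * Real.log u)) :=
    (tendsto_pow_atTop_nhds_zero_of_lt_one (theta_pos q).le (theta_lt_one q)).mul_const _
  rw [zero_mul] at h1
  have h2 := h1.eventually (gt_mem_nhds (Real.log_pos (show (1 : ℝ) < 2 by norm_num)))
  exact h2.exists

theorem RR_spec (q u : ℕ) : theta q ^ (RR q u) * Real.log u < Real.log 2 :=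
  Nat.sInf_mem (Growth_nonempty q u)

theorem RR_mono (q u v : ℕ) (h : u ≤ v) : RR q u ≤ RR q v := by
  apply Nat.sInf_le
  have h1 := RR_spec q v
  have h2 : Real.log u ≤ Real.log v := by
    rcases Nat.eq_zero_or_pos u with h0 | h0
    · rw [h0, Nat.cast_zero, Real.log_zero]
      exact Real.log_natCast_nonneg v
    · exact Real.log_le_log (by exact_mod_cast h0) (by exact_mod_cast h)
  have h3 : 0 ≤ theta q ^ RR q v := pow_nonneg (theta_pos q).le _
  exact (mul_le_mul_of_nonneg_left h2 h3).trans_lt h1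

theorem RR_bound (q : ℕ) : ∃ A : ℝ, 0 < A ∧ ∀ u : ℕ, (RR q u : ℝ) ≤ A * (Real.log (Real.log u + 2) + 1) := by
  set l := -Real.log (theta q) with hl
  have hlpos : 0 < l := by
    have := Real.log_neg (theta_pos q) (theta_lt_one q)
    linarith
  set c := |Real.log (Real.log 2)| with hc
  have hc0 : 0 ≤ c := abs_nonneg _
  have hlog2 : 0 < Real.log 2 := Real.log_pos (by norm_num)
  refine ⟨1 / l + c / l + 1, by positivity, fun u => ?_⟩
  have hu : 0 ≤ Real.log u := Real.log_natCast_nonneg u
  set x := Real.log u + 2 with hx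
  have hx2 : 2 ≤ x := by linarith
  have hx0 : 0 ≤ Real.log x := Real.log_nonneg (by linarith)
  set R := ⌈(Real.log x + c) / l⌉₊ with hR
  have hR1 : (Real.log x + c) / l ≤ R := Nat.le_ceil _
  have hR2 : (R : ℝ) < (Real.log x + c) / l + 1 := Nat.ceil_lt_add_one (by positivity)
  have hmem : theta q ^ R * Real.log u < Real.log 2 := by
    have h1 : theta q ^ R = Real.exp (-(l * R)) := by
      rw [hl, neg_mul, neg_neg, mul_comm, Real.exp_nat_mul, Real.exp_log (theta_pos q)]
    have h2 : Real.log x + c ≤ l * R := by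
      rw [div_le_iff₀ hlpos] at hR1
      linarith
    have h3 : Real.log x - l * R ≤ Real.log (Real.log 2) := by
      have := neg_abs_le (Real.log (Real.log 2))
      linarith
    have h4 : Real.exp (-(l * R)) * x ≤ Real.log 2 := by
      have h5 : Real.exp (-(l * R)) * x = Real.exp (Real.log x - l * R) := by
        rw [sub_eq_add_neg, Real.exp_add, Real.exp_log (by linarith)]
        ring
      rw [h5, ← Real.exp_log hlog2]
      exact Real.exp_le_exp.2 h3
    rw [h1]
    have h6 : Real.exp (-(l * R)) * Real.log u < Real.exp (-(l * R)) * x :=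
      mul_lt_mul_of_pos_left (by linarith) (Real.exp_pos _)
    linarith
  have hle : RR q u ≤ R := Nat.sInf_le hmem
  have hle' : (RR q u : ℝ) ≤ R := by exact_mod_cast hle
  have h7 : (Real.log x + c) / l + 1 ≤ (1 / l + c / l + 1) * (Real.log x + 1) := by
    have h8 : (1 / l + c / l + 1) * (Real.log x + 1)
        = (Real.log x + c) / l + 1 + (1 / l + c / l * Real.log x + Real.log x) := by
      field_simp
      ring
    rw [h8]
    have : 0 ≤ 1 / l + c / l * Real.log x + Real.log x := by positivity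
    linarith
  linarith

theorem large (q : ℕ) (hq : 1 ≤ q) : ∃ u0 : ℕ, ∀ u : ℕ, u0 ≤ u →
    5 ≤ u ∧ (10 * (2 * (RR q u : ℝ) + 1) + 5) ≤ cc q * (u : ℝ) ^ (1 / ((q : ℝ) + 1)) := by
  have _ := hq
  obtain ⟨A, hA, hbd⟩ := RR_bound q
  set s : ℝ := 1 / ((q : ℝ) + 1) with hs
  have hspos : 0 < s := by positivity
  have hcc : 0 < cc q := by
    unfold cc
    have h1 : (2 : ℝ) ^ (-(1 / (2 * q + 2) : ℝ)) < 1 :=
      Real.rpow_lt_one_of_one_lt_of_neg (by norm_num) (by
        have : (0 : ℝ) < 1 / (2 * q + 2) := by positivity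
        linarith)
    linarith
  have hlo := (isLittleO_log_rpow_atTop hspos).bound (c := cc q / 2 / (20 * A)) (by positivity)
  have hlo' := (tendsto_natCast_atTop_atTop (R := ℝ)).eventually hlo
  have hr : Filter.Tendsto (fun u : ℕ => (u : ℝ) ^ s) Filter.atTop Filter.atTop :=
    (tendsto_rpow_atTop hspos).comp tendsto_natCast_atTop_atTop
  have hr' := hr.eventually_ge_atTop ((60 * A + 15) / (cc q / 2))
  obtain ⟨u0, hu0⟩ := Filter.eventually_atTop.1 ((hlo'.and hr').and (Filter.eventually_ge_atTop 5))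
  refine ⟨u0, fun u hu => ?_⟩
  obtain ⟨⟨h1, h2⟩, h3⟩ := hu0 u hu
  refine ⟨h3, ?_⟩
  have hlog : 0 ≤ Real.log u := Real.log_natCast_nonneg u
  have hpow : 0 ≤ (u : ℝ) ^ s := Real.rpow_nonneg (Nat.cast_nonneg u) _
  rw [Real.norm_eq_abs, Real.norm_eq_abs, abs_of_nonneg hlog, abs_of_nonneg hpow] at h1
  rw [div_le_iff₀ (by positivity)] at h2
  have h4 : 20 * A * Real.log u ≤ cc q / 2 * (u : ℝ) ^ s := by
    have h5 : 20 * A * (cc q / 2 / (20 * A) * (u : ℝ) ^ s) = cc q / 2 * (u : ℝ) ^ s := by
      field_simp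
    rw [← h5]
    exact mul_le_mul_of_nonneg_left h1 (by positivity)
  have h6 := hbd u
  have h7 : Real.log (Real.log u + 2) ≤ Real.log u + 2 := by
    have := Real.log_le_sub_one_of_pos (show 0 < Real.log u + 2 by linarith)
    linarith
  have h8 : A * (Real.log (Real.log u + 2) + 1) ≤ A * (Real.log u + 3) :=
    mul_le_mul_of_nonneg_left (by linarith) hA.le
  nlinarith

end Pool.Agent.KDT
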