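import Pool.Agent.KDT.Defs

/-!
# Orient: sparse graphs have orientations of small out-degree
By induction on `W : Finset V` (on the cardinality): there is `O` with all `|O v| ≤ D` such that for `u, w ∈ W` with `s(u,w) ∈ E`:
`w ∈ O u ∨ u ∈ O w`. If `W = ∅` take `O v = ∅`. Otherwise `∑_(v ∈ W) |{w ∈ W | s(v,w) ∈ E}| = e2 E W ≤ D |W|`, so some `v ∈ W` has
`|{w ∈ W | s(v,w) ∈ E}| ≤ D`. Apply induction to `W.erase v` and put `O v =` this set. Then `W = univ`.
-/

set_option autoImplicit false

namespace Pool.Agent.KDT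

private theorem Orient_e2 {V : Type} [DecidableEq V] (E : Finset (Sym2 V)) (W : Finset V) :
    e2 E W = ∑ v ∈ W, (W.filter (fun w => s(v, w) ∈ E)).card := by
  unfold e2
  rw [Finset.card_filter, Finset.sum_product]
  apply Finset.sum_congr rfl
  intro v _
  rw [Finset.card_filter]

private theorem Orient_ind {V : Type} [DecidableEq V] (E : Finset (Sym2 V)) (D : ℕ)
    (h : ∀ W : Finset V, e2 E W ≤ D * W.card) (W : Finset V) :
    ∃ O : V → Finset V, (∀ v, (O v).card ≤ D) ∧
      ∀ u ∈ W, ∀ w ∈ W, s(u, w) ∈ E → w ∈ O u ∨ u ∈ O w := by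
  induction W using Finset.strongInduction with
  | H W ih =>
  rcases W.eq_empty_or_nonempty with rfl | hne
  · exact ⟨fun _ => ∅, fun _ => by simp, fun u hu => absurd hu (Finset.notMem_empty u)⟩
  have h1 : ∑ v ∈ W, (W.filter (fun w => s(v, w) ∈ E)).card ≤ ∑ _v ∈ W, D := by
    rw [← Orient_e2, Finset.sum_const, smul_eq_mul, mul_comm]
    exact h W
  obtain ⟨v, hv, hvD⟩ := Finset.exists_le_of_sum_le hne h1
  obtain ⟨O', hO1, hO2⟩ := ih (W.erase v) (Finset.erase_ssubset hv)
  refine ⟨fun u => if u = v then W.filter (fun w => s(v, w) ∈ E) else O' u, ?_, ?_⟩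
  · intro u
    show (if u = v then W.filter (fun w => s(v, w) ∈ E) else O' u).card ≤ D
    split_ifs
    · exact hvD
    · exact hO1 u
  · intro u hu w hw huw
    show w ∈ (if u = v then W.filter (fun w => s(v, w) ∈ E) else O' u) ∨
      u ∈ (if w = v then W.filter (fun w => s(v, w) ∈ E) else O' w)
    by_cases hu' : u = v
    · left
      rw [if_pos hu', Finset.mem_filter, ← hu']
      exact ⟨hw, huw⟩
    · by_cases hw' : w = v
      · right
        rw [if_pos hw', Finset.mem_filter, ← hw']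
        refine ⟨hu, ?_⟩
        rw [Sym2.eq_swap]
        exact huw
      · rw [if_neg hu', if_neg hw']
        exact hO2 u (Finset.mem_erase.2 ⟨hu', hu⟩) w (Finset.mem_erase.2 ⟨hw', hw⟩) huw

theorem orient {V : Type} [Fintype V] [DecidableEq V] (E : Finset (Sym2 V)) (D : ℕ)
    (h : ∀ W : Finset V, e2 E W ≤ D * W.card) : Orientable E D := by
  obtain ⟨O, h1, h2⟩ := Orient_ind E D h Finset.univ
  exact ⟨O, h1, fun u w huw => h2 u (Finset.mem_univ u) w (Finset.mem_univ w) huw⟩

end Pool.Agent.KDT
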