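import Pool.Agent.KDT.Ball

/-!
# PathB: short paths
`path_of_ball`: induction on `r`. `r = 0`: `w = v`, the constant path with `m = 0`. Step: `w ∈ nb E A (ball r)`: `w ∈ A`, and `w ∈ ball r`
(use the induction hypothesis) or there is `u ∈ ball r` with `s(u,w) ∈ E`: take the path `γ, m` to `u` and put
`γ' l = γ l` for `l ≤ m`, `γ' (m+1) = w`.
`path_symm`: reverse the path, `γ' l = γ (m - l)`. `path_trans`: concatenate, `γ'' l = γ l` for `l ≤ m`, `γ' (l - m)` after.
`short_paths`: both balls of radius `r` in `A = U \ X ⊆ U` have more than `|U|/2` elements by `ball_big`, so they meet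
(balls are subsets of `A ⊆ U`: `B_0 = {v} ⊆ A`).
-/

set_option autoImplicit false

namespace Pool.Agent.KDT

theorem path_of_ball {V : Type} [DecidableEq V] (E : Finset (Sym2 V)) (A : Finset V) (v : V) (hv : v ∈ A)
    (r : ℕ) (w : V) (hw : w ∈ ball E A v r) : PathIn (↑E : Set (Sym2 V)) (↑A : Set V) r v w := by
  induction r generalizing w with
  | zero =>
    have h : w = v := by simpa [ball] using hw
    subst h
    exact ⟨fun _ => w, 0, le_refl _, rfl, rfl, fun l _ => by simpa using hv, fun l hl => absurd hl (by omega)⟩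
  | succ r ih =>
    have h1 : w ∈ A ∧ (w ∈ ball E A v r ∨ ∃ u ∈ ball E A v r, s(u, w) ∈ E) := by
      have h2 : w ∈ nb E A (ball E A v r) := hw
      exact Finset.mem_filter.1 h2
    obtain ⟨hA, h2 | ⟨u, hu, he⟩⟩ := h1
    · obtain ⟨γ, m, hm, h0, hγ, hin, hed⟩ := ih w h2
      exact ⟨γ, m, by omega, h0, hγ, hin, hed⟩
    · obtain ⟨γ, m, hm, h0, hγ, hin, hed⟩ := ih u hu
      refine ⟨fun l => if l ≤ m then γ l else w, m + 1, by omega, ?_, ?_, ?_, ?_⟩
      · simp [h0]
      · simp
      · intro l hl
        by_cases h : l ≤ m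
        · simpa [h] using hin l h
        · simpa [h] using hA
      · intro l hl
        by_cases h : l + 1 ≤ m
        · have h3 : l ≤ m := by omega
          simpa [h, h3] using hed l (by omega)
        · have h3 : l = m := by omega
          subst h3
          simpa [hγ] using he

theorem path_symm {V : Type} (E : Set (Sym2 V)) (A : Set V) (R : ℕ) (v w : V) (h : PathIn E A R v w) :
    PathIn E A R w v := by
  obtain ⟨γ, m, hm, h0, hγ, hin, hed⟩ := h
  refine ⟨fun l => γ (m - l), m, hm, by simpa using hγ, by simpa using h0, fun l hl => hin _ (by omega), ?_⟩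
  intro l hl
  have h1 := hed (m - (l + 1)) (by omega)
  have h2 : m - (l + 1) + 1 = m - l := by omega
  rw [h2, Sym2.eq_swap] at h1
  exact h1

theorem path_trans {V : Type} (E : Set (Sym2 V)) (A : Set V) (R R' : ℕ) (v w x : V) (h : PathIn E A R v w)
    (h' : PathIn E A R' w x) : PathIn E A (R + R') v x := by
  obtain ⟨γ, m, hm, h0, hγ, hin, hed⟩ := h
  obtain ⟨γ', m', hm', h0', hγ', hin', hed'⟩ := h'
  refine ⟨fun l => if l ≤ m then γ l else γ' (l - m), m + m', by omega, ?_, ?_, ?_, ?_⟩
  · simp [h0]
  · by_cases h : m' = 0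
    · subst h
      have h1 : γ m = x := by rw [hγ, ← h0', hγ']
      simpa using h1
    · have h1 : ¬ (m + m' ≤ m) := by omega
      simp only [h1, if_false]
      rw [Nat.add_sub_cancel_left]
      exact hγ'
  · intro l hl
    by_cases h : l ≤ m
    · simpa [h] using hin l h
    · have h1 := hin' (l - m) (by omega)
      simpa [h] using h1
  · intro l hl
    by_cases h : l + 1 ≤ m
    · have h3 : l ≤ m := by omega
      simpa [h, h3] using hed l (by omega)
    · by_cases h3 : l ≤ m
      · have h4 : l = m := by omega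
        subst h4
        have h5 := hed' 0 (by omega)
        have h6 : l + 1 - l = 0 + 1 := by omega
        simp only [h, h3, if_true, if_false, h6, hγ]
        rw [← h0']
        exact h5
      · have h5 := hed' (l - m) (by omega)
        have h6 : l + 1 - m = l - m + 1 := by omega
        simp only [h, h3, if_false, h6]
        exact h5

private theorem pathB_sub {V : Type} [DecidableEq V] (E : Finset (Sym2 V)) (A : Finset V) (v : V) (hv : v ∈ A)
    (r : ℕ) : ball E A v r ⊆ A := by
  cases r with
  | zero => simpa [ball] using hv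
  | succ r => exact Finset.filter_subset _ _

theorem short_paths {V : Type} [DecidableEq V] (q : ℕ) (hq : 1 ≤ q) (E : Finset (Sym2 V)) (U X : Finset V)
    (hU : Expands q E U) (hX : (X.card : ℝ) ≤ cc q * (U.card : ℝ) ^ (1 / ((q : ℝ) + 1)))
    (r : ℕ) (hr : theta q ^ r * Real.log U.card < Real.log 2) (v w : V) (hv : v ∈ U \ X) (hw : w ∈ U \ X) :
    PathIn (↑E : Set (Sym2 V)) (↑(U \ X) : Set V) (2 * r) v w := by
  have h1 := ball_big q hq E U X hU hX v hv r hr
  have h2 := ball_big q hq E U X hU hX w hw r hr
  have h3 : (ball E (U \ X) v r ∪ ball E (U \ X) w r).card ≤ U.card :=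
    Finset.card_le_card (Finset.union_subset
      ((pathB_sub E _ v hv r).trans Finset.sdiff_subset) ((pathB_sub E _ w hw r).trans Finset.sdiff_subset))
  have h4 := Finset.card_union_add_card_inter (ball E (U \ X) v r) (ball E (U \ X) w r)
  have h5 : 0 < (ball E (U \ X) v r ∩ ball E (U \ X) w r).card := by omega
  obtain ⟨z, hz⟩ := Finset.card_pos.1 h5
  obtain ⟨hz1, hz2⟩ := Finset.mem_inter.1 hz
  have h6 := path_of_ball E (U \ X) v hv r z hz1
  have h7 := path_symm _ _ _ _ _ (path_of_ball E (U \ X) w hw r z hz2)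
  have h8 := path_trans _ _ _ _ _ _ _ h6 h7
  rw [two_mul]
  exact h8

end Pool.Agent.KDT
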