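import Pool.Agent.KDT.Expand
import Pool.Agent.KDT.PathB
import Pool.Agent.KDT.Greedy
import Pool.Agent.KDT.Growth
import Pool.Agent.KDT.Orient

/-!
# Dense: dense graphs contain small weak subdivided K5's, obstruction-free graphs are orientable
`dense`: take `K = u0 + 1` with `u0` from `large`. `expand` gives `U` with `K |U|^(1+1/q) ≤ e2 E U ≤ |U|²`, so `K ≤ |U|^(1-1/q) ≤ |U|`
(`|U| ≥ 1`), hence `|U| ≥ u0`. Apply `greedy` with `R = 2 * RR q |U|` and `ξ = 10 (R+1) + 5`; the paths come from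
`short_paths` (`r = RR q |U|`, `RR_spec`, `large`). `RR q |U| ≤ RR q |V|`, and `WK5` is monotone in `R`.
`sparse`: for `H = eset γ m ∈ Obs`: nonempty since `b 0 ≠ b 1` forces `m 0 1 ≥ 1`. If `E` contains no `H ∈ Obs` then there is no
`WK5 ↑E R b γ m` (otherwise `H = eset γ m ⊆ E`, and `WK5 ↑H R b γ m`). So by `dense`
`e2 E W ≤ K |W|^(1+1/q) ≤ K |V|^(1/q) |W| ≤ D |W|` for all `W`, `D = ⌈K |V|^(1/q)⌉₊`, and `orient` applies.
-/

set_option autoImplicit false

namespace Pool.Agent.KDT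

theorem dense (q : ℕ) (hq : 1 ≤ q) : ∃ K : ℝ, 0 < K ∧ ∀ (V : Type) [Fintype V] [DecidableEq V]
    (E : Finset (Sym2 V)) (W : Finset V), K * (W.card : ℝ) ^ (1 + 1 / (q : ℝ)) < e2 E W →
    ∃ b γ m, WK5 (↑E : Set (Sym2 V)) (2 * RR q (Fintype.card V)) b γ m := by
  obtain ⟨u0, hu0⟩ := large q hq
  have hK : (0 : ℝ) < (u0 : ℝ) + 1 := by positivity
  refine ⟨(u0 : ℝ) + 1, hK, ?_⟩
  intro V _ _ E W h
  obtain ⟨U, -, hne, hKU, hexp⟩ := expand q hq E W _ hK h
  have hu1 : 1 ≤ U.card := hne.card_pos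
  have hu1' : (1 : ℝ) ≤ (U.card : ℝ) := by exact_mod_cast hu1
  have he2 : (e2 E U : ℝ) ≤ (U.card : ℝ) * (U.card : ℝ) := by
    have h1 : e2 E U ≤ U.card * U.card := by
      unfold e2
      exact (Finset.card_filter_le _ _).trans (Finset.card_product U U).le
    exact_mod_cast h1
  have hq0 : (0 : ℝ) < (q : ℝ) := by exact_mod_cast hq
  have hpow : (U.card : ℝ) ≤ (U.card : ℝ) ^ (1 + 1 / (q : ℝ)) := by
    have h1 := Real.rpow_le_rpow_of_exponent_le hu1' (show (1 : ℝ) ≤ 1 + 1 / (q : ℝ) by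
      have : 0 < 1 / (q : ℝ) := by positivity
      linarith)
    rwa [Real.rpow_one] at h1
  have hKu : (u0 : ℝ) + 1 ≤ (U.card : ℝ) := by
    have h1 : ((u0 : ℝ) + 1) * (U.card : ℝ) ≤ (U.card : ℝ) * (U.card : ℝ) :=
      (mul_le_mul_of_nonneg_left hpow hK.le).trans (hKU.trans he2)
    exact le_of_mul_le_mul_right h1 (by linarith)
  have hu0' : u0 ≤ U.card := by
    have h1 : (u0 : ℝ) ≤ (U.card : ℝ) := by linarith
    exact_mod_cast h1
  obtain ⟨h5, hlarge⟩ := hu0 U.card hu0'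
  obtain ⟨b, γ, m, hWK⟩ := greedy E U h5 (2 * RR q U.card) (10 * (2 * RR q U.card + 1) + 5) le_rfl
    (fun X hX v hv w hw => by
      refine short_paths q hq E U X hexp ?_ (RR q U.card) (RR_spec q U.card) v w hv hw
      refine le_trans ?_ hlarge
      have h1 : (X.card : ℝ) ≤ ((10 * (2 * RR q U.card + 1) + 5 : ℕ) : ℝ) := by
        exact_mod_cast hX
      refine h1.trans (le_of_eq ?_)
      push_cast
      ring)
  have hmono : 2 * RR q U.card ≤ 2 * RR q (Fintype.card V) :=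
    Nat.mul_le_mul_left 2 (RR_mono q _ _ (Finset.card_le_univ U))
  exact ⟨b, γ, m, ⟨hWK.inj, fun i j hij => (hWK.len i j hij).trans hmono, hWK.start, hWK.fin,
    hWK.edge, hWK.disj⟩⟩

theorem sparse (q : ℕ) (hq : 1 ≤ q) : ∃ C : ℝ, 0 < C ∧ ∀ (V : Type) [Fintype V] [DecidableEq V],
    SparseHyp (Obs V (2 * RR q (Fintype.card V))) ⌈C * (Fintype.card V : ℝ) ^ (1 / (q : ℝ))⌉₊ := by
  obtain ⟨K, hK, hd⟩ := dense q hq
  refine ⟨K, hK, ?_⟩
  intro V _ _
  refine ⟨?_, ?_⟩
  · rintro H ⟨b, γ, m, hW, -⟩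
    have h01 : (0 : Fin 5) < 1 := by decide
    have hm : 0 < m 0 1 := by
      rcases Nat.eq_zero_or_pos (m 0 1) with h0 | h0
      · exfalso
        have h1 := hW.start 0 1 h01
        have h2 := hW.fin 0 1 h01
        rw [h0, h1] at h2
        exact absurd (hW.inj h2) (by decide)
      · exact h0
    exact ⟨_, hW.edge 0 1 h01 0 hm⟩
  · intro E _ hno
    refine orient E _ fun W => ?_
    have h1 : (e2 E W : ℝ) ≤ K * (W.card : ℝ) ^ (1 + 1 / (q : ℝ)) := by
      by_contra hcon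
      obtain ⟨b, γ, m, hW⟩ := hd V E W (not_le.1 hcon)
      have hmem : ∀ i j, i < j → ∀ l < m i j, s(γ i j l, γ i j (l + 1)) ∈ eset γ m := by
        intro i j hij l hl
        unfold eset
        rw [Finset.mem_biUnion]
        refine ⟨(i, j), ?_, ?_⟩
        · unfold prs
          rw [Finset.mem_filter]
          exact ⟨Finset.mem_univ _, hij⟩
        · rw [Finset.mem_image]
          exact ⟨l, Finset.mem_range.2 hl, rfl⟩
      refine hno (eset γ m) ⟨b, γ, m, ⟨hW.inj, hW.len, hW.start, hW.fin, ?_, hW.disj⟩, rfl⟩ ?_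
      · intro i j hij l hl
        exact hmem i j hij l hl
      · intro e he
        unfold eset at he
        rw [Finset.mem_biUnion] at he
        obtain ⟨⟨i, j⟩, hp, he⟩ := he
        unfold prs at hp
        rw [Finset.mem_filter] at hp
        rw [Finset.mem_image] at he
        obtain ⟨l, hl, rfl⟩ := he
        exact hW.edge i j hp.2 l (Finset.mem_range.1 hl)
    have h2 : (W.card : ℝ) ^ (1 + 1 / (q : ℝ)) ≤
        (Fintype.card V : ℝ) ^ (1 / (q : ℝ)) * (W.card : ℝ) := by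
      rcases Nat.eq_zero_or_pos W.card with h0 | h0
      · rw [h0, Nat.cast_zero, mul_zero, Real.zero_rpow]
        have hq0 : (0 : ℝ) < (q : ℝ) := by exact_mod_cast hq
        positivity
      · have h0' : (0 : ℝ) < (W.card : ℝ) := by exact_mod_cast h0
        rw [Real.rpow_add h0', Real.rpow_one, mul_comm]
        refine mul_le_mul_of_nonneg_right ?_ h0'.le
        refine Real.rpow_le_rpow h0'.le ?_ (by positivity)
        exact_mod_cast Finset.card_le_univ W
    have h3 : (e2 E W : ℝ) ≤ ((⌈K * (Fintype.card V : ℝ) ^ (1 / (q : ℝ))⌉₊ * W.card : ℕ) : ℝ) := by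
      push_cast
      calc (e2 E W : ℝ) ≤ K * ((Fintype.card V : ℝ) ^ (1 / (q : ℝ)) * (W.card : ℝ)) :=
            h1.trans (mul_le_mul_of_nonneg_left h2 hK.le)
        _ = K * (Fintype.card V : ℝ) ^ (1 / (q : ℝ)) * (W.card : ℝ) := by ring
        _ ≤ _ := mul_le_mul_of_nonneg_right (Nat.le_ceil _) (Nat.cast_nonneg _)
    exact_mod_cast h3

end Pool.Agent.KDT
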