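import Pool.Agent.KDT.Bas

/-!
# Dich: near a tie of exactly four sites with `y`, `z` on different sides of the line `a b`
For `t` near `t0` let `(x(t), y(t))` be the solution of the two linear equations `g a = g b`, `g y = g z`, i.e.
`2 ⟨P_b - P_a, x⟩ = q_b - q_a`, `2 ⟨P_z - P_y, x⟩ = q_z - q_y` (Cramer's rule). The determinant
`(Xb-Xa)(Yz-Yy) - (Yb-Ya)(Xz-Xy) = Or a b z - Or a b y < 0` at `t0` (`or_diff`), hence near `t0`. The solution is continuous in `t` and equals
`(x0,y0)` at `t0` (uniqueness). For the finitely many other `c`, `g c > g a` and also `g c > g y` at `t0`, hence near `t0` at `(x(t), y(t))`.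
At time `t` compare `g a = g b` and `g y = g z` at `(x(t),y(t))`: if `g a < g y`, then `a b` is strict; if `g y < g a` then `y z` is strict; if equal, all four are tied.
-/

set_option autoImplicit false

namespace Pool.Agent.KDT

theorem dich {V : Type} [Finite V] (S : Sys V) (t0 : ℝ) (a b y z : V) (hab : a ≠ b) (hay : a ≠ y) (haz : a ≠ z)
    (hby : b ≠ y) (hbz : b ≠ z) (hyz : y ≠ z) (x0 y0 : ℝ) (h1 : S.g b t0 x0 y0 = S.g a t0 x0 y0)
    (h2 : S.g y t0 x0 y0 = S.g a t0 x0 y0) (h3 : S.g z t0 x0 y0 = S.g a t0 x0 y0)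
    (h4 : ∀ c, c ≠ a → c ≠ b → c ≠ y → c ≠ z → S.g a t0 x0 y0 < S.g c t0 x0 y0)
    (hy : 0 < S.Or a b y t0) (hz : S.Or a b z t0 < 0) :
    ∃ δ : ℝ, 0 < δ ∧ ∀ t : ℝ, |t - t0| < δ → S.Strict Set.univ t a b ∨ S.Strict Set.univ t y z ∨
      ∃ x1 y1 : ℝ, S.g b t x1 y1 = S.g a t x1 y1 ∧ S.g y t x1 y1 = S.g a t x1 y1 ∧ S.g z t x1 y1 = S.g a t x1 y1 := by
  set D : ℝ → ℝ := fun t => (S.xx b t - S.xx a t) * (S.yy z t - S.yy y t) -
    (S.yy b t - S.yy a t) * (S.xx z t - S.xx y t) with hD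
  have hD0 : D t0 < 0 := by
    simp only [hD]
    rw [or_diff]
    linarith
  set X : ℝ → ℝ := fun t => ((S.q b t - S.q a t) * (S.yy z t - S.yy y t) -
    (S.q z t - S.q y t) * (S.yy b t - S.yy a t)) / (2 * D t) with hX
  set Y : ℝ → ℝ := fun t => ((S.xx b t - S.xx a t) * (S.q z t - S.q y t) -
    (S.xx z t - S.xx y t) * (S.q b t - S.q a t)) / (2 * D t) with hY
  have cx := cont_xx S
  have cy := cont_yy S
  have cq := cont_q S
  have cD : Continuous D := (((cx b).sub (cx a)).mul ((cy z).sub (cy y))).sub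
    (((cy b).sub (cy a)).mul ((cx z).sub (cx y)))
  have h2D : (2 * D t0) ≠ 0 := mul_ne_zero two_ne_zero hD0.ne
  have cX : ContinuousAt X t0 := ContinuousAt.div
    ((((cq b).sub (cq a)).mul ((cy z).sub (cy y))).sub
      (((cq z).sub (cq y)).mul ((cy b).sub (cy a)))).continuousAt
    (continuous_const.mul cD).continuousAt h2D
  have cY : ContinuousAt Y t0 := ContinuousAt.div
    ((((cx b).sub (cx a)).mul ((cq z).sub (cq y))).sub
      (((cx z).sub (cx y)).mul ((cq b).sub (cq a)))).continuousAt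
    (continuous_const.mul cD).continuousAt h2D
  have k1 : S.q b t0 - S.q a t0 = 2 * ((S.xx b t0 - S.xx a t0) * x0 +
      (S.yy b t0 - S.yy a t0) * y0) := by
    have := h1
    unfold Sys.g at this
    linarith
  have k2 : S.q z t0 - S.q y t0 = 2 * ((S.xx z t0 - S.xx y t0) * x0 +
      (S.yy z t0 - S.yy y t0) * y0) := by
    have := h3.trans h2.symm
    unfold Sys.g at this
    linarith
  have X0 : X t0 = x0 := by
    simp only [hX]
    rw [div_eq_iff h2D]
    simp only [hD]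
    rw [k1, k2]
    ring
  have Y0 : Y t0 = y0 := by
    simp only [hY]
    rw [div_eq_iff h2D]
    simp only [hD]
    rw [k1, k2]
    ring
  have cg : ∀ c : V, ContinuousAt (fun t => S.g c t (X t) (Y t)) t0 := by
    intro c
    unfold Sys.g
    exact (cq c).continuousAt.sub (continuousAt_const.mul
      (((cx c).continuousAt.mul cX).add ((cy c).continuousAt.mul cY)))
  have e1 : ∀ᶠ t in nhds t0, D t < 0 := cD.continuousAt.eventually_lt continuousAt_const hD0
  have e2 : ∀ᶠ t in nhds t0, ∀ c : V, (c ≠ a → c ≠ b → c ≠ y → c ≠ z →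
      S.g a t (X t) (Y t) < S.g c t (X t) (Y t) ∧ S.g y t (X t) (Y t) < S.g c t (X t) (Y t)) := by
    rw [Filter.eventually_all]
    intro c
    by_cases hc : c ≠ a ∧ c ≠ b ∧ c ≠ y ∧ c ≠ z
    · have m1 : S.g a t0 (X t0) (Y t0) < S.g c t0 (X t0) (Y t0) := by
        rw [X0, Y0]
        exact h4 c hc.1 hc.2.1 hc.2.2.1 hc.2.2.2
      have m2 : S.g y t0 (X t0) (Y t0) < S.g c t0 (X t0) (Y t0) := by
        rw [X0, Y0, h2]
        exact h4 c hc.1 hc.2.1 hc.2.2.1 hc.2.2.2
      filter_upwards [(cg a).eventually_lt (cg c) m1, (cg y).eventually_lt (cg c) m2]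
        with t n1 n2 _ _ _ _
      exact ⟨n1, n2⟩
    · refine Filter.Eventually.of_forall fun t i1 i2 i3 i4 => ?_
      exact absurd ⟨i1, i2, i3, i4⟩ hc
  obtain ⟨δ, hδ, hball⟩ := Metric.eventually_nhds_iff.1 (e1.and e2)
  refine ⟨δ, hδ, fun t ht => ?_⟩
  obtain ⟨hDt, hc⟩ := hball (by rw [Real.dist_eq]; exact ht)
  have h2Dt : (2 * D t) ≠ 0 := mul_ne_zero two_ne_zero hDt.ne
  have nX : X t * (2 * D t) = (S.q b t - S.q a t) * (S.yy z t - S.yy y t) -
    (S.q z t - S.q y t) * (S.yy b t - S.yy a t) := div_mul_cancel₀ _ h2Dt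
  have nY : Y t * (2 * D t) = (S.xx b t - S.xx a t) * (S.q z t - S.q y t) -
    (S.xx z t - S.xx y t) * (S.q b t - S.q a t) := div_mul_cancel₀ _ h2Dt
  have g1 : S.g b t (X t) (Y t) = S.g a t (X t) (Y t) := by
    apply mul_left_cancel₀ hDt.ne
    unfold Sys.g
    simp only [hD] at nX nY ⊢
    linear_combination (-(S.xx b t - S.xx a t)) * nX - (S.yy b t - S.yy a t) * nY
  have g2 : S.g z t (X t) (Y t) = S.g y t (X t) (Y t) := by
    apply mul_left_cancel₀ hDt.ne
    unfold Sys.g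
    simp only [hD] at nX nY ⊢
    linear_combination (-(S.xx z t - S.xx y t)) * nX - (S.yy z t - S.yy y t) * nY
  rcases lt_trichotomy (S.g a t (X t) (Y t)) (S.g y t (X t) (Y t)) with hlt | heq | hgt
  · left
    refine ⟨X t, Y t, g1.symm, fun c _ ca cb => ?_⟩
    by_cases hcy : c = y
    · rw [hcy]; exact hlt
    · by_cases hcz : c = z
      · rw [hcz, g2]; exact hlt
      · exact (hc c ca cb hcy hcz).1
  · right; right
    exact ⟨X t, Y t, g1, heq.symm, g2.trans heq.symm⟩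
  · right; left
    refine ⟨X t, Y t, g2.symm, fun c _ cy' cz => ?_⟩
    by_cases hca : c = a
    · rw [hca]; exact hgt
    · by_cases hcb : c = b
      · rw [hcb, g1]; exact hgt
      · exact (hc c hca hcb cy' cz).2

end Pool.Agent.KDT
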