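import Pool.Agent.KDT.Defs

/-!
# Poly: polynomials in `t`
-/

set_option autoImplicit false

namespace Pool.Agent.KDT

variable {V : Type}

open Polynomial in
private noncomputable def PX (S : Sys V) (i : V) : Polynomial ℝ := C (S.px i) + X * C (S.vx i)

open Polynomial in
private noncomputable def PY (S : Sys V) (i : V) : Polynomial ℝ := C (S.py i) + X * C (S.vy i)

private theorem eval_PX (S : Sys V) (i : V) (t : ℝ) : (PX S i).eval t = S.xx i t := by
  simp only [PX, Sys.xx, Polynomial.eval_add, Polynomial.eval_mul, Polynomial.eval_C, Polynomial.eval_X]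

private theorem eval_PY (S : Sys V) (i : V) (t : ℝ) : (PY S i).eval t = S.yy i t := by
  simp only [PY, Sys.yy, Polynomial.eval_add, Polynomial.eval_mul, Polynomial.eval_C, Polynomial.eval_X]

private theorem deg_PX (S : Sys V) (i : V) : (PX S i).natDegree ≤ 1 := by
  unfold PX; compute_degree

private theorem deg_PY (S : Sys V) (i : V) : (PY S i).natDegree ≤ 1 := by
  unfold PY; compute_degree

private theorem dadd {P Q : Polynomial ℝ} {n : ℕ} (hP : P.natDegree ≤ n) (hQ : Q.natDegree ≤ n) :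
    (P + Q).natDegree ≤ n := (Polynomial.natDegree_add_le P Q).trans (max_le hP hQ)

private theorem dsub {P Q : Polynomial ℝ} {n : ℕ} (hP : P.natDegree ≤ n) (hQ : Q.natDegree ≤ n) :
    (P - Q).natDegree ≤ n := (Polynomial.natDegree_sub_le P Q).trans (max_le hP hQ)

private theorem dmul {P Q : Polynomial ℝ} {m n k : ℕ} (hP : P.natDegree ≤ m) (hQ : Q.natDegree ≤ n)
    (h : m + n ≤ k) :
    (P * Q).natDegree ≤ k := (Polynomial.natDegree_mul_le).trans ((Nat.add_le_add hP hQ).trans h)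

private noncomputable def Pq (S : Sys V) (i : V) : Polynomial ℝ :=
  PX S i * PX S i + PY S i * PY S i + Polynomial.C (S.w i)

private theorem eval_Pq (S : Sys V) (i : V) (t : ℝ) : (Pq S i).eval t = S.q i t := by
  simp only [Pq, Polynomial.eval_add, Polynomial.eval_mul, eval_PX, eval_PY, Polynomial.eval_C, Sys.q]
  ring

private theorem deg_Pq (S : Sys V) (i : V) : (Pq S i).natDegree ≤ 2 := by
  refine dadd (dadd (dmul (deg_PX S i) (deg_PX S i) le_rfl) (dmul (deg_PY S i) (deg_PY S i) le_rfl)) ?_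
  simp

private noncomputable def PN (S : Sys V) (a b : V) : Polynomial ℝ :=
  (PX S b - PX S a) * (PX S b - PX S a) + (PY S b - PY S a) * (PY S b - PY S a)

private theorem eval_PN (S : Sys V) (a b : V) (t : ℝ) : (PN S a b).eval t = S.Nn a b t := by
  simp only [PN, Polynomial.eval_add, Polynomial.eval_sub, Polynomial.eval_mul, eval_PX, eval_PY, Sys.Nn]
  ring

private theorem deg_PN (S : Sys V) (a b : V) : (PN S a b).natDegree ≤ 2 := by
  have h1 := dsub (deg_PX S b) (deg_PX S a)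
  have h2 := dsub (deg_PY S b) (deg_PY S a)
  exact dadd (dmul h1 h1 le_rfl) (dmul h2 h2 le_rfl)

private noncomputable def PO (S : Sys V) (a b c : V) : Polynomial ℝ :=
  (PX S b - PX S a) * (PY S c - PY S a) - (PY S b - PY S a) * (PX S c - PX S a)

private theorem eval_PO (S : Sys V) (a b c : V) (t : ℝ) : (PO S a b c).eval t = S.Or a b c t := by
  simp only [PO, Polynomial.eval_sub, Polynomial.eval_mul, eval_PX, eval_PY, Sys.Or]

private theorem deg_PO (S : Sys V) (a b c : V) : (PO S a b c).natDegree ≤ 2 :=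
  dsub (dmul (dsub (deg_PX S b) (deg_PX S a)) (dsub (deg_PY S c) (deg_PY S a)) le_rfl)
    (dmul (dsub (deg_PY S b) (deg_PY S a)) (dsub (deg_PX S c) (deg_PX S a)) le_rfl)

private noncomputable def PU (S : Sys V) (a b c : V) : Polynomial ℝ :=
  PN S a b * (Pq S c - Pq S a) - (Pq S b - Pq S a) *
    ((PX S b - PX S a) * (PX S c - PX S a) + (PY S b - PY S a) * (PY S c - PY S a))

private theorem eval_PU (S : Sys V) (a b c : V) (t : ℝ) : (PU S a b c).eval t = S.Uu a b c t := by
  simp only [PU, Polynomial.eval_sub, Polynomial.eval_mul, Polynomial.eval_add, eval_PX, eval_PY, eval_Pq,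
    eval_PN, Sys.Uu]

private theorem deg_PU (S : Sys V) (a b c : V) : (PU S a b c).natDegree ≤ 4 := by
  have h1 : ((PX S b - PX S a) * (PX S c - PX S a)).natDegree ≤ 2 :=
    dmul (dsub (deg_PX S b) (deg_PX S a)) (dsub (deg_PX S c) (deg_PX S a)) le_rfl
  have h2 : ((PY S b - PY S a) * (PY S c - PY S a)).natDegree ≤ 2 :=
    dmul (dsub (deg_PY S b) (deg_PY S a)) (dsub (deg_PY S c) (deg_PY S a)) le_rfl
  exact dsub (dmul (deg_PN S a b) (dsub (deg_Pq S c) (deg_Pq S a)) le_rfl)
    (dmul (dsub (deg_Pq S b) (deg_Pq S a)) (dadd h1 h2) le_rfl)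

private noncomputable def PC (S : Sys V) (a b c e : V) : Polynomial ℝ :=
  PU S a b e * PO S a b c - PU S a b c * PO S a b e

private theorem eval_PC (S : Sys V) (a b c e : V) (t : ℝ) : (PC S a b c e).eval t = S.Cr a b c e t := by
  simp only [PC, Polynomial.eval_sub, Polynomial.eval_mul, eval_PU, eval_PO, Sys.Cr]

private theorem deg_PC (S : Sys V) (a b c e : V) : (PC S a b c e).natDegree ≤ 6 :=
  dsub (dmul (deg_PU S a b e) (deg_PO S a b c) le_rfl) (dmul (deg_PU S a b c) (deg_PO S a b e) le_rfl)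

theorem nn_poly (S : Sys V) (a b : V) : ∃ P : Polynomial ℝ, P.natDegree ≤ 2 ∧ ∀ t, P.eval t = S.Nn a b t :=
  ⟨PN S a b, deg_PN S a b, eval_PN S a b⟩

theorem or_poly (S : Sys V) (a b c : V) :
    ∃ P : Polynomial ℝ, P.natDegree ≤ 2 ∧ ∀ t, P.eval t = S.Or a b c t :=
  ⟨PO S a b c, deg_PO S a b c, eval_PO S a b c⟩

theorem uu_poly (S : Sys V) (a b c : V) :
    ∃ P : Polynomial ℝ, P.natDegree ≤ 4 ∧ ∀ t, P.eval t = S.Uu a b c t :=
  ⟨PU S a b c, deg_PU S a b c, eval_PU S a b c⟩

theorem cr_poly (S : Sys V) (a b c e : V) :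
    ∃ P : Polynomial ℝ, P.natDegree ≤ 6 ∧ ∀ t, P.eval t = S.Cr a b c e t :=
  ⟨PC S a b c e, deg_PC S a b c e, eval_PC S a b c e⟩

private theorem roots_le (P : Polynomial ℝ) (n : ℕ) (hn : P.natDegree ≤ n) (s : ℝ) (hs : P.eval s ≠ 0)
    (F : Finset ℝ) (hF : ∀ t ∈ F, P.eval t = 0) : F.card ≤ n := by
  have hP : P ≠ 0 := by
    rintro rfl
    simp at hs
  have h1 : F ⊆ P.roots.toFinset := by
    intro t ht
    rw [Multiset.mem_toFinset, Polynomial.mem_roots hP]
    exact hF t ht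
  calc F.card ≤ P.roots.toFinset.card := Finset.card_le_card h1
    _ ≤ Multiset.card P.roots := Multiset.toFinset_card_le _
    _ ≤ P.natDegree := Polynomial.card_roots' P
    _ ≤ n := hn

theorem or_roots (S : Sys V) (a b c : V) (h : ∃ s, S.Or a b c s ≠ 0) (F : Finset ℝ)
    (hF : ∀ t ∈ F, S.Or a b c t = 0) : F.card ≤ 2 := by
  obtain ⟨P, hP, he⟩ := or_poly S a b c
  obtain ⟨s, hs⟩ := h
  exact roots_le P 2 hP s (by rw [he]; exact hs) F (fun t ht => by rw [he]; exact hF t ht)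

theorem cr_roots (S : Sys V) (a b c e : V) (h : ∃ s, S.Cr a b c e s ≠ 0) (F : Finset ℝ)
    (hF : ∀ t ∈ F, S.Cr a b c e t = 0) : F.card ≤ 6 := by
  obtain ⟨P, hP, he⟩ := cr_poly S a b c e
  obtain ⟨s, hs⟩ := h
  exact roots_le P 6 hP s (by rw [he]; exact hs) F (fun t ht => by rw [he]; exact hF t ht)

theorem coll (S : Sys V) (hS : S.Distinct) (i j : V) (hij : i ≠ j) (t1 t2 : ℝ) (h1 : S.Nn i j t1 = 0)
    (h2 : S.Nn i j t2 = 0) : t1 = t2 := by
  by_contra hne
  have key : ∀ t, S.Nn i j t = 0 → S.xx j t - S.xx i t = 0 ∧ S.yy j t - S.yy i t = 0 := by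
    intro t ht
    unfold Sys.Nn at ht
    constructor
    · have h3 : (S.xx j t - S.xx i t) ^ 2 = 0 := by nlinarith [sq_nonneg (S.xx j t - S.xx i t), sq_nonneg (S.yy j t - S.yy i t)]
      exact pow_eq_zero_iff (two_ne_zero) |>.mp h3

    · have h3 : (S.yy j t - S.yy i t) ^ 2 = 0 := by nlinarith [sq_nonneg (S.xx j t - S.xx i t), sq_nonneg (S.yy j t - S.yy i t)]
      exact pow_eq_zero_iff (two_ne_zero) |>.mp h3
  obtain ⟨a1, b1⟩ := key t1 h1
  obtain ⟨a2, b2⟩ := key t2 h2
  unfold Sys.xx at a1 a2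
  unfold Sys.yy at b1 b2
  have hd : t1 - t2 ≠ 0 := sub_ne_zero.mpr hne
  have hv : S.vx j - S.vx i = 0 := by
    have : (t1 - t2) * (S.vx j - S.vx i) = 0 := by linear_combination a1 - a2
    exact (mul_eq_zero.mp this).resolve_left hd
  have hw : S.vy j - S.vy i = 0 := by
    have : (t1 - t2) * (S.vy j - S.vy i) = 0 := by linear_combination b1 - b2
    exact (mul_eq_zero.mp this).resolve_left hd
  refine hS i j hij ⟨?_, ?_, ?_, ?_⟩
  · linear_combination -a1 + t1 * hv
  · linear_combination -b1 + t1 * hw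
  · linear_combination -hv
  · linear_combination -hw

theorem nn_ne (S : Sys V) (hS : S.Distinct) (a b : V) (hab : a ≠ b) : ∃ t, S.Nn a b t ≠ 0 := by
  by_contra h
  push Not at h
  have := coll S hS a b hab 0 1 (h 0) (h 1)
  norm_num at this

end Pool.Agent.KDT
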