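import Pool.Agent.KDT.Bas
import Pool.Agent.KDT.Poly

/-!
# EvCount: from event times to injective families of triples and quadruples
Split `F = F3 ∪ F4`, `F3` the times with some `Ev3`, `F4` those with some `Ev4`. For `t ∈ F3` choose `τ t = ![a, b, y]`; for fixed `(a,b,y)` at most two `t` are possible
(`or_roots`), so `|F3| ≤ 2 |image τ F3|` (`Finset.card_le_mul_card_image`). Choose `T ⊆ F3` with `τ` injective on `T` and with the same image. Then
`|image| = |T| ≤ c3` by `h3` (distinct entries; `Clust` for all ordered pairs `i ≠ j` by `clust_symm`). The same for `F4` with `cr_roots` (6).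
-/

set_option autoImplicit false

namespace Pool.Agent.KDT

private theorem evPick {α : Type} [DecidableEq α] (F : Finset ℝ) (τ : ℝ → α) (m : ℕ)
    (h : ∀ v, (F.filter (fun t => τ t = v)).card ≤ m) :
    ∃ T : Finset ℝ, T ⊆ F ∧ Set.InjOn τ T ∧ F.card ≤ m * T.card := by
  classical
  have hex : ∀ v, v ∈ F.image τ → ∃ t, t ∈ F ∧ τ t = v := by
    intro v hv
    obtain ⟨t, ht, hv⟩ := Finset.mem_image.mp hv
    exact ⟨t, ht, hv⟩
  choose! σ h1 h2 using hex
  refine ⟨(F.image τ).image σ, ?_, ?_, ?_⟩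
  · intro t ht
    obtain ⟨v, hv, rfl⟩ := Finset.mem_image.mp ht
    exact h1 v hv
  · intro t ht t' ht' he
    obtain ⟨v, hv, rfl⟩ := Finset.mem_image.mp (Finset.mem_coe.mp ht)
    obtain ⟨v', hv', rfl⟩ := Finset.mem_image.mp (Finset.mem_coe.mp ht')
    rw [h2 v hv, h2 v' hv'] at he
    rw [he]
  · have h3 : ((F.image τ).image σ).card = (F.image τ).card := by
      apply Finset.card_image_of_injOn
      intro v hv v' hv' he
      have h4 := congrArg τ he
      rwa [h2 v (Finset.mem_coe.mp hv), h2 v' (Finset.mem_coe.mp hv')] at h4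
    rw [h3]
    exact Finset.card_le_mul_card_image F m (fun v _ => h v)

private theorem evCount3 {V : Type} [DecidableEq V] (S : Sys V) (F : Finset ℝ)
    (hF : ∀ t ∈ F, ∃ a b y, S.Ev3 t a b y) (c3 : ℕ)
    (h3 : ∀ (τ : ℝ → Fin 3 → V) (T : Finset ℝ), Set.InjOn τ T →
      (∀ t ∈ T, Function.Injective (τ t)) →
      (∀ t ∈ T, ∀ i j, i ≠ j → S.Clust t (τ t i) (τ t j)) → T.card ≤ c3) :
    F.card ≤ 2 * c3 := by
  classical
  rcases F.eq_empty_or_nonempty with rfl | ⟨t0, ht0⟩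
  · simp
  obtain ⟨a0, -⟩ := hF t0 ht0
  have : Nonempty V := ⟨a0⟩
  choose! a b y h using hF
  let τ : ℝ → Fin 3 → V := fun t => ![a t, b t, y t]
  obtain ⟨T, hT, hinj, hcard⟩ := evPick F τ 2 (by
    intro v
    rcases (F.filter (fun t => τ t = v)).eq_empty_or_nonempty with he | ⟨t1, ht1⟩
    · rw [he]
      simp
    have key : ∀ t ∈ F.filter (fun t => τ t = v), S.Ev3 t (v 0) (v 1) (v 2) := by
      intro t ht
      obtain ⟨htF, hv⟩ := Finset.mem_filter.mp ht
      rw [← hv]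
      exact h t htF
    exact or_roots S (v 0) (v 1) (v 2) (key t1 ht1).2.2.2.2.1 _
      (fun t ht => (key t ht).2.2.2.1))
  refine hcard.trans (Nat.mul_le_mul_left 2 (h3 τ T hinj ?_ ?_))
  · intro t ht
    obtain ⟨hab, hay, hby, -⟩ := h t (hT ht)
    intro i j hij
    fin_cases i <;> fin_cases j <;> simp_all [τ]
  · intro t ht
    obtain ⟨hab, hay, hby, -, -, c1, c2, c3⟩ := h t (hT ht)
    have d1 := clust_symm S t _ _ c1
    have d2 := clust_symm S t _ _ c2
    have d3 := clust_symm S t _ _ c3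
    intro i j hij
    fin_cases i <;> fin_cases j <;> first
      | exact absurd rfl hij
      | assumption

private theorem evCount4 {V : Type} [DecidableEq V] (S : Sys V) (F : Finset ℝ)
    (hF : ∀ t ∈ F, ∃ a b y z, S.Ev4 t a b y z) (c4 : ℕ)
    (h4 : ∀ (τ : ℝ → Fin 4 → V) (T : Finset ℝ), Set.InjOn τ T →
      (∀ t ∈ T, Function.Injective (τ t)) →
      (∀ t ∈ T, ∀ i j, i ≠ j → S.Clust t (τ t i) (τ t j)) → T.card ≤ c4) :
    F.card ≤ 6 * c4 := by
  classical
  rcases F.eq_empty_or_nonempty with rfl | ⟨t0, ht0⟩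
  · simp
  obtain ⟨a0, -⟩ := hF t0 ht0
  have : Nonempty V := ⟨a0⟩
  choose! a b y z h using hF
  let τ : ℝ → Fin 4 → V := fun t => ![a t, b t, y t, z t]
  obtain ⟨T, hT, hinj, hcard⟩ := evPick F τ 6 (by
    intro v
    rcases (F.filter (fun t => τ t = v)).eq_empty_or_nonempty with he | ⟨t1, ht1⟩
    · rw [he]
      simp
    have key : ∀ t ∈ F.filter (fun t => τ t = v), S.Ev4 t (v 0) (v 1) (v 2) (v 3) := by
      intro t ht
      obtain ⟨htF, hv⟩ := Finset.mem_filter.mp ht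
      rw [← hv]
      exact h t htF
    exact cr_roots S (v 0) (v 1) (v 2) (v 3) (key t1 ht1).2.2.2.2.2.2.2.1 _
      (fun t ht => (key t ht).2.2.2.2.2.2.1))
  refine hcard.trans (Nat.mul_le_mul_left 6 (h4 τ T hinj ?_ ?_))
  · intro t ht
    obtain ⟨h1, h2, h3, h4, h5, h6, -⟩ := h t (hT ht)
    intro i j hij
    fin_cases i <;> fin_cases j <;> simp_all [τ]
  · intro t ht
    obtain ⟨-, -, -, -, -, -, -, -, c1, c2, c3, c4, c5, c6⟩ := h t (hT ht)
    have d1 := clust_symm S t _ _ c1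
    have d2 := clust_symm S t _ _ c2
    have d3 := clust_symm S t _ _ c3
    have d4 := clust_symm S t _ _ c4
    have d5 := clust_symm S t _ _ c5
    have d6 := clust_symm S t _ _ c6
    intro i j hij
    fin_cases i <;> fin_cases j <;> first
      | exact absurd rfl hij
      | assumption

theorem ev_count {V : Type} [DecidableEq V] (S : Sys V) (F : Finset ℝ) (hF : ∀ t ∈ F, S.EvT t) (c3 c4 : ℕ)
    (h3 : ∀ (τ : ℝ → Fin 3 → V) (T : Finset ℝ), Set.InjOn τ T → (∀ t ∈ T, Function.Injective (τ t)) →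
      (∀ t ∈ T, ∀ i j, i ≠ j → S.Clust t (τ t i) (τ t j)) → T.card ≤ c3)
    (h4 : ∀ (τ : ℝ → Fin 4 → V) (T : Finset ℝ), Set.InjOn τ T → (∀ t ∈ T, Function.Injective (τ t)) →
      (∀ t ∈ T, ∀ i j, i ≠ j → S.Clust t (τ t i) (τ t j)) → T.card ≤ c4) :
    F.card ≤ 2 * c3 + 6 * c4 := by
  classical
  let F3 := F.filter (fun t => ∃ a b y, S.Ev3 t a b y)
  let F4 := F.filter (fun t => ∃ a b y z, S.Ev4 t a b y z)
  have hsub : F ⊆ F3 ∪ F4 := by
    intro t ht
    rcases hF t ht with h | h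
    · exact Finset.mem_union_left _ (Finset.mem_filter.mpr ⟨ht, h⟩)
    · exact Finset.mem_union_right _ (Finset.mem_filter.mpr ⟨ht, h⟩)
  have e3 : F3.card ≤ 2 * c3 := evCount3 S F3 (fun t ht => (Finset.mem_filter.mp ht).2) c3 h3
  have e4 : F4.card ≤ 6 * c4 := evCount4 S F4 (fun t ht => (Finset.mem_filter.mp ht).2) c4 h4
  calc F.card ≤ (F3 ∪ F4).card := Finset.card_le_card hsub
    _ ≤ F3.card + F4.card := Finset.card_union_le _ _
    _ ≤ 2 * c3 + 6 * c4 := add_le_add e3 e4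

end Pool.Agent.KDT
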