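import Pool.Agent.KDT.Defs

/-!
# Expand: a subset with expansion
Choose a nonempty `U ⊆ W` maximizing `e2 E U / |U|^κ`, `κ = 1 + 1/q` (real power; `Finset.exists_max_image` over
`W.powerset` without `∅`; `W ≠ ∅` since `e2 E W > 0`). Then `K |U|^κ ≤ e2 E U`, in particular `e2 E U > 0`.
Let `S ⊆ U`, `N = nb E U S`, `u = |U|`, `s = |S|`. If `S = ∅` the claim is `0 ≤ ..` (`q ≥ 1`). If `S = U` then `N = U` (`S ⊆ N`)
and the claim is `u^q u ≤ u^(q+1)`. Otherwise `U \ S` and `N` are nonempty subsets of `W`. Every edge pair `(x,y) ∈ U × U` has both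
ends in `U \ S`, or one end in `S` and then both ends in `N`. So `e2 E U ≤ e2 E (U \ S) + e2 E N`, and by maximality
`e2 E U' ≤ e2 E U (|U'|/u)^κ` for `U' = U \ S` and `U' = N`. Divide by `e2 E U`:
`1 ≤ ((u-s)/u)^κ + (|N|/u)^κ ≤ (1 - s/u) + (|N|/u)^κ` (as `κ ≥ 1` and `0 ≤ 1 - s/u ≤ 1`). Hence `s/u ≤ (|N|/u)^κ`;
raise to the power `q`: `(s/u)^q ≤ (|N|/u)^(q+1)` (as `κ q = q + 1`), i.e. `s^q u ≤ |N|^(q+1)`.
-/

set_option autoImplicit false

namespace Pool.Agent.KDT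

private lemma e2_split {V : Type} [DecidableEq V] (E : Finset (Sym2 V)) (U S : Finset V) :
    e2 E U ≤ e2 E (U \ S) + e2 E (nb E U S) := by
  unfold e2
  refine le_trans (Finset.card_le_card ?_) (Finset.card_union_le _ _)
  intro p hp
  rw [Finset.mem_filter, Finset.mem_product] at hp
  obtain ⟨⟨hx, hy⟩, he⟩ := hp
  rw [Finset.mem_union, Finset.mem_filter, Finset.mem_filter, Finset.mem_product, Finset.mem_product]
  by_cases h1 : p.1 ∈ S
  · right
    refine ⟨⟨?_, ?_⟩, he⟩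
    · exact Finset.mem_filter.2 ⟨hx, Or.inl h1⟩
    · exact Finset.mem_filter.2 ⟨hy, Or.inr ⟨p.1, h1, he⟩⟩
  · by_cases h2 : p.2 ∈ S
    · right
      refine ⟨⟨?_, ?_⟩, he⟩
      · exact Finset.mem_filter.2 ⟨hx, Or.inr ⟨p.2, h2, by rw [Sym2.eq_swap]; exact he⟩⟩
      · exact Finset.mem_filter.2 ⟨hy, Or.inl h2⟩
    · left
      exact ⟨⟨Finset.mem_sdiff.2 ⟨hx, h1⟩, Finset.mem_sdiff.2 ⟨hy, h2⟩⟩, he⟩

theorem expand {V : Type} [DecidableEq V] (q : ℕ) (hq : 1 ≤ q) (E : Finset (Sym2 V)) (W : Finset V)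
    (K : ℝ) (hK : 0 < K) (h : K * (W.card : ℝ) ^ (1 + 1 / (q : ℝ)) < e2 E W) :
    ∃ U ⊆ W, U.Nonempty ∧ K * (U.card : ℝ) ^ (1 + 1 / (q : ℝ)) ≤ e2 E U ∧ Expands q E U := by
  classical
  obtain ⟨κ, hκ⟩ : ∃ κ : ℝ, κ = 1 + 1 / (q : ℝ) := ⟨_, rfl⟩
  rw [← hκ] at h ⊢
  have hq0 : (0 : ℝ) < q := by exact_mod_cast hq
  have hκ1 : 1 ≤ κ := by
    have := one_div_pos.mpr hq0
    linarith
  have hκ0 : 0 < κ := by linarith
  have hWne : W.Nonempty := by
    by_contra hne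
    rw [Finset.not_nonempty_iff_eq_empty] at hne
    subst hne
    have h0 : e2 E (∅ : Finset V) = 0 := by simp [e2]
    rw [h0, Finset.card_empty, Nat.cast_zero, Real.zero_rpow hκ0.ne', mul_zero] at h
    exact lt_irrefl _ h
  obtain ⟨U, hU, hmax⟩ := Finset.exists_max_image (W.powerset.erase ∅)
    (fun U => (e2 E U : ℝ) / (U.card : ℝ) ^ κ)
    ⟨W, by rw [Finset.mem_erase, Finset.mem_powerset]; exact ⟨hWne.ne_empty, subset_rfl⟩⟩
  rw [Finset.mem_erase, Finset.mem_powerset] at hU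
  obtain ⟨hUne', hUW⟩ := hU
  have hUne : U.Nonempty := Finset.nonempty_iff_ne_empty.2 hUne'
  have hpos : ∀ T : Finset V, T.Nonempty → 0 < (T.card : ℝ) := by
    intro T hT
    exact_mod_cast Finset.card_pos.2 hT
  have hu : 0 < (U.card : ℝ) := hpos U hUne
  have huκ : 0 < (U.card : ℝ) ^ κ := Real.rpow_pos_of_pos hu κ
  have hwκ : 0 < (W.card : ℝ) ^ κ := Real.rpow_pos_of_pos (hpos W hWne) κ
  have hmW := hmax W (by rw [Finset.mem_erase, Finset.mem_powerset]; exact ⟨hWne.ne_empty, subset_rfl⟩)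
  have hKW : K < (e2 E W : ℝ) / (W.card : ℝ) ^ κ := by rwa [lt_div_iff₀ hwκ]
  have hKU' : K < (e2 E U : ℝ) / (U.card : ℝ) ^ κ := lt_of_lt_of_le hKW hmW
  have hKU : K * (U.card : ℝ) ^ κ < e2 E U := by rwa [lt_div_iff₀ huκ] at hKU'
  refine ⟨U, hUW, hUne, hKU.le, ?_⟩
  have hEU : 0 < (e2 E U : ℝ) := lt_trans (mul_pos hK huκ) hKU
  have hmax' : ∀ U' ⊆ U, U'.Nonempty →
      (e2 E U' : ℝ) ≤ e2 E U * ((U'.card : ℝ) / U.card) ^ κ := by
    intro U' hU' hne
    have h1 := hmax U' (by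
      rw [Finset.mem_erase, Finset.mem_powerset]
      exact ⟨hne.ne_empty, hU'.trans hUW⟩)
    have h2 : 0 < (U'.card : ℝ) ^ κ := Real.rpow_pos_of_pos (hpos U' hne) κ
    rw [Real.div_rpow (hpos U' hne).le hu.le]
    rw [div_le_div_iff₀ h2 huκ] at h1
    rw [← mul_div_assoc, le_div_iff₀ huκ]
    exact h1
  intro S hS
  rcases S.eq_empty_or_nonempty with hSe | hSne
  · subst hSe
    rw [Finset.card_empty, zero_pow (by omega), zero_mul]
    exact Nat.zero_le _
  by_cases hSU : S = U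
  · subst hSU
    have : nb E S S = S := by
      apply Finset.filter_true_of_mem
      intro w hw
      exact Or.inl hw
    rw [this, pow_succ]
  have hN : (nb E U S).Nonempty := by
    obtain ⟨x, hx⟩ := hSne
    exact ⟨x, Finset.mem_filter.2 ⟨hS hx, Or.inl hx⟩⟩
  have hD : (U \ S).Nonempty := by
    rw [Finset.sdiff_nonempty]
    intro hc
    exact hSU (Finset.Subset.antisymm hS hc)
  have hsp : (e2 E U : ℝ) ≤ e2 E (U \ S) + e2 E (nb E U S) := by exact_mod_cast e2_split E U S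
  have hm1 := hmax' (U \ S) Finset.sdiff_subset hD
  have hm2 := hmax' (nb E U S) (Finset.filter_subset _ _) hN
  have hcard : ((U \ S).card : ℝ) = U.card - S.card := by
    rw [Finset.card_sdiff_of_subset hS, Nat.cast_sub (Finset.card_le_card hS)]
  have hsu : (S.card : ℝ) ≤ U.card := by exact_mod_cast Finset.card_le_card hS
  have hs0 : 0 < (S.card : ℝ) := hpos S hSne
  have hD0 : 0 < ((U \ S).card : ℝ) := hpos _ hD
  have hx1 : ((U \ S).card : ℝ) / U.card ≤ 1 := by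
    rw [div_le_one hu, hcard]
    linarith
  have hx0 : 0 < ((U \ S).card : ℝ) / U.card := div_pos hD0 hu
  have hpw : (((U \ S).card : ℝ) / U.card) ^ κ ≤ ((U \ S).card : ℝ) / U.card := by
    have := Real.rpow_le_rpow_of_exponent_ge hx0 hx1 hκ1
    rwa [Real.rpow_one] at this
  have hone : (1 : ℝ) ≤ (((U \ S).card : ℝ) / U.card) ^ κ + (((nb E U S).card : ℝ) / U.card) ^ κ := by
    have h3 : (e2 E U : ℝ) * 1 ≤ e2 E U * ((((U \ S).card : ℝ) / U.card) ^ κ
        + (((nb E U S).card : ℝ) / U.card) ^ κ) := by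
      rw [mul_one, mul_add]
      linarith
    exact le_of_mul_le_mul_left h3 hEU
  have hsN : (S.card : ℝ) / U.card ≤ (((nb E U S).card : ℝ) / U.card) ^ κ := by
    have h4 : ((U \ S).card : ℝ) / U.card = 1 - (S.card : ℝ) / U.card := by
      rw [hcard, sub_div, div_self hu.ne']
    rw [h4] at hpw
    rw [h4] at hone
    linarith
  have hn0 : 0 < ((nb E U S).card : ℝ) := hpos _ hN
  have hpowq : ((S.card : ℝ) / U.card) ^ q ≤ (((nb E U S).card : ℝ) / U.card) ^ (q + 1) := by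
    have h5 : ((S.card : ℝ) / U.card) ^ q ≤ ((((nb E U S).card : ℝ) / U.card) ^ κ) ^ q :=
      pow_le_pow_left₀ (by positivity) hsN q
    have h6 : ((((nb E U S).card : ℝ) / U.card) ^ κ) ^ q = (((nb E U S).card : ℝ) / U.card) ^ (q + 1) := by
      rw [← Real.rpow_natCast, ← Real.rpow_mul (by positivity), ← Real.rpow_natCast]
      congr 1
      rw [hκ]
      push_cast
      field_simp
    rwa [h6] at h5
  have hfin : (S.card : ℝ) ^ q * U.card ≤ ((nb E U S).card : ℝ) ^ (q + 1) := by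
    rw [div_pow, div_pow, div_le_div_iff₀ (by positivity) (by positivity)] at hpowq
    have h7 : (S.card : ℝ) ^ q * (U.card : ℝ) ^ (q + 1)
        = ((S.card : ℝ) ^ q * U.card) * (U.card : ℝ) ^ q := by ring
    rw [h7] at hpowq
    exact le_of_mul_le_mul_right hpowq (by positivity)
  exact_mod_cast hfin

end Pool.Agent.KDT
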