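import Pool.Agent.KDT.Bas

/-!
# Ext: the extreme triangle at a strict pair
`exact3`: at `(x,y)` sites `a b c` are tied, all others strictly larger, and `Or a b c t ≠ 0`. Then `a b` is strict: by `param` the point has a parameter `s0`
with `Uu c + s0 Or c = 0` and `Uu e + s0 Or e > 0` for the other `e`; take `s = s0 + ε sign(Or c)` with small `ε > 0` (finitely many `e`), `strict_iff`
(`Nn a b > 0` because `Or a b c ≠ 0`).
`ext_lo`: assume some `c ≠ a, b` has `Or a b c > 0`. Let `y` maximize `-Uu c / Or c` among them; equivalently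
`Uu y * Or c ≤ Uu c * Or y` for all such `c`. Put `s0 = - Uu y / Or y`. By `strict_iff` there is `s1` with `Uu c + s1 Or c > 0` for all `c ≠ a, b`; in
particular `s1 > s0`. At parameter `s0` (`param'`) `a b y` are tied. Other `c`: if `Or c > 0` then `Uu c + s0 Or c ≥ 0`, and `≠ 0`, since otherwise
`a b y c` are four tied sites (`h4`). If `Or c ≤ 0` then `Uu c + s0 Or c ≥ Uu c + s1 Or c > 0`. So `exact3` applies to the triples
`(a,y;b)` and `(b,y;a)` (`Or a y b = - Or a b y`, etc. are `ring` identities).
`ext_hi`: apply `ext_lo` to `b a` (`or_swap`, `uu_swap`, `nn_symm`, `strict_symm`).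
-/

set_option autoImplicit false

namespace Pool.Agent.KDT

variable {V : Type}

theorem exact3 [Finite V] (S : Sys V) (t : ℝ) (a b c : V) (hor : S.Or a b c t ≠ 0) (hca : c ≠ a) (hcb : c ≠ b)
    (x y : ℝ) (h1 : S.g a t x y = S.g b t x y) (h2 : S.g c t x y = S.g a t x y)
    (h3 : ∀ e, e ≠ a → e ≠ b → e ≠ c → S.g a t x y < S.g e t x y) : S.Strict Set.univ t a b := by
  have hN : 0 < S.Nn a b t := by
    rcases lt_or_ge 0 (S.Nn a b t) with h | h
    · exact h
    · exfalso
      apply hor
      unfold Sys.Nn at h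
      have e1 : S.xx b t - S.xx a t = 0 := by
        nlinarith [sq_nonneg (S.xx b t - S.xx a t), sq_nonneg (S.yy b t - S.yy a t)]
      have e2 : S.yy b t - S.yy a t = 0 := by
        nlinarith [sq_nonneg (S.xx b t - S.xx a t), sq_nonneg (S.yy b t - S.yy a t)]
      unfold Sys.Or
      rw [e1, e2]
      ring
  obtain ⟨s0, hs0⟩ := param S t a b x y h1
  rw [strict_iff S Set.univ t a b hN]
  have hc0 : S.Uu a b c t + s0 * S.Or a b c t = 0 := by
    rw [← hs0 c, h2, sub_self, mul_zero]
  have hev : ∀ e : V, ∀ᶠ ε in nhds (0 : ℝ), e ≠ a → e ≠ b → e ≠ c →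
      0 < S.Uu a b e t + (s0 + ε * S.Or a b c t) * S.Or a b e t := by
    intro e
    by_cases he : e ≠ a ∧ e ≠ b ∧ e ≠ c
    · have hcont : Continuous (fun ε : ℝ =>
          S.Uu a b e t + (s0 + ε * S.Or a b c t) * S.Or a b e t) := by fun_prop
      have hpos : 0 < S.Uu a b e t + (s0 + 0 * S.Or a b c t) * S.Or a b e t := by
        rw [zero_mul, add_zero, ← hs0 e]
        exact mul_pos hN (sub_pos.2 (h3 e he.1 he.2.1 he.2.2))
      filter_upwards [hcont.continuousAt.eventually (lt_mem_nhds hpos)] with ε hε _ _ _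
      exact hε
    · filter_upwards with ε h1 h2 h3
      exact absurd ⟨h1, h2, h3⟩ he
  have hall := Filter.eventually_all.2 hev
  have hw : ∀ᶠ ε in nhdsWithin (0 : ℝ) (Set.Ioi 0), ∀ e : V, e ≠ a → e ≠ b → e ≠ c →
      0 < S.Uu a b e t + (s0 + ε * S.Or a b c t) * S.Or a b e t :=
    hall.filter_mono nhdsWithin_le_nhds
  obtain ⟨ε, hε, hε0⟩ := (hw.and self_mem_nhdsWithin).exists
  refine ⟨s0 + ε * S.Or a b c t, fun e _ hea heb => ?_⟩
  by_cases hec : e = c
  · subst hec
    have h5 : 0 < S.Or a b e t * S.Or a b e t := mul_self_pos.2 hor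
    have h6 : 0 < ε * (S.Or a b e t * S.Or a b e t) := mul_pos hε0 h5
    nlinarith
  · exact hε e hea heb hec

theorem ext_lo [Fintype V] (S : Sys V) (t : ℝ) (a b : V) (hab : a ≠ b) (hN : 0 < S.Nn a b t)
    (hst : S.Strict Set.univ t a b)
    (h4 : ∀ f : Fin 4 → V, Function.Injective f → ∀ x y : ℝ, ¬ ∀ i, S.g (f i) t x y = S.g (f 0) t x y) :
    (∀ c, c ≠ a → c ≠ b → S.Or a b c t ≤ 0) ∨
      ∃ y, y ≠ a ∧ y ≠ b ∧ 0 < S.Or a b y t ∧
        (∀ c, c ≠ a → c ≠ b → 0 < S.Or a b c t → S.Uu a b y t * S.Or a b c t ≤ S.Uu a b c t * S.Or a b y t) ∧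
        S.Strict Set.univ t a y ∧ S.Strict Set.univ t b y := by
  classical
  by_cases hall : ∀ c, c ≠ a → c ≠ b → S.Or a b c t ≤ 0
  · exact Or.inl hall
  right
  push Not at hall
  obtain ⟨c₀, hc₀a, hc₀b, hc₀⟩ := hall
  set F : Finset V := Finset.univ.filter (fun c => c ≠ a ∧ c ≠ b ∧ 0 < S.Or a b c t) with hF
  have hFne : F.Nonempty := ⟨c₀, by simp [hF, hc₀a, hc₀b, hc₀]⟩
  obtain ⟨y, hyF, hymax⟩ := F.exists_max_image (fun c => -(S.Uu a b c t) / (S.Or a b c t)) hFne
  have hy : y ≠ a ∧ y ≠ b ∧ 0 < S.Or a b y t := by simpa [hF] using hyF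
  obtain ⟨hya, hyb, hyo⟩ := hy
  have hmax : ∀ c, c ≠ a → c ≠ b → 0 < S.Or a b c t →
      S.Uu a b y t * S.Or a b c t ≤ S.Uu a b c t * S.Or a b y t := by
    intro c hca hcb hco
    have h1 := hymax c (by simp [hF, hca, hcb, hco])
    rw [div_le_div_iff₀ hco hyo] at h1
    linarith
  obtain ⟨s1, hs1⟩ := (strict_iff S Set.univ t a b hN).1 hst
  set s0 : ℝ := -(S.Uu a b y t) / S.Or a b y t with hs0
  have hs0y : S.Uu a b y t + s0 * S.Or a b y t = 0 := by
    rw [hs0]
    field_simp
    ring
  have hlt : s0 < s1 := by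
    have h1 := hs1 y (Set.mem_univ _) hya hyb
    by_contra hcon
    push Not at hcon
    nlinarith
  obtain ⟨x, y', hg, hpar⟩ := param' S t a b hN s0
  have hgy : S.g y t x y' = S.g a t x y' := by
    have h1 := hpar y
    rw [hs0y] at h1
    rcases mul_eq_zero.1 h1 with h2 | h2
    · exact absurd h2 hN.ne'
    · linarith
  have hoth : ∀ c, c ≠ a → c ≠ b → c ≠ y → S.g a t x y' < S.g c t x y' := by
    intro c hca hcb hcy
    have hpos : 0 < S.Uu a b c t + s0 * S.Or a b c t := by
      rcases lt_or_ge 0 (S.Or a b c t) with hco | hco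
      · have h1 := hmax c hca hcb hco
        have h2 : 0 ≤ S.Uu a b c t + s0 * S.Or a b c t := by
          have h3 : 0 ≤ (S.Uu a b c t + s0 * S.Or a b c t) * S.Or a b y t := by
            have e : (S.Uu a b c t + s0 * S.Or a b c t) * S.Or a b y t =
                S.Uu a b c t * S.Or a b y t + (s0 * S.Or a b y t) * S.Or a b c t := by ring
            rw [e]
            have e2 : s0 * S.Or a b y t = -S.Uu a b y t := by linarith
            rw [e2]
            linarith
          by_contra hcon
          push Not at hcon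
          nlinarith
        rcases h2.lt_or_eq with h3 | h3
        · exact h3
        · exfalso
          have h5 := hpar c
          rw [← h3] at h5
          have hgc : S.g c t x y' = S.g a t x y' := by
            rcases mul_eq_zero.1 h5 with h6 | h6
            · exact absurd h6 hN.ne'
            · linarith
          refine h4 ![a, b, y, c] ?_ x y' ?_
          · intro i j hij
            have hb1 := hab.symm
            have hy1 := hya.symm
            have hy2 := hyb.symm
            have hc1 := hca.symm
            have hc2 := hcb.symm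
            have hc3 := hcy.symm
            fin_cases i <;> fin_cases j <;>
              first
                | rfl
                | exact absurd hij hab
                | exact absurd hij hb1
                | exact absurd hij hya
                | exact absurd hij hy1
                | exact absurd hij hyb
                | exact absurd hij hy2
                | exact absurd hij hca
                | exact absurd hij hc1
                | exact absurd hij hcb
                | exact absurd hij hc2
                | exact absurd hij hcy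
                | exact absurd hij hc3
          · intro i
            fin_cases i
            · rfl
            · exact hg.symm
            · exact hgy
            · exact hgc
      · have h1 := hs1 c (Set.mem_univ _) hca hcb
        nlinarith
    rw [← hpar c] at hpos
    have h7 : 0 < S.g c t x y' - S.g a t x y' := by
      by_contra hcon
      push Not at hcon
      nlinarith
    linarith
  refine ⟨y, hya, hyb, hyo, hmax, ?_, ?_⟩
  · refine exact3 S t a y b ?_ hab.symm hyb.symm x y' hgy.symm hg.symm ?_
    · have e : S.Or a y b t = -S.Or a b y t := by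
        simp only [Sys.Or]
        ring
      rw [e]
      exact neg_ne_zero.2 hyo.ne'
    · intro e hea hey heb
      exact hoth e hea heb hey
  · refine exact3 S t b y a ?_ hab hya.symm x y' (by rw [hgy, hg]) hg ?_
    · rw [or_rot]
      exact hyo.ne'
    · intro e heb hey hea
      rw [← hg]
      exact hoth e hea heb hey

theorem ext_hi [Fintype V] (S : Sys V) (t : ℝ) (a b : V) (hab : a ≠ b) (hN : 0 < S.Nn a b t)
    (hst : S.Strict Set.univ t a b)
    (h4 : ∀ f : Fin 4 → V, Function.Injective f → ∀ x y : ℝ, ¬ ∀ i, S.g (f i) t x y = S.g (f 0) t x y) :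
    (∀ c, c ≠ a → c ≠ b → 0 ≤ S.Or a b c t) ∨
      ∃ z, z ≠ a ∧ z ≠ b ∧ S.Or a b z t < 0 ∧
        (∀ c, c ≠ a → c ≠ b → S.Or a b c t < 0 → S.Uu a b c t * S.Or a b z t ≤ S.Uu a b z t * S.Or a b c t) ∧
        S.Strict Set.univ t a z ∧ S.Strict Set.univ t b z := by
  have h := ext_lo S t b a hab.symm (by rw [nn_symm]; exact hN) (strict_symm S _ t a b hst) h4
  rcases h with h | ⟨z, hzb, hza, hzo, hmax, hs1, hs2⟩
  · left
    intro c hca hcb
    have h1 := h c hcb hca
    rw [or_swap S a b c t] at h1
    linarith
  · right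
    rw [or_swap S a b z t] at hzo
    refine ⟨z, hza, hzb, by linarith, ?_, hs2, hs1⟩
    intro c hca hcb hco
    have h1 := hmax c hcb hca (by rw [or_swap S a b c t]; linarith)
    rw [or_swap S a b c t, or_swap S a b z t, uu_swap S a b c t, uu_swap S a b z t] at h1
    linarith

end Pool.Agent.KDT
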