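import Pool.Agent.KDT.Growth

/-!
# Num: the final numerical estimate
Let `ℓ = log n`. By `RR_bound`, `20 RR + 10 ≤ A' (log (ℓ+2) + 1)`, so the exponent `9 * (14 * (10 (2 RR + 1))^4) ≤ A2 (log (ℓ+2)+1)^4`;
`Nat.log 2 n ≤ ℓ / log 2`, so `log (1 + 48 (Nat.log 2 n + 1)) ≤ A3 (log (ℓ+2)+1)`. The logarithm of the left side is at most
`B (log (ℓ+2)+1)^5 ≤ ε ℓ + C'` (`(log x)^5 = o(x)`: `isLittleO_pow_log_id_atTop`; bounded for small `ℓ`). Exponentiate: `≤ exp(C') n^ε`.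
-/

set_option autoImplicit false

namespace Pool.Agent.KDT

private theorem log_pow_le (B ε : ℝ) (hB : 0 < B) (hε : 0 < ε) :
    ∃ C : ℝ, ∀ l : ℝ, 0 ≤ l → B * (Real.log (l + 2) + 1) ^ 5 ≤ ε * l + C := by
  have he : 0 < Real.exp 1 := Real.exp_pos 1
  have h1 := (Real.isLittleO_pow_log_id_atTop (n := 5)).def (c := ε / (B * Real.exp 1)) (by positivity)
  obtain ⟨x0, hx0⟩ := Filter.eventually_atTop.1 h1
  refine ⟨2 * ε + B * (Real.log (max x0 1)) ^ 5, fun l hl => ?_⟩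
  have hpos : 0 < l + 2 := by linarith
  have hy : Real.log (l + 2) + 1 = Real.log (Real.exp 1 * (l + 2)) := by
    rw [Real.log_mul he.ne' hpos.ne', Real.log_exp]
    ring
  have hm : 0 ≤ Real.log (max x0 1) := Real.log_nonneg (le_max_right _ _)
  have hm5 : 0 ≤ B * (Real.log (max x0 1)) ^ 5 := by positivity
  rw [hy]
  rcases le_total x0 (Real.exp 1 * (l + 2)) with h | h
  · have h2 := hx0 _ h
    have h3 : Real.log (Real.exp 1 * (l + 2)) ^ 5 ≤ ε / (B * Real.exp 1) * (Real.exp 1 * (l + 2)) := by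
      refine (le_abs_self _).trans (h2.trans (le_of_eq ?_))
      simp only [id, Real.norm_eq_abs]
      rw [abs_of_pos (by positivity)]
    have h4 : B * Real.log (Real.exp 1 * (l + 2)) ^ 5 ≤ B * (ε / (B * Real.exp 1) * (Real.exp 1 * (l + 2))) :=
      mul_le_mul_of_nonneg_left h3 hB.le
    have h5 : B * (ε / (B * Real.exp 1) * (Real.exp 1 * (l + 2))) = ε * (l + 2) := by
      field_simp
    rw [h5] at h4
    linarith
  · have h2 : Real.log (Real.exp 1 * (l + 2)) ≤ Real.log (max x0 1) :=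
      Real.log_le_log (by positivity) (h.trans (le_max_left _ _))
    have h3 : 0 ≤ Real.log (Real.exp 1 * (l + 2)) := by
      rw [← hy]
      have := Real.log_nonneg (by linarith : (1 : ℝ) ≤ l + 2)
      linarith
    have h4 : Real.log (Real.exp 1 * (l + 2)) ^ 5 ≤ (Real.log (max x0 1)) ^ 5 := pow_le_pow_left₀ h3 h2 5
    have h5 := mul_le_mul_of_nonneg_left h4 hB.le
    nlinarith

theorem num (q : ℕ) (ε : ℝ) (hε : 0 < ε) : ∃ C : ℝ, 0 < C ∧ ∀ n : ℕ, 1 ≤ n →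
    ((1 : ℝ) + 12 * (4 * ((Nat.log 2 n : ℝ) + 1))) ^ (9 * (14 * (10 * (2 * RR q n + 1)) ^ 4))
      ≤ C * (n : ℝ) ^ ε := by
  obtain ⟨A, hA, hRR⟩ := RR_bound q
  have h96 : 0 < Real.log 96 := Real.log_pos (by norm_num)
  obtain ⟨C, hC⟩ := log_pow_le (126 * (10 * (2 * A + 1)) ^ 4 * (Real.log 96 + 1)) ε (by positivity) hε
  refine ⟨Real.exp C, Real.exp_pos C, fun n hn => ?_⟩
  have hn1 : (1 : ℝ) ≤ (n : ℝ) := by exact_mod_cast hn
  have hn0 : (0 : ℝ) < (n : ℝ) := by linarith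
  have hl : 0 ≤ Real.log (n : ℝ) := Real.log_nonneg hn1
  obtain ⟨y, hy⟩ : ∃ y, y = Real.log (Real.log (n : ℝ) + 2) + 1 := ⟨_, rfl⟩
  have hy1 : 1 ≤ y := by
    have := Real.log_nonneg (by linarith : (1 : ℝ) ≤ Real.log (n : ℝ) + 2)
    rw [hy]
    linarith
  have hR : (RR q n : ℝ) ≤ A * y := by rw [hy]; exact hRR n
  have hK : ((9 * (14 * (10 * (2 * RR q n + 1)) ^ 4) : ℕ) : ℝ) ≤ 126 * (10 * (2 * A + 1)) ^ 4 * y ^ 4 := by
    push_cast
    have h1 : (10 * (2 * (RR q n : ℝ) + 1)) ^ 4 ≤ (10 * (2 * A + 1) * y) ^ 4 := by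
      apply pow_le_pow_left₀ (by positivity)
      nlinarith
    calc (9 * (14 * (10 * (2 * (RR q n : ℝ) + 1)) ^ 4)) = 126 * (10 * (2 * (RR q n : ℝ) + 1)) ^ 4 := by ring
      _ ≤ 126 * (10 * (2 * A + 1) * y) ^ 4 := mul_le_mul_of_nonneg_left h1 (by norm_num)
      _ = _ := by ring
  have hlog2 : (Nat.log 2 n : ℝ) ≤ 2 * Real.log (n : ℝ) := by
    have h1 : ((2 : ℝ) ^ (Nat.log 2 n)) ≤ n := by
      exact_mod_cast Nat.pow_log_le_self 2 (by omega)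
    have h2 := Real.log_le_log (by positivity) h1
    rw [Real.log_pow] at h2
    have h3 : (1 / 2 : ℝ) ≤ Real.log 2 := by
      have := Real.log_two_gt_d9
      linarith
    have h4 : (0 : ℝ) ≤ (Nat.log 2 n : ℝ) := by positivity
    nlinarith
  have hbase : (1 : ℝ) + 12 * (4 * ((Nat.log 2 n : ℝ) + 1)) ≤ 96 * (Real.log (n : ℝ) + 2) := by
    linarith
  have hb0 : (0 : ℝ) < (1 : ℝ) + 12 * (4 * ((Nat.log 2 n : ℝ) + 1)) := by positivity
  have hb1 : (1 : ℝ) ≤ (1 : ℝ) + 12 * (4 * ((Nat.log 2 n : ℝ) + 1)) := by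
    have : (0 : ℝ) ≤ 12 * (4 * ((Nat.log 2 n : ℝ) + 1)) := by positivity
    linarith
  have hlb : Real.log ((1 : ℝ) + 12 * (4 * ((Nat.log 2 n : ℝ) + 1))) ≤ (Real.log 96 + 1) * y := by
    refine (Real.log_le_log hb0 hbase).trans ?_
    rw [Real.log_mul (by norm_num) (by positivity)]
    have h1 : Real.log (Real.log (n : ℝ) + 2) = y - 1 := by rw [hy]; ring
    rw [h1]
    nlinarith
  have hlb0 : 0 ≤ Real.log ((1 : ℝ) + 12 * (4 * ((Nat.log 2 n : ℝ) + 1))) := Real.log_nonneg hb1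
  have hmain : Real.log (((1 : ℝ) + 12 * (4 * ((Nat.log 2 n : ℝ) + 1))) ^ (9 * (14 * (10 * (2 * RR q n + 1)) ^ 4))) ≤
      ε * Real.log (n : ℝ) + C := by
    rw [Real.log_pow]
    have h1 := hC (Real.log (n : ℝ)) hl
    rw [← hy] at h1
    refine le_trans ?_ h1
    calc ((9 * (14 * (10 * (2 * RR q n + 1)) ^ 4) : ℕ) : ℝ) *
          Real.log ((1 : ℝ) + 12 * (4 * ((Nat.log 2 n : ℝ) + 1)))
        ≤ (126 * (10 * (2 * A + 1)) ^ 4 * y ^ 4) * ((Real.log 96 + 1) * y) :=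
          mul_le_mul hK hlb hlb0 (by positivity)
      _ = _ := by ring
  have hpos : 0 < ((1 : ℝ) + 12 * (4 * ((Nat.log 2 n : ℝ) + 1))) ^ (9 * (14 * (10 * (2 * RR q n + 1)) ^ 4)) :=
    pow_pos hb0 _
  calc ((1 : ℝ) + 12 * (4 * ((Nat.log 2 n : ℝ) + 1))) ^ (9 * (14 * (10 * (2 * RR q n + 1)) ^ 4))
      = Real.exp (Real.log (((1 : ℝ) + 12 * (4 * ((Nat.log 2 n : ℝ) + 1))) ^
          (9 * (14 * (10 * (2 * RR q n + 1)) ^ 4)))) := (Real.exp_log hpos).symm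
    _ ≤ Real.exp (ε * Real.log (n : ℝ) + C) := Real.exp_le_exp.2 hmain
    _ = Real.exp C * (n : ℝ) ^ ε := by
      rw [Real.exp_add, Real.rpow_def_of_pos hn0, mul_comm (Real.log (n : ℝ)) ε]
      ring

end Pool.Agent.KDT
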