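import Pool.Agent.KDT.VK5

/-!
# Planar: the strict pairs contain no weak subdivided K5
Positions `pos v = ⟨xx v t, yy v t⟩ : ℂ`. `sep_of_strict`: let `(x1,y1)`, `(x2,y2)` be witnesses of the strict pairs `a b` and `c d`, and
`u = ⟨-2 (x1-x2), 2 (y1-y2)⟩`, so that `(u * pos v).re = -2 ((x1-x2) xx v + (y1-y2) yy v) = g v (x1,y1) - g v (x2,y2)`. For `v ∈ {a,b}`, `w ∈ {c,d}`:
`g v (x1,y1) < g w (x1,y1)` and `g w (x2,y2) < g v (x2,y2)`; subtract.
`planar`: apply `vk5` to `pos ∘ b`, `pos ∘ γ`; `m i j ≥ 1` since `b i ≠ b j` (`inj`). By `disj` the endpoints of edges of disjoint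
paths are different, so `sep_of_strict` applies.
-/

set_option autoImplicit false

namespace Pool.Agent.KDT

theorem sep_of_strict {V : Type} (S : Sys V) (A : Set V) (t : ℝ) (a b c d : V) (ha : a ∈ A) (hb : b ∈ A)
    (hc : c ∈ A) (hd : d ∈ A) (hac : a ≠ c) (had : a ≠ d) (hbc : b ≠ c) (hbd : b ≠ d)
    (h1 : S.Strict A t a b) (h2 : S.Strict A t c d) :
    Sep ⟨S.xx a t, S.yy a t⟩ ⟨S.xx b t, S.yy b t⟩ ⟨S.xx c t, S.yy c t⟩ ⟨S.xx d t, S.yy d t⟩ := by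
  obtain ⟨x1, y1, e1, s1⟩ := h1
  obtain ⟨x2, y2, e2, s2⟩ := h2
  have c1 := s1 c hc hac.symm hbc.symm
  have d1 := s1 d hd had.symm hbd.symm
  have a2 := s2 a ha hac had
  have b2 := s2 b hb hbc hbd
  refine ⟨⟨-2 * (x1 - x2), 2 * (y1 - y2)⟩, ?_, ?_, ?_, ?_⟩ <;>
  · simp only [Complex.mul_re]
    simp only [Sys.g] at *
    linarith


theorem planar {V : Type} (S : Sys V) (A : Set V) (t : ℝ) (E : Set (Sym2 V)) (R : ℕ) (b : Fin 5 → V)
    (γ : Fin 5 → Fin 5 → ℕ → V) (m : Fin 5 → Fin 5 → ℕ) (h : WK5 E R b γ m)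
    (hA : ∀ i j, i < j → ∀ l ≤ m i j, γ i j l ∈ A) (hst : ∀ u w, s(u, w) ∈ E → S.Strict A t u w) : False := by
  refine vk5 (fun i => (⟨S.xx (b i) t, S.yy (b i) t⟩ : ℂ))
    (fun i j l => (⟨S.xx (γ i j l) t, S.yy (γ i j l) t⟩ : ℂ)) m ?_ ?_ ?_ ?_
  · intro i j hij
    simp only [h.start i j hij]
  · intro i j hij
    simp only [h.fin i j hij]
  · intro i j hij
    by_contra hc
    have h0 : m i j = 0 := by omega
    have h1 := h.start i j hij
    have h2 := h.fin i j hij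
    rw [h0, h1] at h2
    exact hij.ne (h.inj h2)
  · intro i j k l hij hkl a1 a2 a3 a4 x hx y hy
    have hd := h.disj i j k l hij hkl a1 a2 a3 a4
    exact sep_of_strict S A t _ _ _ _ (hA i j hij x hx.le) (hA i j hij (x + 1) hx)
      (hA k l hkl y hy.le) (hA k l hkl (y + 1) hy) (hd x hx.le y hy.le) (hd x hx.le (y + 1) hy)
      (hd (x + 1) hx y hy.le) (hd (x + 1) hx (y + 1) hy) (hst _ _ (h.edge i j hij x hx))
      (hst _ _ (h.edge k l hkl y hy))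


end Pool.Agent.KDT
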