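import Pool.Agent.KDT.Status
import Pool.Agent.KDT.Planar

/-!
# RBound: an obstruction has few rounds
Let `H = eset γ m`, `A = vset γ m`, `|A| ≤ 10 (R+1)` (`prs` has 10 elements), `Z` from `status`, `|Z| ≤ N := 14 (10 (R+1))⁴`. Assume windows
`c l`, `l < N + 1`, with `t(l,h) ∈ T`. `H` is nonempty (`b 0 ≠ b 1`). Let `lo l`, `hi l` be the min and max of `t(l,h)` over `h ∈ H`;
`c l < lo l ≤ hi l ≤ c (l+1) < lo (l+1)`. Choose `η > 0` with `2 η < lo (l+1) - hi l` for all `l < N`. The intervals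
`I_l = [lo l - η, hi l + η]`, `l < N+1`, are pairwise disjoint. Each contains an element of `Z` (then `|Z| ≥ N+1`, contradiction): otherwise for each
`h = s(u,w) ∈ H`, say `u = τ t i`, `w = τ t j` with `t = t(l,h)` (or swapped; `clust_symm`, `strict_symm`), `u ≠ w` as `τ t` is injective, there is a
time `s`, `|s - t| < η`, `s ∈ I_l`, with `Strict univ s u w`, so `Strict ↑A s u w` (`strict_mono`), so by `status` `Strict ↑A (lo l) u w`.
(`u, w ∈ A` since both are vertices of the path.) This contradicts `planar` at time `lo l` with `E = ↑H`.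
-/

set_option autoImplicit false

namespace Pool.Agent.KDT

theorem card_vset {V : Type} [DecidableEq V] (γ : Fin 5 → Fin 5 → ℕ → V) (m : Fin 5 → Fin 5 → ℕ) (R : ℕ)
    (h : ∀ i j, i < j → m i j ≤ R) : (vset γ m).card ≤ 10 * (R + 1) := by
  have hp : prs.card = 10 := by decide
  rw [← hp]
  unfold vset
  refine Finset.card_biUnion_le_card_mul _ _ _ fun e he => ?_
  have he' : e.1 < e.2 := (Finset.mem_filter.1 he).2
  refine Finset.card_image_le.trans ?_
  rw [Finset.card_range]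
  exact Nat.succ_le_succ (h _ _ he')

theorem rbound {V : Type} [DecidableEq V] (S : Sys V) (hS : S.Distinct) {k : ℕ} (τ : ℝ → Fin k → V)
    (T : Finset ℝ) (hτ : ∀ t ∈ T, Function.Injective (τ t))
    (hcl : ∀ t ∈ T, ∀ i j, i ≠ j → S.Clust t (τ t i) (τ t j)) (R : ℕ) (H : Finset (Sym2 V)) (hH : H ∈ Obs V R)
    (i j : Fin k) (hij : i ≠ j) : ¬ Rounds τ T i j H (14 * (10 * (R + 1)) ^ 4 + 1) := by
  rintro ⟨c, hc, hr⟩
  obtain ⟨b, γ, m, hW, hH'⟩ := hH
  obtain ⟨A, hA⟩ : ∃ A, A = vset γ m := ⟨_, rfl⟩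
  obtain ⟨N, hN⟩ : ∃ N, N = 14 * (10 * (R + 1)) ^ 4 := ⟨_, rfl⟩
  rw [← hN] at hr
  obtain ⟨Z, hZc, hZ⟩ := status S hS A
  have hAc : A.card ≤ 10 * (R + 1) := by rw [hA]; exact card_vset γ m R hW.len
  have hZN : Z.card ≤ N := by
    rw [hN]
    exact hZc.trans (Nat.mul_le_mul_left _ (Nat.pow_le_pow_left hAc 4))
  have hmemA : ∀ p q, p < q → ∀ l ≤ m p q, γ p q l ∈ A := by
    intro p q hpq l hl
    rw [hA]
    unfold vset
    refine Finset.mem_biUnion.2 ⟨(p, q), Finset.mem_filter.2 ⟨Finset.mem_univ _, hpq⟩, ?_⟩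
    exact Finset.mem_image.2 ⟨l, Finset.mem_range.2 (Nat.lt_succ_of_le hl), rfl⟩
  have hedge : ∀ x y, s(x, y) ∈ H → x ∈ A ∧ y ∈ A := by
    intro x y hxy
    rw [hH'] at hxy
    unfold eset at hxy
    obtain ⟨e, he, hxy⟩ := Finset.mem_biUnion.1 hxy
    obtain ⟨l, hl, hxy⟩ := Finset.mem_image.1 hxy
    have he' : e.1 < e.2 := (Finset.mem_filter.1 he).2
    have hl' := Finset.mem_range.1 hl
    have k1 := hmemA e.1 e.2 he' l hl'.le
    have k2 := hmemA e.1 e.2 he' (l + 1) hl'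
    rcases Sym2.eq_iff.1 hxy with ⟨h1, h2⟩ | ⟨h1, h2⟩
    · rw [← h1, ← h2]; exact ⟨k1, k2⟩
    · rw [← h1, ← h2]; exact ⟨k2, k1⟩
  have hr' : ∀ l : ℕ, ∀ h : Sym2 V, ∃ t : ℝ, l < N + 1 → h ∈ H →
      t ∈ T ∧ c l < t ∧ t ≤ c (l + 1) ∧ s(τ t i, τ t j) = h := by
    intro l h
    by_cases hl : l < N + 1
    · by_cases hh : h ∈ H
      · obtain ⟨t, ht⟩ := hr l hl h hh
        exact ⟨t, fun _ _ => ht⟩
      · exact ⟨0, fun _ h2 => absurd h2 hh⟩
    · exact ⟨0, fun h1 => absurd h1 hl⟩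
  choose t ht using hr'
  -- a common margin
  obtain ⟨δ, hδ0, hδ⟩ : ∃ δ : ℝ, 0 < δ ∧ ∀ p ∈ (Finset.range (N + 1)) ×ˢ H,
      δ < t p.1 p.2 - c p.1 := by
    have hev : ∀ᶠ δ in nhdsWithin (0 : ℝ) (Set.Ioi 0), ∀ p ∈ (Finset.range (N + 1)) ×ˢ H,
        δ < t p.1 p.2 - c p.1 := by
      rw [Filter.eventually_all_finset]
      intro p hp
      rw [Finset.mem_product] at hp
      have h1 := (ht p.1 p.2 (Finset.mem_range.1 hp.1) hp.2).2.1
      filter_upwards [Ioo_mem_nhdsGT (sub_pos.2 h1)] with x hx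
      exact hx.2
    obtain ⟨δ, h1, h2⟩ := (hev.and self_mem_nhdsWithin).exists
    exact ⟨δ, h2, h1⟩
  have hlo : ∀ l < N + 1, ∀ h ∈ H, c l + δ < t l h := by
    intro l hl h hh
    have := hδ (l, h) (Finset.mem_product.2 ⟨Finset.mem_range.2 hl, hh⟩)
    simp only at this
    linarith
  -- `H` is not empty
  obtain ⟨h0, hh0⟩ : H.Nonempty := by
    have h01 : (0 : Fin 5) < 1 := by decide
    have hm : 0 < m 0 1 := by
      rcases Nat.eq_zero_or_pos (m 0 1) with h | h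
      · exfalso
        have e1 := hW.start 0 1 h01
        have e2 := hW.fin 0 1 h01
        rw [h] at e2
        rw [e1] at e2
        exact absurd (hW.inj e2) (by decide)
      · exact h
    exact ⟨_, hW.edge 0 1 h01 0 hm⟩
  have hz : ∀ l < N + 1, ∃ z ∈ Z, c l + δ ≤ z ∧ z ≤ c (l + 1) + δ / 2 := by
    intro l hl
    by_contra hcon
    push Not at hcon
    have hno : ∀ z ∈ Z, ¬ (c l + δ ≤ z ∧ z ≤ c (l + 1) + δ / 2) :=
      fun z hz h1 => absurd h1.2 (not_le.2 (hcon z hz h1.1))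
    have hle : c l + δ ≤ c (l + 1) + δ / 2 := by
      have h1 := hlo l hl h0 hh0
      have h2 := (ht l h0 hl hh0).2.2.1
      linarith
    refine planar S (↑A : Set V) (c l + δ) (↑H : Set (Sym2 V)) R b γ m hW
      (fun p q hpq r hr => hmemA p q hpq r hr) fun x y hxy => ?_
    have hxy' : s(x, y) ∈ H := hxy
    obtain ⟨hxA, hyA⟩ := hedge x y hxy'
    obtain ⟨htT, -, ht2, hst⟩ := ht l s(x, y) hl hxy'
    have ht1 := hlo l hl s(x, y) hxy'
    obtain ⟨t0, ht0⟩ : ∃ t0, t0 = t l s(x, y) := ⟨_, rfl⟩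
    rw [← ht0] at htT ht2 hst ht1
    have hne : τ t0 i ≠ τ t0 j := fun h => hij (hτ t0 htT h)
    have hcl1 := hcl t0 htT i j hij
    have hcl2 : S.Clust t0 x y ∧ x ≠ y := by
      rcases Sym2.eq_iff.1 hst with ⟨h1, h2⟩ | ⟨h1, h2⟩
      · rw [← h1, ← h2]; exact ⟨hcl1, hne⟩
      · rw [← h1, ← h2]; exact ⟨clust_symm S _ _ _ hcl1, hne.symm⟩
    obtain ⟨s, hs1, hs2⟩ := hcl2.1 (min (δ / 2) (t0 - (c l + δ)))
      (lt_min (by linarith) (by linarith))
    have hs3 := abs_lt.1 hs1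
    have hm1 := min_le_left (δ / 2) (t0 - (c l + δ))
    have hm2 := min_le_right (δ / 2) (t0 - (c l + δ))
    exact hZ (c l + δ) (c (l + 1) + δ / 2) hno x hxA y hyA hcl2.2 s
      ⟨by linarith, by linarith⟩ (c l + δ) ⟨le_rfl, hle⟩
      (strict_mono S _ _ (Set.subset_univ _) s x y hs2)
  have hz' : ∀ l : ℕ, ∃ z : ℝ, l < N + 1 → z ∈ Z ∧ c l + δ ≤ z ∧ z ≤ c (l + 1) + δ / 2 := by
    intro l
    by_cases hl : l < N + 1
    · obtain ⟨z, h1, h2⟩ := hz l hl
      exact ⟨z, fun _ => ⟨h1, h2⟩⟩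
    · exact ⟨0, fun h1 => absurd h1 hl⟩
  choose z hz using hz'
  have hmono : ∀ l l', l < l' → l < N + 1 → l' < N + 1 → z l < z l' := by
    intro l l' h1 h2 h3
    have e1 := (hz l h2).2.2
    have e2 := (hz l' h3).2.1
    have e3 : c (l + 1) ≤ c l' := hc.monotone h1
    linarith
  have hcard : (Finset.range (N + 1)).card ≤ Z.card := by
    refine Finset.card_le_card_of_injOn z (fun l hl => (hz l (Finset.mem_range.1 hl)).1) ?_
    intro l hl l' hl' he
    have h2 := Finset.mem_range.1 hl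
    have h3 := Finset.mem_range.1 hl'
    rcases lt_trichotomy l l' with h | h | h
    · exact absurd he (hmono l l' h h2 h3).ne
    · exact h
    · exact absurd he.symm (hmono l' l h h3 h2).ne
  rw [Finset.card_range] at hcard
  omega

end Pool.Agent.KDT
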