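import Pool.Agent.KDT.Null

/-!
# Gen: generic weights
`gen5`: it suffices to show, for each of the finitely many injective `f : Fin 5 → V`, that the set `B_f` of `ω` for which there are `t x y` with
`g (f i) t x y = g (f 0) t x y` for all `i` (system `S.withW ω`) is null. Let `F : (V → ℝ) → (V → ℝ)`, `F z v =` if `v ∈ range f` then
`z (f 3) - (xx v t)² - (yy v t)² + 2 (xx v t * x + yy v t * y)` with `x = z (f 0)`, `y = z (f 1)`, `t = z (f 2)`, else `z v`. `F` is differentiable and does not depend
on `z (f 4)` (`null_range` with `u = Pi.single (f 4) 1`), so its range is null. If `ω ∈ B_f` then `ω = F z` for `z = ω` outside the range of `f`,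
`z (f 0) = x`, `z (f 1) = y`, `z (f 2) = t`, `z (f 3) =` the common value of `g`, `z (f 4) = 0`.
`gen4`: the same for each `t ∈ Q` (countable union, `MeasureTheory.measure_iUnion_null` / `measure_biUnion_null_iff`) and each injective `f : Fin 4 → V`, with `t` fixed,
`x = z (f 0)`, `y = z (f 1)`, common value `z (f 2)`; `F` does not depend on `z (f 3)`.
`exists_gen`: the bad sets for `ω` and for `-ω` (preimage of a null set under negation: `MeasureTheory.Measure.measure_preimage_neg`
or quasi measure preserving) are null, and the open box `{ω | ∀ i, |ω i| < ρ}` has positive measure (open, nonempty: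
`IsOpen.measure_pos`), so it is not covered by the bad sets.
-/

set_option autoImplicit false

namespace Pool.Agent.KDT

open Classical in
private noncomputable def genF5 {V : Type} (S : Sys V) (f : Fin 5 → V) (z : V → ℝ) (v : V) : ℝ :=
  if v ∈ Set.range f then
    z (f 3) - (S.px v + z (f 2) * S.vx v) ^ 2 - (S.py v + z (f 2) * S.vy v) ^ 2 +
      2 * ((S.px v + z (f 2) * S.vx v) * z (f 0) + (S.py v + z (f 2) * S.vy v) * z (f 1))
  else z v

open Classical in
private noncomputable def genF4 {V : Type} (S : Sys V) (t : ℝ) (f : Fin 4 → V) (z : V → ℝ) (v : V) :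
    ℝ :=
  if v ∈ Set.range f then
    z (f 2) - (S.px v + t * S.vx v) ^ 2 - (S.py v + t * S.vy v) ^ 2 +
      2 * ((S.px v + t * S.vx v) * z (f 0) + (S.py v + t * S.vy v) * z (f 1))
  else z v

private theorem gen_single {V : Type} [DecidableEq V] (z : V → ℝ) (s : ℝ) (a b : V) (h : b ≠ a) :
    (z + s • (Pi.single a 1 : V → ℝ)) b = z b := by
  simp [h]

private theorem genF5_null {V : Type} [Fintype V] (S : Sys V) (f : Fin 5 → V)
    (hf : Function.Injective f) : MeasureTheory.volume (Set.range (genF5 S f)) = 0 := by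
  classical
  refine null_range _ ?_ (Pi.single (f 4) 1) ?_ ?_
  · rw [differentiable_pi]
    intro v
    by_cases hv : v ∈ Set.range f
    · simp only [genF5, if_pos hv]
      fun_prop
    · simp only [genF5, if_neg hv]
      fun_prop
  · intro h
    have := congrFun h (f 4)
    simp at this
  · intro z s
    funext v
    by_cases hv : v ∈ Set.range f
    · simp only [genF5, if_pos hv]
      rw [gen_single z s (f 4) (f 0) (hf.ne (by decide)), gen_single z s (f 4) (f 1) (hf.ne (by decide)),
        gen_single z s (f 4) (f 2) (hf.ne (by decide)), gen_single z s (f 4) (f 3) (hf.ne (by decide))]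
    · simp only [genF5, if_neg hv]
      exact gen_single z s (f 4) v (fun h => hv ⟨4, h.symm⟩)

private theorem genF4_null {V : Type} [Fintype V] (S : Sys V) (t : ℝ) (f : Fin 4 → V)
    (hf : Function.Injective f) : MeasureTheory.volume (Set.range (genF4 S t f)) = 0 := by
  classical
  refine null_range _ ?_ (Pi.single (f 3) 1) ?_ ?_
  · rw [differentiable_pi]
    intro v
    by_cases hv : v ∈ Set.range f
    · simp only [genF4, if_pos hv]
      fun_prop
    · simp only [genF4, if_neg hv]
      fun_prop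
  · intro h
    have := congrFun h (f 3)
    simp at this
  · intro z s
    funext v
    by_cases hv : v ∈ Set.range f
    · simp only [genF4, if_pos hv]
      rw [gen_single z s (f 3) (f 0) (hf.ne (by decide)), gen_single z s (f 3) (f 1) (hf.ne (by decide)),
        gen_single z s (f 3) (f 2) (hf.ne (by decide))]
    · simp only [genF4, if_neg hv]
      exact gen_single z s (f 3) v (fun h => hv ⟨3, h.symm⟩)

theorem gen5 {V : Type} [Fintype V] (S : Sys V) : MeasureTheory.volume {ω : V → ℝ | ¬ (S.withW ω).G5} = 0 := by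
  classical
  have hsub : {ω : V → ℝ | ¬ (S.withW ω).G5} ⊆
      ⋃ f : {f : Fin 5 → V // Function.Injective f}, Set.range (genF5 S f.1) := by
    intro ω hω
    replace hω : ¬ (S.withW ω).G5 := hω
    unfold Sys.G5 at hω
    push Not at hω
    obtain ⟨f, hf, t, x, y, h⟩ := hω
    refine Set.mem_iUnion.mpr ⟨⟨f, hf⟩, ?_⟩
    let z : V → ℝ := Function.update (Function.update (Function.update (Function.update ω (f 0) x)
      (f 1) y) (f 2) t) (f 3) ((S.withW ω).g (f 0) t x y)
    have z3 : z (f 3) = (S.withW ω).g (f 0) t x y := by simp [z]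
    have z2 : z (f 2) = t := by
      have h32 : f 2 ≠ f 3 := hf.ne (by decide)
      simp [z, h32]
    have z1 : z (f 1) = y := by
      have h32 : f 1 ≠ f 3 := hf.ne (by decide)
      have h31 : f 1 ≠ f 2 := hf.ne (by decide)
      simp [z, h32, h31]
    have z0 : z (f 0) = x := by
      have h32 : f 0 ≠ f 3 := hf.ne (by decide)
      have h31 : f 0 ≠ f 2 := hf.ne (by decide)
      have h30 : f 0 ≠ f 1 := hf.ne (by decide)
      simp [z, h32, h31, h30]
    refine ⟨z, ?_⟩
    funext v
    by_cases hv : v ∈ Set.range f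
    · obtain ⟨i, rfl⟩ := hv
      simp only [genF5, Set.mem_range_self, if_true]
      rw [z0, z1, z2, z3, ← h i]
      simp only [Sys.g, Sys.q, Sys.xx, Sys.yy, Sys.withW]
      ring
    · simp only [genF5, if_neg hv]
      have n0 : v ≠ f 0 := fun h => hv ⟨0, h.symm⟩
      have n1 : v ≠ f 1 := fun h => hv ⟨1, h.symm⟩
      have n2 : v ≠ f 2 := fun h => hv ⟨2, h.symm⟩
      have n3 : v ≠ f 3 := fun h => hv ⟨3, h.symm⟩
      simp [z, n0, n1, n2, n3]
  refine MeasureTheory.measure_mono_null hsub ?_
  rw [MeasureTheory.measure_iUnion_null_iff]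
  intro f
  exact genF5_null S f.1 f.2

theorem gen4 {V : Type} [Fintype V] (S : Sys V) (Q : Set ℝ) (hQ : Q.Countable) :
    MeasureTheory.volume {ω : V → ℝ | ¬ (S.withW ω).G4 Q} = 0 := by
  classical
  have hsub : {ω : V → ℝ | ¬ (S.withW ω).G4 Q} ⊆
      ⋃ t ∈ Q, ⋃ f : {f : Fin 4 → V // Function.Injective f}, Set.range (genF4 S t f.1) := by
    intro ω hω
    replace hω : ¬ (S.withW ω).G4 Q := hω
    unfold Sys.G4 at hω
    push Not at hω
    obtain ⟨t, ht, f, hf, x, y, h⟩ := hω
    refine Set.mem_iUnion.mpr ⟨t, Set.mem_iUnion.mpr ⟨ht, Set.mem_iUnion.mpr ⟨⟨f, hf⟩, ?_⟩⟩⟩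
    let z : V → ℝ := Function.update (Function.update (Function.update ω (f 0) x)
      (f 1) y) (f 2) ((S.withW ω).g (f 0) t x y)
    have z2 : z (f 2) = (S.withW ω).g (f 0) t x y := by simp [z]
    have z1 : z (f 1) = y := by
      have h31 : f 1 ≠ f 2 := hf.ne (by decide)
      simp [z, h31]
    have z0 : z (f 0) = x := by
      have h31 : f 0 ≠ f 2 := hf.ne (by decide)
      have h30 : f 0 ≠ f 1 := hf.ne (by decide)
      simp [z, h31, h30]
    refine ⟨z, ?_⟩
    funext v
    by_cases hv : v ∈ Set.range f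
    · obtain ⟨i, rfl⟩ := hv
      simp only [genF4, Set.mem_range_self, if_true]
      rw [z0, z1, z2, ← h i]
      simp only [Sys.g, Sys.q, Sys.xx, Sys.yy, Sys.withW]
      ring
    · simp only [genF4, if_neg hv]
      have n0 : v ≠ f 0 := fun h => hv ⟨0, h.symm⟩
      have n1 : v ≠ f 1 := fun h => hv ⟨1, h.symm⟩
      have n2 : v ≠ f 2 := fun h => hv ⟨2, h.symm⟩
      simp [z, n0, n1, n2]
  refine MeasureTheory.measure_mono_null hsub ?_
  rw [MeasureTheory.measure_biUnion_null_iff hQ]
  intro t _
  rw [MeasureTheory.measure_iUnion_null_iff]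
  intro f
  exact genF4_null S t f.1 f.2

theorem exists_gen {V : Type} [Fintype V] (S : Sys V) (Q : Set ℝ) (hQ : Q.Countable) (ρ : ℝ) (hρ : 0 < ρ) :
    ∃ ω : V → ℝ, (∀ i, |ω i| < ρ) ∧ (S.withW ω).G5 ∧ (S.withW ω).G4 Q ∧ (S.withW (-ω)).G5 ∧
      (S.withW (-ω)).G4 Q := by
  have h5 := gen5 S
  have h4 := gen4 S Q hQ
  have h5' : MeasureTheory.volume (Neg.neg ⁻¹' {ω : V → ℝ | ¬ (S.withW ω).G5}) = 0 := by
    rw [MeasureTheory.Measure.measure_preimage_neg]
    exact h5
  have h4' : MeasureTheory.volume (Neg.neg ⁻¹' {ω : V → ℝ | ¬ (S.withW ω).G4 Q}) = 0 := by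
    rw [MeasureTheory.Measure.measure_preimage_neg]
    exact h4
  by_contra hno
  push Not at hno
  have hsub : Metric.ball (0 : V → ℝ) ρ ⊆ ({ω : V → ℝ | ¬ (S.withW ω).G5} ∪
      {ω : V → ℝ | ¬ (S.withW ω).G4 Q}) ∪ (Neg.neg ⁻¹' {ω : V → ℝ | ¬ (S.withW ω).G5} ∪
      Neg.neg ⁻¹' {ω : V → ℝ | ¬ (S.withW ω).G4 Q}) := by
    intro ω hω
    by_contra hc
    simp only [Set.mem_union, Set.mem_ofPred_eq, Set.mem_preimage, not_or, not_not] at hc
    obtain ⟨⟨c1, c2⟩, c3, c4⟩ := hc
    refine hno ω (fun i => ?_) c1 c2 c3 c4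
    rw [mem_ball_zero_iff] at hω
    exact lt_of_le_of_lt (norm_le_pi_norm ω i) hω
  have h0 : MeasureTheory.volume (Metric.ball (0 : V → ℝ) ρ) = 0 :=
    MeasureTheory.measure_mono_null hsub (MeasureTheory.measure_union_null
      (MeasureTheory.measure_union_null h5 h4) (MeasureTheory.measure_union_null h5' h4'))
  exact absurd h0 (Metric.measure_ball_pos _ _ hρ).ne'

end Pool.Agent.KDT
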