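import Pool.Agent.KDT.Defs

/-!
# Topo: a switching point
If `t0 ∈ closure A` take `t = t0`: `A` is open and `Q` dense, so `A ∩ Q` meets every neighbourhood of `t0`; and `t0 ∈ Q \ A` itself. Otherwise let `K = [[s,t0]] ∩ closure A`,
compact and nonempty (`s ∈ A`), and `t ∈ K` the point nearest to `t0`. `t ≠ t0`. The open interval between `t` and `t0` contains no point of `A`, but points of `Q`
arbitrarily near to `t`.
-/

set_option autoImplicit false

namespace Pool.Agent.KDT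

private theorem Topo_near (A : Set ℝ) (hA : IsOpen A) (Q : Set ℝ) (hQ : Dense Q) (t : ℝ)
    (ht : t ∈ closure A) (δ : ℝ) (hδ : 0 < δ) : ∃ u ∈ Q, |u - t| < δ ∧ u ∈ A := by
  have h1 : (Metric.ball t δ ∩ A).Nonempty := by
    obtain ⟨a, ha, hd⟩ := Metric.mem_closure_iff.mp ht δ hδ
    exact ⟨a, by rw [Metric.mem_ball, dist_comm]; exact hd, ha⟩
  obtain ⟨u, ⟨hu1, hu2⟩, hu3⟩ := hQ.inter_open_nonempty _ (Metric.isOpen_ball.inter hA) h1
  exact ⟨u, hu3, by rw [← Real.dist_eq]; exact hu1, hu2⟩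

theorem exists_switch (A : Set ℝ) (hA : IsOpen A) (Q : Set ℝ) (hQ : Dense Q) (s t0 : ℝ) (hs : s ∈ A) (ht : t0 ∉ A)
    (htQ : t0 ∈ Q) : ∃ t ∈ Set.uIcc s t0, (∀ δ : ℝ, 0 < δ → ∃ u ∈ Q, |u - t| < δ ∧ u ∈ A) ∧
      ∀ δ : ℝ, 0 < δ → ∃ u ∈ Q, |u - t| < δ ∧ u ∉ A := by
  by_cases hc : t0 ∈ closure A
  · exact ⟨t0, Set.right_mem_uIcc, fun δ hδ => Topo_near A hA Q hQ t0 hc δ hδ,
      fun δ hδ => ⟨t0, htQ, by simpa using hδ, ht⟩⟩
  have hK : IsCompact (Set.uIcc s t0 ∩ closure A) := isCompact_uIcc.inter_right isClosed_closure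
  obtain ⟨t, ⟨ht1, ht2⟩, hmin⟩ := hK.exists_isMinOn ⟨s, Set.left_mem_uIcc, subset_closure hs⟩
    (f := fun x => |x - t0|) (by fun_prop)
  have hne : t ≠ t0 := fun h => hc (h ▸ ht2)
  refine ⟨t, ht1, fun δ hδ => Topo_near A hA Q hQ t ht2 δ hδ, fun δ hδ => ?_⟩
  have key : ∀ u : ℝ, u ∈ Set.uIcc s t0 → |u - t0| < |t - t0| → u ∉ A := by
    intro u hu1 hu2 hu3
    have := hmin ⟨hu1, subset_closure hu3⟩
    simp only [Set.mem_ofPred_eq] at this
    linarith
  rcases lt_or_gt_of_ne hne with h | h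
  · have h1 : (Set.Ioo t (min t0 (t + δ))).Nonempty := by
      rw [Set.nonempty_Ioo]
      exact lt_min h (by linarith)
    obtain ⟨u, ⟨hu1, hu2⟩, hu3⟩ := hQ.inter_open_nonempty _ isOpen_Ioo h1
    have hu4 : u < t0 := hu2.trans_le (min_le_left _ _)
    have hu5 : u < t + δ := hu2.trans_le (min_le_right _ _)
    refine ⟨u, hu3, by rw [abs_lt]; constructor <;> linarith, key u ?_ ?_⟩
    · rw [Set.mem_uIcc] at ht1 ⊢
      rcases ht1 with ⟨ha, hb⟩ | ⟨ha, hb⟩
      · left; constructor <;> linarith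
      · exfalso; linarith
    · rw [abs_lt]
      rw [abs_of_neg (by linarith)]
      constructor <;> linarith
  · have h1 : (Set.Ioo (max t0 (t - δ)) t).Nonempty := by
      rw [Set.nonempty_Ioo]
      exact max_lt h (by linarith)
    obtain ⟨u, ⟨hu1, hu2⟩, hu3⟩ := hQ.inter_open_nonempty _ isOpen_Ioo h1
    have hu4 : t0 < u := (le_max_left _ _).trans_lt hu1
    have hu5 : t - δ < u := (le_max_right _ _).trans_lt hu1
    refine ⟨u, hu3, by rw [abs_lt]; constructor <;> linarith, key u ?_ ?_⟩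
    · rw [Set.mem_uIcc] at ht1 ⊢
      rcases ht1 with ⟨ha, hb⟩ | ⟨ha, hb⟩
      · exfalso; linarith
      · right; constructor <;> linarith
    · rw [abs_lt]
      rw [abs_of_pos (by linarith)]
      constructor <;> linarith

end Pool.Agent.KDT
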