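import Pool.Agent.KDT.Local
import Pool.Agent.KDT.Topo
import Pool.Agent.KDT.Gen

/-!
# Reduce: from unweighted switching times to events of generic weighted systems
`F = ∅` or `V` empty are trivial (`F1 = F2 = ∅`; if `V` is empty then `F = ∅` because of `a`, `b`). Choose `η > 0` with `2 η < |t - t'|` for different `t, t' ∈ F` and such that for `t ∈ F`,
`|s - t| ≤ η`, `i ≠ j`: `Nn i j s ≥ μ`, for some `μ > 0` (continuity at the finitely many `t ∈ F`: first `μ_t = min Nn i j t / 2`). For `t ∈ F` choose `a b`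
and `s(t)`, `|s(t) - t| < η`, with `a b` strict at `s(t)`. `strict_openW` gives `ρ_t`. (Note `S = S.withW 0` as `S.w = 0`.) Let `ρ = min (ρ_t, μ/2)` over `t ∈ F`.
Apply `exists_gen` with `Q = range of the rationals ∪ F` (countable, dense). For `t ∈ F` the pair `a b` is not strict at `t` in `S.withW 0`, so by `avg` it is not
strict at `t` for one of the weights `σω`, `σ = ±1`; it is strict at `s(t)` for this weight. Apply `exists_switch` to
`A = {0 < Nn a b ∧ Strict}` (`strict_open`; system `S.withW (σ ω)`; `Nn` does not depend on the weights): there is `t* ∈ [[s(t), t]]`, `|t* - t| ≤ η`, with the two accumulation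
properties. `Good t*` holds (`2 |ω i| < 2 ρ ≤ μ`). Near `t*` we have `Nn a b > 0`, so `u ∉ A` means `¬ Strict` for `u` near `t*`. So `local_ev`
gives `EvT t*`. Let `F1` be the set of the `t*` with `σ = 1`, `F2` those with `σ = -1`. `t ↦ t*` is injective, since
`|t* - t| ≤ η` and the points of `F` have distance `> 2η`. So `|F| ≤ |F1| + |F2|`.
-/

set_option autoImplicit false

namespace Pool.Agent.KDT

open Filter Topology in
private theorem Reduce_core {V : Type} [Fintype V] (S : Sys V) (Q : Set ℝ) (hQ : Dense Q) (ε ρ : ℝ) (hε : 0 < ε)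
    (hρε : 2 * ρ ≤ ε) (ω : V → ℝ) (hω : ∀ i, |ω i| < ρ) (h5 : (S.withW ω).G5) (h4 : (S.withW ω).G4 Q)
    (t s : ℝ) (htQ : t ∈ Q) (hN : ∀ u, |u - t| ≤ ε → ∀ i j, i ≠ j → ε ≤ S.Nn i j u) (hs : |s - t| < ε)
    (a b : V) (hab : a ≠ b) (h1 : (S.withW ω).Strict Set.univ s a b)
    (h2 : ¬ (S.withW ω).Strict Set.univ t a b) :
    ∃ t' : ℝ, |t' - t| ≤ ε ∧ (S.withW ω).EvT t' := by
  have hA := strict_open (S.withW ω) a b
  have hNn : ∀ i j u, (S.withW ω).Nn i j u = S.Nn i j u := fun i j u => rfl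
  obtain ⟨t', ht', hin, hout⟩ := exists_switch {u : ℝ | 0 < (S.withW ω).Nn a b u ∧ (S.withW ω).Strict Set.univ u a b}
    hA Q hQ s t ⟨lt_of_lt_of_le hε (hN s hs.le a b hab), h1⟩ (fun h => h2 h.2) htQ
  have hd : |t' - t| ≤ ε := by
    have := Set.abs_sub_right_of_mem_uIcc ht'
    rw [abs_sub_comm t' t]
    rw [abs_sub_comm s t] at hs
    linarith
  refine ⟨t', hd, ?_⟩
  refine local_ev (S.withW ω) Q h5 h4 t' ?_ a b hab ?_ ?_
  · refine ⟨ε, hε, fun i => ?_, fun i j hij => hN t' hd i j hij⟩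
    have := hω i
    show 2 * |ω i| < ε
    linarith
  · intro δ hδ
    obtain ⟨u, hu, hu1, hu2⟩ := hin δ hδ
    exact ⟨u, hu, hu1, hu2.2⟩
  · intro δ hδ
    have hev : ∀ᶠ u in 𝓝 t', 0 < S.Nn a b u :=
      (cont_nn S a b).continuousAt.eventually (lt_mem_nhds (lt_of_lt_of_le hε (hN t' hd a b hab)))
    obtain ⟨δ0, hδ0, hh⟩ := Metric.eventually_nhds_iff.1 hev
    obtain ⟨u, hu, hu1, hu2⟩ := hout (min δ δ0) (lt_min hδ hδ0)
    refine ⟨u, hu, lt_of_lt_of_le hu1 (min_le_left _ _), fun hst => hu2 ⟨?_, hst⟩⟩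
    exact hh (by rw [Real.dist_eq]; exact lt_of_lt_of_le hu1 (min_le_right _ _))

open Filter Topology in
theorem reduce {V : Type} [Fintype V] (S : Sys V) (hw : ∀ i, S.w i = 0) (F : Finset ℝ)
    (hF : ∀ t ∈ F, (∀ i j, i ≠ j → 0 < S.Nn i j t) ∧ ∃ a b, a ≠ b ∧ ¬ S.Strict Set.univ t a b ∧
      ∀ δ : ℝ, 0 < δ → ∃ s : ℝ, |s - t| < δ ∧ S.Strict Set.univ s a b) :
    ∃ ω : V → ℝ, ∃ F1 F2 : Finset ℝ, F.card ≤ F1.card + F2.card ∧ (∀ t ∈ F1, (S.withW ω).EvT t) ∧
      ∀ t ∈ F2, (S.withW (-ω)).EvT t := by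
  classical
  have hS0 : S.withW 0 = S := by
    have : S.w = 0 := funext hw
    unfold Sys.withW
    rw [← this]
  -- the parameter ε
  have hev1 : ∀ᶠ ε in 𝓝[>] (0 : ℝ), ∀ t ∈ F, ∀ u, |u - t| ≤ ε → ∀ i j, i ≠ j → ε ≤ S.Nn i j u := by
    rw [Finset.eventually_all]
    intro t ht
    have h1 : ∀ᶠ ε in 𝓝[>] (0 : ℝ), ∀ i j, i ≠ j → ∀ u, |u - t| ≤ ε → ε ≤ S.Nn i j u := by
      rw [Filter.eventually_all]
      intro i
      rw [Filter.eventually_all]
      intro j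
      by_cases hij : i = j
      · exact Filter.Eventually.of_forall (fun _ h => absurd hij h)
      have hc := (hF t ht).1 i j hij
      have hev : ∀ᶠ u in 𝓝 t, S.Nn i j t / 2 < S.Nn i j u :=
        (cont_nn S i j).continuousAt.eventually (lt_mem_nhds (by linarith))
      obtain ⟨δ, hδ, hh⟩ := Metric.eventually_nhds_iff.1 hev
      have hm : 0 < min δ (S.Nn i j t / 2) := lt_min hδ (by linarith)
      filter_upwards [Ioo_mem_nhdsGT hm] with ε hε _ u hu
      have h1 := hh (show dist u t < δ by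
        rw [Real.dist_eq]; exact lt_of_le_of_lt hu (lt_of_lt_of_le hε.2 (min_le_left _ _)))
      have h2 : ε < S.Nn i j t / 2 := lt_of_lt_of_le hε.2 (min_le_right _ _)
      linarith
    filter_upwards [h1] with ε hh u hu i j hij
    exact hh i j hij u hu
  have hev2 : ∀ᶠ ε in 𝓝[>] (0 : ℝ), ∀ t ∈ F, ∀ t' ∈ F, t ≠ t' → 2 * ε < |t - t'| := by
    rw [Finset.eventually_all]
    intro t ht
    rw [Finset.eventually_all]
    intro t' ht'
    by_cases htt : t = t'
    · exact Filter.Eventually.of_forall (fun _ h => absurd htt h)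
    have hp : 0 < |t - t'| / 2 := by
      have := abs_pos.2 (sub_ne_zero.2 htt)
      linarith
    filter_upwards [Ioo_mem_nhdsGT hp] with ε hε _
    have := hε.2
    linarith
  obtain ⟨ε, ⟨hN, hsep⟩, hε⟩ := ((hev1.and hev2).and self_mem_nhdsWithin).exists
  have hε : 0 < ε := hε
  have hF' : ∀ t ∈ F, ∃ p : V × V × ℝ, p.1 ≠ p.2.1 ∧ ¬ S.Strict Set.univ t p.1 p.2.1 ∧ |p.2.2 - t| < ε ∧
      S.Strict Set.univ p.2.2 p.1 p.2.1 := by
    intro t ht
    obtain ⟨a, b, hab, hns, hh⟩ := (hF t ht).2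
    obtain ⟨s, hs, hst⟩ := hh ε hε
    exact ⟨(a, b, s), hab, hns, hs, hst⟩
  rcases F.eq_empty_or_nonempty with hFe | ⟨t0, ht0⟩
  · subst hFe
    exact ⟨0, ∅, ∅, by simp, by simp, by simp⟩
  have : Nonempty V := ⟨(hF' t0 ht0).choose.1⟩
  choose! p hp using hF'
  have hev3 : ∀ᶠ ρ in 𝓝[>] (0 : ℝ), ∀ t ∈ F, ∀ ω : V → ℝ, (∀ i, |ω i| < ρ) →
      (S.withW ω).Strict Set.univ (p t).2.2 (p t).1 (p t).2.1 := by
    rw [Finset.eventually_all]
    intro t ht
    obtain ⟨h1, h2, h3, h4⟩ := hp t ht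
    obtain ⟨ρ0, hρ0, hh⟩ := strict_openW S (p t).2.2 (p t).1 (p t).2.1
      (lt_of_lt_of_le hε (hN t ht _ h3.le _ _ h1)) (by rw [hS0]; exact h4)
    filter_upwards [Ioo_mem_nhdsGT hρ0] with ρ hρ ω hω
    exact hh ω (fun i => lt_trans (hω i) hρ.2)
  have hev4 : ∀ᶠ ρ in 𝓝[>] (0 : ℝ), 2 * ρ ≤ ε := by
    filter_upwards [Ioo_mem_nhdsGT (show (0 : ℝ) < ε / 2 by linarith)] with ρ hρ
    have := hρ.2
    linarith
  obtain ⟨ρ, ⟨hst, hρε⟩, hρ⟩ := ((hev3.and hev4).and self_mem_nhdsWithin).exists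
  have hρ : 0 < ρ := hρ
  set Q : Set ℝ := Set.range ((↑) : ℚ → ℝ) ∪ (↑F : Set ℝ) with hQdef
  have hQc : Q.Countable := (Set.countable_range _).union F.countable_toSet
  have hQd : Dense Q := Dense.mono Set.subset_union_left Rat.denseRange_cast
  obtain ⟨ω, hω, h5, h4, h5', h4'⟩ := exists_gen S Q hQc ρ hρ
  have hω' : ∀ i, |(-ω) i| < ρ := fun i => by simpa using hω i
  have key : ∀ t ∈ F, (∃ t', |t' - t| ≤ ε ∧ (S.withW ω).EvT t') ∨ ∃ t', |t' - t| ≤ ε ∧ (S.withW (-ω)).EvT t' := by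
    intro t ht
    obtain ⟨hab, hns, hs, hstr⟩ := hp t ht
    have htQ : t ∈ Q := Or.inr ht
    by_cases hc : (S.withW ω).Strict Set.univ t (p t).1 (p t).2.1
    · right
      have hc' : ¬ (S.withW (-ω)).Strict Set.univ t (p t).1 (p t).2.1 := by
        intro hc'
        have := avg S ω t _ _ hc hc'
        rw [hS0] at this
        exact hns this
      exact Reduce_core S Q hQd ε ρ hε hρε (-ω) hω' h5' h4' t (p t).2.2 htQ (hN t ht) hs _ _ hab
        (hst t ht (-ω) hω') hc'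
    · left
      exact Reduce_core S Q hQd ε ρ hε hρε ω hω h5 h4 t (p t).2.2 htQ (hN t ht) hs _ _ hab
        (hst t ht ω hω) hc
  set P1 : ℝ → Prop := fun t => ∃ t', |t' - t| ≤ ε ∧ (S.withW ω).EvT t' with hP1
  have hk1 : ∀ t ∈ F.filter P1, ∃ t', |t' - t| ≤ ε ∧ (S.withW ω).EvT t' := by
    intro t ht
    exact (Finset.mem_filter.1 ht).2
  have hk2 : ∀ t ∈ F.filter (fun t => ¬ P1 t), ∃ t', |t' - t| ≤ ε ∧ (S.withW (-ω)).EvT t' := by
    intro t ht
    rw [Finset.mem_filter] at ht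
    exact (key t ht.1).resolve_left ht.2
  choose! f hf using hk1
  choose! g hg using hk2
  have hinj : ∀ (G : Finset ℝ) (k : ℝ → ℝ), G ⊆ F → (∀ t ∈ G, |k t - t| ≤ ε) → Set.InjOn k ↑G := by
    intro G k hG hk t1 h1 t2 h2 heq
    by_contra hne
    have e1 := hk t1 h1
    have e2 := hk t2 h2
    have e3 := hsep t1 (hG h1) t2 (hG h2) hne
    rw [heq] at e1
    have e4 : |t1 - t2| ≤ |k t2 - t1| + |k t2 - t2| := by
      have := abs_sub_le t1 (k t2) t2
      rw [abs_sub_comm t1 (k t2)] at this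
      exact this
    linarith
  refine ⟨ω, (F.filter P1).image f, (F.filter (fun t => ¬ P1 t)).image g, ?_, ?_, ?_⟩
  · rw [Finset.card_image_of_injOn (hinj _ f (Finset.filter_subset _ _) (fun t ht => (hf t ht).1)),
      Finset.card_image_of_injOn (hinj _ g (Finset.filter_subset _ _) (fun t ht => (hg t ht).1)),
      Finset.card_filter_add_card_filter_not]
  · intro t ht
    obtain ⟨u, hu, rfl⟩ := Finset.mem_image.1 ht
    exact (hf u hu).2
  · intro t ht
    obtain ⟨u, hu, rfl⟩ := Finset.mem_image.1 ht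
    exact (hg u hu).2

end Pool.Agent.KDT
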