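import Pool.Agent.KDT.Dense
import Pool.Agent.KDT.Count
import Pool.Agent.KDT.RBound
import Pool.Agent.KDT.EvCount
import Pool.Agent.KDT.Reduce
import Pool.Agent.KDT.Change
import Pool.Agent.KDT.Num
import Pool.Agent.KDT.Bridge

/-!
# Fin: assembly (helper37)
-/

set_option autoImplicit false

namespace Pool.Agent.KDT

/-- the subpolynomial factor -/
def bigP (L N : ℕ) : ℕ := (1 + 12 * L) ^ (9 * N)

theorem bigP_pos (L N : ℕ) : 1 ≤ bigP L N := Nat.one_le_iff_ne_zero.2 (by unfold bigP; positivity)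

theorem distinct_withW {V : Type} (S : Sys V) (h : S.Distinct) (ω : V → ℝ) : (S.withW ω).Distinct := h

/-- number of event times of a weighted system -/
theorem ev_bound (n D : ℕ) (R : ℕ) (hB : SparseHyp (Obs (Fin n) R) D)
    (S : Sys (Fin n)) (hS : S.Distinct) (F : Finset ℝ) (hF : ∀ t ∈ F, S.EvT t) :
    F.card ≤ 32 * (D + 1) ^ 2 * n ^ 2 * bigP (4 * (Nat.log 2 n + 1)) (14 * (10 * (R + 1)) ^ 4) := by
  obtain ⟨L, hL⟩ : ∃ L, L = 4 * (Nat.log 2 n + 1) := ⟨_, rfl⟩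
  obtain ⟨N, hN⟩ : ∃ N, N = 14 * (10 * (R + 1)) ^ 4 := ⟨_, rfl⟩
  have hN1 : 1 ≤ N := by
    rw [hN]; exact Nat.succ_le_of_lt (by positivity)
  have hcard : ∀ (k : ℕ), k ≤ 4 → ∀ (τ : ℝ → Fin k → Fin n) (T : Finset ℝ), Set.InjOn τ T → T.card ≤ 2 ^ L := by
    intro k hk τ T hT
    have h1 : T.card ≤ n ^ k := by
      have := Finset.card_le_card_of_injOn (s := T) (t := (Finset.univ : Finset (Fin k → Fin n))) τ
        (fun _ _ => Finset.mem_coe.2 (Finset.mem_univ _)) hT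
      simpa using this
    have h2 : n < 2 ^ (Nat.log 2 n + 1) := Nat.lt_pow_succ_log_self (by norm_num) n
    calc T.card ≤ n ^ k := h1
      _ ≤ (2 ^ (Nat.log 2 n + 1)) ^ k := Nat.pow_le_pow_left h2.le k
      _ ≤ (2 ^ (Nat.log 2 n + 1)) ^ 4 := Nat.pow_le_pow_right (by positivity) hk
      _ = 2 ^ L := by rw [← pow_mul, hL]; ring_nf
  have h := ev_count S F hF (2 * (D + 1) * n ^ 2 * (1 + 6 * L) ^ (3 * N))
    (4 * (D + 1) ^ 2 * n ^ 2 * bigP L N)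
    (fun τ T hinj hτ hcl => by
      have := count3 (Obs (Fin n) R) D hB τ T hinj hτ N L hN1
        (fun i j hij H hH => hN ▸ rbound S hS τ T hτ hcl R H hH i j hij.ne) (hcard 3 (by norm_num) τ T hinj)
      simpa using this)
    (fun τ T hinj hτ hcl => by
      have := count4 (Obs (Fin n) R) D hB τ T hinj hτ N L hN1
        (fun i j hij H hH => hN ▸ rbound S hS τ T hτ hcl R H hH i j hij.ne) (hcard 4 le_rfl τ T hinj)
      rw [Fintype.card_fin] at this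
      exact this)
  have h3 : 2 * (D + 1) * n ^ 2 * (1 + 6 * L) ^ (3 * N) ≤ 4 * (D + 1) ^ 2 * n ^ 2 * bigP L N := by
    have e1 : (1 + 6 * L) ^ (3 * N) ≤ bigP L N :=
      (Nat.pow_le_pow_left (by omega) _).trans (Nat.pow_le_pow_right (by omega) (by omega))
    have e2 : 2 * (D + 1) ≤ 4 * (D + 1) ^ 2 := by nlinarith
    calc 2 * (D + 1) * n ^ 2 * (1 + 6 * L) ^ (3 * N) ≤ (4 * (D + 1) ^ 2) * n ^ 2 * bigP L N := by
          gcongr
      _ = _ := by ring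
  rw [← hL, ← hN]
  have e4 : 32 * (D + 1) ^ 2 * n ^ 2 * bigP L N = 8 * (4 * (D + 1) ^ 2 * n ^ 2 * bigP L N) := by ring
  rw [e4]
  omega

/-- number of change times of the unweighted system -/
theorem change_bound (n D : ℕ) (R : ℕ) (hB : SparseHyp (Obs (Fin n) R) D)
    (S : Sys (Fin n)) (hw : ∀ i, S.w i = 0) (hS : S.Distinct) (F : Finset ℝ)
    (hF : ∀ t ∈ F, ∀ δ : ℝ, 0 < δ → ∃ s : ℝ, |s - t| < δ ∧ S.St s ≠ S.St t) :
    F.card ≤ 65 * (D + 1) ^ 2 * n ^ 2 * bigP (4 * (Nat.log 2 n + 1)) (14 * (10 * (R + 1)) ^ 4) := by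
  classical
  set F0 := F.filter (fun t => ¬ ∀ i j, i ≠ j → 0 < S.Nn i j t) with hF0
  set F1 := F.filter (fun t => ∀ i j, i ≠ j → 0 < S.Nn i j t) with hF1
  have hsum : F.card = F1.card + F0.card := by
    rw [hF1, hF0, Finset.card_filter_add_card_filter_not]
  have h0 : F0.card ≤ n ^ 2 := by
    have := coll_times S hS F0 (fun t ht => (Finset.mem_filter.1 ht).2)
    simpa using this
  obtain ⟨ω, G1, G2, hG, hG1, hG2⟩ := reduce S hw F1 (fun t ht => by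
    obtain ⟨ht1, ht2⟩ := Finset.mem_filter.1 ht
    refine ⟨ht2, ?_⟩
    exact change_pair S hw t ht2 (hF t ht1))
  have b1 := ev_bound n D R hB (S.withW ω) (distinct_withW S hS ω) G1 hG1
  have b2 := ev_bound n D R hB (S.withW (-ω)) (distinct_withW S hS (-ω)) G2 hG2
  have hP1 := bigP_pos (4 * (Nat.log 2 n + 1)) (14 * (10 * (R + 1)) ^ 4)
  generalize bigP (4 * (Nat.log 2 n + 1)) (14 * (10 * (R + 1)) ^ 4) = P at *
  have e1 : n ^ 2 ≤ (D + 1) ^ 2 * n ^ 2 * P := by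
    have : 1 * n ^ 2 * 1 ≤ (D + 1) ^ 2 * n ^ 2 * P := by
      gcongr
      exact Nat.one_le_iff_ne_zero.2 (by positivity)
    simpa only [one_mul, mul_one] using this
  have e2 : 32 * (D + 1) ^ 2 * n ^ 2 * P = 32 * ((D + 1) ^ 2 * n ^ 2 * P) := by ring
  have e3 : 65 * (D + 1) ^ 2 * n ^ 2 * P = 65 * ((D + 1) ^ 2 * n ^ 2 * P) := by ring
  rw [e2] at b1 b2
  rw [e3]
  omega

theorem finite_ncard_of_bound (A : Set ℝ) (B : ℕ) (h : ∀ F : Finset ℝ, (∀ t ∈ F, t ∈ A) → F.card ≤ B) :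
    A.Finite ∧ A.ncard ≤ B := by
  have hfin : A.Finite := by
    by_contra hinf
    obtain ⟨F, hF, hc⟩ := Set.Infinite.exists_subset_card_eq hinf (B + 1)
    have := h F (fun t ht => hF ht)
    omega
  refine ⟨hfin, ?_⟩
  rw [Set.ncard_eq_toFinset_card A hfin]
  exact h _ (fun t ht => by simpa using ht)

theorem main_bound (ε : ℝ) (hε : 0 < ε) : ∃ C : ℝ, ∀ (n : ℕ) (S : Sys (Fin n)), (∀ i, S.w i = 0) → S.Distinct →
    ({t : ℝ | ∀ δ : ℝ, 0 < δ → ∃ s : ℝ, |s - t| < δ ∧ S.St s ≠ S.St t}).Finite ∧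
    (({t : ℝ | ∀ δ : ℝ, 0 < δ → ∃ s : ℝ, |s - t| < δ ∧ S.St s ≠ S.St t}).ncard : ℝ)
      ≤ C * (n : ℝ) ^ ((2 : ℝ) + ε) := by
  obtain ⟨q, hq1⟩ : ∃ q : ℕ, 4 / ε ≤ q := exists_nat_ge _
  have hq0 : (0 : ℝ) < q := lt_of_lt_of_le (by positivity) hq1
  have hq : 1 ≤ q := by exact_mod_cast hq0
  have hq2 : 2 * (1 / (q : ℝ)) ≤ ε / 2 := by
    rw [mul_one_div, div_le_div_iff₀ hq0 (by norm_num)]
    have := (div_le_iff₀ hε).1 hq1
    linarith
  obtain ⟨C, hC, hsp⟩ := sparse q hq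
  obtain ⟨C', hC', hnum⟩ := num q (ε / 2) (by positivity)
  refine ⟨65 * (C + 2) ^ 2 * C', ?_⟩
  intro n S hw hS
  set A : Set ℝ := {t : ℝ | ∀ δ : ℝ, 0 < δ → ∃ s : ℝ, |s - t| < δ ∧ S.St s ≠ S.St t} with hA
  have hsp' := hsp (Fin n)
  rw [Fintype.card_fin] at hsp'
  set D := ⌈C * (n : ℝ) ^ (1 / (q : ℝ))⌉₊ with hD
  obtain ⟨P, hP1, hP2⟩ : ∃ P : ℕ, (∀ F : Finset ℝ, (∀ t ∈ F, t ∈ A) → F.card ≤ 65 * (D + 1) ^ 2 * n ^ 2 * P) ∧
      (1 ≤ n → (P : ℝ) ≤ C' * (n : ℝ) ^ (ε / 2)) := by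
    refine ⟨bigP (4 * (Nat.log 2 n + 1)) (14 * (10 * (2 * RR q n + 1)) ^ 4), ?_, ?_⟩
    · intro F hF
      exact change_bound n D (2 * RR q n) hsp' S hw hS F (fun t ht => hF t ht)
    · intro hn
      refine le_trans (le_of_eq ?_) (hnum n hn)
      rw [bigP, Nat.cast_pow]
      push_cast
      rfl
  clear hnum hsp'
  obtain ⟨h1, h2⟩ := finite_ncard_of_bound A (65 * (D + 1) ^ 2 * n ^ 2 * P) hP1
  refine ⟨h1, ?_⟩
  rcases Nat.eq_zero_or_pos n with hn | hn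
  · subst hn
    have : (A.ncard : ℝ) ≤ 0 := by
      have : A.ncard ≤ 0 := by
        refine h2.trans (le_of_eq ?_)
        ring
      exact_mod_cast this
    refine this.trans ?_
    positivity
  · have hn1 : (1 : ℝ) ≤ n := by exact_mod_cast hn
    have hnpos : (0 : ℝ) < n := by linarith
    have hx1 : (1 : ℝ) ≤ (n : ℝ) ^ (1 / (q : ℝ)) := Real.one_le_rpow hn1 (by positivity)
    have hDle : (D : ℝ) + 1 ≤ (C + 2) * (n : ℝ) ^ (1 / (q : ℝ)) := by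
      have := Nat.ceil_lt_add_one (a := C * (n : ℝ) ^ (1 / (q : ℝ))) (by positivity)
      nlinarith
    have h4 := hP2 hn
    have h3 : (A.ncard : ℝ) ≤ 65 * ((D : ℝ) + 1) ^ 2 * (n : ℝ) ^ 2 * (P : ℝ) := by
      exact_mod_cast h2
    calc (A.ncard : ℝ) ≤ _ := h3
      _ ≤ 65 * ((C + 2) * (n : ℝ) ^ (1 / (q : ℝ))) ^ 2 * (n : ℝ) ^ 2 * (C' * (n : ℝ) ^ (ε / 2)) := by
          gcongr
      _ = 65 * (C + 2) ^ 2 * C' * (((n : ℝ) ^ (1 / (q : ℝ))) ^ 2 * (n : ℝ) ^ 2 * (n : ℝ) ^ (ε / 2)) := by ring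
      _ ≤ 65 * (C + 2) ^ 2 * C' * (n : ℝ) ^ ((2 : ℝ) + ε) := by
          have e : ((n : ℝ) ^ (1 / (q : ℝ))) ^ 2 * (n : ℝ) ^ 2 * (n : ℝ) ^ (ε / 2)
              = (n : ℝ) ^ (2 * (1 / (q : ℝ)) + 2 + ε / 2) := by
            rw [← Real.rpow_natCast, ← Real.rpow_mul hnpos.le, ← Real.rpow_natCast (n : ℝ) 2,
              ← Real.rpow_add hnpos, ← Real.rpow_add hnpos]
            push_cast
            ring_nf
          rw [e]
          have : (n : ℝ) ^ (2 * (1 / (q : ℝ)) + 2 + ε / 2) ≤ (n : ℝ) ^ ((2 : ℝ) + ε) :=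
            Real.rpow_le_rpow_of_exponent_le hn1 (by linarith)
          gcongr

end Pool.Agent.KDT
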