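import Pool.Agent.KDT.Ext
import Pool.Agent.KDT.Dich
import Pool.Agent.KDT.CV3
import Pool.Agent.KDT.Opn

/-!
# Local: at a switching time of a strict pair there is an event
Let `a ≠ b`; `Nn a b t0 > 0` (`Good`). `a b` is not strict at `t0` (otherwise strict near `t0` by `strict_open`, against `h2`).
Take good times: `t ∈ Q` with `a b` strict at `t`, `t → t0` (`h1`), `Nn a b t > 0`. At such `t` there are no four tied sites (`G4`), so `ext_lo`, `ext_hi` give
an option `y` or none, `z` or none. By the pigeonhole principle (finitely many options) one option pair occurs for good times arbitrarily near `t0`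
(for all `δ > 0`). Fix it and consider only these good times.
(1) `y` exists and `Or a b y t0 = 0`: `Ev3 a b y`: `Or a b y ≠ 0` at good times; `a b`, `a y`, `b y` are strict at good times.
    The same if `z` exists and `Or a b z t0 = 0`.
Otherwise (`y` none or `Or a b y t0 > 0`) and (`z` none or `Or a b z t0 < 0`) (limits of the signs).
(2) `y` and `z` exist and `Uu y / Or y = Uu z / Or z` at `t0`, i.e. `Cr a b y z t0 = 0`. Let `s* = -Uu y / Or y` at `t0`, with point `(x0,y0)` (`param'`): `a b y z` are tied.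
    Good times have parameters `s` (strict_iff) with `-Uu y/Or y < s < -Uu z/Or z` (values at `t`), both bounds tend to `s*`. So for every other
    `c`: `Uu c + s Or c > 0` at good times gives `Uu c + s* Or c ≥ 0` at `t0`, and `≠ 0` by `G5`. So `h4` of `dich` holds. At good times
    `Cr a b y z > 0` (multiply). By `dich` for `t ∈ Q` near `t0` with `a b` not strict (`h2`): `y z` is strict (four tied sites are excluded by `G4`). So
    `Clust t0 y z`. The pairs `a b`, `a y`, `b y`, `a z`, `b z` are strict at good times. Hence `Ev4 a b y z`.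
(3) otherwise the limits `l = -Uu y / Or y` (or `-∞`), `l' = -Uu z / Or z` (or `+∞`) at `t0` satisfy `l < l'` (at good times the first is smaller than the
    second, so `l ≤ l'`, and `≠` since we are not in (2)). Let `l < s < l'`. For good times near `t0` (extremality in `ext_lo`, `ext_hi`) `Uu c + s Or c > 0` for all
    `c ≠ a, b`: if `Or c > 0` then `s > -Uu y/Or y ≥ -Uu c / Or c`; if `Or c < 0` similarly; if `Or c = 0` then `Uu c > 0` by strictness. (If `y` is none
    there is no `c` with `Or c > 0`.) Hence `Uu c + s Or c ≥ 0` at `t0` for every `s ∈ (l,l')` and every `c`. As `a b` is not strict at `t0`, for each of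
    the infinitely many `s ∈ (l,l')` there is `c` with `Uu c + s Or c = 0` at `t0`; two different `s` have the same `c`, so `Or c = Uu c = 0` at `t0`, which
    contradicts `cv3`.
-/

set_option autoImplicit false

namespace Pool.Agent.KDT

open Filter Topology in
private theorem Local_lim {f : ℝ → ℝ} (hf : Continuous f) (t0 : ℝ) (h : ∃ᶠ t in 𝓝 t0, 0 ≤ f t) : 0 ≤ f t0 := by
  by_contra hc
  have hc : f t0 < 0 := not_le.1 hc
  exact h ((hf.continuousAt.eventually (gt_mem_nhds hc)).mono fun t ht => not_le.2 ht)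

open Filter Topology in
private theorem Local_clust {V : Type} (S : Sys V) (t0 : ℝ) (p q : V)
    (h : ∃ᶠ t in 𝓝 t0, S.Strict Set.univ t p q) : S.Clust t0 p q := by
  intro δ hδ
  have hev : ∀ᶠ t in 𝓝 t0, |t - t0| < δ := by
    filter_upwards [Metric.ball_mem_nhds t0 hδ] with t ht
    rwa [Metric.mem_ball, Real.dist_eq] at ht
  obtain ⟨t, h1, h2⟩ := (h.and_eventually hev).exists
  exact ⟨t, h2, h1⟩

private def Local_P {V : Type} (S : Sys V) (a b : V) (t : ℝ) : Option V → Prop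
  | none => ∀ c, c ≠ a → c ≠ b → S.Or a b c t ≤ 0
  | some y => y ≠ a ∧ y ≠ b ∧ 0 < S.Or a b y t ∧
        (∀ c, c ≠ a → c ≠ b → 0 < S.Or a b c t → S.Uu a b y t * S.Or a b c t ≤ S.Uu a b c t * S.Or a b y t) ∧
        S.Strict Set.univ t a y ∧ S.Strict Set.univ t b y

private def Local_R {V : Type} (S : Sys V) (a b : V) (t : ℝ) : Option V → Prop
  | none => ∀ c, c ≠ a → c ≠ b → 0 ≤ S.Or a b c t
  | some z => z ≠ a ∧ z ≠ b ∧ S.Or a b z t < 0 ∧
        (∀ c, c ≠ a → c ≠ b → S.Or a b c t < 0 → S.Uu a b c t * S.Or a b z t ≤ S.Uu a b z t * S.Or a b c t) ∧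
        S.Strict Set.univ t a z ∧ S.Strict Set.univ t b z

open Filter Topology in
private theorem Local_nonneg {V : Type} (S : Sys V) (t0 : ℝ) (a b : V) (o o' : Option V)
    (hfr : ∃ᶠ t in 𝓝 t0, 0 < S.Nn a b t ∧ S.Strict Set.univ t a b ∧ Local_P S a b t o ∧ Local_R S a b t o')
    (s : ℝ) (hy : ∀ y, o = some y → 0 < S.Or a b y t0 ∧ 0 ≤ S.Uu a b y t0 + s * S.Or a b y t0)
    (hz : ∀ z, o' = some z → S.Or a b z t0 < 0 ∧ 0 ≤ S.Uu a b z t0 + s * S.Or a b z t0)
    (c : V) (hca : c ≠ a) (hcb : c ≠ b) : 0 ≤ S.Uu a b c t0 + s * S.Or a b c t0 := by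
  have h3 : (∃ᶠ t in 𝓝 t0, 0 ≤ S.Or a b c t ∧
        ∃ y, o = some y ∧ S.Uu a b y t * S.Or a b c t ≤ S.Uu a b c t * S.Or a b y t) ∨
      (∃ᶠ t in 𝓝 t0, S.Or a b c t ≤ 0 ∧
        ∃ z, o' = some z ∧ S.Uu a b c t * S.Or a b z t ≤ S.Uu a b z t * S.Or a b c t) ∨
      (∃ᶠ t in 𝓝 t0, S.Or a b c t = 0 ∧ 0 ≤ S.Uu a b c t) := by
    rw [← frequently_or_distrib, ← frequently_or_distrib]
    refine hfr.mono ?_
    rintro t ⟨hN, hst, hP, hR⟩
    rcases lt_trichotomy (S.Or a b c t) 0 with h | h | h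
    · right; left
      cases o' with
      | none => exact absurd h (not_lt.2 (hR c hca hcb))
      | some z => exact ⟨h.le, z, rfl, hR.2.2.2.1 c hca hcb h⟩
    · right; right
      obtain ⟨s1, hs1⟩ := (strict_iff S Set.univ t a b hN).1 hst
      have := hs1 c (Set.mem_univ _) hca hcb
      rw [h, mul_zero, add_zero] at this
      exact ⟨h, this.le⟩
    · left
      cases o with
      | none => exact absurd h (not_lt.2 (hP c hca hcb))
      | some y => exact ⟨h.le, y, rfl, hP.2.2.2.1 c hca hcb h⟩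
  rcases h3 with h | h | h
  · cases o with
    | none =>
      obtain ⟨t, -, y, hy1, -⟩ := h.exists
      exact absurd hy1 (by simp)
    | some y =>
      obtain ⟨hy1, hy2⟩ := hy y rfl
      have e1 : 0 ≤ S.Or a b c t0 := Local_lim (cont_or S a b c) t0 (h.mono fun t ht => ht.1)
      have e2 : 0 ≤ S.Uu a b c t0 * S.Or a b y t0 - S.Uu a b y t0 * S.Or a b c t0 := by
        refine Local_lim (f := fun t => S.Uu a b c t * S.Or a b y t - S.Uu a b y t * S.Or a b c t)
          (((cont_uu S a b c).mul (cont_or S a b y)).sub ((cont_uu S a b y).mul (cont_or S a b c))) t0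
          (h.mono ?_)
        rintro t ⟨-, y', hy', h'⟩
        obtain rfl : y = y' := by simpa using hy'
        exact sub_nonneg.2 h'
      have e3 : 0 ≤ (S.Uu a b c t0 + s * S.Or a b c t0) * S.Or a b y t0 := by
        nlinarith [mul_nonneg e1 hy2]
      exact nonneg_of_mul_nonneg_left e3 hy1
  · cases o' with
    | none =>
      obtain ⟨t, -, y, hy1, -⟩ := h.exists
      exact absurd hy1 (by simp)
    | some z =>
      obtain ⟨hz1, hz2⟩ := hz z rfl
      have e1 : 0 ≤ - S.Or a b c t0 := Local_lim (f := fun t => - S.Or a b c t) (cont_or S a b c).neg t0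
        (h.mono fun t ht => neg_nonneg.2 ht.1)
      have e2 : 0 ≤ S.Uu a b z t0 * S.Or a b c t0 - S.Uu a b c t0 * S.Or a b z t0 := by
        refine Local_lim (f := fun t => S.Uu a b z t * S.Or a b c t - S.Uu a b c t * S.Or a b z t)
          (((cont_uu S a b z).mul (cont_or S a b c)).sub ((cont_uu S a b c).mul (cont_or S a b z))) t0
          (h.mono ?_)
        rintro t ⟨-, z', hz', h'⟩
        obtain rfl : z = z' := by simpa using hz'
        exact sub_nonneg.2 h'
      have e3 : 0 ≤ (S.Uu a b c t0 + s * S.Or a b c t0) * (-S.Or a b z t0) := by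
        nlinarith [mul_nonneg e1 hz2]
      exact nonneg_of_mul_nonneg_left e3 (by linarith)
  · have e1 : 0 ≤ S.Or a b c t0 := Local_lim (cont_or S a b c) t0 (h.mono fun t ht => ht.1.ge)
    have e2 : 0 ≤ - S.Or a b c t0 := Local_lim (f := fun t => - S.Or a b c t) (cont_or S a b c).neg t0
        (h.mono fun t ht => neg_nonneg.2 ht.1.le)
    have e3 : 0 ≤ S.Uu a b c t0 := Local_lim (cont_uu S a b c) t0 (h.mono fun t ht => ht.2)
    have e4 : S.Or a b c t0 = 0 := le_antisymm (by linarith) e1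
    rw [e4, mul_zero, add_zero]
    exact e3

/-- no strictness at `t0` is impossible when an interval of parameters is admissible -/
private theorem Local_third {V : Type} [Fintype V] (S : Sys V) (t0 : ℝ) (hG : S.Good t0) (a b : V) (hab : a ≠ b)
    (hN : 0 < S.Nn a b t0) (hns : ¬ S.Strict Set.univ t0 a b) (p q : ℝ) (hpq : p < q)
    (h : ∀ s ∈ Set.Ioo p q, ∀ c, c ≠ a → c ≠ b → 0 ≤ S.Uu a b c t0 + s * S.Or a b c t0) : False := by
  have h1 : ∀ s ∈ Set.Ioo p q, ∃ c, c ≠ a ∧ c ≠ b ∧ S.Uu a b c t0 + s * S.Or a b c t0 = 0 := by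
    intro s hs
    by_contra hcon
    apply hns
    rw [strict_iff S Set.univ t0 a b hN]
    refine ⟨s, fun c _ hca hcb => lt_of_le_of_ne (h s hs c hca hcb) fun he => hcon ⟨c, hca, hcb, he.symm⟩⟩
  have hinf : (Set.Ioo p q).Infinite := Set.Ioo_infinite hpq
  have hne : Nonempty V := ⟨a⟩
  choose! k hk using h1
  obtain ⟨s1, hs1, s2, hs2, hne, heq⟩ := hinf.exists_ne_map_eq_of_mapsTo (f := k) (t := Set.univ)
    (fun _ _ => Set.mem_univ _) Set.finite_univ
  obtain ⟨hka, hkb, e1⟩ := hk s1 hs1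
  obtain ⟨-, -, e2⟩ := hk s2 hs2
  rw [← heq] at e2
  have e3 : (s1 - s2) * S.Or a b (k s1) t0 = 0 := by linear_combination e1 - e2
  have e4 : S.Or a b (k s1) t0 = 0 := (mul_eq_zero.1 e3).resolve_left (sub_ne_zero.2 hne)
  rw [e4, mul_zero, add_zero] at e1
  exact cv3 S t0 hG a b (k s1) hab (Ne.symm hka) (Ne.symm hkb) e4 e1

private theorem Local_inj4 {V : Type} {a b c d : V} (h1 : a ≠ b) (h2 : a ≠ c) (h3 : a ≠ d) (h4 : b ≠ c) (h5 : b ≠ d)
    (h6 : c ≠ d) : Function.Injective ![a, b, c, d] := by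
  rw [← List.nodup_ofFn]
  simp [h1, h2, h3, h4, h5, h6]

private theorem Local_inj5 {V : Type} {a b c d e : V} (h1 : a ≠ b) (h2 : a ≠ c) (h3 : a ≠ d) (h3' : a ≠ e)
    (h4 : b ≠ c) (h5 : b ≠ d) (h5' : b ≠ e) (h6 : c ≠ d) (h7 : c ≠ e) (h8 : d ≠ e) :
    Function.Injective ![a, b, c, d, e] := by
  rw [← List.nodup_ofFn]
  simp [h1, h2, h3, h4, h5, h6, h3', h5', h7, h8]

open Filter Topology in
private theorem Local_second {V : Type} [Fintype V] (S : Sys V) (Q : Set ℝ) (h5 : S.G5) (h4 : S.G4 Q) (t0 : ℝ)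
    (a b : V) (hab : a ≠ b) (hN : 0 < S.Nn a b t0) (y z : V)
    (h2 : ∀ δ : ℝ, 0 < δ → ∃ t ∈ Q, |t - t0| < δ ∧ ¬ S.Strict Set.univ t a b)
    (hya : y ≠ a) (hyb : y ≠ b) (hza : z ≠ a) (hzb : z ≠ b)
    (hy : 0 < S.Or a b y t0) (hz : S.Or a b z t0 < 0) (hC : S.Cr a b y z t0 = 0)
    (hnn : ∀ s : ℝ, 0 ≤ S.Uu a b y t0 + s * S.Or a b y t0 → 0 ≤ S.Uu a b z t0 + s * S.Or a b z t0 →
      ∀ c, c ≠ a → c ≠ b → 0 ≤ S.Uu a b c t0 + s * S.Or a b c t0) : S.Clust t0 y z := by
  have hyz : y ≠ z := by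
    rintro rfl
    linarith
  have es : ∃ s : ℝ, S.Uu a b y t0 + s * S.Or a b y t0 = 0 ∧ S.Uu a b z t0 + s * S.Or a b z t0 = 0 := by
    refine ⟨- S.Uu a b y t0 / S.Or a b y t0, ?_, ?_⟩
    · field_simp
      ring
    · unfold Sys.Cr at hC
      have : S.Uu a b z t0 + - S.Uu a b y t0 / S.Or a b y t0 * S.Or a b z t0
          = (S.Uu a b z t0 * S.Or a b y t0 - S.Uu a b y t0 * S.Or a b z t0) / S.Or a b y t0 := by
        field_simp
        ring
      rw [this, hC, zero_div]
  obtain ⟨s, es1, es2⟩ := es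
  obtain ⟨x0, y0, e0, e1⟩ := param' S t0 a b hN s
  have hyt : S.g y t0 x0 y0 = S.g a t0 x0 y0 := by
    have := e1 y
    rw [es1] at this
    have := (mul_eq_zero.1 this).resolve_left hN.ne'
    linarith
  have hzt : S.g z t0 x0 y0 = S.g a t0 x0 y0 := by
    have := e1 z
    rw [es2] at this
    have := (mul_eq_zero.1 this).resolve_left hN.ne'
    linarith
  have hoth : ∀ c, c ≠ a → c ≠ b → c ≠ y → c ≠ z → S.g a t0 x0 y0 < S.g c t0 x0 y0 := by
    intro c hca hcb hcy hcz
    have h0 := hnn s es1.ge es2.ge c hca hcb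
    rw [← e1 c] at h0
    have h0 := nonneg_of_mul_nonneg_right h0 hN
    refine lt_of_le_of_ne (by linarith) fun he => ?_
    have hinj : Function.Injective ![a, b, y, z, c] :=
      Local_inj5 hab (Ne.symm hya) (Ne.symm hza) (Ne.symm hca) (Ne.symm hyb) (Ne.symm hzb) (Ne.symm hcb) hyz
        (Ne.symm hcy) (Ne.symm hcz)
    refine h5 ![a, b, y, z, c] hinj t0 x0 y0 fun i => ?_
    fin_cases i
    · rfl
    · exact e0.symm
    · exact hyt
    · exact hzt
    · exact he.symm
  obtain ⟨δ, hδ, hd⟩ := dich S t0 a b y z hab (Ne.symm hya) (Ne.symm hza) (Ne.symm hyb) (Ne.symm hzb) hyz x0 y0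
    e0.symm hyt hzt hoth hy hz
  intro δ' hδ'
  obtain ⟨t, htQ, ht, hns⟩ := h2 (min δ δ') (lt_min hδ hδ')
  rcases hd t (lt_of_lt_of_le ht (min_le_left _ _)) with h | h | ⟨x1, y1, g1, g2, g3⟩
  · exact absurd h hns
  · exact ⟨t, lt_of_lt_of_le ht (min_le_right _ _), h⟩
  · exfalso
    have hinj : Function.Injective ![a, b, y, z] :=
      Local_inj4 hab (Ne.symm hya) (Ne.symm hza) (Ne.symm hyb) (Ne.symm hzb) hyz
    refine h4 t htQ ![a, b, y, z] hinj x1 y1 fun i => ?_
    fin_cases i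
    · rfl
    · exact g1
    · exact g2
    · exact g3

open Filter Topology in
theorem local_ev {V : Type} [Fintype V] (S : Sys V) (Q : Set ℝ) (h5 : S.G5) (h4 : S.G4 Q) (t0 : ℝ)
    (hG : S.Good t0) (a b : V) (hab : a ≠ b)
    (h1 : ∀ δ : ℝ, 0 < δ → ∃ t ∈ Q, |t - t0| < δ ∧ S.Strict Set.univ t a b)
    (h2 : ∀ δ : ℝ, 0 < δ → ∃ t ∈ Q, |t - t0| < δ ∧ ¬ S.Strict Set.univ t a b) : S.EvT t0 := by
  classical
  have hN : 0 < S.Nn a b t0 := by
    obtain ⟨μ, hμ, -, h⟩ := hG
    exact lt_of_lt_of_le hμ (h a b hab)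
  have hns : ¬ S.Strict Set.univ t0 a b := by
    intro hst
    have := (strict_open S a b).mem_nhds (show t0 ∈ {t : ℝ | 0 < S.Nn a b t ∧ S.Strict Set.univ t a b} from ⟨hN, hst⟩)
    obtain ⟨δ, hδ, hh⟩ := Metric.mem_nhds_iff.1 this
    obtain ⟨t, -, ht, hns⟩ := h2 δ hδ
    exact hns (hh (by rw [Metric.mem_ball, Real.dist_eq]; exact ht)).2
  have hfr0 : ∃ᶠ t in 𝓝 t0, t ∈ Q ∧ S.Strict Set.univ t a b := by
    intro hev
    obtain ⟨δ, hδ, hh⟩ := Metric.eventually_nhds_iff.1 hev
    obtain ⟨t, htQ, ht, hst⟩ := h1 δ hδ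
    exact hh (by rw [Real.dist_eq]; exact ht) ⟨htQ, hst⟩
  have hNev : ∀ᶠ t in 𝓝 t0, 0 < S.Nn a b t := (cont_nn S a b).continuousAt.eventually (lt_mem_nhds hN)
  have hfr1 : ∃ o : Option V × Option V, ∃ᶠ t in 𝓝 t0, 0 < S.Nn a b t ∧ S.Strict Set.univ t a b ∧
      Local_P S a b t o.1 ∧ Local_R S a b t o.2 := by
    by_contra hcon
    simp only [not_exists] at hcon
    have hcon' : ∀ᶠ t in 𝓝 t0, ∀ o : Option V × Option V, ¬ (0 < S.Nn a b t ∧ S.Strict Set.univ t a b ∧
      Local_P S a b t o.1 ∧ Local_R S a b t o.2) := by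
      rw [Filter.eventually_all]
      intro o
      exact Filter.not_frequently.1 (hcon o)
    obtain ⟨t, ⟨htQ, hst⟩, hNt, hno⟩ := (hfr0.and_eventually (hNev.and hcon')).exists
    obtain ⟨o1, ho1⟩ : ∃ o1, Local_P S a b t o1 := by
      rcases ext_lo S t a b hab hNt hst (h4 t htQ) with h | ⟨y, h⟩
      · exact ⟨none, h⟩
      · exact ⟨some y, h⟩
    obtain ⟨o2, ho2⟩ : ∃ o2, Local_R S a b t o2 := by
      rcases ext_hi S t a b hab hNt hst (h4 t htQ) with h | ⟨y, h⟩
      · exact ⟨none, h⟩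
      · exact ⟨some y, h⟩
    exact hno (o1, o2) ⟨hNt, hst, ho1, ho2⟩
  obtain ⟨⟨o, o'⟩, hfr⟩ := hfr1
  simp only at hfr
  have hcab : S.Clust t0 a b := Local_clust S t0 a b (hfr.mono fun t ht => ht.2.1)
  have hnn := Local_nonneg S t0 a b o o' hfr
  -- case (1)
  by_cases hy0 : ∃ y, o = some y ∧ S.Or a b y t0 ≤ 0
  · obtain ⟨y, rfl, hy0⟩ := hy0
    obtain ⟨t, -, -, ⟨hya, hyb, hpos, -⟩, -⟩ := hfr.exists
    refine Or.inl ⟨a, b, y, hab, Ne.symm hya, Ne.symm hyb, le_antisymm hy0 ?_, ⟨t, hpos.ne'⟩, hcab,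
      Local_clust S t0 a y (hfr.mono fun t ht => ht.2.2.1.2.2.2.2.1),
      Local_clust S t0 b y (hfr.mono fun t ht => ht.2.2.1.2.2.2.2.2)⟩
    exact Local_lim (cont_or S a b y) t0 (hfr.mono fun t ht => ht.2.2.1.2.2.1.le)
  by_cases hz0 : ∃ z, o' = some z ∧ 0 ≤ S.Or a b z t0
  · obtain ⟨z, rfl, hz0⟩ := hz0
    obtain ⟨t, -, -, -, ⟨hza, hzb, hneg, -⟩⟩ := hfr.exists
    refine Or.inl ⟨a, b, z, hab, Ne.symm hza, Ne.symm hzb, le_antisymm ?_ hz0, ⟨t, hneg.ne⟩, hcab,
      Local_clust S t0 a z (hfr.mono fun t ht => ht.2.2.2.2.2.2.2.1),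
      Local_clust S t0 b z (hfr.mono fun t ht => ht.2.2.2.2.2.2.2.2)⟩
    have := Local_lim (f := fun t => - S.Or a b z t) (cont_or S a b z).neg t0
      (hfr.mono fun t ht => neg_nonneg.2 ht.2.2.2.2.2.1.le)
    linarith
  push Not at hy0 hz0
  cases o with
  | none =>
    exfalso
    cases o' with
    | none =>
      exact Local_third S t0 hG a b hab hN hns 0 1 one_pos fun s _ => hnn s (by simp) (by simp)
    | some z =>
      have hz1 := hz0 z rfl
      refine Local_third S t0 hG a b hab hN hns (-S.Uu a b z t0 / S.Or a b z t0 - 1) (-S.Uu a b z t0 / S.Or a b z t0)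
        (by linarith) fun s hs => hnn s (by simp) ?_
      rintro z' hz'
      obtain rfl : z = z' := by simpa using hz'
      refine ⟨hz1, ?_⟩
      have := hs.2
      rw [lt_div_iff_of_neg hz1] at this
      linarith
  | some y =>
    have hy1 := hy0 y rfl
    cases o' with
    | none =>
      exfalso
      refine Local_third S t0 hG a b hab hN hns (-S.Uu a b y t0 / S.Or a b y t0) (-S.Uu a b y t0 / S.Or a b y t0 + 1)
        (by linarith) fun s hs => hnn s ?_ (by simp)
      rintro y' hy'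
      obtain rfl : y = y' := by simpa using hy'
      refine ⟨hy1, ?_⟩
      have := hs.1
      rw [div_lt_iff₀ hy1] at this
      linarith
    | some z =>
      have hz1 := hz0 z rfl
      have hnn' : ∀ s : ℝ, 0 ≤ S.Uu a b y t0 + s * S.Or a b y t0 → 0 ≤ S.Uu a b z t0 + s * S.Or a b z t0 →
          ∀ c, c ≠ a → c ≠ b → 0 ≤ S.Uu a b c t0 + s * S.Or a b c t0 := by
        intro s e1 e2
        refine hnn s ?_ ?_
        · rintro y' hy'
          obtain rfl : y = y' := by simpa using hy'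
          exact ⟨hy1, e1⟩
        · rintro z' hz'
          obtain rfl : z = z' := by simpa using hz'
          exact ⟨hz1, e2⟩
      have hCpos : ∀ t, 0 < S.Nn a b t → S.Strict Set.univ t a b → Local_P S a b t (some y) →
          Local_R S a b t (some z) → 0 < S.Cr a b y z t := by
        rintro t hNt hst ⟨hya, hyb, hyp, -⟩ ⟨hza, hzb, hzn, -⟩
        obtain ⟨s1, hs1⟩ := (strict_iff S Set.univ t a b hNt).1 hst
        have e1 := hs1 y (Set.mem_univ _) hya hyb
        have e2 := hs1 z (Set.mem_univ _) hza hzb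
        unfold Sys.Cr
        nlinarith [mul_pos e1 (neg_pos.2 hzn), mul_pos e2 hyp]
      obtain ⟨t, hNt, hst, hP, hR⟩ := hfr.exists
      by_cases hC : S.Cr a b y z t0 = 0
      · refine Or.inr ⟨a, b, y, z, hab, Ne.symm hP.1, Ne.symm hR.1, Ne.symm hP.2.1, Ne.symm hR.2.1, ?_, hC,
          ⟨t, (hCpos t hNt hst hP hR).ne'⟩, hcab,
          Local_clust S t0 a y (hfr.mono fun t ht => ht.2.2.1.2.2.2.2.1),
          Local_clust S t0 a z (hfr.mono fun t ht => ht.2.2.2.2.2.2.2.1),
          Local_clust S t0 b y (hfr.mono fun t ht => ht.2.2.1.2.2.2.2.2),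
          Local_clust S t0 b z (hfr.mono fun t ht => ht.2.2.2.2.2.2.2.2),
          Local_second S Q h5 h4 t0 a b hab hN y z h2 hP.1 hP.2.1 hR.1 hR.2.1 hy1 hz1 hC hnn'⟩
        rintro rfl
        linarith
      · exfalso
        have hC0 : 0 ≤ S.Cr a b y z t0 := Local_lim (cont_cr S a b y z) t0
          (hfr.mono fun t ht => (hCpos t ht.1 ht.2.1 ht.2.2.1 ht.2.2.2).le)
        have hC1 : 0 < S.Cr a b y z t0 := lt_of_le_of_ne hC0 (Ne.symm hC)
        unfold Sys.Cr at hC1
        refine Local_third S t0 hG a b hab hN hns (-S.Uu a b y t0 / S.Or a b y t0) (-S.Uu a b z t0 / S.Or a b z t0)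
          ?_ fun s hs => hnn' s ?_ ?_
        · rw [div_lt_iff₀ hy1, div_mul_eq_mul_div, lt_div_iff_of_neg hz1]
          linarith
        · have := hs.1
          rw [div_lt_iff₀ hy1] at this
          linarith
        · have := hs.2
          rw [lt_div_iff_of_neg hz1] at this
          linarith

end Pool.Agent.KDT
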