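import Pool.Agent.KDT.Defs

/-!
# Med: splitting a finite set of reals
If `p.card ≤ m` take `c` larger than all elements. Otherwise (then `m ≥ 1`, or `m = 0` and `p = ∅`) let `c` be the
`m`-th smallest element `p.orderEmbOfFin rfl ⟨m-1, _⟩`: exactly `m` elements are `≤ c`, and `p.card - m ≤ m` are `> c`.
-/

set_option autoImplicit false

namespace Pool.Agent.KDT

theorem median (p : Finset ℝ) (m : ℕ) (h : p.card ≤ 2 * m) :
    ∃ c : ℝ, (p.filter (fun t => t ≤ c)).card ≤ m ∧ (p.filter (fun t => c < t)).card ≤ m := by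
  by_cases hp : p.card ≤ m
  · exact ⟨0, (Finset.card_filter_le _ _).trans hp, (Finset.card_filter_le _ _).trans hp⟩
  push Not at hp
  have hm : 0 < m := by omega
  have hlt : m - 1 < p.card := by omega
  set e := p.orderEmbOfFin rfl with he
  refine ⟨e ⟨m - 1, hlt⟩, ?_⟩
  have himg : p.filter (fun t => t ≤ e ⟨m - 1, hlt⟩) = (Finset.Iic (⟨m - 1, hlt⟩ : Fin p.card)).image e := by
    ext t
    simp only [Finset.mem_filter, Finset.mem_image, Finset.mem_Iic]
    constructor
    · rintro ⟨ht, hle⟩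
      have : t ∈ Set.range e := by rw [he, Finset.range_orderEmbOfFin]; exact ht
      obtain ⟨i, rfl⟩ := this
      exact ⟨i, e.le_iff_le.mp hle, rfl⟩
    · rintro ⟨i, hi, rfl⟩
      exact ⟨Finset.orderEmbOfFin_mem p rfl i, e.le_iff_le.mpr hi⟩
  have hcard : (p.filter (fun t => t ≤ e ⟨m - 1, hlt⟩)).card = m := by
    rw [himg, Finset.card_image_of_injective _ e.injective, Fin.card_Iic]
    show m - 1 + 1 = m
    omega
  refine ⟨hcard.le, ?_⟩
  have hsum := Finset.card_filter_add_card_filter_not (s := p) (fun t => t ≤ e ⟨m - 1, hlt⟩)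
  have hnot : p.filter (fun t => ¬ t ≤ e ⟨m - 1, hlt⟩) = p.filter (fun t => e ⟨m - 1, hlt⟩ < t) := by
    apply Finset.filter_congr
    intro t _
    exact not_le
  rw [hnot, hcard] at hsum
  omega

end Pool.Agent.KDT
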