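import Pool.Agent.KDT.Ang
import Pool.Agent.KDT.Bas

/-!
# NearTie: a vertex of the diagram does not disappear completely
Let `(x,y)` be the centre for `T` at `t0`; pick `a ∈ T` and `b` from `hull_edge`: `Or a b c t0 > 0` for all `c ∈ T \ {a,b}` (nonempty). Let `s0` be the parameter of `(x,y)` (`param`):
`Uu c + s0 Or c = 0` for `c ∈ T`, `> 0` for `c ∉ T`. For `s` near `t0`: `Nn a b s > 0`, `Or a b c s > 0` for `c ∈ T \ {a,b}`; let
`m(s) = max` over these `c` of `-Uu a b c s / Or a b c s`, which tends to `s0` (every term does); by continuity `Uu a b e s + m(s) Or a b e s > 0` for `e ∉ T`, `s` near `t0`.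
At the point of parameter `m(s)` (`param'`) at time `s` the set of nearest sites is `T' = {a, b} ∪ {c ∈ T \ {a,b} | -Uu c/Or c = m(s)}`, which is contained in `T`
and has at least three elements.
-/

set_option autoImplicit false

namespace Pool.Agent.KDT

theorem near_tie {V : Type} [Finite V] (S : Sys V) (hw : ∀ i, S.w i = 0) (t0 : ℝ)
    (hd : ∀ i j, i ≠ j → 0 < S.Nn i j t0) (T : Finset V) (hT : T ∈ S.St t0) (hc : 3 ≤ T.card) :
    ∃ δ : ℝ, 0 < δ ∧ ∀ s : ℝ, |s - t0| < δ → ∃ T' ∈ S.St s, T' ⊆ T ∧ 3 ≤ T'.card := by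
  classical
  obtain ⟨x, y, hxy⟩ := hT
  obtain ⟨a, ha⟩ : T.Nonempty := Finset.card_pos.mp (by omega)
  have hTe : ∀ i ∈ T, S.g i t0 x y = S.g a t0 x y := fun i hi =>
    le_antisymm ((hxy i).1 hi a) ((hxy a).1 ha i)
  obtain ⟨b, hb, hba, hor⟩ := hull_edge S hw t0 x y hd T a ha hTe (by omega)
  have hNab : 0 < S.Nn a b t0 := hd a b (Ne.symm hba)
  obtain ⟨s0, hs0⟩ := param S t0 a b x y (hTe b hb).symm
  have hz : ∀ c ∈ T, S.Uu a b c t0 + s0 * S.Or a b c t0 = 0 := by
    intro c hcT
    rw [← hs0 c, hTe c hcT]; ring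
  have hp : ∀ e, e ∉ T → 0 < S.Uu a b e t0 + s0 * S.Or a b e t0 := by
    intro e he
    rw [← hs0 e]
    apply mul_pos hNab
    have h1 : ¬ ∀ j, S.g e t0 x y ≤ S.g j t0 x y := fun h => he ((hxy e).2 h)
    push Not at h1
    obtain ⟨j, hj⟩ := h1
    have h2 := (hxy a).1 ha j
    linarith
  have h1 : ∀ᶠ s in nhds t0, 0 < S.Nn a b s :=
    (cont_nn S a b).continuousAt.eventually (lt_mem_nhds hNab)
  have h2 : ∀ᶠ s in nhds t0, ∀ c ∈ T, c ≠ a → c ≠ b → 0 < S.Or a b c s := by
    rw [Filter.eventually_all_finset]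
    intro c hcT
    by_cases h : c ≠ a ∧ c ≠ b
    · filter_upwards [(cont_or S a b c).continuousAt.eventually (lt_mem_nhds (hor c hcT h.1 h.2))] with s hs _ _
      exact hs
    · exact Filter.Eventually.of_forall (fun s h3 h4 => absurd ⟨h3, h4⟩ h)
  have h3 : ∀ᶠ s in nhds t0, ∀ c ∈ T, ∀ e, c ≠ a → c ≠ b → e ∉ T →
      0 < S.Uu a b e s + (-S.Uu a b c s / S.Or a b c s) * S.Or a b e s := by
    rw [Filter.eventually_all_finset]
    intro c hcT
    rw [Filter.eventually_all]
    intro e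
    by_cases h : (c ≠ a ∧ c ≠ b) ∧ e ∉ T
    · have hcpos := hor c hcT h.1.1 h.1.2
      have hcont : ContinuousAt (fun s => S.Uu a b e s + (-S.Uu a b c s / S.Or a b c s) * S.Or a b e s) t0 := by
        apply ContinuousAt.add (cont_uu S a b e).continuousAt
        apply ContinuousAt.mul _ (cont_or S a b e).continuousAt
        exact ContinuousAt.div ((cont_uu S a b c).neg.continuousAt) (cont_or S a b c).continuousAt hcpos.ne'
      have hval : 0 < S.Uu a b e t0 + (-S.Uu a b c t0 / S.Or a b c t0) * S.Or a b e t0 := by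
        have hs : -S.Uu a b c t0 / S.Or a b c t0 = s0 := by
          rw [div_eq_iff hcpos.ne']
          linarith [hz c hcT]
        rw [hs]
        exact hp e h.2
      filter_upwards [hcont.eventually (lt_mem_nhds hval)] with s hs _ _ _
      exact hs
    · exact Filter.Eventually.of_forall (fun s h4 h5 h6 => absurd ⟨⟨h4, h5⟩, h6⟩ h)
  obtain ⟨δ, hδ, hball⟩ := Metric.eventually_nhds_iff.mp (h1.and (h2.and h3))
  refine ⟨δ, hδ, fun s hs => ?_⟩
  obtain ⟨hN, hO, hE⟩ := hball (by rwa [Real.dist_eq])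
  set U : Finset V := (T.erase a).erase b with hU
  have hUne : U.Nonempty := by
    rw [← Finset.card_pos]
    have e1 : (T.erase a).card = T.card - 1 := Finset.card_erase_of_mem ha
    have e2 : U.card = (T.erase a).card - 1 := Finset.card_erase_of_mem (Finset.mem_erase.2 ⟨hba, hb⟩)
    omega
  obtain ⟨c0, hc0, hmax⟩ := Finset.exists_max_image U (fun c => -S.Uu a b c s / S.Or a b c s) hUne
  have hc0' : c0 ≠ b ∧ c0 ≠ a ∧ c0 ∈ T := by
    rw [hU, Finset.mem_erase, Finset.mem_erase] at hc0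
    exact hc0
  obtain ⟨x', y', hab', hpar⟩ := param' S s a b hN (-S.Uu a b c0 s / S.Or a b c0 s)
  have hge : ∀ j, S.g a s x' y' ≤ S.g j s x' y' := by
    intro j
    by_cases hja : j = a
    · rw [hja]
    by_cases hjb : j = b
    · rw [hjb]; exact hab'.le
    have h5 : 0 ≤ S.Nn a b s * (S.g j s x' y' - S.g a s x' y') := by
      rw [hpar j]
      by_cases hjT : j ∈ T
      · have hjpos := hO j hjT hja hjb
        have h6 := hmax j (by rw [hU, Finset.mem_erase, Finset.mem_erase]; exact ⟨hjb, hja, hjT⟩)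
        rw [div_le_iff₀ hjpos] at h6
        linarith
      · exact (hE c0 hc0'.2.2 j hc0'.2.1 hc0'.1 hjT).le
    have h7 := nonneg_of_mul_nonneg_right h5 hN
    linarith
  have hgt : ∀ j, j ∉ T → S.g a s x' y' < S.g j s x' y' := by
    intro j hj
    have h5 : 0 < S.Nn a b s * (S.g j s x' y' - S.g a s x' y') := by
      rw [hpar j]
      exact hE c0 hc0'.2.2 j hc0'.2.1 hc0'.1 hj
    have h7 := pos_of_mul_pos_right h5 hN.le
    linarith
  refine ⟨T.filter (fun c => S.g c s x' y' = S.g a s x' y'), ⟨x', y', ?_⟩, Finset.filter_subset _ _, ?_⟩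
  · intro i
    rw [Finset.mem_filter]
    constructor
    · rintro ⟨_, h⟩ j
      rw [h]; exact hge j
    · intro h
      have h8 : S.g i s x' y' = S.g a s x' y' := le_antisymm (h a) (hge i)
      refine ⟨?_, h8⟩
      by_contra hi
      have := hgt i hi
      linarith
  · have hg0 : S.g c0 s x' y' = S.g a s x' y' := by
      have h5 := hpar c0
      have hjpos := hO c0 hc0'.2.2 hc0'.2.1 hc0'.1
      rw [div_mul_cancel₀ _ hjpos.ne'] at h5
      have h6 : S.Nn a b s * (S.g c0 s x' y' - S.g a s x' y') = 0 := by rw [h5]; ring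
      rcases mul_eq_zero.1 h6 with h | h
      · exact absurd h hN.ne'
      · linarith
    have hsub : ({a, b, c0} : Finset V) ⊆ T.filter (fun c => S.g c s x' y' = S.g a s x' y') := by
      intro z hz
      rw [Finset.mem_filter]
      rw [Finset.mem_insert, Finset.mem_insert, Finset.mem_singleton] at hz
      rcases hz with h | h | h
      · rw [h]; exact ⟨ha, rfl⟩
      · rw [h]; exact ⟨hb, hab'.symm⟩
      · rw [h]; exact ⟨hc0'.2.2, hg0⟩
    have hcard : ({a, b, c0} : Finset V).card = 3 := by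
      rw [Finset.card_eq_three]
      exact ⟨a, b, c0, hba.symm, hc0'.2.1.symm, hc0'.1.symm, rfl⟩
    calc 3 = ({a, b, c0} : Finset V).card := hcard.symm
      _ ≤ _ := Finset.card_le_card hsub

end Pool.Agent.KDT
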