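import Pool.Agent.KDT.Defs

/-!
# Null: ranges of degenerate maps have measure zero
`MeasureTheory.addHaar_image_eq_zero_of_det_fderiv_eq_zero` with `s = univ`, `f' = fderiv ℝ F`. `(fderiv ℝ F z) u = 0` since
`s ↦ F (z + s • u)` is constant (chain rule at `s = 0`), so the linear map is not injective and its determinant is `0`
(`LinearMap.det ≠ 0` would give a linear equivalence, e.g. `LinearMap.equivOfDetNeZero`, or `LinearMap.isUnit_iff_ker_eq_bot`/`isUnit_det`).
-/

set_option autoImplicit false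

namespace Pool.Agent.KDT

theorem null_range {V : Type} [Fintype V] (F : (V → ℝ) → (V → ℝ)) (hF : Differentiable ℝ F) (u : V → ℝ)
    (hu : u ≠ 0) (h : ∀ z : V → ℝ, ∀ s : ℝ, F (z + s • u) = F z) :
    MeasureTheory.volume (Set.range F) = 0 := by
  rw [← Set.image_univ]
  apply MeasureTheory.addHaar_image_eq_zero_of_det_fderivWithin_eq_zero MeasureTheory.volume
    (f' := fderiv ℝ F) (fun x _ => (hF x).hasFDerivAt.hasFDerivWithinAt)
  intro x _
  have h0 : fderiv ℝ F x u = 0 := by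
    have hg : HasDerivAt (fun s : ℝ => x + s • u) u 0 := by
      have h3 : HasDerivAt (fun s : ℝ => s • u) ((1 : ℝ) • u) 0 :=
        (hasDerivAt_id (0 : ℝ)).smul_const u
      rw [one_smul] at h3
      exact h3.const_add x
    have hx : x + (0 : ℝ) • u = x := by simp
    have hf : HasFDerivAt F (fderiv ℝ F x) (x + (0 : ℝ) • u) := by
      rw [hx]
      exact (hF x).hasFDerivAt
    have h1 : HasDerivAt (fun s : ℝ => F (x + s • u)) (fderiv ℝ F x u) 0 :=
      hf.comp_hasDerivAt (0 : ℝ) hg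
    have h2 : (fun s : ℝ => F (x + s • u)) = fun _ => F x := funext (h x)
    rw [h2] at h1
    exact h1.unique (hasDerivAt_const _ _)
  by_contra hd
  have hd' : LinearMap.det (fderiv ℝ F x : (V → ℝ) →ₗ[ℝ] (V → ℝ)) ≠ 0 := hd
  have h5 : IsUnit (LinearMap.det (fderiv ℝ F x : (V → ℝ) →ₗ[ℝ] (V → ℝ))) :=
    isUnit_iff_ne_zero.mpr hd'
  have h6 := (LinearMap.isUnit_iff_ker_eq_bot _).mp ((LinearMap.isUnit_iff_isUnit_det _).mpr h5)
  have h7 : u ∈ LinearMap.ker (fderiv ℝ F x : (V → ℝ) →ₗ[ℝ] (V → ℝ)) := h0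
  rw [h6] at h7
  exact hu ((Submodule.mem_bot ℝ).mp h7)

end Pool.Agent.KDT
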