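import Pool.Agent.KDT.Defs

/-!
# Sgn: one dimensional Helly
(→) if `O c = 0` then `0 < U c`. If `O c > 0 > O e`: `U c + s O c > 0` and `U e + s O e > 0`; multiply by `-O e > 0` and `O c > 0` and add:
`U e O c - U c O e > 0`.
(←) If no `c ∈ A` has `O c > 0` and none has `O c < 0`: `s = 0`. In general let `lo` be the maximum of `-U c / O c` over `c ∈ A` with `O c > 0` (if any),
`hi` the minimum of `U e / (-O e)` over `e ∈ A` with `O e < 0` (if any); `lo < hi` by the cross condition. Take `s` strictly between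
(or `lo + 1`, `hi - 1` if one of them is missing). (`Finset.exists_max_image` on filters.)
-/

set_option autoImplicit false

namespace Pool.Agent.KDT

theorem sgn_iff {V : Type} (A : Finset V) (U O : V → ℝ) :
    (∃ s : ℝ, ∀ c ∈ A, 0 < U c + s * O c) ↔
      ((∀ c ∈ A, O c = 0 → 0 < U c) ∧ ∀ c ∈ A, ∀ e ∈ A, 0 < O c → O e < 0 → 0 < U e * O c - U c * O e) := by
  classical
  constructor
  · rintro ⟨s, hs⟩
    refine ⟨fun c hc h0 => ?_, fun c hc e he h1 h2 => ?_⟩
    · have := hs c hc
      rwa [h0, mul_zero, add_zero] at this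
    · have a1 := mul_pos (hs c hc) (neg_pos.2 h2)
      have a2 := mul_pos (hs e he) h1
      nlinarith
  · rintro ⟨h0, h1⟩
    obtain ⟨s, hs1, hs2⟩ := Order.exists_between_finsets
      ((A.filter (fun c => 0 < O c)).image (fun c => -U c / O c))
      ((A.filter (fun c => O c < 0)).image (fun c => U c / (-O c))) (by
        intro x hx y hy
        obtain ⟨c, hc, rfl⟩ := Finset.mem_image.1 hx
        obtain ⟨e, he, rfl⟩ := Finset.mem_image.1 hy
        obtain ⟨hcA, hc0⟩ := Finset.mem_filter.1 hc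
        obtain ⟨heA, he0⟩ := Finset.mem_filter.1 he
        have hcr := h1 c hcA e heA hc0 he0
        rw [div_lt_div_iff₀ hc0 (neg_pos.2 he0)]
        nlinarith)
    refine ⟨s, fun c hc => ?_⟩
    rcases lt_trichotomy (O c) 0 with h | h | h
    · have h2 := hs2 _ (Finset.mem_image.2 ⟨c, Finset.mem_filter.2 ⟨hc, h⟩, rfl⟩)
      rw [lt_div_iff₀ (neg_pos.2 h)] at h2
      linarith
    · rw [h, mul_zero, add_zero]
      exact h0 c hc h
    · have h2 := hs1 _ (Finset.mem_image.2 ⟨c, Finset.mem_filter.2 ⟨hc, h⟩, rfl⟩)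
      rw [div_lt_iff₀ h] at h2
      linarith


end Pool.Agent.KDT
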