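import Pool.Agent.KDT.Bas
import Pool.Agent.KDT.Sgn
import Pool.Agent.KDT.Poly

/-!
# Status: strictness is constant between finitely many times
For a polynomial function `f` of degree ≤ d which is not identically zero the roots form a finset with at most `d` elements; if `f` is identically
zero take `∅`. Let `Z` be the union over `a, b ∈ A`, `a ≠ b` of the roots of `Nn a b` (≤ 2, not identically zero by `nn_ne`), over `a b c ∈ A` of the roots of
`Or` (≤ 2) and `Uu` (≤ 4), over `a b c e ∈ A` of those of `Cr` (≤ 6), where identically zero functions contribute nothing.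
`|Z| ≤ (2 |A|² + 6 |A|³ + 6 |A|⁴) ≤ 14 |A|⁴`.
Let `[u,w]` contain no element of `Z`. Then on `[u,w]` each of these functions is identically zero or has constant nonzero sign
(intermediate value theorem), and `Nn a b > 0`. By `strict_iff` and `sgn_iff` (applied to `A \ {a,b}`) strictness of `a b` at `t` depends only
on the signs of `Or a b c t`, `Uu a b c t`, `Cr a b c e t`: `Uu e * Or c - Uu c * Or e = Cr a b c e`.
-/

set_option autoImplicit false

namespace Pool.Agent.KDT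

private theorem status_poly (f : ℝ → ℝ) (d : ℕ)
    (h : ∃ P : Polynomial ℝ, P.natDegree ≤ d ∧ ∀ t, P.eval t = f t) :
    ∃ Z : Finset ℝ, Z.card ≤ d ∧ ((∀ t, f t = 0) ∨ ∀ t, f t = 0 → t ∈ Z) := by
  obtain ⟨P, hd, hP⟩ := h
  by_cases h0 : P = 0
  · refine ⟨∅, by simp, Or.inl fun t => ?_⟩
    rw [← hP t, h0, Polynomial.eval_zero]
  · refine ⟨P.roots.toFinset, ?_, Or.inr fun t ht => ?_⟩
    · exact (Multiset.toFinset_card_le _).trans ((Polynomial.card_roots' P).trans hd)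
    · rw [Multiset.mem_toFinset, Polynomial.mem_roots h0, Polynomial.IsRoot.def, hP t]
      exact ht

private theorem status_sign {f : ℝ → ℝ} (hf : Continuous f) {Z : Finset ℝ}
    (hZ : (∀ t, f t = 0) ∨ ∀ t, f t = 0 → t ∈ Z) {u w : ℝ} (hno : ∀ z ∈ Z, ¬ (u ≤ z ∧ z ≤ w))
    {t1 t2 : ℝ} (h1 : t1 ∈ Set.Icc u w) (h2 : t2 ∈ Set.Icc u w) :
    (0 < f t1 → 0 < f t2) ∧ (f t1 < 0 → f t2 < 0) ∧ (f t1 = 0 → f t2 = 0) := by
  rcases hZ with hZ | hZ
  · refine ⟨fun h => ?_, fun h => ?_, fun _ => hZ t2⟩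
    · rw [hZ t1] at h; exact absurd h (lt_irrefl _)
    · rw [hZ t1] at h; exact absurd h (lt_irrefl _)
  · have hne : ∀ t ∈ Set.Icc u w, f t ≠ 0 := fun t ht h0 => hno t (hZ t h0) ⟨ht.1, ht.2⟩
    have hsub : Set.uIcc t1 t2 ⊆ Set.Icc u w := Set.uIcc_subset_Icc h1 h2
    have hz : (0 : ℝ) ∉ Set.uIcc (f t1) (f t2) := by
      intro h0
      obtain ⟨t, ht, ht0⟩ := intermediate_value_uIcc hf.continuousOn h0
      exact hne t (hsub ht) ht0
    refine ⟨fun h => ?_, fun h => ?_, fun h => absurd h (hne t1 h1)⟩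
    · by_contra h3
      exact hz (Set.mem_uIcc.2 (Or.inr ⟨not_lt.1 h3, h.le⟩))
    · by_contra h3
      exact hz (Set.mem_uIcc.2 (Or.inl ⟨h.le, not_lt.1 h3⟩))

theorem status {V : Type} [DecidableEq V] (S : Sys V) (hS : S.Distinct) (A : Finset V) :
    ∃ Z : Finset ℝ, Z.card ≤ 14 * A.card ^ 4 ∧ ∀ u w : ℝ, (∀ z ∈ Z, ¬ (u ≤ z ∧ z ≤ w)) →
      ∀ a ∈ A, ∀ b ∈ A, a ≠ b → ∀ t1 ∈ Set.Icc u w, ∀ t2 ∈ Set.Icc u w,
        S.Strict (↑A : Set V) t1 a b → S.Strict (↑A : Set V) t2 a b := by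
  choose ZN hN1 hN2 using fun a b => status_poly _ 2 (nn_poly S a b)
  choose ZO hO1 hO2 using fun a b c => status_poly _ 2 (or_poly S a b c)
  choose ZU hU1 hU2 using fun a b c => status_poly _ 4 (uu_poly S a b c)
  choose ZC hC1 hC2 using fun a b c e => status_poly _ 6 (cr_poly S a b c e)
  obtain ⟨Z, hZ⟩ : ∃ Z : Finset ℝ, Z = ((A ×ˢ A).biUnion fun p => ZN p.1 p.2) ∪
      (((A ×ˢ A ×ˢ A).biUnion fun p => ZO p.1 p.2.1 p.2.2) ∪
      (((A ×ˢ A ×ˢ A).biUnion fun p => ZU p.1 p.2.1 p.2.2) ∪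
      ((A ×ˢ A ×ˢ A ×ˢ A).biUnion fun p => ZC p.1 p.2.1 p.2.2.1 p.2.2.2))) := ⟨_, rfl⟩
  refine ⟨Z, ?_, ?_⟩
  · have c1 : ((A ×ˢ A).biUnion fun p => ZN p.1 p.2).card ≤ A.card ^ 2 * 2 := by
      refine (Finset.card_biUnion_le_card_mul _ _ 2 fun p _ => hN1 p.1 p.2).trans ?_
      rw [Finset.card_product, pow_two]
    have c2 : ((A ×ˢ A ×ˢ A).biUnion fun p => ZO p.1 p.2.1 p.2.2).card ≤ A.card ^ 3 * 2 := by
      refine (Finset.card_biUnion_le_card_mul _ _ 2 fun p _ => hO1 p.1 p.2.1 p.2.2).trans ?_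
      rw [Finset.card_product, Finset.card_product]
      exact le_of_eq (by ring)
    have c3 : ((A ×ˢ A ×ˢ A).biUnion fun p => ZU p.1 p.2.1 p.2.2).card ≤ A.card ^ 3 * 4 := by
      refine (Finset.card_biUnion_le_card_mul _ _ 4 fun p _ => hU1 p.1 p.2.1 p.2.2).trans ?_
      rw [Finset.card_product, Finset.card_product]
      exact le_of_eq (by ring)
    have c4 : ((A ×ˢ A ×ˢ A ×ˢ A).biUnion fun p => ZC p.1 p.2.1 p.2.2.1 p.2.2.2).card ≤
        A.card ^ 4 * 6 := by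
      refine (Finset.card_biUnion_le_card_mul _ _ 6
        fun p _ => hC1 p.1 p.2.1 p.2.2.1 p.2.2.2).trans ?_
      rw [Finset.card_product, Finset.card_product, Finset.card_product]
      exact le_of_eq (by ring)
    have hc : Z.card ≤ A.card ^ 2 * 2 + (A.card ^ 3 * 2 + (A.card ^ 3 * 4 + A.card ^ 4 * 6)) := by
      rw [hZ]
      refine (Finset.card_union_le _ _).trans (Nat.add_le_add c1 ?_)
      refine (Finset.card_union_le _ _).trans (Nat.add_le_add c2 ?_)
      exact (Finset.card_union_le _ _).trans (Nat.add_le_add c3 c4)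
    rcases Nat.eq_zero_or_pos A.card with h0 | h0
    · rw [h0] at hc ⊢
      simpa using hc
    · have e1 : A.card ^ 2 ≤ A.card ^ 4 := Nat.pow_le_pow_right h0 (by norm_num)
      have e2 : A.card ^ 3 ≤ A.card ^ 4 := Nat.pow_le_pow_right h0 (by norm_num)
      omega
  · intro u w hno a ha b hb hab t1 ht1 t2 ht2 hst
    have nN : ∀ z ∈ ZN a b, ¬ (u ≤ z ∧ z ≤ w) := fun z hz => hno z (by
      rw [hZ]
      exact Finset.mem_union_left _ (Finset.mem_biUnion.2 ⟨(a, b), by simp [ha, hb], hz⟩))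
    have nO : ∀ c ∈ A, ∀ z ∈ ZO a b c, ¬ (u ≤ z ∧ z ≤ w) := fun c hc z hz => hno z (by
      rw [hZ]
      exact Finset.mem_union_right _ (Finset.mem_union_left _
        (Finset.mem_biUnion.2 ⟨(a, b, c), by simp [ha, hb, hc], hz⟩)))
    have nU : ∀ c ∈ A, ∀ z ∈ ZU a b c, ¬ (u ≤ z ∧ z ≤ w) := fun c hc z hz => hno z (by
      rw [hZ]
      exact Finset.mem_union_right _ (Finset.mem_union_right _ (Finset.mem_union_left _
        (Finset.mem_biUnion.2 ⟨(a, b, c), by simp [ha, hb, hc], hz⟩))))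
    have nC : ∀ c ∈ A, ∀ e ∈ A, ∀ z ∈ ZC a b c e, ¬ (u ≤ z ∧ z ≤ w) :=
      fun c hc e he z hz => hno z (by
      rw [hZ]
      exact Finset.mem_union_right _ (Finset.mem_union_right _ (Finset.mem_union_right _
        (Finset.mem_biUnion.2 ⟨(a, b, c, e), by simp [ha, hb, hc, he], hz⟩))))
    have hNpos : ∀ t ∈ Set.Icc u w, 0 < S.Nn a b t := by
      intro t ht
      have h0 : 0 ≤ S.Nn a b t := by
        simp only [Sys.Nn]
        positivity
      refine lt_of_le_of_ne h0 fun h => ?_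
      rcases hN2 a b with h2 | h2
      · obtain ⟨s, hs⟩ := nn_ne S hS a b hab
        exact hs (h2 s)
      · exact nN t (h2 t h.symm) ⟨ht.1, ht.2⟩
    obtain ⟨B, hB⟩ : ∃ B : Finset V, B = (A.erase a).erase b := ⟨_, rfl⟩
    have hBm : ∀ c, c ∈ B ↔ c ∈ A ∧ c ≠ a ∧ c ≠ b := by
      intro c
      rw [hB, Finset.mem_erase, Finset.mem_erase]
      tauto
    have key : ∀ t ∈ Set.Icc u w, (S.Strict (↑A : Set V) t a b ↔
        ((∀ c ∈ B, S.Or a b c t = 0 → 0 < S.Uu a b c t) ∧ ∀ c ∈ B, ∀ e ∈ B, 0 < S.Or a b c t →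
          S.Or a b e t < 0 →
            0 < S.Uu a b e t * S.Or a b c t - S.Uu a b c t * S.Or a b e t)) := by
      intro t ht
      rw [strict_iff S _ t a b (hNpos t ht), ← sgn_iff B (fun c => S.Uu a b c t)
        (fun c => S.Or a b c t)]
      constructor
      · rintro ⟨s, hs⟩
        exact ⟨s, fun c hc => hs c (((hBm c).1 hc).1) ((hBm c).1 hc).2.1 ((hBm c).1 hc).2.2⟩
      · rintro ⟨s, hs⟩
        exact ⟨s, fun c hc hca hcb => hs c ((hBm c).2 ⟨hc, hca, hcb⟩)⟩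
    rw [key t2 ht2]
    rw [key t1 ht1] at hst
    refine ⟨fun c hc h0 => ?_, fun c hc e he hcp hen => ?_⟩
    · have hcA := ((hBm c).1 hc).1
      have h1 := (status_sign (cont_or S a b c) (hO2 a b c) (nO c hcA) ht2 ht1).2.2 h0
      exact (status_sign (cont_uu S a b c) (hU2 a b c) (nU c hcA) ht1 ht2).1 (hst.1 c hc h1)
    · have hcA := ((hBm c).1 hc).1
      have heA := ((hBm e).1 he).1
      have h1 := (status_sign (cont_or S a b c) (hO2 a b c) (nO c hcA) ht2 ht1).1 hcp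
      have h2 := (status_sign (cont_or S a b e) (hO2 a b e) (nO e heA) ht2 ht1).2.1 hen
      exact (status_sign (cont_cr S a b c e) (hC2 a b c e) (nC c hcA e heA) ht1 ht2).1
        (hst.2 c hc e he h1 h2)

end Pool.Agent.KDT
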