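import Pool.Agent.KDT.VKtel

/-!
# VK5: a straight line van Kampen theorem for K5
`parity` is proved (by `omega`).
`vk5`: for `i < j` and `k ∉ {i,j}` all points `γ i j x` (`x ≤ m i j`) differ from `b k`: choose `l ∉ {i,j,k}`; `b k` is an endpoint of the first
or last edge of the path of `{k,l}`, and `γ i j x` is an endpoint of an edge of path `(i,j)` (`m ≥ 1`), and `Sep` forces the
endpoints to be different. Likewise `b x ≠ b y` for `x ≠ y`. Let `A i j k = ∑_(x < m i j) sw (b k) (γ i j x) (γ i j (x+1))`.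
`tel_int`: `A i j k = arg (b j - b k) - arg (b i - b k) + 2π n(i,j,k)`. `arg_neg_int`: `arg (b x - b y) - arg (b y - b x) = (2 κ x y + 1) π`
with `κ y x = - κ x y - 1`. `tel` with `α = γ i j`, `β = γ k l` (disjoint index pairs, `i < j`, `k < l`):
`A i j k - A i j l + A k l j - A k l i = 0`. Insert and divide by `2π`:
`κ j k - κ i k - κ j l + κ i l + n i j k - n i j l + n k l j - n k l i = 0`. Then `parity` gives `False`.
-/

set_option autoImplicit false

namespace Pool.Agent.KDT

theorem parity (κ : Fin 5 → Fin 5 → ℤ) (n : Fin 5 → Fin 5 → Fin 5 → ℤ)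
    (h1 : ∀ x y, x ≠ y → κ y x = - κ x y - 1)
    (h2 : ∀ i j k l, i < j → k < l → i ≠ k → i ≠ l → j ≠ k → j ≠ l →
      κ j k - κ i k - κ j l + κ i l + n i j k - n i j l + n k l j - n k l i = 0) : False := by
  have a1 := h2 0 1 2 3 (by decide) (by decide) (by decide) (by decide) (by decide) (by decide)
  have a2 := h2 0 1 2 4 (by decide) (by decide) (by decide) (by decide) (by decide) (by decide)
  have a3 := h2 0 1 3 4 (by decide) (by decide) (by decide) (by decide) (by decide) (by decide)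
  have a4 := h2 0 2 1 3 (by decide) (by decide) (by decide) (by decide) (by decide) (by decide)
  have a5 := h2 0 2 1 4 (by decide) (by decide) (by decide) (by decide) (by decide) (by decide)
  have a6 := h2 0 2 3 4 (by decide) (by decide) (by decide) (by decide) (by decide) (by decide)
  have a7 := h2 0 3 1 2 (by decide) (by decide) (by decide) (by decide) (by decide) (by decide)
  have a8 := h2 0 3 1 4 (by decide) (by decide) (by decide) (by decide) (by decide) (by decide)
  have a9 := h2 0 3 2 4 (by decide) (by decide) (by decide) (by decide) (by decide) (by decide)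
  have a10 := h2 0 4 1 2 (by decide) (by decide) (by decide) (by decide) (by decide) (by decide)
  have a11 := h2 0 4 1 3 (by decide) (by decide) (by decide) (by decide) (by decide) (by decide)
  have a12 := h2 0 4 2 3 (by decide) (by decide) (by decide) (by decide) (by decide) (by decide)
  have a13 := h2 1 2 3 4 (by decide) (by decide) (by decide) (by decide) (by decide) (by decide)
  have a14 := h2 1 3 2 4 (by decide) (by decide) (by decide) (by decide) (by decide) (by decide)
  have a15 := h2 1 4 2 3 (by decide) (by decide) (by decide) (by decide) (by decide) (by decide)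
  have b12 := h1 1 2 (by decide)
  have b13 := h1 1 3 (by decide)
  have b14 := h1 1 4 (by decide)
  have b23 := h1 2 3 (by decide)
  have b24 := h1 2 4 (by decide)
  have b34 := h1 3 4 (by decide)
  have b01 := h1 0 1 (by decide)
  have b02 := h1 0 2 (by decide)
  have b03 := h1 0 3 (by decide)
  have b04 := h1 0 4 (by decide)
  omega

private lemma VK5_sep_ne {a b c d : ℂ} (h : Sep a b c d) : a ≠ c ∧ a ≠ d ∧ b ≠ c ∧ b ≠ d := by
  obtain ⟨u, h1, h2, h3, h4⟩ := h
  refine ⟨?_, ?_, ?_, ?_⟩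
  · rintro rfl
    exact lt_irrefl _ h1
  · rintro rfl
    exact lt_irrefl _ h2
  · rintro rfl
    exact lt_irrefl _ h3
  · rintro rfl
    exact lt_irrefl _ h4

private lemma VK5_exists4 : ∀ i j k : Fin 5, ∃ l : Fin 5, l ≠ i ∧ l ≠ j ∧ l ≠ k := by decide

private lemma VK5_edge {m x : ℕ} (hm : 1 ≤ m) (hx : x ≤ m) : ∃ e < m, x = e ∨ x = e + 1 := by
  rcases Nat.lt_or_ge x m with h | h
  · exact ⟨x, h, Or.inl rfl⟩
  · exact ⟨m - 1, by omega, Or.inr (by omega)⟩

theorem vk5 (b : Fin 5 → ℂ) (γ : Fin 5 → Fin 5 → ℕ → ℂ) (m : Fin 5 → Fin 5 → ℕ)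
    (h0 : ∀ i j, i < j → γ i j 0 = b i) (h1 : ∀ i j, i < j → γ i j (m i j) = b j)
    (hm : ∀ i j, i < j → 1 ≤ m i j)
    (hsep : ∀ i j k l, i < j → k < l → i ≠ k → i ≠ l → j ≠ k → j ≠ l → ∀ x < m i j, ∀ y < m k l,
      Sep (γ i j x) (γ i j (x + 1)) (γ k l y) (γ k l (y + 1))) : False := by
  have hne0 : ∀ i j k l, i < j → k < l → i ≠ k → i ≠ l → j ≠ k → j ≠ l → ∀ x ≤ m i j, ∀ y ≤ m k l,
      γ i j x ≠ γ k l y := by
    intro i j k l hij hkl a1 a2 a3 a4 x hx y hy
    obtain ⟨e, he, hxe⟩ := VK5_edge (hm i j hij) hx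
    obtain ⟨f, hf, hyf⟩ := VK5_edge (hm k l hkl) hy
    obtain ⟨s1, s2, s3, s4⟩ := VK5_sep_ne (hsep i j k l hij hkl a1 a2 a3 a4 e he f hf)
    rcases hxe with rfl | rfl
    · rcases hyf with rfl | rfl
      · exact s1
      · exact s2
    · rcases hyf with rfl | rfl
      · exact s3
      · exact s4
  have hne : ∀ i j k, i < j → k ≠ i → k ≠ j → ∀ x ≤ m i j, γ i j x ≠ b k := by
    intro i j k hij hki hkj x hx
    obtain ⟨l, hli, hlj, hlk⟩ := VK5_exists4 i j k
    rcases lt_or_gt_of_ne hlk with hlt | hgt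
    · rw [← h1 l k hlt]
      exact hne0 i j l k hij hlt hli.symm hki.symm hlj.symm hkj.symm x hx _ le_rfl
    · rw [← h0 k l hgt]
      exact hne0 i j k l hij hgt hki.symm hli.symm hkj.symm hlj.symm x hx _ (Nat.zero_le _)
  have hb : ∀ x y, x ≠ y → b x ≠ b y := by
    intro x y hxy
    obtain ⟨z, hzx, hzy, -⟩ := VK5_exists4 x y y
    rcases lt_or_gt_of_ne hzx with hlt | hgt
    · rw [← h1 z x hlt]
      exact hne z x y hlt hzy.symm hxy.symm _ le_rfl
    · rw [← h0 x z hgt]
      exact hne x z y hgt hxy.symm hzy.symm _ (Nat.zero_le _)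
  have hn' : ∀ i j k, ∃ n : ℤ, i < j → k ≠ i → k ≠ j →
      (∑ x ∈ Finset.range (m i j), sw (b k) (γ i j x) (γ i j (x + 1)))
        = Complex.arg (b j - b k) - Complex.arg (b i - b k) + 2 * Real.pi * n := by
    intro i j k
    by_cases hc : i < j ∧ k ≠ i ∧ k ≠ j
    · obtain ⟨c1, c2, c3⟩ := hc
      obtain ⟨n, hn⟩ := tel_int (γ i j) (m i j) (b k) (hne i j k c1 c2 c3)
      refine ⟨n, fun _ _ _ => ?_⟩
      rw [hn, h0 i j c1, h1 i j c1]
    · refine ⟨0, fun c1 c2 c3 => ?_⟩
      exact absurd ⟨c1, c2, c3⟩ hc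
  choose n hn using hn'
  have hk' : ∀ x y, ∃ k : ℤ, x ≠ y →
      Complex.arg (b x - b y) - Complex.arg (b y - b x) = (2 * (k : ℝ) + 1) * Real.pi := by
    intro x y
    by_cases hc : x = y
    · exact ⟨0, fun h => absurd hc h⟩
    · obtain ⟨k, hk⟩ := arg_neg_int (b x - b y) (sub_ne_zero.2 (hb x y hc))
      refine ⟨k, fun _ => ?_⟩
      rwa [neg_sub] at hk
  choose κ hκ using hk'
  refine parity κ n ?_ ?_
  · intro x y hxy
    have e1 := hκ x y hxy
    have e2 := hκ y x hxy.symm
    have e3 : ((2 * (κ y x : ℝ) + 1) + (2 * (κ x y : ℝ) + 1)) * Real.pi = 0 := by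
      rw [add_mul, ← e1, ← e2]
      ring
    have e4 : (2 * (κ y x : ℝ) + 1) + (2 * (κ x y : ℝ) + 1) = 0 :=
      (mul_eq_zero.1 e3).resolve_right Real.pi_ne_zero
    have e5 : (2 * κ y x + 1) + (2 * κ x y + 1) = 0 := by exact_mod_cast e4
    omega
  · intro i j k l hij hkl a1 a2 a3 a4
    have ht := tel (γ i j) (γ k l) (m i j) (m k l) (hsep i j k l hij hkl a1 a2 a3 a4)
    rw [h0 k l hkl, h1 k l hkl, h0 i j hij, h1 i j hij, hn i j k hij a1.symm a3.symm,
      hn i j l hij a2.symm a4.symm, hn k l j hkl a3 a4, hn k l i hkl a1 a2] at ht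
    have f1 := hκ j k a3
    have f2 := hκ i k a1
    have f3 := hκ j l a4
    have f4 := hκ i l a2
    have g : ((κ j k - κ i k - κ j l + κ i l + n i j k - n i j l + n k l j - n k l i : ℤ) : ℝ)
        * (2 * Real.pi) = 0 := by
      push_cast
      linear_combination ht - f1 + f2 + f3 - f4
    have g2 := (mul_eq_zero.1 g).resolve_right (by positivity)
    exact_mod_cast g2

end Pool.Agent.KDT
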