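import Pool.Agent.KDT.Defs

/-!
# VKpar: the parallelogram relation and basic facts on swept angles
`par`: multiply by `-u`: the numbers `z1 = -u(a-c)`, `z2 = -u(b-c)`, `z3 = -u(b-d)`, `z4 = -u(a-d)` have positive real part, so their
arguments lie in `(-π/2, π/2)` and `arg (z/z') = arg z - arg z'` for any two of them (`Complex.arg_div_...`, or via `Real.Angle` /
`Complex.arg_mul_eq_add_arg_iff`...). The ratios do not change under the multiplication: `sw c a b = arg z2 - arg z1`,
`sw d a b = arg z3 - arg z4`, `sw b c d = arg ((d-b)/(c-b)) = arg ((b-d)/(b-c)) = arg z3 - arg z2`, `sw a c d = arg z4 - arg z1`. The sum is `0`.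
`sw_int`: `arg ((b-c)/(a-c))` and `arg (b-c) - arg (a-c)` are equal mod `2π` (`Complex.arg_div_coe_angle`,
`Real.Angle.angle_eq_iff_two_pi_dvd_sub`).
`arg_neg_int`: `arg (-z) = arg z ± π` for `z ≠ 0` (`Complex.arg_neg_coe_angle`).
-/

set_option autoImplicit false

namespace Pool.Agent.KDT

private theorem VKpar_arg_div (z w : ℂ) (hz : 0 < z.re) (hw : 0 < w.re) :
    Complex.arg (z / w) = Complex.arg z - Complex.arg w := by
  have hz0 : z ≠ 0 := by rintro rfl; simp at hz
  have hw0 : w ≠ 0 := by rintro rfl; simp at hw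
  have h1 := Complex.arg_div_coe_angle hz0 hw0
  rw [← Real.Angle.coe_sub] at h1
  have h2 := abs_lt.mp (Complex.abs_arg_lt_pi_div_two_iff.mpr (Or.inl hz))
  have h3 := abs_lt.mp (Complex.abs_arg_lt_pi_div_two_iff.mpr (Or.inl hw))
  have h4 : ((Complex.arg z - Complex.arg w : ℝ) : Real.Angle).toReal =
      Complex.arg z - Complex.arg w :=
    Real.Angle.toReal_coe_eq_self_iff.mpr ⟨by linarith [h2.1, h3.2], by linarith [h2.2, h3.1]⟩
  rw [← h4, ← h1, Complex.arg_coe_angle_toReal_eq_arg]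

theorem par (a b c d : ℂ) (h : Sep a b c d) : sw c a b - sw d a b + sw b c d - sw a c d = 0 := by
  obtain ⟨u, h1, h2, h3, h4⟩ := h
  have hu : u ≠ 0 := by
    rintro rfl
    simp at h1
  have e1 : 0 < (u * (c - a)).re := by rw [mul_sub, Complex.sub_re]; linarith
  have e2 : 0 < (u * (c - b)).re := by rw [mul_sub, Complex.sub_re]; linarith
  have e3 : 0 < (u * (d - b)).re := by rw [mul_sub, Complex.sub_re]; linarith
  have e4 : 0 < (u * (d - a)).re := by rw [mul_sub, Complex.sub_re]; linarith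
  have f1 : sw c a b = Complex.arg (u * (c - b)) - Complex.arg (u * (c - a)) := by
    rw [← VKpar_arg_div _ _ e2 e1, mul_div_mul_left _ _ hu]
    unfold sw
    rw [← neg_sub c b, ← neg_sub c a, neg_div_neg_eq]
  have f2 : sw d a b = Complex.arg (u * (d - b)) - Complex.arg (u * (d - a)) := by
    rw [← VKpar_arg_div _ _ e3 e4, mul_div_mul_left _ _ hu]
    unfold sw
    rw [← neg_sub d b, ← neg_sub d a, neg_div_neg_eq]
  have f3 : sw b c d = Complex.arg (u * (d - b)) - Complex.arg (u * (c - b)) := by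
    rw [← VKpar_arg_div _ _ e3 e2, mul_div_mul_left _ _ hu]
    rfl
  have f4 : sw a c d = Complex.arg (u * (d - a)) - Complex.arg (u * (c - a)) := by
    rw [← VKpar_arg_div _ _ e4 e1, mul_div_mul_left _ _ hu]
    rfl
  rw [f1, f2, f3, f4]
  ring

theorem sw_int (a b c : ℂ) (ha : a ≠ c) (hb : b ≠ c) :
    ∃ n : ℤ, sw c a b = Complex.arg (b - c) - Complex.arg (a - c) + 2 * Real.pi * n := by
  have h1 := Complex.arg_div_coe_angle (sub_ne_zero.mpr hb) (sub_ne_zero.mpr ha)
  rw [← Real.Angle.coe_sub] at h1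
  obtain ⟨n, hn⟩ := Real.Angle.angle_eq_iff_two_pi_dvd_sub.mp h1
  exact ⟨n, by unfold sw; linarith⟩

theorem arg_neg_int (z : ℂ) (hz : z ≠ 0) :
    ∃ k : ℤ, Complex.arg z - Complex.arg (-z) = (2 * (k : ℝ) + 1) * Real.pi := by
  have h1 := Complex.arg_neg_coe_angle hz
  rw [← Real.Angle.coe_add] at h1
  obtain ⟨n, hn⟩ := Real.Angle.angle_eq_iff_two_pi_dvd_sub.mp h1
  refine ⟨-n - 1, ?_⟩
  push_cast
  linarith

end Pool.Agent.KDT
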