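import Pool.Agent.KDT.VKpar

/-!
# VKtel: telescoping
`tel`: sum `par (α x) (α (x+1)) (β y) (β (y+1))` over `x < m`, `y < k`. For fixed `x`, `∑_y (sw (β y) .. - sw (β (y+1)) ..)`
telescopes (`Finset.sum_range_sub'`), and for fixed `y`, `∑_x (sw (α (x+1)) .. - sw (α x) ..)` telescopes (`Finset.sum_range_sub`);
exchange the sums with `Finset.sum_comm`.
`tel_int`: induction on `m` with `sw_int`.
-/

set_option autoImplicit false

namespace Pool.Agent.KDT

theorem tel (α β : ℕ → ℂ) (m k : ℕ)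
    (h : ∀ x < m, ∀ y < k, Sep (α x) (α (x + 1)) (β y) (β (y + 1))) :
    (∑ x ∈ Finset.range m, sw (β 0) (α x) (α (x + 1))) - (∑ x ∈ Finset.range m, sw (β k) (α x) (α (x + 1)))
      + (∑ y ∈ Finset.range k, sw (α m) (β y) (β (y + 1)))
      - (∑ y ∈ Finset.range k, sw (α 0) (β y) (β (y + 1))) = 0 := by
  have h0 : ∑ x ∈ Finset.range m, ∑ y ∈ Finset.range k,
      ((sw (β y) (α x) (α (x + 1)) - sw (β (y + 1)) (α x) (α (x + 1))) +
        (sw (α (x + 1)) (β y) (β (y + 1)) - sw (α x) (β y) (β (y + 1)))) = 0 := by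
    refine Finset.sum_eq_zero fun x hx => Finset.sum_eq_zero fun y hy => ?_
    have := par _ _ _ _ (h x (Finset.mem_range.mp hx) y (Finset.mem_range.mp hy))
    linarith
  have h1 : ∑ x ∈ Finset.range m, ∑ y ∈ Finset.range k,
      (sw (β y) (α x) (α (x + 1)) - sw (β (y + 1)) (α x) (α (x + 1))) =
      (∑ x ∈ Finset.range m, sw (β 0) (α x) (α (x + 1))) -
        ∑ x ∈ Finset.range m, sw (β k) (α x) (α (x + 1)) := by
    rw [← Finset.sum_sub_distrib]
    refine Finset.sum_congr rfl fun x _ => ?_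
    exact Finset.sum_range_sub' (fun y => sw (β y) (α x) (α (x + 1))) k
  have h2 : ∑ x ∈ Finset.range m, ∑ y ∈ Finset.range k,
      (sw (α (x + 1)) (β y) (β (y + 1)) - sw (α x) (β y) (β (y + 1))) =
      (∑ y ∈ Finset.range k, sw (α m) (β y) (β (y + 1))) -
        ∑ y ∈ Finset.range k, sw (α 0) (β y) (β (y + 1)) := by
    rw [Finset.sum_comm, ← Finset.sum_sub_distrib]
    refine Finset.sum_congr rfl fun y _ => ?_
    exact Finset.sum_range_sub (fun x => sw (α x) (β y) (β (y + 1))) m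
  simp only [Finset.sum_add_distrib] at h0
  rw [h1, h2] at h0
  linarith

theorem tel_int (α : ℕ → ℂ) (m : ℕ) (c : ℂ) (h : ∀ x ≤ m, α x ≠ c) :
    ∃ n : ℤ, (∑ x ∈ Finset.range m, sw c (α x) (α (x + 1)))
      = Complex.arg (α m - c) - Complex.arg (α 0 - c) + 2 * Real.pi * n := by
  induction m with
  | zero => exact ⟨0, by simp⟩
  | succ m ih =>
    obtain ⟨n, hn⟩ := ih fun x hx => h x (by omega)
    obtain ⟨n', hn'⟩ := sw_int (α m) (α (m + 1)) c (h m (by omega)) (h (m + 1) le_rfl)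
    refine ⟨n + n', ?_⟩
    rw [Finset.sum_range_succ, hn, hn']
    push_cast
    ring

end Pool.Agent.KDT
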